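import Mathlib

set_option autoImplicit false

open Topology Set Filter TopologicalSpace

namespace Pool.Agent.Helper56.Cat

section KU

variable {A B : Type*} [TopologicalSpace A] [TopologicalSpace B]

/-- Kuratowski-Ulam, easy direction. -/
theorem ku [SecondCountableTopology B] {s : Set (A × B)} (hs : s ∈ residual (A × B)) :
    {a | {b | (a, b) ∈ s} ∈ residual B} ∈ residual A := by
  rw [mem_residual_iff] at hs
  obtain ⟨S, hSo, hSd, hSc, hSs⟩ := hs
  have key : ∀ W ∈ S, {a | {b | (a, b) ∈ W} ∈ residual B} ∈ residual A := by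
    intro W hW
    have hWo := hSo W hW
    have hWd := hSd W hW
    have hb : {a | ∀ V ∈ countableBasis B, ∃ b ∈ V, (a, b) ∈ W} ∈ residual A := by
      have : {a | ∀ V ∈ countableBasis B, ∃ b ∈ V, (a, b) ∈ W} =
          ⋂ V ∈ countableBasis B, {a | ∃ b ∈ V, (a, b) ∈ W} := by
        ext a; simp
      rw [this]
      rw [countable_bInter_mem (countable_countableBasis B)]
      intro V hV
      have hVo := isOpen_of_mem_countableBasis hV
      have hVn := nonempty_of_mem_countableBasis hV
      apply residual_of_dense_open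
      · have : {a | ∃ b ∈ V, (a, b) ∈ W} = ⋃ b ∈ V, (fun a => (a, b)) ⁻¹' W := by
          ext a; simp
        rw [this]
        exact isOpen_biUnion (fun b _ => hWo.preimage (by fun_prop))
      · rw [dense_iff_inter_open]
        intro U hUo hUn
        obtain ⟨p, hp, hpW⟩ := hWd.inter_open_nonempty (U ×ˢ V) (hUo.prod hVo) (hUn.prod hVn)
        exact ⟨p.1, hp.1, p.2, hp.2, hpW⟩
    filter_upwards [hb] with a ha
    apply residual_of_dense_open
    · exact hWo.preimage (by fun_prop)
    · rw [(isBasis_countableBasis B).dense_iff]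
      intro V hV hVn
      obtain ⟨b, hb, hbW⟩ := ha V hV
      exact ⟨b, hb, hbW⟩
  have h2 : {a | ∀ W ∈ S, {b | (a, b) ∈ W} ∈ residual B} ∈ residual A := by
    have : {a | ∀ W ∈ S, {b | (a, b) ∈ W} ∈ residual B} =
        ⋂ W ∈ S, {a | {b | (a, b) ∈ W} ∈ residual B} := by
      ext a; simp
    rw [this, countable_bInter_mem hSc]
    exact key
  filter_upwards [h2] with a ha
  have h3 : (⋂ W ∈ S, {b | (a, b) ∈ W}) ∈ residual B := by
    rw [countable_bInter_mem hSc]
    exact ha
  filter_upwards [h3] with b hb
  apply hSs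
  rw [mem_sInter]
  intro W hW
  simp only [mem_iInter] at hb
  exact hb W hW

/-- If an open set has dense sections along a map then it is dense. -/
theorem mem_residual_of_sections {C : Type*} [TopologicalSpace C] (f : A × B → C)
    (hf : Continuous f) (hopen : ∀ b, ∀ W : Set C, IsOpen W → Dense W →
      Dense {a | f (a, b) ∈ W}) {s : Set C} (hs : s ∈ residual C) :
    f ⁻¹' s ∈ residual (A × B) := by
  rw [mem_residual_iff] at hs
  obtain ⟨S, hSo, hSd, hSc, hSs⟩ := hs
  have key : ∀ W ∈ S, f ⁻¹' W ∈ residual (A × B) := by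
    intro W hW
    apply residual_of_dense_open ((hSo W hW).preimage hf)
    rw [dense_iff_inter_open]
    intro U hUo hUn
    obtain ⟨⟨a, b⟩, hab⟩ := hUn
    have : IsOpen {a | (a, b) ∈ U} := hUo.preimage (by fun_prop)
    obtain ⟨a', ha', haW⟩ := (hopen b W (hSo W hW) (hSd W hW)).inter_open_nonempty _ this ⟨a, hab⟩
    exact ⟨(a', b), ha', haW⟩
  have h3 : (⋂ W ∈ S, f ⁻¹' W) ∈ residual (A × B) := by
    rw [countable_bInter_mem hSc]
    exact key
  filter_upwards [h3] with b hb
  apply hSs
  rw [mem_sInter]
  intro W hW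
  simp only [mem_iInter] at hb
  exact hb W hW

end KU

section BP

variable {α : Type*} [TopologicalSpace α]

/-- The points at which `S` is locally non-meager. -/
def D (S : Set α) : Set α := {x | ∀ U, IsOpen U → x ∈ U → ¬ IsMeagre (S ∩ U)}

lemma isClosed_D (S : Set α) : IsClosed (D S) := by
  rw [← isOpen_compl_iff, isOpen_iff_forall_mem_open]
  intro x hx
  simp only [D, mem_compl_iff, mem_ofPred_eq, not_forall, not_not] at hx
  obtain ⟨U, hU, hxU, hm⟩ := hx
  exact ⟨U, fun y hy hyD => hyD U hU hy hm, hU, hxU⟩

lemma isMeagre_diff_D [SecondCountableTopology α] (S : Set α) : IsMeagre (S \ D S) := by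
  have : S \ D S ⊆ ⋃ V ∈ {V ∈ countableBasis α | IsMeagre (S ∩ V)}, S ∩ V := by
    rintro x ⟨hxS, hxD⟩
    simp only [D, mem_ofPred_eq, not_forall, not_not] at hxD
    obtain ⟨U, hU, hxU, hm⟩ := hxD
    obtain ⟨V, hV, hxV, hVU⟩ := (isBasis_countableBasis α).exists_subset_of_mem_open hxU hU
    simp only [mem_iUnion]
    exact ⟨V, ⟨hV, IsMeagre.mono (inter_subset_inter_right S hVU) hm⟩, hxS, hxV⟩
  refine IsMeagre.mono this ?_
  apply isMeagre_biUnion ((countable_countableBasis α).mono (sep_subset _ _))
  intro V hV
  exact hV.2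

/-- The hull of a set: a set with the Baire property containing it. -/
def hull (S : Set α) : Set α := D S ∪ S

lemma hull_subset (S : Set α) : hull S ⊆ closure S := by
  rintro x (hx | hx)
  · by_contra h
    apply hx (closure S)ᶜ isClosed_closure.isOpen_compl h
    have : S ∩ (closure S)ᶜ = ∅ := by
      rw [← disjoint_iff_inter_eq_empty]
      exact disjoint_compl_right.mono_left subset_closure
    rw [this]
    exact IsMeagre.empty
  · exact subset_closure hx

lemma bp_hull [SecondCountableTopology α] (S : Set α) : BaireMeasurableSet (hull S) := by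
  have : hull S = D S ∪ (S \ D S) := by simp [hull]
  rw [this]
  borelize α
  exact ((isClosed_D S).measurableSet.baireMeasurableSet).union
    (isMeagre_diff_D S).baireMeasurableSet

lemma meagre_of_subset_hull {S B : Set α} (hB : BaireMeasurableSet B)
    (hBS : B ⊆ hull S) (hd : Disjoint B S) : IsMeagre B := by
  obtain ⟨O, hO, hBO⟩ := hB.residualEq_isOpen
  have hBD : B ⊆ D S := by
    intro x hx
    rcases hBS hx with h | h
    · exact h
    · exact (disjoint_left.1 hd hx h).elim
  have h1 : IsMeagre (O \ B) := by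
    have : {x | x ∈ B ↔ x ∈ O} ∈ residual α := by
      filter_upwards [hBO] with x hx
      exact iff_of_eq hx
    apply mem_of_superset this
    intro x hx hx2
    exact hx2.2 (hx.2 hx2.1)
  have h2 : IsMeagre (B \ O) := by
    have : {x | x ∈ B ↔ x ∈ O} ∈ residual α := by
      filter_upwards [hBO] with x hx
      exact iff_of_eq hx
    apply mem_of_superset this
    intro x hx hx2
    exact hx2.2 (hx.1 hx2.1)
  have h3 : IsMeagre (S ∩ O) := by
    apply IsMeagre.mono _ h1
    rintro x ⟨hxS, hxO⟩
    exact ⟨hxO, fun hxB => disjoint_left.1 hd hxB hxS⟩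
  apply IsMeagre.mono _ h2
  intro x hx
  refine ⟨hx, fun hxO => hBD hx O hO hxO h3⟩

/-- The sequences which start with `s`. -/
def Cyl (s : List ℕ) : Set (ℕ → ℕ) := {y | ∀ i, ∀ h : i < s.length, y i = s[i]}

lemma cyl_nil : Cyl [] = univ := by
  ext y; simp [Cyl]

lemma cyl_eq (s : List ℕ) : Cyl s = ⋃ n, Cyl (s ++ [n]) := by
  ext y
  simp only [Cyl, mem_ofPred_eq, mem_iUnion]
  constructor
  · intro h
    refine ⟨y s.length, fun i hi => ?_⟩
    rw [List.getElem_append]
    split_ifs with h1
    · exact h i h1
    · simp only [List.length_append, List.length_cons, List.length_nil] at hi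
      have : i = s.length := by omega
      subst this
      simp
  · rintro ⟨n, h⟩ i hi
    have := h i (by simp; omega)
    rwa [List.getElem_append_left hi] at this

/-- Analytic sets have the Baire property. -/
theorem analytic_bp [T2Space α] [SecondCountableTopology α] {s : Set α}
    (hs : MeasureTheory.AnalyticSet s) : BaireMeasurableSet s := by
  rw [MeasureTheory.AnalyticSet] at hs
  rcases hs with rfl | ⟨f, hf, rfl⟩
  · exact IsMeagre.empty.baireMeasurableSet
  let S : List ℕ → Set α := fun s => f '' Cyl s
  have hSs : ∀ s, S s = ⋃ n, S (s ++ [n]) := by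
    intro s
    simp only [S]
    rw [cyl_eq s, image_iUnion]
  let Z : Set α := ⋃ s : List ℕ, (hull (S s) \ ⋃ n, hull (S (s ++ [n])))
  have hZ : IsMeagre Z := by
    apply isMeagre_iUnion
    intro s
    apply meagre_of_subset_hull (S := S s)
    · exact (bp_hull _).diff (BaireMeasurableSet.iUnion (fun n => bp_hull _))
    · exact sdiff_subset
    · rw [disjoint_left]
      rintro x ⟨_, hx⟩ hxS
      apply hx
      rw [hSs s] at hxS
      obtain ⟨n, hn⟩ := mem_iUnion.1 hxS
      exact mem_iUnion.2 ⟨n, Or.inr hn⟩
  have hrange : range f = S [] := by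
    simp only [S, cyl_nil, image_univ]
  have hsub : hull (S []) \ range f ⊆ Z := by
    rintro x ⟨hx, hxf⟩
    by_contra hxZ
    simp only [Z, mem_iUnion, not_exists, Set.mem_sdiff, not_and, not_forall, not_not] at hxZ
    -- build a branch
    choose! g hg using hxZ
    let c : ℕ → List ℕ := fun k => Nat.rec [] (fun _ l => l ++ [g l]) k
    have hc0 : c 0 = [] := rfl
    have hcs : ∀ k, c (k + 1) = c k ++ [g (c k)] := fun k => rfl
    have hch : ∀ k, x ∈ hull (S (c k)) := by
      intro k
      induction k with
      | zero => exact hx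
      | succ k ih => rw [hcs]; exact hg _ ih
    have hlen : ∀ k, (c k).length = k := by
      intro k
      induction k with
      | zero => rfl
      | succ k ih => rw [hcs]; simp [ih]
    let y : ℕ → ℕ := fun k => g (c k)
    have hy : ∀ k, y ∈ Cyl (c k) := by
      intro k
      induction k with
      | zero => rw [hc0, cyl_nil]; trivial
      | succ k ih =>
        intro i hi
        simp only [hcs, List.getElem_append]
        split_ifs with h1
        · exact ih i h1
        · have hl1 := hlen (k + 1)
          have hl2 := hlen k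
          have : i = k := by omega
          subst this
          simp [y]
    apply hxf
    refine ⟨y, ?_⟩
    by_contra hne
    obtain ⟨U, V, hU, hV, hyU, hxV, hUV⟩ := t2_separation hne
    have hnhds : f ⁻¹' U ∈ 𝓝 y := hf.continuousAt (hU.mem_nhds hyU)
    -- a cylinder is contained in the preimage
    have : ∃ k, Cyl (c k) ⊆ f ⁻¹' U := by
      rw [nhds_pi, Filter.mem_pi] at hnhds
      obtain ⟨I, hI, t, ht, hsub⟩ := hnhds
      obtain ⟨k, hk⟩ := hI.bddAbove
      refine ⟨k + 1, fun z hz => hsub ?_⟩
      intro i hi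
      have hik : i < (c (k + 1)).length := by
        have hl := hlen (k + 1)
        have := hk hi
        omega
      have h1 := hz i hik
      have h2 := hy (k + 1) i hik
      rw [h1, ← h2]
      exact mem_of_mem_nhds (ht i)
    obtain ⟨k, hk⟩ := this
    have h1 : x ∈ closure (S (c k)) := hull_subset _ (hch k)
    have h2 : S (c k) ⊆ U := by
      rintro _ ⟨z, hz, rfl⟩
      exact hk hz
    have h3 := (mem_closure_iff.1 h1) V hV hxV
    obtain ⟨w, hwV, hw⟩ := h3
    exact disjoint_left.1 hUV (h2 hw) hwV
  have hm : IsMeagre (hull (S []) \ range f) := IsMeagre.mono hsub hZ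
  have : range f = hull (S []) \ (hull (S []) \ range f) := by
    rw [sdiff_sdiff_cancel_left]
    rw [hrange]
    exact subset_union_right
  rw [this]
  exact (bp_hull _).diff hm.baireMeasurableSet

end BP

end Pool.Agent.Helper56.Cat
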