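import Pool.Agent.Helper56.AutDefs

set_option autoImplicit false

open MeasureTheory Set Filter Topology
open scoped ENNReal symmDiff

namespace Pool.Agent.Helper56.AutGroup

variable {X : Type*} [MeasurableSpace X] {μ : Measure X}

lemma rep_mp (S : Aut μ) : MeasurePreserving (rep S) μ μ := (Quotient.out S).2.1

lemma rep_meas (S : Aut μ) : Measurable (rep S) := (rep_mp S).measurable

lemma rep_symm_meas (S : Aut μ) : Measurable (rep S).symm := (Quotient.out S).2.2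

lemma rep_symm_mp (S : Aut μ) : MeasurePreserving (rep S).symm μ μ :=
  ((mpGroup μ).inv_mem (Quotient.out S).2).1

lemma mk_eq_iff (S T : mpGroup μ) :
    (QuotientGroup.mk S : Aut μ) = QuotientGroup.mk T ↔ ∀ᵐ x ∂μ, S.1 x = T.1 x := by
  rw [QuotientGroup.eq]
  constructor
  · intro h
    have h' : ∀ᵐ x ∂μ, (S⁻¹ * T).1 x = x := h
    filter_upwards [h'] with x hx
    have h1 : S.1.symm (T.1 x) = x := hx
    rw [Equiv.symm_apply_eq] at h1
    exact h1.symm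
  · intro h
    show ∀ᵐ x ∂μ, (S⁻¹ * T).1 x = x
    filter_upwards [h] with x hx
    show S.1.symm (T.1 x) = x
    rw [← hx]
    simp

lemma mk_out (S : Aut μ) : (QuotientGroup.mk (Quotient.out S) : Aut μ) = S :=
  Quotient.out_eq S

lemma rep_mk (S : mpGroup μ) : ∀ᵐ x ∂μ, rep (QuotientGroup.mk S : Aut μ) x = S.1 x :=
  (mk_eq_iff _ _).1 (mk_out _)

lemma eq_iff (S T : Aut μ) : S = T ↔ ∀ᵐ x ∂μ, rep S x = rep T x := by
  conv_lhs => rw [← mk_out S, ← mk_out T]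
  exact mk_eq_iff _ _

lemma rep_mul (S T : Aut μ) : ∀ᵐ x ∂μ, rep (S * T) x = rep S (rep T x) := by
  have h : S * T = (QuotientGroup.mk (Quotient.out S * Quotient.out T) : Aut μ) := by
    rw [QuotientGroup.mk_mul, mk_out, mk_out]
  rw [h]
  exact rep_mk _

lemma rep_one : ∀ᵐ x ∂μ, rep (1 : Aut μ) x = x := rep_mk 1

lemma rep_inv (S : Aut μ) : ∀ᵐ x ∂μ, rep S⁻¹ x = (rep S).symm x := by
  have h : S⁻¹ = (QuotientGroup.mk (Quotient.out S)⁻¹ : Aut μ) := by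
    rw [QuotientGroup.mk_inv, mk_out]
  rw [h]
  exact rep_mk _

lemma ae_rep {p : X → Prop} (S : Aut μ) (h : ∀ᵐ x ∂μ, p x) : ∀ᵐ x ∂μ, p (rep S x) :=
  (rep_mp S).quasiMeasurePreserving.ae h

lemma ae_rep_symm {p : X → Prop} (S : Aut μ) (h : ∀ᵐ x ∂μ, p x) :
    ∀ᵐ x ∂μ, p ((rep S).symm x) :=
  (rep_symm_mp S).quasiMeasurePreserving.ae h

lemma zpow_mp (S : Aut μ) (n : ℤ) : MeasurePreserving (rep S ^ n : Equiv.Perm X) μ μ :=
  ((mpGroup μ).zpow_mem (Quotient.out S).2 n).1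

/-- The full group as a subgroup. -/
def FG (T₀ : Aut μ) : Subgroup (Aut μ) where
  carrier := fullGroup T₀
  mul_mem' := by
    intro U V hU hV
    have hU' : ∀ᵐ x ∂μ, ∃ n : ℤ, rep U x = (rep T₀ ^ n) x := hU
    have hV' : ∀ᵐ x ∂μ, ∃ n : ℤ, rep V x = (rep T₀ ^ n) x := hV
    show ∀ᵐ x ∂μ, ∃ n : ℤ, rep (U * V) x = (rep T₀ ^ n) x
    filter_upwards [rep_mul U V, hV', ae_rep V hU'] with x h1 h2 h3
    obtain ⟨n, hn⟩ := h2
    obtain ⟨m, hm⟩ := h3
    refine ⟨m + n, ?_⟩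
    rw [h1, hm, hn, zpow_add]
    rfl
  one_mem' := by
    show ∀ᵐ x ∂μ, ∃ n : ℤ, rep (1 : Aut μ) x = (rep T₀ ^ n) x
    filter_upwards [rep_one (μ := μ)] with x hx
    exact ⟨0, by rw [hx]; simp⟩
  inv_mem' := by
    intro U hU
    have hU' : ∀ᵐ x ∂μ, ∃ n : ℤ, rep U x = (rep T₀ ^ n) x := hU
    show ∀ᵐ x ∂μ, ∃ n : ℤ, rep U⁻¹ x = (rep T₀ ^ n) x
    filter_upwards [rep_inv U, ae_rep_symm U hU'] with x h1 h2
    obtain ⟨n, hn⟩ := h2
    refine ⟨-n, ?_⟩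
    rw [Equiv.apply_symm_apply] at hn
    rw [h1, zpow_neg]
    apply ((rep T₀ ^ n : Equiv.Perm X)).injective
    rw [← hn]
    exact (Equiv.apply_symm_apply _ _).symm

lemma mem_FG (T₀ U : Aut μ) : U ∈ FG T₀ ↔ ∀ᵐ x ∂μ, ∃ n : ℤ, rep U x = (rep T₀ ^ n) x := Iff.rfl

section metric

variable [MeasurableEq X]

lemma measurableSet_ne {S T : X → X} (hS : Measurable S) (hT : Measurable T) :
    MeasurableSet {x | S x ≠ T x} := by
  have : {x | S x ≠ T x} = {x | S x = T x}ᶜ := rfl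
  rw [this]
  exact (measurableSet_eq_fun hS hT).compl

end metric

end Pool.Agent.Helper56.AutGroup
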