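import Mathlib

set_option autoImplicit false

open MeasureTheory
open scoped ENNReal symmDiff

namespace Pool.Agent.Helper56.AutGroup

variable {X : Type*} [MeasurableSpace X]

/-- The group of bimeasurable bijections of `X` which preserve the measure `μ`. -/
def mpGroup (μ : Measure X) : Subgroup (Equiv.Perm X) where
  carrier := {T | MeasurePreserving T μ μ ∧ Measurable T.symm}
  mul_mem' := fun {S T} hS hT => ⟨hS.1.comp hT.1, hT.2.comp hS.2⟩
  one_mem' := ⟨MeasurePreserving.id μ, measurable_id⟩
  inv_mem' := fun {T} hT =>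
    ⟨MeasurePreserving.symm (⟨T, hT.1.measurable, hT.2⟩ : X ≃ᵐ X) hT.1, hT.1.measurable⟩

/-- The elements of `mpGroup μ` which are the identity almost everywhere. -/
def nullGroup (μ : Measure X) : Subgroup (mpGroup μ) where
  carrier := {T | ∀ᵐ x ∂μ, T.1 x = x}
  mul_mem' := by
    intro S T hS hT
    filter_upwards [hT, T.2.1.quasiMeasurePreserving.ae hS] with x h1 h2
    show S.1 (T.1 x) = x
    rw [h2, h1]
  one_mem' := by simp
  inv_mem' := by
    intro T hT
    have h := (T⁻¹).2.1.quasiMeasurePreserving.ae hT
    filter_upwards [h] with x hx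
    have : T.1 ((T⁻¹).1 x) = x := T.1.apply_symm_apply x
    rw [this] at hx
    exact hx.symm

instance (μ : Measure X) : (nullGroup μ).Normal where
  conj_mem := by
    intro T hT S
    have h := (S⁻¹).2.1.quasiMeasurePreserving.ae hT
    filter_upwards [h] with x hx
    show S.1 (T.1 ((S⁻¹).1 x)) = x
    rw [hx]
    exact S.1.apply_symm_apply x

/-- The group `Aut(X, μ)` of bimeasurable measure preserving bijections, identified modulo null
sets. -/
abbrev Aut (μ : Measure X) : Type _ := mpGroup μ ⧸ nullGroup μ

/-- A bijection representing an element of `Aut(X, μ)`. -/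
noncomputable def rep {μ : Measure X} (S : Aut μ) : Equiv.Perm X := (Quotient.out S).1

/-- The weak topology of `Aut(X, μ)`: the coarsest topology for which the functions
`S ↦ μ (S(A) ∆ B)` are continuous, for all measurable sets `A` and `B`. -/
noncomputable def weakTopology (μ : Measure X) : TopologicalSpace (Aut μ) :=
  ⨅ (A : Set X) (_ : MeasurableSet A) (B : Set X) (_ : MeasurableSet B),
    TopologicalSpace.induced (fun S : Aut μ => μ ((rep S '' A) ∆ B)) inferInstance

/-- The full group `[T₀]`: the elements of `Aut(X, μ)` which send almost every point into its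
`T₀`-orbit. -/
def fullGroup {μ : Measure X} (T₀ : Aut μ) : Set (Aut μ) :=
  {U | ∀ᵐ x ∂μ, ∃ n : ℤ, rep U x = (rep T₀ ^ n) x}

/-- The uniform distance on `Aut(X, μ)`. -/
noncomputable def du {μ : Measure X} (S T : Aut μ) : ℝ≥0∞ := μ {x | rep S x ≠ rep T x}

/-- The topology of the full group `[T₀]` given by the uniform distance. -/
noncomputable def uniformTopology {μ : Measure X} (T₀ : Aut μ) :
    TopologicalSpace (fullGroup T₀) :=
  TopologicalSpace.generateFrom
    {V | ∃ (S : fullGroup T₀) (ε : ℝ≥0∞), 0 < ε ∧ V = {T | du S.1 T.1 < ε}}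

/-- The conjugacy relation of `Aut(X, μ)`. -/
def AutConj {μ : Measure X} (S S' : Aut μ) : Prop := ∃ U : Aut μ, S' = U * S * U⁻¹

/-- The conjugacy relation of the full group `[T₀]`. -/
def FullConj {μ : Measure X} (T₀ : Aut μ) (S S' : fullGroup T₀) : Prop :=
  ∃ U ∈ fullGroup T₀, S'.1 = U * S.1 * U⁻¹

end Pool.Agent.Helper56.AutGroup
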