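import Mathlib

namespace Pool.Agent.Helper56.Dio

/-- `G` is Diophantine: its vertices can be labelled by distinct positive integers so that distinct
vertices are adjacent exactly when the product of their labels plus one is a square. -/
def IsDiophantine {V : Type*} (G : SimpleGraph V) : Prop :=
  ∃ f : V → ℕ, (∀ v, 0 < f v) ∧ Function.Injective f ∧
    ∀ u v, u ≠ v → (G.Adj u v ↔ IsSquare (f u * f v + 1))

/-- The vertex sets that can be reached from the empty set by the two operations: add one vertex
with at most two neighbours among the vertices already present; for two adjacent vertices `a`, `b`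
already present, add an induced path `p 0, p 1, ..., p (m - 1)` all of whose vertices have exactly
`a` and `b` as neighbours among the vertices already present. -/
inductive Reachable {V : Type*} [DecidableEq V] (G : SimpleGraph V) : Finset V → Prop
  | empty : Reachable G ∅
  | vertex (S : Finset V) (v : V) : Reachable G S → v ∉ S →
      (∃ a b : V, ∀ u ∈ S, G.Adj u v → u = a ∨ u = b) → Reachable G (insert v S)
  | path (S : Finset V) (a b : V) (m : ℕ) (p : ℕ → V) : Reachable G S → a ∈ S → b ∈ S →
      G.Adj a b → (∀ i < m, p i ∉ S) → (∀ i < m, ∀ j < m, p i = p j → i = j) →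
      (∀ i < m, ∀ u ∈ S, (G.Adj u (p i) ↔ u = a ∨ u = b)) →
      (∀ i j, i < j → j < m → (G.Adj (p i) (p j) ↔ j = i + 1)) →
      Reachable G (S ∪ (Finset.range m).image p)

end Pool.Agent.Helper56.Dio
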