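import Pool.Agent.Helper56.DioPell
import Pool.Agent.Helper56.DioDefs

namespace Pool.Agent.Helper56.Dio

open Filter Finset

theorem isSquare_cast {n : ℕ} {z : ℤ} (h : (n : ℤ) = z) : IsSquare n ↔ IsSquare z := by
  constructor
  · rintro ⟨r, hr⟩
    refine ⟨(r : ℤ), ?_⟩
    rw [← h, hr]; push_cast; rfl
  · rintro ⟨r, hr⟩
    refine ⟨r.natAbs, ?_⟩
    have : (n : ℤ) = ((r.natAbs * r.natAbs : ℕ) : ℤ) := by
      rw [h, hr]
      push_cast
      rw [abs_mul_abs_self]
    exact_mod_cast this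

theorem cc_mul {a b s t : ℤ} (h : s ^ 2 - a * b * t ^ 2 = 1) (n j : ℕ) :
    cc a b s t n * cc a b s t (n + j) + (st (a * b) s t j).2 ^ 2 =
      ((a + b) * (st (a * b) s t n).2 * (st (a * b) s t (n + j)).2 +
        (st (a * b) s t n).1 * (st (a * b) s t (n + j)).2 +
        (st (a * b) s t n).2 * (st (a * b) s t (n + j)).1) ^ 2 := by
  have h1 := st_norm h n
  have h2 := (st_add (a := a) (b := b) (s := s) (t := t) n j).1
  have h3 := (st_add (a := a) (b := b) (s := s) (t := t) n j).2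
  have h4 : (st (a * b) s t n).1 * (st (a * b) s t (n + j)).2 -
      (st (a * b) s t n).2 * (st (a * b) s t (n + j)).1 = (st (a * b) s t j).2 := by
    rw [h2, h3]
    linear_combination (st (a * b) s t j).2 * h1
  rw [← h4]
  unfold cc
  ring

theorem not_sq_near {z k : ℤ} (hz : 0 < k) (hk : k < 2 * z - 1) (_ : 1 ≤ z) :
    ¬ IsSquare (z ^ 2 - k) := by
  rintro ⟨w, hw⟩
  have h1 : |w| ^ 2 = z ^ 2 - k := by rw [sq_abs, hw]; ring
  have h2 : |w| < z := by
    by_contra hcon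
    push Not at hcon
    nlinarith
  have h3 : 0 ≤ |w| := abs_nonneg w
  nlinarith

/-- The new labels. -/
theorem new_labels (D : Finset ℕ) (a b : ℕ) (ha : 0 < a) (hb : 0 < b) (hab : a ≠ b)
    (hD : ∀ d ∈ D, 0 < d) (hDb : ∀ d ∈ D, d ≠ b → ¬ IsSquare (b * d))
    (s t : ℕ) (hs : 1 ≤ s) (ht : 1 ≤ t) (hst : s ^ 2 = a * b * t ^ 2 + 1) (L : ℕ) :
    ∃ c : ℕ → ℕ, (∀ i < L, 0 < c i ∧ IsSquare (a * c i + 1) ∧ IsSquare (b * c i + 1) ∧
      ¬ IsSquare (a * c i) ∧ ¬ IsSquare (b * c i) ∧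
      ∀ d ∈ D, d ≠ a → d ≠ b → ¬ IsSquare (d * c i + 1) ∧ ¬ IsSquare (d * c i)) ∧
      ∀ i j, i < j → j < L → ¬ IsSquare (c i * c j) ∧
        (t = 1 → (IsSquare (c i * c j + 1) ↔ j = i + 1)) := by
  have ha' : (0 : ℤ) < a := by exact_mod_cast ha
  have hb' : (0 : ℤ) < b := by exact_mod_cast hb
  have hab' : (a : ℤ) ≠ b := by exact_mod_cast hab
  have hs' : (1 : ℤ) ≤ s := by exact_mod_cast hs
  have ht' : (1 : ℤ) ≤ t := by exact_mod_cast ht
  have hn : (s : ℤ) ^ 2 - a * b * (t : ℤ) ^ 2 = 1 := by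
    have : (s : ℤ) ^ 2 = a * b * (t : ℤ) ^ 2 + 1 := by exact_mod_cast hst
    linarith
  set S1 : ℕ → ℤ := fun n => (st ((a : ℤ) * b) s t n).1 with hS1
  set T1 : ℕ → ℤ := fun n => (st ((a : ℤ) * b) s t n).2 with hT1
  have hpos : ∀ n, 1 ≤ S1 n ∧ (n : ℤ) ≤ T1 n := fun n => st_pos ha' hb' hs' ht' n
  -- the bad set
  have hthin : Thin (⋃ d ∈ D.filter (fun d => d ≠ a ∧ d ≠ b),
      ({n | IsSquare ((a : ℤ) * d * X a b s t n ^ 2 - a * (d - a))} ∪
        {n | IsSquare ((a : ℤ) * d * X a b s t n ^ 2 - a * d)})) := by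
    refine thin_biUnion _ _ (fun d hd => ?_)
    obtain ⟨hdD, hda, hdb⟩ := mem_filter.mp hd
    have hd0 : (0 : ℤ) < d := by exact_mod_cast hD d hdD
    have hbd : ¬ IsSquare ((b : ℤ) * d) := by
      rw [← isSquare_cast (n := b * d) (by push_cast; rfl)]
      exact hDb d hdD hdb
    refine Thin.union ?_ ?_
    · refine sq_thin ha' hb' hab' hs' ht' hn d _ hd0 ?_ hbd
      refine mul_ne_zero ha'.ne' (sub_ne_zero.mpr ?_)
      exact_mod_cast hda
    · exact sq_thin ha' hb' hab' hs' ht' hn d _ hd0 (mul_ne_zero ha'.ne' hd0.ne') hbd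
  obtain ⟨n, hnN, hgood⟩ := hthin.gap L (1 + ∑ j ∈ range L, (T1 j).natAbs ^ 2)
  have hTn : ∀ j < L, T1 j ^ 2 ≤ n := by
    intro j hj
    have h1 : (T1 j).natAbs ^ 2 ≤ ∑ j ∈ range L, (T1 j).natAbs ^ 2 :=
      single_le_sum (f := fun j => (T1 j).natAbs ^ 2) (fun _ _ => Nat.zero_le _) (mem_range.mpr hj)
    have h2 : (T1 j).natAbs ^ 2 ≤ n := by omega
    have h3 : (((T1 j).natAbs ^ 2 : ℕ) : ℤ) = T1 j ^ 2 := by
      rw [Int.natCast_pow, Int.natCast_natAbs, sq_abs]
    rw [← h3]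
    exact_mod_cast h2
  have hn1 : 1 ≤ n := by omega
  have hcpos : ∀ i, 0 < cc a b s t (n + i) := by
    intro i
    obtain ⟨h1, h2⟩ := hpos (n + i)
    have h3 : (1 : ℤ) ≤ ((n + i : ℕ) : ℤ) := by exact_mod_cast (by omega : 1 ≤ n + i)
    have h4 : 1 ≤ T1 (n + i) := h3.trans h2
    show 0 < T1 (n + i) * (((a : ℤ) + b) * T1 (n + i) + 2 * S1 (n + i))
    have h5 : 0 < (a : ℤ) + b := by linarith
    have h6 : 0 < ((a : ℤ) + b) * T1 (n + i) := mul_pos h5 (by linarith)
    exact mul_pos (by linarith) (by linarith)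
  have hcast : ∀ i, (((cc a b s t (n + i)).toNat : ℕ) : ℤ) = cc a b s t (n + i) :=
    fun i => Int.toNat_of_nonneg (hcpos i).le
  refine ⟨fun i => (cc a b s t (n + i)).toNat, ?_, ?_⟩
  · intro i hi
    have hX2 : 2 ≤ X a b s t (n + i) := by
      have := X_ge ha' hb' hs' ht' (n + i)
      have h3 : (1 : ℤ) ≤ ((n + i : ℕ) : ℤ) := by exact_mod_cast (by omega : 1 ≤ n + i)
      linarith
    have hY2 : 2 ≤ Y a b s t (n + i) := by
      have h1 := cc_Y hn (n + i)
      have h2 := Y_pos ha' hb' hs' ht' (n + i)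
      by_contra hcon
      have h3 : Y a b s t (n + i) = 1 := by linarith [Int.not_le.mp hcon]
      rw [h3] at h1
      have h4 : (b : ℤ) * cc a b s t (n + i) = 0 := by linarith
      rcases mul_eq_zero.mp h4 with h5 | h5
      · exact hb'.ne' h5
      · exact (hcpos i).ne' h5
    have hcX := cc_X hn (n + i)
    have hcY := cc_Y hn (n + i)
    have hpos' : 0 < (cc a b s t (n + i)).toNat := by
      have := hcpos i
      omega
    refine ⟨hpos', ?_, ?_, ?_, ?_, ?_⟩
    · rw [isSquare_cast (z := (a : ℤ) * cc a b s t (n + i) + 1) (by push_cast; rw [hcast])]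
      exact ⟨X a b s t (n + i), by rw [hcX]; ring⟩
    · rw [isSquare_cast (z := (b : ℤ) * cc a b s t (n + i) + 1) (by push_cast; rw [hcast])]
      exact ⟨Y a b s t (n + i), by rw [hcY]; ring⟩
    · rw [isSquare_cast (z := (a : ℤ) * cc a b s t (n + i)) (by push_cast; rw [hcast])]
      have : (a : ℤ) * cc a b s t (n + i) = X a b s t (n + i) ^ 2 - 1 := by linarith
      rw [this]
      exact not_sq_near one_pos (by linarith) (by linarith)
    · rw [isSquare_cast (z := (b : ℤ) * cc a b s t (n + i)) (by push_cast; rw [hcast])]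
      have : (b : ℤ) * cc a b s t (n + i) = Y a b s t (n + i) ^ 2 - 1 := by linarith
      rw [this]
      exact not_sq_near one_pos (by linarith) (by linarith)
    · intro d hd hda hdb
      have hg := hgood i hi
      rw [Set.mem_iUnion₂] at hg
      push Not at hg
      have hg := hg d (mem_filter.mpr ⟨hd, hda, hdb⟩)
      rw [Set.mem_union, not_or] at hg
      obtain ⟨hg1, hg2⟩ := hg
      constructor
      · rw [isSquare_cast (z := (d : ℤ) * cc a b s t (n + i) + 1) (by push_cast; rw [hcast])]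
        rintro ⟨w, hw⟩
        apply hg1
        refine ⟨a * w, ?_⟩
        linear_combination (-(a : ℤ) * d) * hcX + (a : ℤ) ^ 2 * hw
      · rw [isSquare_cast (z := (d : ℤ) * cc a b s t (n + i)) (by push_cast; rw [hcast])]
        rintro ⟨w, hw⟩
        apply hg2
        refine ⟨a * w, ?_⟩
        linear_combination (-(a : ℤ) * d) * hcX + (a : ℤ) ^ 2 * hw
  · intro i j hij hj
    obtain ⟨k, rfl⟩ : ∃ k, j = i + k := ⟨j - i, by omega⟩
    have hk1 : 1 ≤ k := by omega
    have hmul := cc_mul hn (n + i) k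
    have hkL : k < L := by omega
    set z : ℤ := ((a : ℤ) + b) * T1 (n + i) * T1 (n + i + k) + S1 (n + i) * T1 (n + i + k) +
      T1 (n + i) * S1 (n + i + k) with hz
    have hmul : cc a b s t (n + i) * cc a b s t (n + i + k) + T1 k ^ 2 = z ^ 2 := hmul
    have hzbig : (n : ℤ) + 1 ≤ z := by
      obtain ⟨h1, h2⟩ := hpos (n + i)
      obtain ⟨h3, h4⟩ := hpos (n + i + k)
      have h5 : (0 : ℤ) ≤ ((n + i : ℕ) : ℤ) := Int.natCast_nonneg _
      have h6 : ((n : ℤ)) + 1 ≤ ((n + i + k : ℕ) : ℤ) := by exact_mod_cast (by omega : n + 1 ≤ n + i + k)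
      have h7 : 0 ≤ T1 (n + i) := h5.trans h2
      have h8 : (n : ℤ) + 1 ≤ T1 (n + i + k) := h6.trans h4
      have h9 : 0 ≤ (n : ℤ) := Int.natCast_nonneg _
      have h10 : 0 ≤ ((a : ℤ) + b) * T1 (n + i) * T1 (n + i + k) :=
        mul_nonneg (mul_nonneg (by linarith) h7) (by linarith)
      have h11 : 0 ≤ T1 (n + i) * S1 (n + i + k) := mul_nonneg h7 (by linarith)
      have h12 : T1 (n + i + k) ≤ S1 (n + i) * T1 (n + i + k) :=
        le_mul_of_one_le_left (by linarith) h1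
      linarith
    have hTk := hTn k hkL
    have hTk1 : 1 ≤ T1 k := by
      have := (hpos k).2
      exact le_trans (by exact_mod_cast hk1) this
    have hTk2 : 1 ≤ T1 k ^ 2 := by nlinarith
    have hn1' : (1 : ℤ) ≤ n := by exact_mod_cast hn1
    have hcc : (((cc a b s t (n + i)).toNat * (cc a b s t (n + (i + k))).toNat : ℕ) : ℤ) =
        z ^ 2 - T1 k ^ 2 := by
      push_cast
      rw [hcast, hcast, ← add_assoc]
      linarith
    constructor
    · rw [isSquare_cast hcc]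
      exact not_sq_near (by linarith) (by linarith) (by linarith)
    · intro ht1
      have hcc1 : (((cc a b s t (n + i)).toNat * (cc a b s t (n + (i + k))).toNat + 1 : ℕ) : ℤ) =
          z ^ 2 - (T1 k ^ 2 - 1) := by
        rw [Nat.cast_add, hcc]
        push_cast
        ring
      rw [isSquare_cast hcc1]
      constructor
      · intro hsq
        by_contra hne
        have hk2 : 2 ≤ k := by omega
        have h2 : 2 ≤ T1 k := by
          have := (hpos k).2
          exact le_trans (by exact_mod_cast hk2) this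
        exact not_sq_near (by nlinarith) (by linarith) (by linarith) hsq
      · intro hjk
        have hk' : k = 1 := by omega
        subst hk'
        have hT : T1 1 = 1 := by
          simp only [hT1, st, ht1]
          norm_num
        rw [hT]
        exact ⟨z, by ring⟩

/-- Strong labellings. -/
def Strong {V : Type*} (G : SimpleGraph V) (S : Finset V) (f : V → ℕ) : Prop :=
  (∀ u ∈ S, 0 < f u) ∧ ∀ u ∈ S, ∀ v ∈ S, u ≠ v →
    ¬ IsSquare (f u * f v) ∧ (G.Adj u v ↔ IsSquare (f u * f v + 1))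

variable {V : Type*} [DecidableEq V] {G : SimpleGraph V}

theorem Strong.inj {S : Finset V} {f : V → ℕ} (h : Strong G S f) {u v : V} (hu : u ∈ S)
    (hv : v ∈ S) (huv : f u = f v) : u = v := by
  by_contra hne
  exact (h.2 u hu v hv hne).1 ⟨f u, by rw [huv]⟩

theorem add_many {S : Finset V} {f : V → ℕ} (h : Strong G S f) (a b : ℕ) (ha : 0 < a) (hb : 0 < b)
    (hab : ¬ IsSquare (a * b)) (hSb : ∀ u ∈ S, f u ≠ b → ¬ IsSquare (b * f u))
    (s t : ℕ) (hs : 1 ≤ s) (ht : 1 ≤ t) (hst : s ^ 2 = a * b * t ^ 2 + 1)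
    (m : ℕ) (p : ℕ → V) (hm : m ≤ 1 ∨ t = 1) (hpS : ∀ i < m, p i ∉ S)
    (hpi : ∀ i < m, ∀ j < m, p i = p j → i = j)
    (hadj : ∀ i < m, ∀ u ∈ S, (G.Adj u (p i) ↔ f u = a ∨ f u = b))
    (hpp : ∀ i j, i < j → j < m → (G.Adj (p i) (p j) ↔ j = i + 1)) :
    ∃ f' : V → ℕ, Strong G (S ∪ (range m).image p) f' := by
  have hab' : a ≠ b := fun hh => hab ⟨b, by rw [hh]⟩
  obtain ⟨c, hc1, hc2⟩ := new_labels (S.image f) a b ha hb hab'
    (by
      intro d hd
      obtain ⟨u, hu, rfl⟩ := mem_image.mp hd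
      exact h.1 u hu)
    (by
      intro d hd hdb
      obtain ⟨u, hu, rfl⟩ := mem_image.mp hd
      exact hSb u hu hdb) s t hs ht hst m
  classical
  let f' : V → ℕ := fun v => if hv : ∃ i < m, p i = v then c hv.choose else f v
  have hfp : ∀ i < m, f' (p i) = c i := by
    intro i hi
    have hex : ∃ j < m, p j = p i := ⟨i, hi, rfl⟩
    simp only [f']
    rw [dif_pos hex]
    congr 1
    exact hpi _ hex.choose_spec.1 _ hi hex.choose_spec.2
  have hfS : ∀ u ∈ S, f' u = f u := by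
    intro u hu
    simp only [f']
    rw [dif_neg]
    rintro ⟨i, hi, rfl⟩
    exact hpS i hi hu
  have key : ∀ u ∈ S, ∀ i < m, ¬ IsSquare (f u * c i) ∧ (G.Adj u (p i) ↔ IsSquare (f u * c i + 1)) := by
    intro u hu i hi
    obtain ⟨_, q1, q2, q3, q4, q5⟩ := hc1 i hi
    rw [hadj i hi u hu]
    by_cases h1 : f u = a
    · rw [h1]; exact ⟨q3, by simp [q1]⟩
    · by_cases h2 : f u = b
      · rw [h2]; exact ⟨q4, by simp [q2]⟩
      · have := q5 (f u) (mem_image_of_mem f hu) h1 h2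
        exact ⟨this.2, by simp [h1, h2, this.1]⟩
  refine ⟨f', ?_, ?_⟩
  · intro u hu
    rcases mem_union.mp hu with hu | hu
    · rw [hfS u hu]; exact h.1 u hu
    · obtain ⟨i, hi, rfl⟩ := mem_image.mp hu
      rw [hfp i (mem_range.mp hi)]
      exact (hc1 i (mem_range.mp hi)).1
  · have hsymm : ∀ u v : V, (¬ IsSquare (f' u * f' v) ∧ (G.Adj u v ↔ IsSquare (f' u * f' v + 1))) →
        (¬ IsSquare (f' v * f' u) ∧ (G.Adj v u ↔ IsSquare (f' v * f' u + 1))) := by
      intro u v huv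
      rw [mul_comm (f' v), G.adj_comm v u]
      exact huv
    intro u hu v hv huv
    rcases mem_union.mp hu with hu | hu <;> rcases mem_union.mp hv with hv | hv
    · rw [hfS u hu, hfS v hv]
      exact h.2 u hu v hv huv
    · obtain ⟨i, hi, rfl⟩ := mem_image.mp hv
      rw [hfS u hu, hfp i (mem_range.mp hi)]
      exact key u hu i (mem_range.mp hi)
    · obtain ⟨i, hi, rfl⟩ := mem_image.mp hu
      apply hsymm
      rw [hfS v hv, hfp i (mem_range.mp hi)]
      exact key v hv i (mem_range.mp hi)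
    · obtain ⟨i, hi, rfl⟩ := mem_image.mp hu
      obtain ⟨j, hj, rfl⟩ := mem_image.mp hv
      rw [mem_range] at hi hj
      have hij : i ≠ j := by rintro rfl; exact huv rfl
      have main : ∀ i j, i < j → j < m → (¬ IsSquare (f' (p i) * f' (p j)) ∧
          (G.Adj (p i) (p j) ↔ IsSquare (f' (p i) * f' (p j) + 1))) := by
        intro i j hij hj
        rw [hfp i (hij.trans hj), hfp j hj, hpp i j hij hj]
        obtain ⟨r1, r2⟩ := hc2 i j hij hj
        refine ⟨r1, ?_⟩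
        rcases hm with hm | hm
        · omega
        · exact (r2 hm).symm
      rcases lt_or_gt_of_ne hij with h1 | h1
      · exact main i j h1 hj
      · exact hsymm _ _ (main j i h1 hi)

omit [DecidableEq V] in
theorem exists_fresh (S : Finset V) (f : V → ℕ) (h : ∀ u ∈ S, 0 < f u) (N : ℕ) :
    ∃ q : ℕ, N < q ∧ 0 < q ∧ (∀ u ∈ S, f u ≠ q) ∧ (∀ u ∈ S, ¬ IsSquare (q * f u)) ∧
      ∀ x, 0 < x → x < q → ¬ IsSquare (x * q) := by
  obtain ⟨q, hq, hprime⟩ := Nat.exists_infinite_primes (N + ∑ u ∈ S, f u + 1)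
  have hlt : ∀ u ∈ S, f u < q := by
    intro u hu
    have : f u ≤ ∑ u ∈ S, f u := single_le_sum (fun _ _ => Nat.zero_le _) hu
    omega
  have hkey : ∀ x, 0 < x → x < q → ¬ IsSquare (x * q) := by
    rintro x hx hxq ⟨w, hw⟩
    have h1 : q ∣ w * w := ⟨x, by rw [← hw, mul_comm]⟩
    have h2 : q ∣ w := (hprime.dvd_mul.mp h1).elim id id
    obtain ⟨k, rfl⟩ := h2
    have h3 : x = q * (k * k) := by
      have : x * q = q * (k * k) * q := by rw [hw]; ring
      exact Nat.eq_of_mul_eq_mul_right hprime.pos this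
    have h4 : 0 < k * k := by
      rcases Nat.eq_zero_or_pos (k * k) with h | h
      · rw [h, mul_zero] at h3; omega
      · exact h
    have : q ≤ q * (k * k) := Nat.le_mul_of_pos_right q h4
    omega
  refine ⟨q, by omega, hprime.pos, fun u hu => (hlt u hu).ne, ?_, hkey⟩
  intro u hu
  rw [mul_comm]
  exact hkey _ (h u hu) (hlt u hu)

theorem pell_nat (a b : ℕ) (ha : 0 < a) (hb : 0 < b) (hab : ¬ IsSquare (a * b)) :
    ∃ s t : ℕ, 1 ≤ s ∧ 1 ≤ t ∧ s ^ 2 = a * b * t ^ 2 + 1 := by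
  have h1 : (0 : ℤ) < (a * b : ℕ) := by exact_mod_cast Nat.mul_pos ha hb
  have h2 : ¬ IsSquare (((a * b : ℕ)) : ℤ) := by
    rw [← isSquare_cast (n := a * b) rfl]
    exact hab
  obtain ⟨x, y, hxy, hy⟩ := Pell.exists_of_not_isSquare h1 h2
  refine ⟨x.natAbs, y.natAbs, ?_, ?_, ?_⟩
  · rw [Nat.one_le_iff_ne_zero, Ne, Int.natAbs_eq_zero]
    rintro rfl
    have : 0 ≤ ((a * b : ℕ) : ℤ) * y ^ 2 := by positivity
    nlinarith
  · rw [Nat.one_le_iff_ne_zero, Ne, Int.natAbs_eq_zero]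
    exact hy
  · have : ((x.natAbs ^ 2 : ℕ) : ℤ) = ((a * b * y.natAbs ^ 2 + 1 : ℕ) : ℤ) := by
      push_cast
      rw [sq_abs, sq_abs]
      push_cast at hxy
      linarith
    exact_mod_cast this

theorem add_vertex {S : Finset V} {f : V → ℕ} (h : Strong G S f) (v : V) (hv : v ∉ S) (x y : V)
    (hxy : ∀ u ∈ S, G.Adj u v → u = x ∨ u = y) : ∃ f' : V → ℕ, Strong G (insert v S) f' := by
  -- it suffices to find the two labels
  suffices hsuff : ∃ a b : ℕ, 0 < a ∧ 0 < b ∧ ¬ IsSquare (a * b) ∧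
      (∀ u ∈ S, f u ≠ b → ¬ IsSquare (b * f u)) ∧
      (∀ u ∈ S, (G.Adj u v ↔ f u = a ∨ f u = b)) by
    obtain ⟨a, b, ha, hb, hab, hSb, hadj⟩ := hsuff
    obtain ⟨s, t, hs, ht, hst⟩ := pell_nat a b ha hb hab
    obtain ⟨f', hf'⟩ := add_many h a b ha hb hab hSb s t hs ht hst 1 (fun _ => v) (Or.inl le_rfl)
      (fun _ _ => hv) (fun i hi j hj _ => by omega) (fun _ _ => hadj) (fun i j hij hj => by omega)
    refine ⟨f', ?_⟩
    have : S ∪ (range 1).image (fun _ => v) = insert v S := by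
      ext w
      simp
    rwa [this] at hf'
  by_cases hx : x ∈ S ∧ G.Adj x v
  · by_cases hy : y ∈ S ∧ G.Adj y v ∧ y ≠ x
    · refine ⟨f x, f y, h.1 x hx.1, h.1 y hy.1, (h.2 x hx.1 y hy.1 hy.2.2.symm).1, ?_, ?_⟩
      · intro u hu hne
        have : y ≠ u := by rintro rfl; exact hne rfl
        exact (h.2 y hy.1 u hu this).1
      · intro u hu
        constructor
        · intro hadj
          rcases hxy u hu hadj with rfl | rfl
          · exact Or.inl rfl
          · exact Or.inr rfl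
        · rintro (h1 | h1)
          · rw [h.inj hu hx.1 h1]; exact hx.2
          · rw [h.inj hu hy.1 h1]; exact hy.2.1
    · obtain ⟨q, hq1, hq2, hq3, hq4, hq5⟩ := exists_fresh S f h.1 (f x)
      refine ⟨f x, q, h.1 x hx.1, hq2, hq5 _ (h.1 x hx.1) hq1, fun u hu _ => hq4 u hu, ?_⟩
      intro u hu
      constructor
      · intro hadj
        rcases hxy u hu hadj with rfl | rfl
        · exact Or.inl rfl
        · by_cases hyx : u = x
          · rw [hyx]; exact Or.inl rfl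
          · exact absurd ⟨hu, hadj, hyx⟩ hy
      · rintro (h1 | h1)
        · rw [h.inj hu hx.1 h1]; exact hx.2
        · exact absurd h1 (hq3 u hu)
  · by_cases hy : y ∈ S ∧ G.Adj y v
    · obtain ⟨q, hq1, hq2, hq3, hq4, hq5⟩ := exists_fresh S f h.1 (f y)
      refine ⟨f y, q, h.1 y hy.1, hq2, hq5 _ (h.1 y hy.1) hq1, fun u hu _ => hq4 u hu, ?_⟩
      intro u hu
      constructor
      · intro hadj
        rcases hxy u hu hadj with rfl | rfl
        · exact absurd ⟨hu, hadj⟩ hx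
        · exact Or.inl rfl
      · rintro (h1 | h1)
        · rw [h.inj hu hy.1 h1]; exact hy.2
        · exact absurd h1 (hq3 u hu)
    · obtain ⟨r, hr1, hr2, hr3, hr4, hr5⟩ := exists_fresh S f h.1 0
      obtain ⟨q, hq1, hq2, hq3, hq4, hq5⟩ := exists_fresh S f h.1 r
      refine ⟨r, q, hr2, hq2, hq5 _ hr2 hq1, fun u hu _ => hq4 u hu, ?_⟩
      intro u hu
      constructor
      · intro hadj
        rcases hxy u hu hadj with rfl | rfl
        · exact absurd ⟨hu, hadj⟩ hx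
        · exact absurd ⟨hu, hadj⟩ hy
      · rintro (h1 | h1)
        · exact absurd h1 (hr3 u hu)
        · exact absurd h1 (hq3 u hu)

theorem add_path {S : Finset V} {f : V → ℕ} (h : Strong G S f) (a b : V) (m : ℕ) (p : ℕ → V)
    (ha : a ∈ S) (hb : b ∈ S) (hadj : G.Adj a b) (h1 : ∀ i < m, p i ∉ S)
    (h2 : ∀ i < m, ∀ j < m, p i = p j → i = j)
    (h3 : ∀ i < m, ∀ u ∈ S, (G.Adj u (p i) ↔ u = a ∨ u = b))
    (h4 : ∀ i j, i < j → j < m → (G.Adj (p i) (p j) ↔ j = i + 1)) :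
    ∃ f' : V → ℕ, Strong G (S ∪ (range m).image p) f' := by
  have hne : a ≠ b := hadj.ne
  obtain ⟨h5, h6⟩ := h.2 a ha b hb hne
  obtain ⟨r, hr⟩ := h6.mp hadj
  have hfa := h.1 a ha
  have hfb := h.1 b hb
  refine add_many h (f a) (f b) hfa hfb h5 ?_ r 1 ?_ le_rfl ?_ m p (Or.inr rfl) h1 h2 ?_ h4
  · intro u hu hub
    have : b ≠ u := by rintro rfl; exact hub rfl
    exact (h.2 b hb u hu this).1
  · rcases Nat.eq_zero_or_pos r with h7 | h7
    · rw [h7] at hr; omega
    · exact h7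
  · rw [sq, ← hr]; ring
  · intro i hi u hu
    rw [h3 i hi u hu]
    constructor
    · rintro (rfl | rfl)
      · exact Or.inl rfl
      · exact Or.inr rfl
    · rintro (h7 | h7)
      · exact Or.inl (h.inj hu ha h7)
      · exact Or.inr (h.inj hu hb h7)

theorem strong_of_reachable {S : Finset V} (h : Reachable G S) : ∃ f : V → ℕ, Strong G S f := by
  induction h with
  | empty => exact ⟨fun _ => 1, by simp [Strong]⟩
  | vertex S v _ hv hxy ih =>
    obtain ⟨f, hf⟩ := ih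
    obtain ⟨x, y, hxy⟩ := hxy
    exact add_vertex hf v hv x y hxy
  | path S a b m p _ ha hb hadj h1 h2 h3 h4 ih =>
    obtain ⟨f, hf⟩ := ih
    exact add_path hf a b m p ha hb hadj h1 h2 h3 h4

theorem main [Fintype V] (h : Reachable G Finset.univ) : IsDiophantine G := by
  obtain ⟨f, hf⟩ := strong_of_reachable h
  exact ⟨f, fun v => hf.1 v (mem_univ v), fun u v huv => hf.inj (mem_univ u) (mem_univ v) huv,
    fun u v huv => (hf.2 u (mem_univ u) v (mem_univ v) huv).2⟩

end Pool.Agent.Helper56.Dio
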