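import Pool.Agent.Helper56.DioThin

namespace Pool.Agent.Helper56.Dio

open Filter

/-- Powers of the unit `s + t √(ab)`. -/
def st (E s t : ℤ) : ℕ → ℤ × ℤ
  | 0 => (1, 0)
  | n + 1 => (s * (st E s t n).1 + E * t * (st E s t n).2, s * (st E s t n).2 + t * (st E s t n).1)

section
variable {a b s t : ℤ}

theorem st_norm (h : s ^ 2 - a * b * t ^ 2 = 1) (n : ℕ) :
    (st (a * b) s t n).1 ^ 2 - a * b * (st (a * b) s t n).2 ^ 2 = 1 := by
  induction n with
  | zero => simp [st]
  | succ n ih =>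
    simp only [st]
    linear_combination (s ^ 2 - a * b * t ^ 2) * ih + h

theorem st_pos (ha : 0 < a) (hb : 0 < b) (hs : 1 ≤ s) (ht : 1 ≤ t) (n : ℕ) :
    1 ≤ (st (a * b) s t n).1 ∧ (n : ℤ) ≤ (st (a * b) s t n).2 := by
  induction n with
  | zero => simp [st]
  | succ n ih =>
    obtain ⟨h1, h2⟩ := ih
    have h3 : 0 ≤ (st (a * b) s t n).2 := le_trans (by positivity) h2
    simp only [st]
    have h4 : 0 ≤ a * b * t * (st (a * b) s t n).2 := by positivity
    refine ⟨by nlinarith, ?_⟩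
    push_cast
    nlinarith

theorem st_add (n j : ℕ) :
    (st (a * b) s t (n + j)).1 = (st (a * b) s t n).1 * (st (a * b) s t j).1 +
      a * b * (st (a * b) s t n).2 * (st (a * b) s t j).2 ∧
    (st (a * b) s t (n + j)).2 = (st (a * b) s t n).1 * (st (a * b) s t j).2 +
      (st (a * b) s t n).2 * (st (a * b) s t j).1 := by
  induction j with
  | zero => simp [st]
  | succ j ih =>
    rw [← add_assoc]
    simp only [st]
    rw [ih.1, ih.2]
    constructor <;> ring

/-- The square root of `a c_n + 1`. -/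
def X (a b s t : ℤ) (n : ℕ) : ℤ := (st (a * b) s t n).1 + a * (st (a * b) s t n).2

/-- The square root of `b c_n + 1`. -/
def Y (a b s t : ℤ) (n : ℕ) : ℤ := (st (a * b) s t n).1 + b * (st (a * b) s t n).2

/-- The common neighbours of `a` and `b`. -/
def cc (a b s t : ℤ) (n : ℕ) : ℤ :=
  (st (a * b) s t n).2 * ((a + b) * (st (a * b) s t n).2 + 2 * (st (a * b) s t n).1)

theorem cc_X (h : s ^ 2 - a * b * t ^ 2 = 1) (n : ℕ) : a * cc a b s t n + 1 = X a b s t n ^ 2 := by
  unfold cc X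
  linear_combination -(st_norm h n)

theorem cc_Y (h : s ^ 2 - a * b * t ^ 2 = 1) (n : ℕ) : b * cc a b s t n + 1 = Y a b s t n ^ 2 := by
  unfold cc Y
  linear_combination -(st_norm h n)

theorem XY_rel (h : s ^ 2 - a * b * t ^ 2 = 1) (n : ℕ) :
    a * Y a b s t n ^ 2 = b * X a b s t n ^ 2 + a - b := by
  unfold X Y
  linear_combination (a - b) * (st_norm h n)

theorem X_add (n j : ℕ) : X a b s t (n + j) =
    (st (a * b) s t j).1 * X a b s t n + a * (st (a * b) s t j).2 * Y a b s t n := by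
  unfold X Y
  rw [(st_add n j).1, (st_add n j).2]
  ring

theorem X_ge (ha : 0 < a) (hb : 0 < b) (hs : 1 ≤ s) (ht : 1 ≤ t) (n : ℕ) :
    (n : ℤ) + 1 ≤ X a b s t n := by
  obtain ⟨h1, h2⟩ := st_pos ha hb hs ht n
  unfold X
  have h3 : 0 ≤ (st (a * b) s t n).2 := le_trans (by positivity) h2
  nlinarith

theorem Y_pos (ha : 0 < a) (hb : 0 < b) (hs : 1 ≤ s) (ht : 1 ≤ t) (n : ℕ) :
    1 ≤ Y a b s t n := by
  obtain ⟨h1, h2⟩ := st_pos ha hb hs ht n
  unfold Y
  have h3 : 0 ≤ (st (a * b) s t n).2 := le_trans (by positivity) h2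
  nlinarith

theorem Y_le (ha : 0 < a) (hb : 0 < b) (hs : 1 ≤ s) (ht : 1 ≤ t) (n : ℕ) :
    Y a b s t n ≤ b * X a b s t n := by
  obtain ⟨h1, h2⟩ := st_pos ha hb hs ht n
  have h3 : 0 ≤ (st (a * b) s t n).2 := le_trans (by positivity) h2
  unfold X Y
  have h4 : (st (a * b) s t n).1 ≤ b * (st (a * b) s t n).1 := by nlinarith
  have h5 : b * (st (a * b) s t n).2 ≤ b * (a * (st (a * b) s t n).2) :=
    mul_le_mul_of_nonneg_left (by nlinarith) hb.le
  linarith

theorem X_mono (ha : 0 < a) (hb : 0 < b) (hs : 1 ≤ s) (ht : 1 ≤ t) (n j : ℕ) :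
    X a b s t n ≤ X a b s t (n + j) := by
  rw [X_add]
  obtain ⟨h1, h2⟩ := st_pos ha hb hs ht j
  have h3 : 0 ≤ (st (a * b) s t j).2 := le_trans (by positivity) h2
  have hx := X_ge ha hb hs ht n
  have hy := Y_pos ha hb hs ht n
  have h4 : 0 ≤ a * (st (a * b) s t j).2 * Y a b s t n := by positivity
  have h5 : 0 ≤ X a b s t n := by linarith [Int.natCast_nonneg n]
  nlinarith

theorem X_le (ha : 0 < a) (hb : 0 < b) (hs : 1 ≤ s) (ht : 1 ≤ t) (n j : ℕ) :
    X a b s t (n + j) ≤ ((st (a * b) s t j).1 + a * b * (st (a * b) s t j).2) * X a b s t n := by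
  rw [X_add]
  obtain ⟨h1, h2⟩ := st_pos ha hb hs ht j
  have h3 : 0 ≤ (st (a * b) s t j).2 := le_trans (by positivity) h2
  have hy := Y_le ha hb hs ht n
  have h4 : 0 ≤ a * (st (a * b) s t j).2 := by positivity
  nlinarith [mul_le_mul_of_nonneg_left hy h4]

/-- The core of the rigidity argument. -/
theorem core (ha : 0 < a) (hb : 0 < b) (hab : a ≠ b) (hs : 1 ≤ s) (ht : 1 ≤ t)
    (h : s ^ 2 - a * b * t ^ 2 = 1) (d m : ℤ) (hbd : ¬ IsSquare (b * d)) (j : ℕ)
    (hj : 1 ≤ j) (u v : ℤ) : ∃ M : ℤ, ∀ n : ℕ, M < X a b s t n → ∀ w : ℤ,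
      w ^ 2 = a * d * X a b s t n ^ 2 - m → X a b s t (n + j) = X a b s t n * u + w * v → False := by
  obtain ⟨hsj, htj⟩ := st_pos ha hb hs ht j
  set sj := (st (a * b) s t j).1 with hsjd
  set tj := (st (a * b) s t j).2 with htjd
  have htj1 : 1 ≤ tj := le_trans (by exact_mod_cast hj) htj
  set P := (sj - u) ^ 2 + a * b * tj ^ 2 - v ^ 2 * (a * d) with hP
  set Q := 2 * (sj - u) * a * tj with hQ
  set R := - v ^ 2 * m - a * tj ^ 2 * (a - b) with hR
  refine ⟨|R| + |Q ^ 2 * (a - b)|, ?_⟩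
  intro n hn w hw hx
  set x := X a b s t n with hxd
  set y := Y a b s t n with hyd
  have hadd : X a b s t (n + j) = sj * x + a * tj * y := X_add n j
  have hrel : a * y ^ 2 = b * x ^ 2 + a - b := XY_rel h n
  have hx0 : 0 < x := by
    have := X_ge ha hb hs ht n
    have h0 : (0 : ℤ) ≤ n := Int.natCast_nonneg n
    linarith
  have e1 : x * (P * x + Q * y) = R := by
    have e2 : (sj * x + a * tj * y - x * u) ^ 2 = v ^ 2 * (a * d * x ^ 2 - m) := by
      rw [← hadd, hx, ← hw]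
      ring
    rw [hP, hQ, hR]
    linear_combination e2 - a * tj ^ 2 * hrel
  have hR0 : R = 0 := by
    have hdv : x ∣ R := ⟨_, e1.symm⟩
    by_contra hne
    have := Int.le_of_dvd (abs_pos.mpr hne) ((dvd_abs _ _).mpr hdv)
    have h3 : 0 ≤ |Q ^ 2 * (a - b)| := abs_nonneg _
    linarith
  rw [hR0] at e1
  have e3 : P * x + Q * y = 0 := (mul_eq_zero.mp e1).resolve_left hx0.ne'
  have e4 : (a * P ^ 2 - b * Q ^ 2) * x ^ 2 = Q ^ 2 * (a - b) := by
    have e5 : P ^ 2 * x ^ 2 = Q ^ 2 * y ^ 2 := by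
      have : P * x = - (Q * y) := by linarith
      calc P ^ 2 * x ^ 2 = (P * x) ^ 2 := by ring
        _ = (Q * y) ^ 2 := by rw [this]; ring
        _ = Q ^ 2 * y ^ 2 := by ring
    linear_combination a * e5 + Q ^ 2 * hrel
  have hQ0 : Q ^ 2 * (a - b) = 0 := by
    by_contra hne
    have hdv : x ∣ Q ^ 2 * (a - b) := ⟨(a * P ^ 2 - b * Q ^ 2) * x, by rw [← e4]; ring⟩
    have := Int.le_of_dvd (abs_pos.mpr hne) ((dvd_abs _ _).mpr hdv)
    have h3 : 0 ≤ |R| := abs_nonneg _
    linarith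
  have hQ1 : Q = 0 := by
    rcases mul_eq_zero.mp hQ0 with h1 | h1
    · exact pow_eq_zero_iff (two_ne_zero) |>.mp h1
    · exact absurd (sub_eq_zero.mp h1) hab
  have hsu : sj - u = 0 := by
    rw [hQ] at hQ1
    rcases mul_eq_zero.mp hQ1 with h1 | h1
    · rcases mul_eq_zero.mp h1 with h2 | h2
      · rcases mul_eq_zero.mp h2 with h3 | h3
        · norm_num at h3
        · exact h3
      · exact absurd h2 ha.ne'
    · exact absurd h1 (by linarith)
  have hP0 : P = 0 := by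
    rw [hQ1, zero_mul, add_zero] at e3
    exact (mul_eq_zero.mp e3).resolve_right hx0.ne'
  rw [hP, hsu] at hP0
  have e6 : b * tj ^ 2 = v ^ 2 * d := by
    have : a * (b * tj ^ 2 - v ^ 2 * d) = 0 := by linear_combination hP0
    have := (mul_eq_zero.mp this).resolve_left ha.ne'
    linarith
  have e7 : b * d * tj ^ 2 = (v * d) ^ 2 := by linear_combination d * e6
  have hdvd : tj ∣ v * d := by
    rw [← Int.pow_dvd_pow_iff (two_ne_zero)]
    exact ⟨b * d, by rw [← e7]; ring⟩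
  obtain ⟨k, hk⟩ := hdvd
  apply hbd
  refine ⟨k, ?_⟩
  have htj0 : tj ^ 2 ≠ 0 := pow_ne_zero 2 (by linarith)
  have : tj ^ 2 * (b * d) = tj ^ 2 * (k * k) := by
    rw [mul_comm, e7, hk]; ring
  exact mul_left_cancel₀ htj0 this

/-- A colour class of the bad set. -/
def Bad (a b s t d m : ℤ) (r r' : ZMod m.natAbs) : Set ℕ :=
  {n | ∃ w : ℤ, 0 ≤ w ∧ w ^ 2 = a * d * X a b s t n ^ 2 - m ∧
    ((X a b s t n : ℤ) : ZMod m.natAbs) = r ∧ ((w : ℤ) : ZMod m.natAbs) = r'}

theorem bad_sparse (ha : 0 < a) (hb : 0 < b) (hab : a ≠ b) (hs : 1 ≤ s) (ht : 1 ≤ t)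
    (h : s ^ 2 - a * b * t ^ 2 = 1) (d m : ℤ) (hd : 0 < d) (hm : m ≠ 0)
    (hbd : ¬ IsSquare (b * d)) (r r' : ZMod m.natAbs) : Sparse (Bad a b s t d m r r') := by
  intro j hj
  obtain ⟨hsj, htj⟩ := st_pos ha hb hs ht j
  set C := (st (a * b) s t j).1 + a * b * (st (a * b) s t j).2 with hC
  have htj0 : 0 ≤ (st (a * b) s t j).2 := le_trans (by positivity) htj
  have hC1 : 1 ≤ C := by
    have : 0 ≤ a * b * (st (a * b) s t j).2 := by positivity
    linarith
  set U := |m| + 1 + C with hU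
  choose M hM using fun u v => core ha hb hab hs ht h d m hbd j hj u v
  have hev : ∀ᶠ n : ℕ in atTop, ∀ u ∈ Finset.Icc (-U) U, ∀ v ∈ Finset.Icc (-U) U,
      M u v < X a b s t n := by
    rw [eventually_all_finset]
    intro u _
    rw [eventually_all_finset]
    intro v _
    filter_upwards [eventually_ge_atTop (M u v).toNat] with n hn
    have h1 := X_ge ha hb hs ht n
    have h2 := Int.self_le_toNat (M u v)
    have h3 : ((M u v).toNat : ℤ) ≤ n := by exact_mod_cast hn
    linarith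
  filter_upwards [hev] with n hn
  rintro ⟨⟨w, hw0, hw, hr, hr'⟩, ⟨w', hw0', hw', hrr, hrr'⟩⟩
  set x := X a b s t n with hx
  set x' := X a b s t (n + j) with hx'
  have hxx' : m ∣ x' - x := by
    have h1 : ((x' - x : ℤ) : ZMod m.natAbs) = 0 := by
      push_cast
      rw [hr, hrr, sub_self]
    rw [ZMod.intCast_zmod_eq_zero_iff_dvd] at h1
    exact Int.natAbs_dvd.mp h1
  have hww' : m ∣ w' - w := by
    have h1 : ((w' - w : ℤ) : ZMod m.natAbs) = 0 := by
      push_cast
      rw [hr', hrr', sub_self]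
    rw [ZMod.intCast_zmod_eq_zero_iff_dvd] at h1
    exact Int.natAbs_dvd.mp h1
  obtain ⟨p, hp⟩ := hxx'
  obtain ⟨q, hq⟩ := hww'
  have hx1 : x' = x + m * p := by linarith
  have hw1 : w' = w + m * q := by linarith
  -- the unit
  set u : ℤ := 1 - w * q + a * d * x * p with hu
  set v : ℤ := x * q - w * p with hv
  have eu : w * w' - a * d * x * x' = -m * u := by
    rw [hu, hw1, hx1]; linear_combination hw
  have ev : x' * w - x * w' = -m * v := by
    rw [hv, hw1, hx1]; ring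
  have exu : x' = x * u + w * v := by
    have : m * (x' - (x * u + w * v)) = 0 := by
      linear_combination x' * hw - w * ev - x * eu
    have := (mul_eq_zero.mp this).resolve_left hm
    linarith
  have enorm : u ^ 2 - a * d * v ^ 2 = 1 := by
    have : m ^ 2 * (u ^ 2 - a * d * v ^ 2 - 1) = 0 := by
      have h1 : (m * u) ^ 2 - a * d * (m * v) ^ 2 = m ^ 2 := by
        have h2 : m * u = -(w * w' - a * d * x * x') := by linarith
        have h3 : m * v = -(x' * w - x * w') := by linarith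
        rw [h2, h3]
        linear_combination (w' ^ 2 - a * d * x' ^ 2) * hw + (-m) * hw'
      linear_combination h1
    have := (mul_eq_zero.mp this).resolve_left (pow_ne_zero 2 hm)
    linarith
  have hD : 1 ≤ a * d := by nlinarith
  have hxpos : 1 ≤ x := by
    have h1 := X_ge ha hb hs ht n
    have h0 : (0 : ℤ) ≤ n := Int.natCast_nonneg n
    linarith
  have hxle : x ≤ x' := X_mono ha hb hs ht n j
  have hxC : x' ≤ C * x := X_le ha hb hs ht n j
  have hx0 : 0 ≤ x := by linarith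
  have hx0' : 0 ≤ x' := by linarith
  have had : 0 ≤ a * d := by linarith
  have hadx : 0 ≤ a * d * x * x' := mul_nonneg (mul_nonneg had hx0) hx0'
  have hww0 : 0 ≤ w * w' := mul_nonneg hw0 hw0'
  have hub : |u| ≤ U := by
    have h1 : |u| * (w * w' + a * d * x * x') = |m - a * d * (x ^ 2 + x' ^ 2)| := by
      have h2 : |m| * (|u| * (w * w' + a * d * x * x')) = |m| * |m - a * d * (x ^ 2 + x' ^ 2)| := by
        have h3 : 0 ≤ w * w' + a * d * x * x' := by linarith
        rw [← abs_of_nonneg h3, ← abs_mul, ← abs_mul, ← abs_mul]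
        have h4 : m * (u * (w * w' + a * d * x * x')) = -(m * (m - a * d * (x ^ 2 + x' ^ 2))) := by
          have h5 : m * u = -(w * w' - a * d * x * x') := by linarith
          calc m * (u * (w * w' + a * d * x * x')) = (m * u) * (w * w' + a * d * x * x') := by ring
            _ = -(w * w' - a * d * x * x') * (w * w' + a * d * x * x') := by rw [h5]
            _ = -(m * (m - a * d * (x ^ 2 + x' ^ 2))) := by
              linear_combination (-(w' ^ 2)) * hw + (-(a * d * x ^ 2 - m)) * hw'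
        rw [h4, abs_neg]
      exact mul_left_cancel₀ (abs_ne_zero.mpr hm) h2
    have h2 : |m - a * d * (x ^ 2 + x' ^ 2)| ≤ |m| + a * d * (x ^ 2 + x' ^ 2) := by
      have h3 : 0 ≤ a * d * (x ^ 2 + x' ^ 2) := mul_nonneg had (by positivity)
      calc |m - a * d * (x ^ 2 + x' ^ 2)| ≤ |m| + |a * d * (x ^ 2 + x' ^ 2)| := abs_sub _ _
        _ = |m| + a * d * (x ^ 2 + x' ^ 2) := by rw [abs_of_nonneg h3]
    have h3 : |u| * (a * d * x * x') ≤ |u| * (w * w' + a * d * x * x') :=
      mul_le_mul_of_nonneg_left (by linarith) (abs_nonneg u)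
    have h4 : 1 ≤ a * d * x * x' := by
      have e1 : 1 ≤ a * d * x := one_le_mul_of_one_le_of_one_le hD hxpos
      exact one_le_mul_of_one_le_of_one_le e1 (hxpos.trans hxle)
    have h5 : x ^ 2 + x' ^ 2 ≤ (1 + C) * (x * x') := by
      have e1 : x ^ 2 ≤ x * x' := by
        rw [sq]
        exact mul_le_mul_of_nonneg_left hxle hx0
      have e2 : x' ^ 2 ≤ C * (x * x') := by
        have := mul_le_mul_of_nonneg_right hxC hx0'
        calc x' ^ 2 = x' * x' := sq x'
          _ ≤ C * x * x' := this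
          _ = C * (x * x') := by ring
      linarith
    have h6 : a * d * (x ^ 2 + x' ^ 2) ≤ (1 + C) * (a * d * x * x') := by
      have := mul_le_mul_of_nonneg_left h5 had
      calc a * d * (x ^ 2 + x' ^ 2) ≤ a * d * ((1 + C) * (x * x')) := this
        _ = (1 + C) * (a * d * x * x') := by ring
    have h7 : |m| ≤ |m| * (a * d * x * x') := le_mul_of_one_le_right (abs_nonneg m) h4
    have h8 : |u| * (a * d * x * x') ≤ U * (a * d * x * x') := by
      rw [hU]
      calc |u| * (a * d * x * x') ≤ |m| + a * d * (x ^ 2 + x' ^ 2) := by linarith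
        _ ≤ |m| * (a * d * x * x') + (1 + C) * (a * d * x * x') := by linarith
        _ = (|m| + 1 + C) * (a * d * x * x') := by ring
    exact le_of_mul_le_mul_right h8 (by linarith)
  have hvb : |v| ≤ |u| := by
    rw [← sq_le_sq]
    have : v ^ 2 ≤ a * d * v ^ 2 := le_mul_of_one_le_left (sq_nonneg v) hD
    linarith
  have huI : u ∈ Finset.Icc (-U) U := Finset.mem_Icc.mpr (abs_le.mp hub)
  have hvI : v ∈ Finset.Icc (-U) U := Finset.mem_Icc.mpr (abs_le.mp (hvb.trans hub))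
  exact hM u v n (hn u huI v hvI) w hw exu

/-- The set of `n` with `a d x_n ^ 2 - m` a square is thin. -/
theorem sq_thin (ha : 0 < a) (hb : 0 < b) (hab : a ≠ b) (hs : 1 ≤ s) (ht : 1 ≤ t)
    (h : s ^ 2 - a * b * t ^ 2 = 1) (d m : ℤ) (hd : 0 < d) (hm : m ≠ 0)
    (hbd : ¬ IsSquare (b * d)) :
    Thin {n | IsSquare (a * d * X a b s t n ^ 2 - m)} := by
  have : NeZero m.natAbs := ⟨Int.natAbs_ne_zero.mpr hm⟩
  refine ⟨ZMod m.natAbs × ZMod m.natAbs, inferInstance,
    fun i => Bad a b s t d m i.1 i.2, fun i => bad_sparse ha hb hab hs ht h d m hd hm hbd _ _, ?_⟩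
  rintro n ⟨w, hw⟩
  refine Set.mem_iUnion.mpr ⟨(((X a b s t n : ℤ) : ZMod m.natAbs), ((|w| : ℤ) : ZMod m.natAbs)), ?_⟩
  exact ⟨|w|, abs_nonneg w, by rw [sq_abs, hw]; ring, rfl, rfl⟩

end

end Pool.Agent.Helper56.Dio
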