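import Mathlib

namespace Pool.Agent.Helper56.Dio

open Filter

/-- `A` is sparse: for every fixed `j ≥ 1`, only finitely many `n` have `n` and `n + j` in `A`. -/
def Sparse (A : Set ℕ) : Prop := ∀ j, 1 ≤ j → ∀ᶠ n in atTop, ¬ (n ∈ A ∧ n + j ∈ A)

/-- A finite union of sparse sets. -/
def Thin (B : Set ℕ) : Prop := ∃ (ι : Type) (_ : Fintype ι) (A : ι → Set ℕ),
  (∀ i, Sparse (A i)) ∧ B ⊆ ⋃ i, A i

theorem Thin.mono {B C : Set ℕ} (hC : Thin C) (h : B ⊆ C) : Thin B := by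
  obtain ⟨ι, hι, A, h1, h2⟩ := hC
  exact ⟨ι, hι, A, h1, h.trans h2⟩

theorem thin_empty : Thin ∅ := ⟨Empty, inferInstance, fun _ => ∅, fun i => i.elim, by simp⟩

theorem Thin.union {B C : Set ℕ} (hB : Thin B) (hC : Thin C) : Thin (B ∪ C) := by
  obtain ⟨ι, hι, A, h1, h2⟩ := hB
  obtain ⟨κ, hκ, A', h1', h2'⟩ := hC
  refine ⟨ι ⊕ κ, inferInstance, Sum.elim A A', ?_, ?_⟩
  · rintro (i | i)
    · exact h1 i
    · exact h1' i
  · rintro n (hn | hn)
    · obtain ⟨i, hi⟩ := Set.mem_iUnion.mp (h2 hn)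
      exact Set.mem_iUnion.mpr ⟨Sum.inl i, hi⟩
    · obtain ⟨i, hi⟩ := Set.mem_iUnion.mp (h2' hn)
      exact Set.mem_iUnion.mpr ⟨Sum.inr i, hi⟩

theorem thin_biUnion {α : Type*} (s : Finset α) (B : α → Set ℕ) (h : ∀ a ∈ s, Thin (B a)) :
    Thin (⋃ a ∈ s, B a) := by
  classical
  induction s using Finset.induction_on with
  | empty => simpa using thin_empty
  | insert a s ha ih =>
    rw [Finset.set_biUnion_insert]
    exact (h a (Finset.mem_insert_self a s)).union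
      (ih (fun b hb => h b (Finset.mem_insert_of_mem hb)))

/-- Thin sets have arbitrarily long gaps arbitrarily far out. -/
theorem Thin.gap {B : Set ℕ} (hB : Thin B) (L N : ℕ) : ∃ n, N ≤ n ∧ ∀ i, i < L → n + i ∉ B := by
  obtain ⟨ι, hι, A, h1, h2⟩ := hB
  set C := Fintype.card ι with hC
  have hev : ∀ᶠ n in atTop, ∀ i : ι, ∀ j ∈ Finset.Icc 1 ((C + 1) * L + L), ¬ (n ∈ A i ∧ n + j ∈ A i) := by
    rw [eventually_all]
    intro i
    rw [eventually_all_finset]
    intro j hj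
    exact h1 i j (Finset.mem_Icc.mp hj).1
  obtain ⟨N', hN'⟩ := eventually_atTop.mp hev
  by_contra hcon
  push Not at hcon
  have hcon' : ∀ q : Fin (C + 1), ∃ i : ι, ∃ k < L, max N N' + q.1 * L + k ∈ A i := by
    intro q
    obtain ⟨k, hk, hk2⟩ := hcon (max N N' + q.1 * L) ((le_max_left N N').trans (Nat.le_add_right _ _))
    obtain ⟨i, hi⟩ := Set.mem_iUnion.mp (h2 hk2)
    exact ⟨i, k, hk, hi⟩
  choose i k hk hA using hcon'
  obtain ⟨q, q', hne, heq⟩ := Fintype.exists_ne_map_eq_of_card_lt i (by simp [hC])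
  wlog hlt : q < q' generalizing q q'
  · exact this q' q hne.symm heq.symm (lt_of_le_of_ne (not_lt.mp hlt) hne.symm)
  have hql : q.1 + 1 ≤ q'.1 := hlt
  have hm : (q.1 + 1) * L ≤ q'.1 * L := Nat.mul_le_mul_right L hql
  have hm2 : q'.1 * L ≤ (C + 1) * L := Nat.mul_le_mul_right L (by omega)
  have hkq := hk q
  have hkq' := hk q'
  rw [add_mul, one_mul] at hm
  have := hN' (max N N' + q.1 * L + k q)
    ((le_max_right N N').trans (by omega)) (i q) (q'.1 * L + k q' - (q.1 * L + k q))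
    (Finset.mem_Icc.mpr ⟨by omega, by omega⟩)
  apply this
  refine ⟨hA q, ?_⟩
  rw [heq]
  convert hA q' using 1
  omega

end Pool.Agent.Helper56.Dio
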