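import Mathlib

set_option autoImplicit false

open Topology Set Filter TopologicalSpace

namespace Pool.Agent.Helper56.Cat

/-- The group of permutations of `ℕ` with the topology of pointwise convergence. -/
def PS : Type := Equiv.Perm ℕ

instance : Group PS := inferInstanceAs (Group (Equiv.Perm ℕ))

namespace PS

/-- The underlying function. -/
def ev (g : PS) : ℕ → ℕ := (show Equiv.Perm ℕ from g)

/-- The inverse function. -/
def iv (g : PS) : ℕ → ℕ := (show Equiv.Perm ℕ from g).symm

lemma ev_iv (g : PS) (n : ℕ) : g.ev (g.iv n) = n := Equiv.apply_symm_apply _ _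
lemma iv_ev (g : PS) (n : ℕ) : g.iv (g.ev n) = n := Equiv.symm_apply_apply _ _
lemma ev_inj (g : PS) : Function.Injective g.ev := Equiv.injective _
lemma ev_surj (g : PS) : Function.Surjective g.ev := Equiv.surjective _
@[simp] lemma mul_ev (g h : PS) (n : ℕ) : (g * h).ev n = g.ev (h.ev n) := rfl
@[simp] lemma one_ev (n : ℕ) : (1 : PS).ev n = n := rfl
lemma mul_iv (g h : PS) (n : ℕ) : (g * h).iv n = h.iv (g.iv n) := rfl
lemma one_iv (n : ℕ) : (1 : PS).iv n = n := rfl
lemma inv_ev (g : PS) : (g⁻¹).ev = g.iv := rfl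
lemma inv_iv (g : PS) : (g⁻¹).iv = g.ev := rfl
lemma ext' {g h : PS} (H : ∀ n, g.ev n = h.ev n) : g = h := Equiv.ext H

def emb (g : PS) : (ℕ → ℕ) × (ℕ → ℕ) := (g.ev, g.iv)

instance : TopologicalSpace PS := TopologicalSpace.induced emb inferInstance

lemma continuous_emb : Continuous emb := continuous_induced_dom

lemma continuous_ev (n : ℕ) : Continuous (fun g : PS => g.ev n) :=
  (continuous_apply n).comp (continuous_fst.comp continuous_emb)

lemma continuous_iv (n : ℕ) : Continuous (fun g : PS => g.iv n) :=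
  (continuous_apply n).comp (continuous_snd.comp continuous_emb)

/-- Continuity of the evaluation of sequences. -/
lemma continuous_eval {Z : Type*} [TopologicalSpace Z] :
    Continuous (fun p : (ℕ → Z) × ℕ => p.1 p.2) := by
  rw [continuous_iff_continuousAt]
  rintro ⟨a, k⟩
  have h : Tendsto (fun p : (ℕ → Z) × ℕ => p.1 k) (𝓝 (a, k)) (𝓝 (a k)) :=
    ((continuous_apply k).comp continuous_fst).tendsto (a, k)
  refine h.congr' ?_
  have : {p : (ℕ → Z) × ℕ | p.2 = k} ∈ 𝓝 (a, k) := by
    have ho : IsOpen {p : (ℕ → Z) × ℕ | p.2 = k} :=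
      (isOpen_discrete {k}).preimage continuous_snd
    exact ho.mem_nhds (show ((a, k) : (ℕ → Z) × ℕ).2 = k from rfl)
  filter_upwards [this] with p hp
  rw [← (show p.2 = k from hp)]

lemma isClosedEmbedding_emb : IsClosedEmbedding emb := by
  refine ⟨⟨⟨rfl⟩, ?_⟩, ?_⟩
  · intro g h hgh
    apply ext'
    intro n
    exact congrFun (congrArg Prod.fst hgh) n
  · have : range emb = {p : (ℕ → ℕ) × (ℕ → ℕ) | (∀ n, p.1 (p.2 n) = n) ∧ ∀ n, p.2 (p.1 n) = n} := by
      ext p
      constructor
      · rintro ⟨g, rfl⟩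
        exact ⟨fun n => g.ev_iv n, fun n => g.iv_ev n⟩
      · rintro ⟨h1, h2⟩
        exact ⟨(⟨p.1, p.2, h2, h1⟩ : Equiv.Perm ℕ), rfl⟩
    rw [this]
    simp only [ofPred_and, ofPred_forall]
    apply IsClosed.inter
    · apply isClosed_iInter
      intro n
      apply isClosed_eq _ continuous_const
      exact continuous_eval.comp (continuous_fst.prodMk ((continuous_apply n).comp continuous_snd))
    · apply isClosed_iInter
      intro n
      apply isClosed_eq _ continuous_const
      exact continuous_eval.comp (continuous_snd.prodMk ((continuous_apply n).comp continuous_fst))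

instance : PolishSpace PS := isClosedEmbedding_emb.polishSpace

lemma continuous_of_ev_iv {A : Type*} [TopologicalSpace A] {f : A → PS}
    (h1 : ∀ n, Continuous (fun a => (f a).ev n)) (h2 : ∀ n, Continuous (fun a => (f a).iv n)) :
    Continuous f := by
  rw [continuous_induced_rng]
  exact (continuous_pi h1).prodMk (continuous_pi h2)

/-- Left multiplication as a homeomorphism. -/
def lmul (g : PS) : PS ≃ₜ PS where
  toFun := fun h => g * h
  invFun := fun h => g⁻¹ * h
  left_inv := fun h => by group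
  right_inv := fun h => by group
  continuous_toFun := by
    apply continuous_of_ev_iv
    · intro n
      exact (continuous_of_discreteTopology (f := g.ev)).comp (continuous_ev n)
    · intro n
      exact continuous_iv (g.iv n)
  continuous_invFun := by
    apply continuous_of_ev_iv
    · intro n
      exact (continuous_of_discreteTopology (f := g.iv)).comp (continuous_ev n)
    · intro n
      exact continuous_iv (g.ev n)

/-- The permutations which fix the numbers below `m`. -/
def N (m : ℕ) : Set PS := {g | ∀ i < m, g.ev i = i}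

/-- The permutations which agree with doubling below `m`. -/
def G (m : ℕ) : Set PS := {g | ∀ i < m, g.ev i = 2 * i}

lemma isOpen_ev_eq (i j : ℕ) : IsOpen {g : PS | g.ev i = j} :=
  (isOpen_discrete {j}).preimage (continuous_ev i)

lemma isOpen_N (m : ℕ) : IsOpen (N m) := by
  have : N m = ⋂ i ∈ Finset.range m, {g : PS | g.ev i = i} := by
    ext g; simp [N]
  rw [this]
  exact isOpen_biInter_finset (fun i _ => isOpen_ev_eq i i)

lemma isOpen_G (m : ℕ) : IsOpen (G m) := by
  have : G m = ⋂ i ∈ Finset.range m, {g : PS | g.ev i = 2 * i} := by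
    ext g; simp [G]
  rw [this]
  exact isOpen_biInter_finset (fun i _ => isOpen_ev_eq i _)

lemma isClosed_N (m : ℕ) : IsClosed (N m) := by
  have : N m = ⋂ i ∈ Finset.range m, {g : PS | g.ev i = i} := by
    ext g; simp [N]
  rw [this]
  exact isClosed_biInter (fun i _ => isClosed_eq (continuous_ev i) continuous_const)

lemma N_mono {m n : ℕ} (h : m ≤ n) : N n ⊆ N m := fun _ hg i hi => hg i (by omega)
lemma G_mono {m n : ℕ} (h : m ≤ n) : G n ⊆ G m := fun _ hg i hi => hg i (by omega)
lemma one_mem_N (m : ℕ) : (1 : PS) ∈ N m := fun _ _ => rfl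
lemma mul_mem_N {m : ℕ} {g h : PS} (hg : g ∈ N m) (hh : h ∈ N m) : g * h ∈ N m := by
  intro i hi
  rw [mul_ev, hh i hi, hg i hi]
lemma inv_mem_N {m : ℕ} {g : PS} (hg : g ∈ N m) : g⁻¹ ∈ N m := by
  intro i hi
  rw [inv_ev]
  apply g.ev_inj
  rw [ev_iv, hg i hi]

lemma G_mul_N {m : ℕ} {g h : PS} (hg : g ∈ G m) (hh : h ∈ N m) : g * h ∈ G m := by
  intro i hi
  rw [mul_ev, hh i hi, hg i hi]

lemma inv_mul_mem_N {m : ℕ} {g h : PS} (hg : g ∈ G m) (hh : h ∈ G m) : g⁻¹ * h ∈ N m := by
  intro i hi
  rw [mul_ev, hh i hi, ← hg i hi, inv_ev, iv_ev]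

lemma exists_N_subset {U : Set PS} (hU : U ∈ 𝓝 (1 : PS)) : ∃ m, N m ⊆ U := by
  rw [nhds_induced, Filter.mem_comap] at hU
  obtain ⟨V, hV, hVU⟩ := hU
  rw [nhds_prod_eq, Filter.mem_prod_iff] at hV
  obtain ⟨A, hA, B, hB, hAB⟩ := hV
  rw [nhds_pi, Filter.mem_pi] at hA hB
  obtain ⟨I, hI, s, hs, hIs⟩ := hA
  obtain ⟨J, hJ, t, ht, hJt⟩ := hB
  obtain ⟨k, hk⟩ := hI.bddAbove
  obtain ⟨l, hl⟩ := hJ.bddAbove
  refine ⟨k + l + 1, fun g hg => hVU (hAB ⟨hIs ?_, hJt ?_⟩)⟩
  · intro i hi
    have h1 : g.ev i = i := hg i (by have := hk hi; omega)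
    show g.ev i ∈ s i
    rw [h1]
    exact mem_of_mem_nhds (hs i)
  · intro i hi
    have h1 : g.iv i = i := by
      have := inv_mem_N hg i (by have := hl hi; omega)
      rwa [inv_ev] at this
    show g.iv i ∈ t i
    rw [h1]
    exact mem_of_mem_nhds (ht i)

lemma exists_mul_N_subset {U : Set PS} (hU : IsOpen U) {g : PS} (hg : g ∈ U) :
    ∃ m, ∀ h ∈ N m, g * h ∈ U := by
  have : (lmul g) ⁻¹' U ∈ 𝓝 (1 : PS) := by
    apply (hU.preimage (lmul g).continuous).mem_nhds
    show g * 1 ∈ U
    rwa [mul_one]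
  obtain ⟨m, hm⟩ := exists_N_subset this
  exact ⟨m, fun h hh => hm hh⟩

/-- The transposition of two numbers. -/
def sw (i j : ℕ) : PS := (Equiv.swap i j : Equiv.Perm ℕ)

lemma sw_left (i j : ℕ) : (sw i j).ev i = j := Equiv.swap_apply_left i j
lemma sw_ne {i j k : ℕ} (h1 : k ≠ i) (h2 : k ≠ j) : (sw i j).ev k = k :=
  Equiv.swap_apply_of_ne_of_ne h1 h2

lemma G_nonempty (m : ℕ) : (G m).Nonempty := by
  induction m with
  | zero => exact ⟨1, fun i hi => by omega⟩
  | succ m ih =>
    obtain ⟨g, hg⟩ := ih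
    refine ⟨sw (g.ev m) (2 * m) * g, ?_⟩
    intro i hi
    rw [mul_ev]
    by_cases h : i = m
    · subst h; exact sw_left _ _
    · have him : i < m := by omega
      have h1 : g.ev i ≠ g.ev m := fun h' => h (g.ev_inj h')
      have h2 : g.ev i ≠ 2 * m := by rw [hg i him]; omega
      rw [sw_ne h1 h2, hg i him]

section action

variable {Z : Type*} [TopologicalSpace Z]

/-- The action on sequences. -/
def act (z : ℕ → Z) (g : PS) : ℕ → Z := fun n => z (g.ev n)

omit [TopologicalSpace Z] in
lemma act_mul (z : ℕ → Z) (g h : PS) : act z (g * h) = act (act z g) h := rfl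
omit [TopologicalSpace Z] in
lemma act_one (z : ℕ → Z) : act z 1 = z := rfl

lemma continuous_act : Continuous (fun p : (ℕ → Z) × PS => act p.1 p.2) := by
  apply continuous_pi
  intro n
  exact continuous_eval.comp (continuous_fst.prodMk ((continuous_ev n).comp continuous_snd))

/-- The action of a permutation as a homeomorphism. -/
def actH (g : PS) : (ℕ → Z) ≃ₜ (ℕ → Z) where
  toFun := fun z => act z g
  invFun := fun z => act z g⁻¹
  left_inv := fun z => by
    show act (act z g) g⁻¹ = z
    rw [← act_mul]; simp [act_one]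
  right_inv := fun z => by
    show act (act z g⁻¹) g = z
    rw [← act_mul]; simp [act_one]
  continuous_toFun := continuous_act.comp (continuous_id.prodMk continuous_const)
  continuous_invFun := continuous_act.comp (continuous_id.prodMk continuous_const)

/-- The doubling map on sequences. -/
def dbl (z : ℕ → Z) : ℕ → Z := fun n => z (2 * n)

lemma continuous_dbl : Continuous (dbl (Z := Z)) := by
  apply continuous_pi
  intro n
  exact continuous_apply _

lemma isOpenMap_dbl : IsOpenMap (dbl (Z := Z)) := by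
  classical
  intro U hU
  rw [isOpen_iff_mem_nhds]
  rintro _ ⟨z, hz, rfl⟩
  have h1 := hU.mem_nhds hz
  rw [nhds_pi, Filter.mem_pi] at h1
  obtain ⟨I, hI, s, hs, hsU⟩ := h1
  rw [nhds_pi, Filter.mem_pi]
  refine ⟨{n | 2 * n ∈ I}, ?_, fun n => s (2 * n), fun n => hs (2 * n), ?_⟩
  · exact hI.preimage (fun a _ b _ h => by simpa using h)
  · intro y hy
    refine ⟨fun n => if n % 2 = 0 then y (n / 2) else z n, hsU ?_, ?_⟩
    · intro n hn
      show (if n % 2 = 0 then y (n / 2) else z n) ∈ s n
      split_ifs with h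
      · have h2 : 2 * (n / 2) = n := by omega
        have h3 : (n / 2) ∈ {n | 2 * n ∈ I} := by
          show 2 * (n / 2) ∈ I
          rwa [h2]
        have := hy (n / 2) h3
        simp only [h2] at this
        exact this
      · exact mem_of_mem_nhds (hs n)
    · funext n
      show (if (2 * n) % 2 = 0 then y ((2 * n) / 2) else z (2 * n)) = y n
      have h1 : (2 * n) % 2 = 0 := by omega
      have h2 : (2 * n) / 2 = n := by omega
      rw [if_pos h1, h2]

end action

end PS

end Pool.Agent.Helper56.Cat
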