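import Pool.Agent.Helper56.Category
import Pool.Agent.Helper56.PermTop

set_option autoImplicit false

open Topology Set Filter TopologicalSpace MeasureTheory

namespace Pool.Agent.Helper56.Cat

open PS

section general

variable {α β : Type*} [TopologicalSpace α] [TopologicalSpace β]

/-- Borel functions are continuous on a comeager set. -/
theorem exists_continuousOn [MeasurableSpace α] [BorelSpace α] [MeasurableSpace β] [BorelSpace β]
    [SecondCountableTopology β] {F : α → β} (hF : Measurable F) :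
    ∃ C ∈ residual α, ContinuousOn F C := by
  have h1 : ∀ V ∈ countableBasis β, ∃ U : Set α, IsOpen U ∧ {x | x ∈ F ⁻¹' V ↔ x ∈ U} ∈ residual α := by
    intro V hV
    obtain ⟨U, hU, h⟩ := (hF (isOpen_of_mem_countableBasis hV).measurableSet).residualEq_isOpen
    refine ⟨U, hU, ?_⟩
    filter_upwards [h] with x hx
    exact iff_of_eq hx
  choose! U hUo hU using h1
  refine ⟨⋂ V ∈ countableBasis β, {x | x ∈ F ⁻¹' V ↔ x ∈ U V}, ?_, ?_⟩
  · rw [countable_bInter_mem (countable_countableBasis β)]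
    exact hU
  · intro x hx
    rw [ContinuousWithinAt, (isBasis_countableBasis β).nhds_hasBasis.tendsto_right_iff]
    rintro V ⟨hV, hxV⟩
    simp only [mem_iInter] at hx
    have hxU : x ∈ U V := (hx V hV).1 hxV
    filter_upwards [mem_nhdsWithin_of_mem_nhds ((hUo V hV).mem_nhds hxU), self_mem_nhdsWithin]
      with y hy hyC
    simp only [mem_iInter] at hyC
    exact (hyC V hV).2 hy

lemma residual_fst {s : Set α} (hs : s ∈ residual α) :
    {p : α × β | p.1 ∈ s} ∈ residual (α × β) :=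
  tendsto_residual_of_isOpenMap continuous_fst isOpenMap_fst hs

lemma residual_snd {s : Set β} (hs : s ∈ residual β) :
    {p : α × β | p.2 ∈ s} ∈ residual (α × β) :=
  tendsto_residual_of_isOpenMap continuous_snd isOpenMap_snd hs

lemma residual_homeo (e : α ≃ₜ β) {s : Set β} (hs : s ∈ residual β) :
    e ⁻¹' s ∈ residual α :=
  tendsto_residual_of_isOpenMap e.continuous e.isOpenMap hs

lemma exists_mem_of_residual [BaireSpace α] {s U : Set α} (hs : s ∈ residual α) (hU : IsOpen U)
    (hn : U.Nonempty) : ∃ x ∈ U, x ∈ s := by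
  obtain ⟨x, hx⟩ := (dense_of_mem_residual hs).inter_open_nonempty U hU hn
  exact ⟨x, hx.1, hx.2⟩

/-- The largest open set in which `S` is comeager. -/
def O (S : Set α) : Set α := {x | ∃ U, IsOpen U ∧ x ∈ U ∧ {y | y ∈ U → y ∈ S} ∈ residual α}

lemma isOpen_O (S : Set α) : IsOpen (O S) := by
  rw [isOpen_iff_forall_mem_open]
  rintro x ⟨U, hU, hxU, h⟩
  exact ⟨U, fun y hy => ⟨U, hU, hy, h⟩, hU, hxU⟩

lemma O_subset [SecondCountableTopology α] (S : Set α) : {y | y ∈ O S → y ∈ S} ∈ residual α := by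
  have h : (⋂ V ∈ {V ∈ countableBasis α | {y | y ∈ V → y ∈ S} ∈ residual α},
      {y | y ∈ V → y ∈ S}) ∈ residual α := by
    rw [countable_bInter_mem ((countable_countableBasis α).mono (sep_subset _ _))]
    intro V hV
    exact hV.2
  filter_upwards [h] with y hy hyO
  obtain ⟨U, hU, hyU, hr⟩ := hyO
  obtain ⟨V, hV, hyV, hVU⟩ := (isBasis_countableBasis α).exists_subset_of_mem_open hyU hU
  simp only [mem_iInter] at hy
  refine hy V ⟨hV, ?_⟩ hyV
  filter_upwards [hr] with z hz hzV
  exact hz (hVU hzV)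

lemma subset_O {S : Set α} (hS : BaireMeasurableSet S) : {y | y ∈ S → y ∈ O S} ∈ residual α := by
  obtain ⟨U, hU, h⟩ := hS.residualEq_isOpen
  have h' : {x | x ∈ S ↔ x ∈ U} ∈ residual α := by
    filter_upwards [h] with x hx
    exact iff_of_eq hx
  filter_upwards [h'] with y hy hyS
  refine ⟨U, hU, hy.1 hyS, ?_⟩
  filter_upwards [h'] with z hz
  exact hz.2

lemma O_homeo (e : α ≃ₜ α) (S : Set α) (h : ∀ x, x ∈ S → e x ∈ S) {x : α} (hx : x ∈ O S) :
    e x ∈ O S := by
  obtain ⟨U, hU, hxU, hr⟩ := hx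
  refine ⟨e.symm ⁻¹' U, hU.preimage e.symm.continuous, by simpa using hxU, ?_⟩
  filter_upwards [residual_homeo e.symm hr] with y hy hyU
  have := h _ (hy hyU)
  simpa using this

end general

section metricgroup

variable {H : Type*} [Group H] [MetricSpace H]

/-- A metric group whose metric is bi-invariant, complete and separable. -/
structure TSI (H : Type*) [Group H] [MetricSpace H] : Prop where
  complete : CompleteSpace H
  sep : SeparableSpace H
  left : ∀ a b c : H, dist (a * b) (a * c) = dist b c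
  right : ∀ a b c : H, dist (a * c) (b * c) = dist a b

lemma TSI.continuousMul (hH : TSI H) : ContinuousMul H := by
  constructor
  rw [Metric.continuous_iff]
  rintro ⟨a, b⟩ ε hε
  refine ⟨ε / 2, half_pos hε, ?_⟩
  rintro ⟨a', b'⟩ h
  rw [Prod.dist_eq] at h
  have h1 : dist a' a < ε / 2 := lt_of_le_of_lt (le_max_left _ _) h
  have h2 : dist b' b < ε / 2 := lt_of_le_of_lt (le_max_right _ _) h
  calc dist (a' * b') (a * b) ≤ dist (a' * b') (a' * b) + dist (a' * b) (a * b) :=
        dist_triangle _ _ _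
    _ = dist b' b + dist a' a := by rw [hH.left, hH.right]
    _ < ε := by linarith

lemma TSI.dist_inv (hH : TSI H) (a b : H) : dist a⁻¹ b⁻¹ = dist a b := by
  have h1 := hH.left a a⁻¹ b⁻¹
  have h2 := hH.right (a * a⁻¹) (a * b⁻¹) b
  have h3 : a * a⁻¹ * b = b := by group
  have h4 : a * b⁻¹ * b = a := by group
  rw [h3, h4] at h2
  rw [← h1, ← h2, dist_comm]

lemma TSI.continuousInv (hH : TSI H) : ContinuousInv H := by
  constructor
  rw [Metric.continuous_iff]
  intro a ε hε
  exact ⟨ε, hε, fun b hb => by rwa [hH.dist_inv]⟩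

/-- Conjugacy by an element close to the identity. -/
def R (ε : ℝ) (a b : H) : Prop := ∃ h : H, dist h 1 < ε ∧ h * a = b * h

lemma analytic_R (hH : TSI H) [MeasurableSpace H] [BorelSpace H] {A : Type*} [TopologicalSpace A]
    [PolishSpace A] [MeasurableSpace A] [BorelSpace A] (φ ψ : A → H) (hφ : Measurable φ)
    (hψ : Measurable ψ) (ε : ℝ) (k : H) :
    AnalyticSet {a | ∃ v, dist v 1 < ε ∧ (v * k) * φ a = ψ a * (v * k)} := by
  have := hH.complete
  have := hH.sep
  have : SecondCountableTopology H := UniformSpace.secondCountable_of_separable H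
  have := hH.continuousMul
  have e : {a | ∃ v, dist v 1 < ε ∧ (v * k) * φ a = ψ a * (v * k)} =
      Prod.fst '' {p : A × H | dist p.2 1 < ε ∧ (p.2 * k) * φ p.1 = ψ p.1 * (p.2 * k)} := by
    ext a
    constructor
    · rintro ⟨v, hv⟩
      exact ⟨(a, v), hv, rfl⟩
    · rintro ⟨⟨a', v⟩, hv, rfl⟩
      exact ⟨v, hv⟩
  rw [e]
  apply MeasurableSet.analyticSet_image _ measurable_fst
  apply MeasurableSet.inter
  · exact measurableSet_lt (measurable_snd.dist measurable_const) measurable_const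
  · apply measurableSet_eq_fun
    · exact (measurable_snd.mul_const k).mul (hφ.comp measurable_fst)
    · exact (hψ.comp measurable_fst).mul (measurable_snd.mul_const k)

lemma bp_R (hH : TSI H) [MeasurableSpace H] [BorelSpace H] {A : Type*} [TopologicalSpace A]
    [PolishSpace A] [MeasurableSpace A] [BorelSpace A] (φ ψ : A → H) (hφ : Measurable φ)
    (hψ : Measurable ψ) (ε : ℝ) (k : H) :
    BaireMeasurableSet {a | ∃ v, dist v 1 < ε ∧ (v * k) * φ a = ψ a * (v * k)} :=
  analytic_bp (analytic_R hH φ ψ hφ hψ ε k)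

end metricgroup

section main

variable {Z : Type*} [TopologicalSpace Z]
variable {H : Type*} [Group H] [MetricSpace H]

/-- The basic notion of the proof. -/
def Good (F : (ℕ → Z) → H) (m : ℕ) (ε : ℝ) (y : ℕ → Z) : Prop :=
  {p : PS × PS | p.1 ∈ N m → p.2 ∈ N m → R ε (F (act y p.1)) (F (act y p.2))} ∈
    residual (PS × PS)

omit [TopologicalSpace Z] in
lemma Good.mono {F : (ℕ → Z) → H} {m n : ℕ} (h : m ≤ n) {ε : ℝ} {y : ℕ → Z}
    (hg : Good F m ε y) : Good F n ε y := by
  unfold Good at hg ⊢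
  filter_upwards [hg] with p hp h1 h2
  exact hp (N_mono h h1) (N_mono h h2)

omit [TopologicalSpace Z] in
lemma Good.act {F : (ℕ → Z) → H} {m : ℕ} {ε : ℝ} {y : ℕ → Z} {g : PS} (hg : g ∈ N m)
    (h : Good F m ε y) : Good F m ε (act y g) := by
  unfold Good at h ⊢
  have := residual_homeo ((lmul g).prodCongr (lmul g)) h
  filter_upwards [this] with p hp h1 h2
  exact hp (mul_mem_N hg h1) (mul_mem_N hg h2)

lemma R_of {hH : TSI H} {ε : ℝ} {a b c k v v' : H} (hv : dist v 1 < ε / 2) (hv' : dist v' 1 < ε / 2)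
    (h1 : (v * k) * a = b * (v * k)) (h2 : (v' * k) * a = c * (v' * k)) : R ε b c := by
  refine ⟨v' * v⁻¹, ?_, ?_⟩
  · have h3 := hH.right (v' * v⁻¹) 1 v
    have h4 : v' * v⁻¹ * v = v' := by group
    rw [h4, one_mul] at h3
    rw [← h3]
    calc dist v' v ≤ dist v' 1 + dist 1 v := dist_triangle _ _ _
      _ < ε := by rw [dist_comm 1 v]; linarith
  · have h3 : b = v * k * a * (v * k)⁻¹ := eq_mul_inv_of_mul_eq h1.symm
    have h4 : c = v' * k * a * (v' * k)⁻¹ := eq_mul_inv_of_mul_eq h2.symm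
    rw [h3, h4]
    group

variable [PolishSpace Z] [MeasurableSpace Z] [BorelSpace Z]
variable [MeasurableSpace H] [BorelSpace H]

lemma step1 (hH : TSI H) {F : (ℕ → Z) → H} (hF : Measurable F) (y : ℕ → Z)
    (hy : ∀ g g' : PS, ∃ h, h * F (act y g) = F (act y g') * h) {ε : ℝ} (hε : 0 < ε) :
    {g | ∃ m, Good F m ε (act y g)} ∈ residual PS := by
  have := hH.sep
  borelize PS
  have : Nonempty H := ⟨1⟩
  let k := denseSeq H
  let W : ℕ → Set (PS × PS) := fun i => {p | ∃ v, dist v 1 < ε / 2 ∧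
    (v * k i) * F (act y p.1) = F (act y p.2) * (v * k i)}
  have hcont : Continuous (fun g : PS => act y g) :=
    continuous_act.comp (continuous_const.prodMk continuous_id)
  have hWbp : ∀ i, BaireMeasurableSet (W i) := by
    intro i
    exact bp_R hH _ _ (hF.comp (hcont.measurable.comp measurable_fst))
      (hF.comp (hcont.measurable.comp measurable_snd)) (ε / 2) (k i)
  have hWu : ∀ p : PS × PS, ∃ i, p ∈ W i := by
    rintro ⟨g, g'⟩
    obtain ⟨h, hh⟩ := hy g g'
    obtain ⟨i, hi⟩ := Metric.denseRange_iff.1 (denseRange_denseSeq H) h (ε / 2) (half_pos hε)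
    refine ⟨i, h * (k i)⁻¹, ?_, ?_⟩
    · have h3 := hH.right (h * (k i)⁻¹) 1 (k i)
      have h4 : h * (k i)⁻¹ * k i = h := by group
      rw [h4, one_mul] at h3
      rw [← h3]
      exact hi
    · have h4 : h * (k i)⁻¹ * k i = h := by group
      rw [h4]
      exact hh
  have hopen : IsOpen {g : PS | ∃ U, IsOpen U ∧ g ∈ U ∧ ∀ g₀ ∈ U, ∃ m, Good F m ε (act y g₀)} := by
    rw [isOpen_iff_forall_mem_open]
    rintro g ⟨U, hU, hgU, h⟩
    exact ⟨U, fun g' hg' => ⟨U, hU, hg', h⟩, hU, hgU⟩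
  have hdense : Dense {g : PS | ∃ U, IsOpen U ∧ g ∈ U ∧ ∀ g₀ ∈ U, ∃ m, Good F m ε (act y g₀)} := by
    rw [dense_iff_inter_open]
    intro U hU hUn
    -- some `W i` is nonmeager in `U × U`
    have hi : ∃ i, (O (W i) ∩ U ×ˢ U).Nonempty := by
      by_contra hcon
      push Not at hcon
      have h1 : (⋂ i, {p | p ∈ W i → p ∈ O (W i)}) ∈ residual (PS × PS) := by
        rw [countable_iInter_mem]
        exact fun i => subset_O (hWbp i)
      obtain ⟨p, hpU, hp⟩ := exists_mem_of_residual h1 (hU.prod hU) (hUn.prod hUn)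
      obtain ⟨i, hi⟩ := hWu p
      simp only [mem_iInter] at hp
      have h2 := hp i hi
      have : p ∈ O (W i) ∩ U ×ˢ U := ⟨h2, hpU⟩
      rw [hcon i] at this
      exact this
    obtain ⟨i, p, hpO, hpU⟩ := hi
    obtain ⟨V, hV, hpV, hVW⟩ := hpO
    obtain ⟨U₁, U₂, hU₁, hU₂, hp1, hp2, hUV⟩ :=
      isOpen_prod_iff.1 (hV.inter (hU.prod hU)) p.1 p.2 ⟨hpV, hpU⟩
    have hku := ku hVW
    obtain ⟨g, hgU, hg⟩ := exists_mem_of_residual hku hU₁ ⟨p.1, hp1⟩
    refine ⟨p.2, hpU.2, U₂, hU₂, hp2, ?_⟩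
    intro g₀ hg₀
    obtain ⟨m, hm⟩ := exists_mul_N_subset hU₂ hg₀
    refine ⟨m, ?_⟩
    have hC := residual_homeo (lmul g₀) hg
    unfold Good
    filter_upwards [residual_fst (β := PS) hC, residual_snd (α := PS) hC] with q hq1 hq2 hN1 hN2
    have h1 : g₀ * q.1 ∈ U₂ := hm _ hN1
    have h2 : g₀ * q.2 ∈ U₂ := hm _ hN2
    have h3 : (g, g₀ * q.1) ∈ W i := hq1 (hUV ⟨hgU, h1⟩).1
    have h4 : (g, g₀ * q.2) ∈ W i := hq2 (hUV ⟨hgU, h2⟩).1
    obtain ⟨v, hv, hv2⟩ := h3
    obtain ⟨v', hv', hv2'⟩ := h4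
    exact R_of (hH := hH) hv hv' hv2 hv2'
  filter_upwards [residual_of_dense_open hopen hdense] with g hg
  obtain ⟨U, hU, hgU, h⟩ := hg
  exact h g hgU

lemma step2 (hH : TSI H) {F : (ℕ → Z) → H} (hF : Measurable F) (m : ℕ) (ε : ℝ) :
    BaireMeasurableSet {y | Good F m ε y} := by
  borelize PS
  let A : Set ((ℕ → Z) × (PS × PS)) := {q | R ε (F (act q.1 q.2.1)) (F (act q.1 q.2.2))}
  have hA : BaireMeasurableSet A := by
    have h1 : Measurable (fun q : (ℕ → Z) × (PS × PS) => act q.1 q.2.1) :=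
      (continuous_act.comp (continuous_fst.prodMk (continuous_fst.comp continuous_snd))).measurable
    have h2 : Measurable (fun q : (ℕ → Z) × (PS × PS) => act q.1 q.2.2) :=
      (continuous_act.comp (continuous_fst.prodMk (continuous_snd.comp continuous_snd))).measurable
    have := bp_R hH _ _ (hF.comp h1) (hF.comp h2) ε 1
    simp only [mul_one] at this
    exact this
  obtain ⟨O', hO', hAO⟩ := hA.residualEq_isOpen
  have hAO' : {q | q ∈ A ↔ q ∈ O'} ∈ residual _ := by
    filter_upwards [hAO] with x hx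
    exact iff_of_eq hx
  have hku := ku hAO'
  let Q : Set (PS × PS) → Set (ℕ → Z) :=
    fun V => {y | ∃ p ∈ V, (p.1 ∈ N m → p.2 ∈ N m → (y, p) ∈ O')}
  let T : Set (ℕ → Z) := ⋂ V ∈ countableBasis (PS × PS), Q V
  have hNN : ∀ y : ℕ → Z, IsOpen {p : PS × PS | p.1 ∈ N m → p.2 ∈ N m → (y, p) ∈ O'} := by
    intro y
    have : {p : PS × PS | p.1 ∈ N m → p.2 ∈ N m → (y, p) ∈ O'} =
        (Prod.fst ⁻¹' (N m)ᶜ) ∪ (Prod.snd ⁻¹' (N m)ᶜ) ∪ ((fun p => (y, p)) ⁻¹' O') := by
      ext p
      simp only [mem_ofPred_eq, mem_union, mem_preimage, mem_compl_iff]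
      tauto
    rw [this]
    exact (((isClosed_N m).isOpen_compl.preimage continuous_fst).union
      ((isClosed_N m).isOpen_compl.preimage continuous_snd)).union
      (hO'.preimage (by fun_prop))
  have hQ : ∀ V, IsOpen (Q V) := by
    intro V
    have : Q V = ⋃ p ∈ V, {y | p.1 ∈ N m → p.2 ∈ N m → (y, p) ∈ O'} := by
      ext y; simp [Q]
    rw [this]
    apply isOpen_biUnion
    intro p _
    by_cases h1 : p.1 ∈ N m <;> by_cases h2 : p.2 ∈ N m <;> simp only [h1, h2, true_implies,
      false_implies]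
    · exact hO'.preimage (by fun_prop)
    all_goals exact isOpen_univ
  have hT : BaireMeasurableSet T := by
    apply BaireMeasurableSet.biInter (countable_countableBasis _)
    intro V _
    exact (hQ V).baireMeasurableSet
  apply hT.congr
  filter_upwards [hku] with y hy
  apply propext
  show y ∈ T ↔ Good F m ε y
  have e1 : Good F m ε y ↔
      {p : PS × PS | p.1 ∈ N m → p.2 ∈ N m → (y, p) ∈ O'} ∈ residual (PS × PS) := by
    constructor
    · intro h
      unfold Good at h
      filter_upwards [h, hy] with p hp hp2 h1 h2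
      exact hp2.1 (hp h1 h2)
    · intro h
      unfold Good
      filter_upwards [h, hy] with p hp hp2 h1 h2
      exact hp2.2 (hp h1 h2)
  rw [e1]
  constructor
  · intro h
    apply residual_of_dense_open (hNN y)
    rw [(isBasis_countableBasis (PS × PS)).dense_iff]
    intro V hV _
    simp only [T, mem_iInter] at h
    exact h V hV
  · intro h
    simp only [T, mem_iInter]
    intro V hV
    obtain ⟨p, hp, hp2⟩ := exists_mem_of_residual h (isOpen_of_mem_countableBasis hV)
      (nonempty_of_mem_countableBasis hV)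
    exact ⟨p, hp, hp2⟩

omit [PolishSpace Z] [MeasurableSpace Z] [BorelSpace Z] in
lemma transfer {m : ℕ} {O : Set (ℕ → Z)} (hO : IsOpen O)
    (hinv : ∀ g ∈ N m, ∀ x ∈ O, act x g ∈ O) {x x' : ℕ → Z} (hx : x ∈ O)
    (h : ∀ i < m, x' i = x i)
    (hd : ∀ V : Set Z, IsOpen V → V.Nonempty → ∀ k, ∃ j ≥ k, x' j ∈ V) : x' ∈ O := by
  have key : ∀ V : ℕ → Set Z, (∀ i, IsOpen (V i)) → (∀ i, x i ∈ V i) → ∀ n : ℕ,
      ∃ g ∈ N m, ∀ i < m + n, act x' g i ∈ V i := by
    intro V hV hxV n
    induction n with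
    | zero =>
      refine ⟨1, one_mem_N m, fun i hi => ?_⟩
      rw [act_one, h i hi]
      exact hxV i
    | succ n ih =>
      obtain ⟨g, hg, hgV⟩ := ih
      obtain ⟨j', hj', hj'V⟩ := hd (V (m + n)) (hV _) ⟨_, hxV _⟩
        ((Finset.range (m + n)).sup g.ev + 1)
      have hj : m + n ≤ g.iv j' := by
        by_contra hlt
        push Not at hlt
        have h1 : g.ev (g.iv j') ≤ (Finset.range (m + n)).sup g.ev :=
          Finset.le_sup (f := g.ev) (Finset.mem_range.2 hlt)
        rw [ev_iv] at h1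
        omega
      refine ⟨g * sw (m + n) (g.iv j'), ?_, ?_⟩
      · apply mul_mem_N hg
        intro i hi
        apply sw_ne <;> omega
      · intro i hi
        show x' (g.ev ((sw (m + n) (g.iv j')).ev i)) ∈ V i
        by_cases hin : i = m + n
        · subst hin
          rw [sw_left, ev_iv]
          exact hj'V
        · rw [sw_ne hin (by omega)]
          exact hgV i (by omega)
  have h1 := hO.mem_nhds hx
  rw [nhds_pi, Filter.mem_pi] at h1
  obtain ⟨I, hI, s, hs, hsO⟩ := h1
  obtain ⟨k, hk⟩ := hI.bddAbove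
  obtain ⟨g, hg, hgV⟩ := key (fun i => interior (s i)) (fun i => isOpen_interior)
    (fun i => mem_interior_iff_mem_nhds.2 (hs i)) (k + 1)
  have h2 : act x' g ∈ O := hsO (fun i hi => interior_subset (hgV i (by have := hk hi; omega)))
  have h3 := hinv g⁻¹ (inv_mem_N hg) _ h2
  rwa [← act_mul, mul_inv_cancel, act_one] at h3

/-- The main theorem on `TSI` groups. -/
theorem main (hH : TSI H) {F : (ℕ → Z) → H} (hF : Measurable F) {D : Set (ℕ → Z)}
    (hD : D ∈ residual (ℕ → Z))
    (hDF : ∀ y ∈ D, ∀ g g' : PS, ∃ h, h * F (act y g) = F (act y g') * h)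
    (hZ : {z : ℕ → Z | ∀ V : Set Z, IsOpen V → V.Nonempty → ∀ k, ∃ j ≥ k, z j ∈ V} ∈
      residual (ℕ → Z)) :
    {z : ℕ → Z | ∃ h, h * F z = F (dbl z) * h} ∈ residual (ℕ → Z) := by
  have := hH.complete
  have := hH.sep
  have : SecondCountableTopology H := UniformSpace.secondCountable_of_separable H
  have := hH.continuousMul
  have := hH.continuousInv
  obtain ⟨C, hC, hFC⟩ := exists_continuousOn hF
  let ε : ℕ → ℝ := fun k => (1 / 2) ^ k
  have hε : ∀ k, 0 < ε k := fun k => by positivity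
  let S : ℕ → ℕ → Set (ℕ → Z) := fun m k => {y | Good F m (ε k) y}
  have hS : ∀ m k, BaireMeasurableSet (S m k) := fun m k => step2 hH hF m (ε k)
  have hOinv : ∀ m k, ∀ g ∈ N m, ∀ x ∈ O (S m k), act x g ∈ O (S m k) := by
    intro m k g hg x hx
    exact O_homeo (actH g) (S m k) (fun x hx => Good.act hg hx) hx
  -- `⋂ k, ⋃ m, S m k` is comeager
  have hG : {y | ∀ k, ∃ m, y ∈ S m k} ∈ residual (ℕ → Z) := by
    have : {y | ∀ k, ∃ m, y ∈ S m k} = ⋂ k, {y | ∃ m, y ∈ S m k} := by
      ext y; simp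
    rw [this, countable_iInter_mem]
    intro k
    have hbp : BaireMeasurableSet {y | ∃ m, y ∈ S m k} := by
      have : {y | ∃ m, y ∈ S m k} = ⋃ m, S m k := by ext y; simp
      rw [this]
      exact BaireMeasurableSet.iUnion (fun m => hS m k)
    set G := {y | ∃ m, y ∈ S m k} with hGdef
    -- the complement is nowhere comeager
    have h1 : {y | y ∈ Gᶜ → y ∈ O Gᶜ} ∈ residual (ℕ → Z) := subset_O hbp.compl
    have h2 : O Gᶜ = ∅ := by
      by_contra hne
      obtain ⟨x, U, hU, hxU, hr⟩ := nonempty_iff_ne_empty.2 hne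
      have h3 := mem_residual_of_sections (fun p : (ℕ → Z) × PS => act p.1 p.2) continuous_act
        (fun g W _ hW => by
          have := hW.preimage (actH (Z := Z) g).isOpenMap
          exact this) hr
      have h4 := ku h3
      have h5 : (D ∩ {a | {b | (a, b) ∈ (fun p : (ℕ → Z) × PS => act p.1 p.2) ⁻¹'
        {y | y ∈ U → y ∈ Gᶜ}} ∈ residual PS}) ∈ residual (ℕ → Z) := inter_mem hD h4
      obtain ⟨z, hzU, hzD, hz⟩ := exists_mem_of_residual h5 hU ⟨x, hxU⟩
      have h6 := step1 hH hF z (hDF z hzD) (hε k)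
      have hopen : IsOpen {g : PS | act z g ∈ U} :=
        hU.preimage (continuous_act.comp (continuous_const.prodMk continuous_id))
      obtain ⟨g, hgU, hg⟩ := exists_mem_of_residual (inter_mem hz h6) hopen ⟨1, hzU⟩
      exact hg.1 hgU hg.2
    filter_upwards [h1] with y hy
    by_contra hyG
    have := hy hyG
    rw [h2] at this
    exact this
  have hdbl : ∀ {s : Set (ℕ → Z)}, s ∈ residual (ℕ → Z) → {z | dbl z ∈ s} ∈ residual (ℕ → Z) :=
    fun hs => tendsto_residual_of_isOpenMap continuous_dbl isOpenMap_dbl hs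
  have hact : ∀ {s : Set (ℕ → Z)}, s ∈ residual (ℕ → Z) →
      {z | {g | act z g ∈ s} ∈ residual PS} ∈ residual (ℕ → Z) := by
    intro s hs
    have h3 := mem_residual_of_sections (fun p : (ℕ → Z) × PS => act p.1 p.2) continuous_act
        (fun g W _ hW => by
          have := hW.preimage (actH (Z := Z) g).isOpenMap
          exact this) hs
    exact ku h3
  -- the generic conditions
  have c1 := hdbl hC
  have c2 := hact hC
  have c3 := hdbl hG
  have c4 : {z : ℕ → Z | ∀ m k, dbl z ∈ S m k → dbl z ∈ O (S m k)} ∈ residual (ℕ → Z) := by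
    have : {z : ℕ → Z | ∀ m k, dbl z ∈ S m k → dbl z ∈ O (S m k)} =
        ⋂ m, ⋂ k, {z | dbl z ∈ S m k → dbl z ∈ O (S m k)} := by
      ext z; simp
    rw [this, countable_iInter_mem]
    intro m
    rw [countable_iInter_mem]
    intro k
    exact hdbl (subset_O (hS m k))
  have c5 : {z : ℕ → Z | ∀ m k, {g | act z g ∈ O (S m k) → act z g ∈ S m k} ∈ residual PS} ∈
      residual (ℕ → Z) := by
    have : {z : ℕ → Z | ∀ m k, {g | act z g ∈ O (S m k) → act z g ∈ S m k} ∈ residual PS} =
        ⋂ m, ⋂ k, {z | {g | act z g ∈ O (S m k) → act z g ∈ S m k} ∈ residual PS} := by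
      ext z; simp
    rw [this, countable_iInter_mem]
    intro m
    rw [countable_iInter_mem]
    intro k
    exact hact (O_subset (S m k))
  filter_upwards [c1, c2, c3, c4, c5, hD, hZ] with z z1 z2 z3 z4 z5 zD zZ
  -- choose the levels
  choose μ hμ using z3
  let M : ℕ → ℕ := fun k => (Finset.range (k + 1)).sup μ + k
  have hM1 : ∀ k, μ k ≤ M k := fun k =>
    (Finset.le_sup (f := μ) (Finset.mem_range.2 (Nat.lt_succ_self k))).trans (Nat.le_add_right _ _)
  have hM2 : ∀ k, k ≤ M k := fun k => Nat.le_add_left _ _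
  have hM3 : ∀ k, M k ≤ M (k + 1) := by
    intro k
    have : (Finset.range (k + 1)).sup μ ≤ (Finset.range (k + 1 + 1)).sup μ :=
      Finset.sup_mono (Finset.range_mono (Nat.le_succ _))
    simp only [M]
    omega
  have hMS : ∀ k, dbl z ∈ S (M k) k := fun k => Good.mono (hM1 k) (hμ k)
  -- the permutations at level `k`
  have hlev : ∀ k, {q : PS × PS | q.1 ∈ G (M k) → q.2 ∈ G (M k) →
      R (ε k) (F (act z q.1)) (F (act z q.2))} ∈ residual (PS × PS) := by
    intro k
    have h1 : ∀ g ∈ G (M k), act z g ∈ O (S (M k) k) := by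
      intro g hg
      apply transfer (isOpen_O _) (hOinv (M k) k) (z4 _ _ (hMS k))
      · intro i hi
        show z (g.ev i) = z (2 * i)
        rw [hg i hi]
      · intro V hV hVn l
        obtain ⟨j', hj', hj'V⟩ := zZ V hV hVn ((Finset.range l).sup g.ev + 1)
        refine ⟨g.iv j', ?_, ?_⟩
        · by_contra hlt
          push Not at hlt
          have h1 : g.ev (g.iv j') ≤ (Finset.range l).sup g.ev :=
            Finset.le_sup (f := g.ev) (Finset.mem_range.2 hlt)
          rw [ev_iv] at h1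
          omega
        · show z (g.ev (g.iv j')) ∈ V
          rwa [ev_iv]
    obtain ⟨g₀, hg₀, hg₀S⟩ := exists_mem_of_residual (z5 (M k) k) (isOpen_G (M k)) (G_nonempty (M k))
    have h2 : Good F (M k) (ε k) (act z g₀) := hg₀S (h1 g₀ hg₀)
    unfold Good at h2
    have h3 := residual_homeo ((lmul g₀⁻¹).prodCongr (lmul g₀⁻¹)) h2
    filter_upwards [h3] with q hq hq1 hq2
    have h4 := hq (inv_mul_mem_N hg₀ hq1) (inv_mul_mem_N hg₀ hq2)
    have e : ∀ p : PS, act (act z g₀) (g₀⁻¹ * p) = act z p := by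
      intro p
      rw [← act_mul]
      congr 1
      group
    have h5 : R (ε k) (F (act (act z g₀) (g₀⁻¹ * q.1))) (F (act (act z g₀) (g₀⁻¹ * q.2))) := h4
    rwa [e, e] at h5
  let E : ℕ → Set PS := fun k => {g | {g' | g ∈ G (M k) → g' ∈ G (M k) →
      R (ε k) (F (act z g)) (F (act z g'))} ∈ residual PS}
  have hE : ∀ k, E k ∈ residual PS := fun k => ku (hlev k)
  -- the sequence of permutations
  have hstep : ∀ k (g : PS), g ∈ G (M k) ∧ g ∈ E k ∧ act z g ∈ C →
      ∃ g' : PS, (g' ∈ G (M (k + 1)) ∧ g' ∈ E (k + 1) ∧ act z g' ∈ C) ∧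
        R (ε k) (F (act z g)) (F (act z g')) := by
    rintro k g ⟨h1, h2, h3⟩
    obtain ⟨g', hg', hg'2⟩ := exists_mem_of_residual (inter_mem (inter_mem (hE (k + 1)) z2) h2)
      (isOpen_G (M (k + 1))) (G_nonempty (M (k + 1)))
    exact ⟨g', ⟨hg', hg'2.1.1, hg'2.1.2⟩, hg'2.2 h1 (G_mono (hM3 k) hg')⟩
  obtain ⟨g₀, hg₀, hg₀2⟩ := exists_mem_of_residual (inter_mem (hE 0) z2)
      (isOpen_G (M 0)) (G_nonempty (M 0))
  choose! nx hnx hnxR using hstep
  let g : ℕ → PS := fun k => Nat.rec g₀ (fun k g => nx k g) k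
  have hg0 : g 0 = g₀ := rfl
  have hgs : ∀ k, g (k + 1) = nx k (g k) := fun k => rfl
  have hgP : ∀ k, g k ∈ G (M k) ∧ g k ∈ E k ∧ act z (g k) ∈ C := by
    intro k
    induction k with
    | zero => exact ⟨hg₀, hg₀2.1, hg₀2.2⟩
    | succ k ih => rw [hgs]; exact hnx k _ ih
  have hgR : ∀ k, R (ε k) (F (act z (g k))) (F (act z (g (k + 1)))) := by
    intro k
    rw [hgs]
    exact hnxR k _ (hgP k)
  choose v hv hvF using hgR
  let w : ℕ → H := fun k => Nat.rec 1 (fun k w => v k * w) k
  have hw0 : w 0 = 1 := rfl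
  have hws : ∀ k, w (k + 1) = v k * w k := fun k => rfl
  have hwF : ∀ k, w k * F (act z (g 0)) = F (act z (g k)) * w k := by
    intro k
    induction k with
    | zero => rw [hw0, one_mul, mul_one]
    | succ k ih =>
      rw [hws, mul_assoc, ih, ← mul_assoc, hvF, mul_assoc]
  have hwC : CauchySeq w := by
    apply cauchySeq_of_le_geometric (1 / 2) 1 (by norm_num)
    intro k
    rw [hws, dist_comm, one_mul]
    have h3 := hH.right (v k) 1 (w k)
    rw [one_mul] at h3
    rw [h3]
    exact (hv k).le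
  obtain ⟨wl, hwl⟩ := cauchySeq_tendsto_of_complete hwC
  -- convergence of the sequences
  have hzg : Tendsto (fun k => act z (g k)) atTop (𝓝 (dbl z)) := by
    rw [tendsto_pi_nhds]
    intro n
    apply tendsto_const_nhds.congr'
    filter_upwards [eventually_gt_atTop n] with k hk
    show z (2 * n) = z ((g k).ev n)
    rw [(hgP k).1 n (lt_of_lt_of_le hk (hM2 k))]
  have hFl : Tendsto (fun k => F (act z (g k))) atTop (𝓝 (F (dbl z))) := by
    have h1 : ContinuousWithinAt F C (dbl z) := hFC _ z1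
    apply h1.tendsto.comp
    rw [tendsto_nhdsWithin_iff]
    exact ⟨hzg, Eventually.of_forall (fun k => (hgP k).2.2)⟩
  have hlim : wl * F (act z (g 0)) = F (dbl z) * wl := by
    have h1 : Tendsto (fun k => w k * F (act z (g 0))) atTop (𝓝 (wl * F (act z (g 0)))) :=
      hwl.mul_const _
    have h2 : Tendsto (fun k => F (act z (g k)) * w k) atTop (𝓝 (F (dbl z) * wl)) := hFl.mul hwl
    apply tendsto_nhds_unique h1
    apply h2.congr
    intro k
    exact (hwF k).symm
  obtain ⟨h, hh⟩ := hDF z zD 1 (g 0)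
  rw [act_one] at hh
  refine ⟨wl * h, ?_⟩
  rw [mul_assoc, hh, ← mul_assoc, hlim, mul_assoc]

end main

end Pool.Agent.Helper56.Cat
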