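import Pool.Agent.Helper56.AutBasic
import Pool.Agent.Helper56.TSI

set_option autoImplicit false

open MeasureTheory Set Filter Topology
open scoped ENNReal symmDiff

namespace Pool.Agent.Helper56.AutGroup

variable {X : Type*} [MeasurableSpace X] {μ : Measure X}

lemma du_comm (S T : Aut μ) : du S T = du T S := by
  unfold du
  congr 1
  ext x
  exact ne_comm

lemma du_self (S : Aut μ) : du S S = 0 := by simp [du]

lemma du_triangle (S T U : Aut μ) : du S U ≤ du S T + du T U := by
  unfold du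
  refine (measure_mono ?_).trans (measure_union_le _ _)
  intro x hx
  by_contra h
  simp only [mem_union, mem_ofPred_eq, not_or, not_not] at h
  exact hx (h.1.trans h.2)

lemma du_eq_zero {S T : Aut μ} (h : du S T = 0) : S = T := by
  rw [eq_iff, ae_iff]
  exact h

lemma du_congr {S T : Aut μ} {s t : X → X} (hs : ∀ᵐ x ∂μ, rep S x = s x)
    (ht : ∀ᵐ x ∂μ, rep T x = t x) : du S T = μ {x | s x ≠ t x} := by
  apply measure_congr
  filter_upwards [hs, ht] with x h1 h2
  apply propext
  show rep S x ≠ rep T x ↔ s x ≠ t x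
  rw [h1, h2]

lemma du_mul_left (U S T : Aut μ) : du (U * S) (U * T) = du S T := by
  rw [du_congr (rep_mul U S) (rep_mul U T)]
  unfold du
  congr 1
  ext x
  simp

section sb

variable [StandardBorelSpace X]

lemma du_mul_right (S T U : Aut μ) : du (S * U) (T * U) = du S T := by
  rw [du_congr (rep_mul S U) (rep_mul T U)]
  exact (rep_mp U).measure_preimage (measurableSet_ne (rep_meas S) (rep_meas T)).nullMeasurableSet

lemma du_inv (S T : Aut μ) : du S⁻¹ T⁻¹ = du S T := by
  rw [← du_mul_left S, mul_inv_cancel, ← du_mul_right _ _ T, one_mul, mul_assoc, inv_mul_cancel,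
    mul_one, du_comm]

end sb

variable [IsProbabilityMeasure μ]

lemma du_ne_top (S T : Aut μ) : du S T ≠ ⊤ := measure_ne_top _ _

noncomputable instance (T₀ : Aut μ) : MetricSpace (FG T₀) where
  dist S T := (du S.1 T.1).toReal
  dist_self S := by simp [du_self]
  dist_comm S T := by rw [du_comm]
  dist_triangle S T U := by
    rw [← ENNReal.toReal_add (du_ne_top _ _) (du_ne_top _ _)]
    exact ENNReal.toReal_mono (ENNReal.add_ne_top.2 ⟨du_ne_top _ _, du_ne_top _ _⟩)
      (du_triangle _ _ _)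
  eq_of_dist_eq_zero {S T} h := by
    apply Subtype.ext
    apply du_eq_zero
    rcases (ENNReal.toReal_eq_zero_iff _).1 h with h | h
    · exact h
    · exact (du_ne_top _ _ h).elim

lemma dist_FG {T₀ : Aut μ} (S T : FG T₀) : dist S T = (du S.1 T.1).toReal := rfl

variable [StandardBorelSpace X]

/-- A sequence of measure preserving bijections which converges almost everywhere in the discrete
sense. -/
lemma complete_aux (T₀ : Aut μ) (U : ℕ → Aut μ) (hU : ∀ n, U n ∈ FG T₀)
    (hs : ∑' n, du (U n) (U (n + 1)) ≠ ⊤) :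
    ∃ V : Aut μ, V ∈ FG T₀ ∧ Tendsto (fun n => du (U n) V) atTop (𝓝 0) := by
  classical
  let t := rep T₀
  let u : ℕ → Equiv.Perm X := fun n => rep (U n)
  have hum : ∀ n, Measurable (u n) := fun n => rep_meas _
  have hum' : ∀ n, Measurable (u n).symm := fun n => rep_symm_meas _
  have h1 : ∀ᵐ x ∂μ, ∀ᶠ n in atTop, u n x = u (n + 1) x := by
    have := ae_eventually_notMem (μ := μ) (s := fun n => {x | u n x ≠ u (n + 1) x}) hs
    filter_upwards [this] with x hx
    filter_upwards [hx] with n hn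
    simpa using hn
  have h2 : ∀ᵐ x ∂μ, ∀ᶠ n in atTop, (u n).symm x = (u (n + 1)).symm x := by
    have hs' : ∑' n, μ {x | (u n).symm x ≠ (u (n + 1)).symm x} ≠ ⊤ := by
      have : ∀ n, μ {x | (u n).symm x ≠ (u (n + 1)).symm x} = du (U n) (U (n + 1)) := by
        intro n
        rw [← du_inv, du_congr (rep_inv _) (rep_inv _)]
      simp only [this]
      exact hs
    have := ae_eventually_notMem (μ := μ) hs'
    filter_upwards [this] with x hx
    filter_upwards [hx] with n hn
    simpa using hn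
  have h3 : ∀ᵐ x ∂μ, ∀ n, ∃ k : ℤ, u n x = (t ^ k) x := ae_all_iff.2 (fun n => hU n)
  have h4 : ∀ᵐ x ∂μ, ∀ n, ∃ k : ℤ, (u n).symm x = (t ^ k) x := by
    rw [ae_all_iff]
    intro n
    filter_upwards [rep_inv (U n), (FG T₀).inv_mem (hU n)] with x hx hx2
    obtain ⟨k, hk⟩ := hx2
    exact ⟨k, by rw [← hk, hx]⟩
  let P : X → Prop := fun x => (∃ N, ∀ n ≥ N, u n x = u N x) ∧
    (∃ N, ∀ n ≥ N, (u n).symm x = (u N).symm x) ∧ (∀ n, ∃ k : ℤ, u n x = (t ^ k) x) ∧
    (∀ n, ∃ k : ℤ, (u n).symm x = (t ^ k) x)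
  have hev : ∀ a : ℕ → X, (∀ᶠ n in atTop, a n = a (n + 1)) → ∃ N, ∀ n ≥ N, a n = a N := by
    intro a ha
    obtain ⟨N, hN⟩ := eventually_atTop.1 ha
    refine ⟨N, fun n hn => ?_⟩
    induction n, hn using Nat.le_induction with
    | base => rfl
    | succ n hn ih => rw [← hN n hn, ih]
  have hP : ∀ᵐ x ∂μ, P x := by
    filter_upwards [h1, h2, h3, h4] with x x1 x2 x3 x4
    exact ⟨hev _ x1, hev _ x2, x3, x4⟩
  let Q : X → Prop := fun x => ∀ k : ℤ, P ((t ^ k) x)
  have hQ : ∀ᵐ x ∂μ, Q x := by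
    rw [ae_all_iff]
    intro k
    exact (zpow_mp T₀ k).quasiMeasurePreserving.ae hP
  have hQP : ∀ x, Q x → P x := fun x hx => by simpa using hx 0
  have hQt : ∀ x (k : ℤ), Q x → Q ((t ^ k) x) := by
    intro x k hx l
    have : (t ^ l) ((t ^ k) x) = (t ^ (l + k)) x := by rw [zpow_add]; rfl
    rw [this]
    exact hx _
  have htm : ∀ k : ℤ, Measurable (t ^ k : Equiv.Perm X) := fun k => (zpow_mp T₀ k).measurable
  have hstab : ∀ v : ℕ → X → X, (∀ n, Measurable (v n)) → ∀ N,
      MeasurableSet {x | ∀ n ≥ N, v n x = v N x} := by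
    intro v hv N
    have : {x | ∀ n ≥ N, v n x = v N x} = ⋂ n ∈ {n | N ≤ n}, {x | v n x = v N x} := by
      ext x; simp
    rw [this]
    exact MeasurableSet.biInter (to_countable _) (fun n _ => measurableSet_eq_fun (hv n) (hv N))
  have horb : ∀ v : ℕ → X → X, (∀ n, Measurable (v n)) →
      MeasurableSet {x | ∀ n, ∃ k : ℤ, v n x = (t ^ k) x} := by
    intro v hv
    simp only [ofPred_forall, ofPred_exists]
    exact MeasurableSet.iInter (fun n => MeasurableSet.iUnion
      (fun k => measurableSet_eq_fun (hv n) (htm k)))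
  have hPm : MeasurableSet {x | P x} := by
    have : {x | P x} = (⋃ N, {x | ∀ n ≥ N, u n x = u N x}) ∩
        ((⋃ N, {x | ∀ n ≥ N, (u n).symm x = (u N).symm x}) ∩
        ({x | ∀ n, ∃ k : ℤ, u n x = (t ^ k) x} ∩
        {x | ∀ n, ∃ k : ℤ, (u n).symm x = (t ^ k) x})) := by
      ext x
      simp only [P, mem_ofPred_eq, mem_inter_iff, mem_iUnion]
    rw [this]
    exact (MeasurableSet.iUnion (hstab _ hum)).inter
      ((MeasurableSet.iUnion (hstab _ hum')).inter ((horb _ hum).inter (horb _ hum')))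
  have hQm : MeasurableSet {x | Q x} := by
    have : {x | Q x} = ⋂ k : ℤ, (t ^ k : Equiv.Perm X) ⁻¹' {x | P x} := by
      ext x; simp [Q]
    rw [this]
    exact MeasurableSet.iInter (fun k => htm k hPm)
  -- the limits
  have hlim : ∀ v : ℕ → X → X, (∀ n, Measurable (v n)) →
      (∀ x, Q x → ∃ N, ∀ n ≥ N, v n x = v N x) →
      ∃ S : X → X, Measurable S ∧ (∀ x, Q x → ∃ N, ∀ n ≥ N, v n x = S x) ∧
        ∀ x, ¬ Q x → S x = x := by
    intro v hv hvQ
    have hex : ∀ x, ∃ N, (∀ n ≥ N, v n x = v N x) ∨ ¬ Q x := by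
      intro x
      by_cases hx : Q x
      · obtain ⟨N, hN⟩ := hvQ x hx
        exact ⟨N, Or.inl hN⟩
      · exact ⟨0, Or.inr hx⟩
    obtain ⟨ix, hix, hixm⟩ : ∃ ix : X → ℕ, (∀ x, (∀ n ≥ ix x, v n x = v (ix x) x) ∨ ¬ Q x) ∧
        Measurable ix := by
      refine ⟨fun x => Nat.find (hex x), fun x => Nat.find_spec (hex x), ?_⟩
      · apply measurable_find
        intro N
        have : {x | (∀ n ≥ N, v n x = v N x) ∨ ¬ Q x} =
            {x | ∀ n ≥ N, v n x = v N x} ∪ {x | Q x}ᶜ := by
          ext x; simp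
        rw [this]
        exact (hstab v hv N).union hQm.compl
    refine ⟨fun x => if Q x then v (ix x) x else x, ?_, ?_, ?_⟩
    · apply Measurable.ite hQm _ measurable_id
      have h2 : Measurable (fun p : ℕ × X => v p.1 p.2) :=
        measurable_from_prod_countable_right (fun n => hv n)
      exact h2.comp (hixm.prodMk measurable_id)
    · intro x hx
      have h1 := hix x
      rcases h1 with h1 | h1
      · refine ⟨ix x, fun n hn => ?_⟩
        simp only [hx, if_true]
        exact h1 n hn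
      · exact (h1 hx).elim
    · intro x hx
      simp only [hx, if_false]
  obtain ⟨S, hSm, hSQ, hSn⟩ := hlim (fun n => u n) hum (fun x hx => (hQP x hx).1)
  obtain ⟨S', hSm', hSQ', hSn'⟩ := hlim (fun n => (u n).symm) hum' (fun x hx => (hQP x hx).2.1)
  have hSorb : ∀ x, Q x → ∃ k : ℤ, S x = (t ^ k) x := by
    intro x hx
    obtain ⟨N, hN⟩ := hSQ x hx
    obtain ⟨k, hk⟩ := (hQP x hx).2.2.1 N
    exact ⟨k, by rw [← hk, hN N le_rfl]⟩
  have hSorb' : ∀ x, Q x → ∃ k : ℤ, S' x = (t ^ k) x := by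
    intro x hx
    obtain ⟨N, hN⟩ := hSQ' x hx
    obtain ⟨k, hk⟩ := (hQP x hx).2.2.2 N
    exact ⟨k, by rw [← hk, hN N le_rfl]⟩
  let e : Equiv.Perm X :=
    { toFun := S
      invFun := S'
      left_inv := by
        intro x
        by_cases hx : Q x
        · obtain ⟨k, hk⟩ := hSorb x hx
          have hy : Q (S x) := by rw [hk]; exact hQt x k hx
          obtain ⟨N, hN⟩ := hSQ x hx
          obtain ⟨M, hM⟩ := hSQ' (S x) hy
          have e1 := hN (max N M) (le_max_left _ _)
          have e2 := hM (max N M) (le_max_right _ _)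
          rw [← e2, ← e1]
          exact Equiv.symm_apply_apply _ _
        · rw [hSn x hx, hSn' x hx]
      right_inv := by
        intro x
        by_cases hx : Q x
        · obtain ⟨k, hk⟩ := hSorb' x hx
          have hy : Q (S' x) := by rw [hk]; exact hQt x k hx
          obtain ⟨N, hN⟩ := hSQ' x hx
          obtain ⟨M, hM⟩ := hSQ (S' x) hy
          have e1 := hN (max N M) (le_max_left _ _)
          have e2 := hM (max N M) (le_max_right _ _)
          rw [← e2, ← e1]
          exact Equiv.apply_symm_apply _ _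
        · rw [hSn' x hx, hSn x hx] }
  -- convergence in measure
  have hconv : Tendsto (fun n => μ {x | u n x ≠ S x}) atTop (𝓝 0) := by
    let B : ℕ → Set X := fun n => ⋃ m ∈ {m | n ≤ m}, {x | u m x ≠ S x}
    have hBm : ∀ n, MeasurableSet (B n) := fun n =>
      MeasurableSet.biUnion (to_countable _) (fun m _ => measurableSet_ne (hum m) hSm)
    have hBa : Antitone B := by
      intro n m hnm
      exact biUnion_subset_biUnion_left (fun k (hk : m ≤ k) => hnm.trans hk)
    have h0 : μ (⋂ n, B n) = 0 := by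
      have : ∀ᵐ x ∂μ, x ∉ ⋂ n, B n := by
        filter_upwards [hQ] with x hx hxB
        obtain ⟨N, hN⟩ := hSQ x hx
        have := mem_iInter.1 hxB N
        simp only [B, mem_iUnion] at this
        obtain ⟨m, hm, hm2⟩ := this
        exact hm2 (hN m hm)
      exact measure_eq_zero_iff_ae_notMem.2 this
    have h1 := tendsto_measure_iInter_atTop (μ := μ) (fun n => (hBm n).nullMeasurableSet) hBa
      ⟨0, measure_ne_top _ _⟩
    rw [h0] at h1
    refine tendsto_of_tendsto_of_tendsto_of_le_of_le tendsto_const_nhds h1 (fun _ => bot_le) ?_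
    intro n
    apply measure_mono
    intro x hx
    have hnn : n ∈ {m | n ≤ m} := by simp
    exact mem_biUnion hnn hx
  have hemp : MeasurePreserving e μ μ := by
    refine ⟨hSm, ?_⟩
    have : IsProbabilityMeasure (Measure.map e μ) := Measure.isProbabilityMeasure_map hSm.aemeasurable
    apply Measure.eq_of_le_of_isProbabilityMeasure
    rw [Measure.le_iff]
    intro B hB
    have h1 : (Measure.map e μ) B = μ (S ⁻¹' B) := Measure.map_apply hSm hB
    rw [h1]
    have h2 : ∀ n, μ (S ⁻¹' B) ≤ μ B + μ {x | u n x ≠ S x} := by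
      intro n
      rw [← (rep_mp (U n)).measure_preimage hB.nullMeasurableSet]
      refine (measure_mono ?_).trans (measure_union_le _ _)
      intro x hx
      by_cases hxn : u n x = S x
      · left
        show u n x ∈ B
        rw [hxn]
        exact hx
      · right
        exact hxn
    have h3 : Tendsto (fun n => μ B + μ {x | u n x ≠ S x}) atTop (𝓝 (μ B + 0)) :=
      tendsto_const_nhds.add hconv
    rw [add_zero] at h3
    exact ge_of_tendsto' h3 h2
  let V : mpGroup μ := ⟨e, hemp, hSm'⟩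
  have hV := rep_mk V
  refine ⟨QuotientGroup.mk V, ?_, ?_⟩
  · rw [mem_FG]
    filter_upwards [hV, hQ] with x h1 h2
    rw [h1]
    exact hSorb x h2
  · have : ∀ n, du (U n) (QuotientGroup.mk V) = μ {x | u n x ≠ S x} := by
      intro n
      exact du_congr (Eventually.of_forall (fun _ => rfl)) hV
    simp only [this]
    exact hconv

omit [StandardBorelSpace X] in
lemma tendsto_of_du {T₀ : Aut μ} {U : ℕ → FG T₀} {V : FG T₀}
    (h : Tendsto (fun n => du (U n).1 V.1) atTop (𝓝 0)) : Tendsto U atTop (𝓝 V) := by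
  rw [tendsto_iff_dist_tendsto_zero]
  have := (ENNReal.tendsto_toReal (a := 0) (by simp)).comp h
  simpa [dist_FG, Function.comp_def] using this

omit [StandardBorelSpace X] in
lemma du_le_of_dist {T₀ : Aut μ} {U V : FG T₀} {ε : ℝ} (h : dist U V < ε) :
    du U.1 V.1 ≤ ENNReal.ofReal ε := by
  rw [dist_FG] at h
  rw [← ENNReal.ofReal_toReal (du_ne_top U.1 V.1)]
  exact ENNReal.ofReal_le_ofReal h.le

lemma completeSpace_FG (T₀ : Aut μ) : CompleteSpace (FG T₀) := by
  apply Metric.complete_of_convergent_controlled_sequences (fun n => (1 / 2 : ℝ) ^ n)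
    (fun n => by positivity)
  intro U hU
  have hs : ∑' n, du (U n).1 (U (n + 1)).1 ≠ ⊤ := by
    have h1 : ∀ n, du (U n).1 (U (n + 1)).1 ≤ ENNReal.ofReal ((1 / 2 : ℝ) ^ n) :=
      fun n => du_le_of_dist (hU n n (n + 1) le_rfl (Nat.le_succ n))
    have h2 : ∑' n, ENNReal.ofReal ((1 / 2 : ℝ) ^ n) ≠ ⊤ := by
      rw [← ENNReal.ofReal_tsum_of_nonneg (fun n => by positivity)
        (summable_geometric_of_lt_one (by norm_num) (by norm_num))]
      exact ENNReal.ofReal_ne_top
    exact ne_top_of_le_ne_top h2 (ENNReal.tsum_le_tsum h1)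
  obtain ⟨V, hV, hconv⟩ := complete_aux T₀ (fun n => (U n).1) (fun n => (U n).2) hs
  exact ⟨⟨V, hV⟩, tendsto_of_du hconv⟩

/-- The set where a bijection agrees with a power of `T₀`. -/
noncomputable def agr (T₀ : Aut μ) (U : FG T₀) (n : ℤ) : MeasuredSets μ :=
  ⟨{x | rep U.1 x = (rep T₀ ^ n : Equiv.Perm X) x},
    measurableSet_eq_fun (rep_meas _) (zpow_mp T₀ n).measurable⟩

instance : TopologicalSpace.SeparableSpace (MeasuredSets μ) := by
  obtain ⟨A, hA, hAd⟩ := exists_countable_measureDense (μ := μ)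
  refine ⟨⟨{s | s.1 ∈ A}, ?_, ?_⟩⟩
  · exact hA.preimage Subtype.val_injective
  · rw [EMetric.dense_iff]
    intro s ε hε
    have hmin : min ε 1 ≠ ⊤ := ne_top_of_le_ne_top ENNReal.one_ne_top (min_le_right _ _)
    have hpos : 0 < min ε 1 := lt_min hε one_pos
    obtain ⟨t, ht, hst⟩ := hAd.approx s.1 s.2 (measure_ne_top _ _) (min ε 1).toReal
      (ENNReal.toReal_pos hpos.ne' hmin)
    rw [ENNReal.ofReal_toReal hmin] at hst
    let t' : MeasuredSets μ := ⟨t, hAd.measurable t ht⟩
    have h : edist t' s < ε := by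
      rw [edist_comm]
      exact hst.trans_le (min_le_left _ _)
    exact ⟨t', h, ht⟩

lemma separable_of_map {A B : Type*} [PseudoMetricSpace A] [TopologicalSpace B]
    [SecondCountableTopology B] (φ : A → B)
    (h : ∀ a, ∀ ε > 0, ∃ N ∈ 𝓝 (φ a), ∀ b, φ b ∈ N → dist b a < ε) :
    TopologicalSpace.SeparableSpace A := by
  obtain ⟨s, hs, hsd⟩ := TopologicalSpace.exists_countable_dense (range φ)
  refine ⟨⟨(fun r : range φ => Classical.choose r.2) '' s, hs.image _, ?_⟩⟩
  rw [Metric.dense_iff]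
  intro a ε hε
  obtain ⟨N, hN, hNb⟩ := h a ε hε
  have h1 : (Subtype.val : range φ → B) ⁻¹' N ∈ 𝓝 (⟨φ a, mem_range_self a⟩ : range φ) :=
    continuous_subtype_val.continuousAt.preimage_mem_nhds hN
  obtain ⟨r, hrN, hrs⟩ := mem_closure_iff_nhds.1 (hsd ⟨φ a, mem_range_self a⟩) _ h1
  refine ⟨Classical.choose r.2, ?_, mem_image_of_mem _ hrs⟩
  rw [Metric.mem_ball]
  apply hNb
  rw [Classical.choose_spec r.2]
  exact hrN

lemma sep_aux (T₀ : Aut μ) (U : FG T₀) {ε : ℝ≥0∞} (hε : 0 < ε) (hε' : ε ≠ ⊤) :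
    ∃ N ∈ 𝓝 (agr T₀ U), ∀ V : FG T₀, agr T₀ V ∈ N → du V.1 U.1 < ε := by
  -- the tail
  have hε2 : 0 < ε / 2 := ENNReal.half_pos hε.ne'
  let B : ℕ → Set X := fun N => ⋂ n ∈ Finset.Icc (-(N : ℤ)) N, ((agr T₀ U n : Set X))ᶜ
  have hBm : ∀ N, MeasurableSet (B N) := fun N =>
    Finset.measurableSet_biInter _ (fun n _ => (agr T₀ U n).2.compl)
  have hBa : Antitone B := by
    intro N M hNM
    apply biInter_subset_biInter_left
    intro n hn
    simp only [SetLike.mem_coe, Finset.mem_Icc] at hn ⊢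
    omega
  have h0 : μ (⋂ N, B N) = 0 := by
    apply measure_eq_zero_iff_ae_notMem.2
    filter_upwards [U.2] with x hx hxB
    obtain ⟨n, hn⟩ := hx
    have h1 := mem_iInter.1 hxB n.natAbs
    simp only [B, mem_iInter] at h1
    exact h1 n (by rw [Finset.mem_Icc]; omega) hn
  have h1 := tendsto_measure_iInter_atTop (μ := μ) (fun n => (hBm n).nullMeasurableSet) hBa
      ⟨0, measure_ne_top _ _⟩
  rw [h0] at h1
  obtain ⟨N, hN⟩ := ((tendsto_order.1 h1).2 (ε / 2) hε2).exists
  let s : Finset ℤ := Finset.Icc (-(N : ℤ)) N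
  let δ : ℝ≥0∞ := ε / 2 / (s.card + 1)
  have hδ : 0 < δ := ENNReal.div_pos hε2.ne' (by finiteness)
  refine ⟨(s : Set ℤ).pi (fun n => Metric.eball (agr T₀ U n) δ), ?_, ?_⟩
  · exact set_pi_mem_nhds s.finite_toSet (fun n _ => Metric.eball_mem_nhds _ hδ)
  · intro V hV
    have h2 : ∀ n ∈ s, μ ((agr T₀ V n : Set X) ∆ (agr T₀ U n : Set X)) ≤ δ := by
      intro n hn
      exact (Metric.mem_eball.1 (hV n hn)).le
    have h3 : {x | rep V.1 x ≠ rep U.1 x} ⊆
        B N ∪ ⋃ n ∈ s, ((agr T₀ V n : Set X) ∆ (agr T₀ U n : Set X)) := by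
      intro x hx
      by_contra hcon
      simp only [B, mem_union, mem_iInter, mem_iUnion, not_or, not_forall, not_exists] at hcon
      obtain ⟨⟨n, hn, hn2⟩, h4⟩ := hcon
      have h5 : x ∈ (agr T₀ U n : Set X) := by simpa using hn2
      have h6 : x ∈ (agr T₀ V n : Set X) := by
        by_contra h7
        exact h4 n hn (Or.inr ⟨h5, h7⟩)
      exact hx ((show rep V.1 x = (rep T₀ ^ n : Equiv.Perm X) x from h6).trans
        (show rep U.1 x = (rep T₀ ^ n : Equiv.Perm X) x from h5).symm)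
    calc du V.1 U.1 ≤ μ (B N ∪ ⋃ n ∈ s, ((agr T₀ V n : Set X) ∆ (agr T₀ U n : Set X))) :=
          measure_mono h3
      _ ≤ μ (B N) + ∑ n ∈ s, μ ((agr T₀ V n : Set X) ∆ (agr T₀ U n : Set X)) :=
          (measure_union_le _ _).trans (by gcongr; exact measure_biUnion_finset_le _ _)
      _ ≤ μ (B N) + ∑ _n ∈ s, δ := by gcongr with n hn; exact h2 n hn
      _ = μ (B N) + s.card * δ := by rw [Finset.sum_const, nsmul_eq_mul]
      _ ≤ μ (B N) + ε / 2 := by
          gcongr
          calc (s.card : ℝ≥0∞) * δ ≤ (s.card + 1) * δ := by gcongr; exact le_self_add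
            _ ≤ ε / 2 := ENNReal.mul_div_le
      _ < ε / 2 + ε / 2 := ENNReal.add_lt_add_right (by finiteness) hN
      _ = ε := ENNReal.add_halves ε

lemma separableSpace_FG (T₀ : Aut μ) : TopologicalSpace.SeparableSpace (FG T₀) := by
  have hsc : SecondCountableTopology (MeasuredSets μ) :=
    UniformSpace.secondCountable_of_separable _
  apply separable_of_map (agr T₀)
  intro U ε hε
  obtain ⟨N, hN, hNV⟩ := sep_aux T₀ U (ENNReal.ofReal_pos.2 hε) ENNReal.ofReal_ne_top
  refine ⟨N, hN, fun V hV => ?_⟩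
  rw [dist_FG]
  have h3 := hNV V hV
  rw [← ENNReal.ofReal_toReal (du_ne_top V.1 U.1)] at h3
  exact (ENNReal.ofReal_lt_ofReal_iff hε).1 h3

theorem tsi_FG (T₀ : Aut μ) : Cat.TSI (FG T₀) where
  complete := completeSpace_FG T₀
  sep := separableSpace_FG T₀
  left := by
    intro a b c
    rw [dist_FG, dist_FG]
    congr 1
    exact du_mul_left _ _ _
  right := by
    intro a b c
    rw [dist_FG, dist_FG]
    congr 1
    exact du_mul_right _ _ _

end Pool.Agent.Helper56.AutGroup
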