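import Pool.Agent.Helper16.Part

namespace Pool.Agent.Helper56.In

open Matrix Finset Module
open Pool.Agent.Helper16.Inertia

/-- Every subspace on which the quadratic form of `A` is nonpositive has dimension at most
`k`. -/
def NP {V : Type*} [Fintype V] (A : Matrix V V ℝ) (k : ℕ) : Prop :=
  ∀ W : Submodule ℝ (V → ℝ), (∀ v ∈ W, v ⬝ᵥ A *ᵥ v ≤ 0) → finrank ℝ W ≤ k

theorem NP.of_map {V : Type*} [Fintype V] {A : Matrix V V ℝ} {k : ℕ} (h : NP A k)
    {E : Type*} [AddCommGroup E] [Module ℝ E] [FiniteDimensional ℝ E]
    (L : E →ₗ[ℝ] (V → ℝ)) (hL : Function.Injective L)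
    (hq : ∀ c, L c ⬝ᵥ A *ᵥ L c ≤ 0) : finrank ℝ E ≤ k := by
  have h1 := h (LinearMap.range L) (by
    rintro v ⟨c, rfl⟩
    exact hq c)
  rwa [LinearMap.finrank_range_of_inj hL] at h1

/-- extension by zero along an injection -/
noncomputable def ext {κ V : Type*} [Fintype κ] [DecidableEq V] (a : κ → V) :
    (κ → ℝ) →ₗ[ℝ] (V → ℝ) where
  toFun y := fun v => ∑ x, if a x = v then y x else 0
  map_add' y z := by
    funext v
    simp only [Pi.add_apply]
    rw [← Finset.sum_add_distrib]
    refine Finset.sum_congr rfl fun x _ => ?_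
    split_ifs <;> simp
  map_smul' r y := by
    funext v
    simp only [Pi.smul_apply, smul_eq_mul, RingHom.id_apply, Finset.mul_sum]
    refine Finset.sum_congr rfl fun x _ => ?_
    split_ifs <;> simp

theorem ext_apply_image {κ V : Type*} [Fintype κ] [DecidableEq V] {a : κ → V}
    (ha : Function.Injective a) (y : κ → ℝ) (x : κ) : ext a y (a x) = y x := by
  classical
  show (∑ x', if a x' = a x then y x' else 0) = y x
  rw [Finset.sum_eq_single x]
  · simp
  · intro b _ hb
    rw [if_neg fun h => hb (ha h)]
  · intro h; exact absurd (mem_univ _) h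

theorem ext_injective {κ V : Type*} [Fintype κ] [DecidableEq V] {a : κ → V}
    (ha : Function.Injective a) : Function.Injective (ext a) := by
  intro y z h
  funext x
  rw [← ext_apply_image ha y x, ← ext_apply_image ha z x, h]

theorem dot_ext {κ V : Type*} [Fintype κ] [Fintype V] [DecidableEq V] {a : κ → V}
    (w : V → ℝ) (y : κ → ℝ) : w ⬝ᵥ ext a y = ∑ x, w (a x) * y x := by
  classical
  show ∑ v, w v * (∑ x, if a x = v then y x else 0) = _
  simp_rw [Finset.mul_sum]
  rw [Finset.sum_comm]
  refine Finset.sum_congr rfl fun x _ => ?_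
  rw [Finset.sum_eq_single (a x)]
  · simp
  · intro b _ hb
    rw [if_neg (Ne.symm hb), mul_zero]
  · intro h; exact absurd (mem_univ _) h

theorem mulVec_ext {κ V : Type*} [Fintype κ] [Fintype V] [DecidableEq V] {a : κ → V}
    (A : Matrix V V ℝ) (y : κ → ℝ) (v : V) : (A *ᵥ ext a y) v = ∑ x, A v (a x) * y x :=
  dot_ext (fun w => A v w) y

theorem quad_ext {κ V : Type*} [Fintype κ] [Fintype V] [DecidableEq V] {a : κ → V}
    (A : Matrix V V ℝ) (y : κ → ℝ) :
    ext a y ⬝ᵥ A *ᵥ ext a y = y ⬝ᵥ (A.submatrix a a) *ᵥ y := by
  rw [dotProduct_comm, dot_ext]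
  simp only [mulVec_ext]
  simp only [dotProduct, mulVec, submatrix_apply]
  refine Finset.sum_congr rfl fun x _ => ?_
  ring

/-- A graph has an induced subgraph on `n⁺ + n⁻` vertices whose nonpositive subspaces have
dimension at most `n⁻`. -/
theorem exists_core {V : Type*} [Fintype V] [DecidableEq V] (G : SimpleGraph V)
    [DecidableRel G.Adj] : ∃ (κ : Type) (_ : Fintype κ) (a : κ → V), Function.Injective a ∧
      Fintype.card κ = nPlus G + nMinus G ∧ NP ((G.adjMatrix ℝ).submatrix a a) (nMinus G) := by
  classical
  set A : Matrix V V ℝ := G.adjMatrix ℝ with hAdef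
  have hA : A.IsHermitian := adjHerm G
  have hsymm : ∀ x y, A x y = A y x := fun x y => by
    rw [hAdef, SimpleGraph.adjMatrix_apply, SimpleGraph.adjMatrix_apply]
    simp [G.adj_comm]
  have hrank : A.rank = nPlus G + nMinus G := by
    rw [hA.rank_eq_card_non_zero_eigs, nPlus_eq, nMinus_eq, Fintype.card_subtype,
      ← Finset.card_union_of_disjoint]
    · congr 1
      ext i
      simp only [mem_filter, mem_univ, true_and, mem_union]
      constructor
      · intro h
        rcases lt_trichotomy (hA.eigenvalues i) 0 with h1 | h1 | h1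
        · exact Or.inr h1
        · exact absurd h1 h
        · exact Or.inl h1
      · rintro (h | h)
        · exact ne_of_gt h
        · exact ne_of_lt h
    · rw [Finset.disjoint_filter]
      intro i _ h1 h2
      exact lt_asymm h1 h2
  obtain ⟨κ', a', ha', hspan', hli'⟩ := exists_linearIndependent' ℝ (fun i : V => A i)
  have : Finite κ' := Finite.of_injective a' ha'
  obtain ⟨m, ⟨e⟩⟩ := Finite.exists_equiv_fin κ'
  let a : Fin m → V := a' ∘ e.symm
  have ha : Function.Injective a := ha'.comp e.symm.injective
  have hli : LinearIndependent ℝ ((fun i : V => A i) ∘ a) := by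
    have := hli'.comp _ e.symm.injective
    exact this
  have hspan : Submodule.span ℝ (Set.range ((fun i : V => A i) ∘ a)) =
      Submodule.span ℝ (Set.range (fun i : V => A i)) := by
    rw [← hspan']
    congr 1
    have : ((fun i : V => A i) ∘ a) = (((fun i : V => A i) ∘ a') ∘ e.symm) := rfl
    rw [this, EquivLike.range_comp]
  refine ⟨Fin m, inferInstance, a, ha, ?_, ?_⟩
  · rw [← hrank, Matrix.rank_eq_finrank_span_row]
    show Fintype.card (Fin m) = finrank ℝ (Submodule.span ℝ (Set.range (fun i : V => A i)))
    rw [← hspan]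
    exact (finrank_span_eq_card hli).symm
  · intro W hW
    -- the kernel of the submatrix is trivial
    have hker : ∀ y : Fin m → ℝ, (∀ x, (A *ᵥ ext a y) (a x) = 0) → y = 0 := by
      intro y hy
      have hall : ∀ i, (A *ᵥ ext a y) i = 0 := by
        have hsub : Submodule.span ℝ (Set.range (fun i : V => A i)) ≤
            LinearMap.ker (Matrix.mulVecLin (Matrix.of fun (_ : Unit) v => ext a y v)) := by
          rw [← hspan, Submodule.span_le]
          rintro _ ⟨x, rfl⟩
          rw [SetLike.mem_coe, LinearMap.mem_ker]
          funext u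
          have := hy x
          simp only [mulVec, dotProduct] at this
          simp only [mulVecLin_apply, mulVec, dotProduct, of_apply, Pi.zero_apply,
            Function.comp_apply]
          rw [← this]
          refine Finset.sum_congr rfl fun v _ => ?_
          ring
        intro i
        have h1 := hsub (Submodule.subset_span ⟨i, rfl⟩)
        rw [LinearMap.mem_ker] at h1
        have h2 := congrFun h1 ()
        simp only [mulVecLin_apply, mulVec, dotProduct, of_apply, Pi.zero_apply] at h2
        simp only [mulVec, dotProduct]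
        rw [← h2]
        refine Finset.sum_congr rfl fun v _ => ?_
        ring
      have h3 : ∑ x, y x • ((fun i : V => A i) ∘ a) x = 0 := by
        funext i
        have h4 := hall i
        rw [mulVec_ext] at h4
        rw [Finset.sum_apply]
        simp only [Function.comp_apply, Pi.smul_apply, smul_eq_mul, Pi.zero_apply]
        rw [← h4]
        refine Finset.sum_congr rfl fun x _ => ?_
        rw [hsymm (a x) i]; ring
      exact funext (Fintype.linearIndependent_iff.1 hli y h3)
    -- the map to the negative eigencoordinates is injective on `W`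
    let R : (V → ℝ) →ₗ[ℝ] ({i // hA.eigenvalues i < 0} → ℝ) :=
      (LinearMap.funLeft ℝ ℝ (fun i : {i // hA.eigenvalues i < 0} => (i : V))).comp
        (star (hA.eigenvectorUnitary : Matrix V V ℝ)).mulVecLin
    let Φ : W →ₗ[ℝ] ({i // hA.eigenvalues i < 0} → ℝ) := (R.comp (ext a)).comp W.subtype
    have hΦ : Function.Injective Φ := by
      rw [← LinearMap.ker_eq_bot, LinearMap.ker_eq_bot']
      rintro ⟨w, hw⟩ hz
      have hR : ∀ i, hA.eigenvalues i < 0 →
          (star (hA.eigenvectorUnitary : Matrix V V ℝ) *ᵥ ext a w) i = 0 := fun i hi =>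
        congrFun hz ⟨i, hi⟩
      have hq := hW w hw
      rw [← quad_ext, quad_eq_sum A hA] at hq
      have hnn : ∀ i ∈ univ, 0 ≤ hA.eigenvalues i *
          ((star (hA.eigenvectorUnitary : Matrix V V ℝ) *ᵥ ext a w) i) ^ 2 := by
        intro i _
        by_cases hi : hA.eigenvalues i < 0
        · rw [hR i hi]; simp
        · exact mul_nonneg (not_lt.1 hi) (sq_nonneg _)
      have hsum0 := le_antisymm hq (Finset.sum_nonneg hnn)
      have hzero := (Finset.sum_eq_zero_iff_of_nonneg hnn).1 hsum0
      have hAw : A *ᵥ ext a w = 0 := by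
        have h1 : A = (hA.eigenvectorUnitary : Matrix V V ℝ) * diagonal hA.eigenvalues *
            star (hA.eigenvectorUnitary : Matrix V V ℝ) := by
          conv_lhs => rw [hA.spectral_theorem]
          rw [Unitary.conjStarAlgAut_apply]
          rfl
        rw [h1, ← mulVec_mulVec, ← mulVec_mulVec]
        have : diagonal hA.eigenvalues *ᵥ
            (star (hA.eigenvectorUnitary : Matrix V V ℝ) *ᵥ ext a w) = 0 := by
          funext i
          rw [mulVec_diagonal]
          have := hzero i (mem_univ i)
          rcases mul_eq_zero.1 this with h | h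
          · rw [h]; simp
          · rw [pow_eq_zero_iff (by norm_num)] at h
            rw [h]; simp
        rw [this, mulVec_zero]
      have : w = 0 := hker w fun x => by rw [hAw]; rfl
      exact Subtype.ext this
    have := LinearMap.finrank_le_finrank_of_injective hΦ
    rw [Module.finrank_fintype_fun_eq_card, Fintype.card_subtype] at this
    rw [nMinus_eq]
    exact this

end Pool.Agent.Helper56.In
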