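import Mathlib

namespace Pool.Agent.Helper56.In

/-- `S` is shattered by the neighbourhoods of `G`: every subset of `S` is the trace on `S` of
the neighbourhood of some vertex. -/
def Shattered {V : Type*} (G : SimpleGraph V) (S : Finset V) : Prop :=
  ∀ T ⊆ S, ∃ v, ∀ s ∈ S, (G.Adj v s ↔ s ∈ T)

/-- The Vapnik-Chervonenkis dimension of the neighbourhoods of `G` is at most `d`. -/
def VCDimLE {V : Type*} (G : SimpleGraph V) (d : ℕ) : Prop :=
  ∀ S : Finset V, Shattered G S → S.card ≤ d

end Pool.Agent.Helper56.In
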