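import Pool.Agent.Helper56.InCore

namespace Pool.Agent.Helper56.In

open Matrix Finset Module
open Pool.Agent.Helper16.Inertia

section Fact

variable {V : Type*} [Fintype V] [DecidableEq V]

/-- Trace norm bound for a zero-trace symmetric matrix with few negative eigenvalues. -/
theorem sum_abs_le (M : Matrix V V ℝ) (hM : M.IsHermitian) (k : ℕ)
    (hneg : (univ.filter fun i => hM.eigenvalues i < 0).card ≤ k)
    (htr : ∑ i, hM.eigenvalues i = 0) (hsq : ∑ i, hM.eigenvalues i ^ 2 ≤ 1) :
    ∑ i, |hM.eigenvalues i| ≤ 2 * Real.sqrt k := by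
  set lam := hM.eigenvalues with hlam
  have h1 : ∑ i, |lam i| = 2 * ∑ i ∈ univ.filter (fun i => lam i < 0), (- lam i) := by
    have e1 : ∀ i, |lam i| = lam i + 2 * (if lam i < 0 then - lam i else 0) := by
      intro i
      split_ifs with h
      · rw [abs_of_neg h]; ring
      · rw [abs_of_nonneg (not_lt.1 h)]; ring
    simp_rw [e1]
    rw [Finset.sum_add_distrib, htr, zero_add, ← Finset.mul_sum, Finset.sum_filter]
  have h2 : (∑ i ∈ univ.filter (fun i => lam i < 0), (- lam i)) ^ 2 ≤ k := by
    calc (∑ i ∈ univ.filter (fun i => lam i < 0), (- lam i)) ^ 2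
        ≤ (univ.filter fun i => lam i < 0).card *
          ∑ i ∈ univ.filter (fun i => lam i < 0), (- lam i) ^ 2 := sq_sum_le_card_mul_sum_sq
      _ ≤ k * 1 := by
          refine mul_le_mul (by exact_mod_cast hneg) ?_
            (Finset.sum_nonneg fun i _ => sq_nonneg _) (Nat.cast_nonneg k)
          calc ∑ i ∈ univ.filter (fun i => lam i < 0), (- lam i) ^ 2
              ≤ ∑ i, (- lam i) ^ 2 :=
                Finset.sum_le_sum_of_subset_of_nonneg (filter_subset _ _)
                  fun i _ _ => sq_nonneg _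
            _ = ∑ i, lam i ^ 2 := Finset.sum_congr rfl fun i _ => by ring
            _ ≤ 1 := hsq
      _ = k := mul_one _
  have h3 := Real.le_sqrt_of_sq_le h2
  rw [h1]
  linarith

theorem spectral_apply (M : Matrix V V ℝ) (hM : M.IsHermitian) (i j : V) :
    M i j = ∑ l, hM.eigenvalues l * (hM.eigenvectorUnitary : Matrix V V ℝ) i l *
      (hM.eigenvectorUnitary : Matrix V V ℝ) j l := by
  have h1 : M = (hM.eigenvectorUnitary : Matrix V V ℝ) * diagonal hM.eigenvalues *
      star (hM.eigenvectorUnitary : Matrix V V ℝ) := by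
    conv_lhs => rw [hM.spectral_theorem]
    rw [Unitary.conjStarAlgAut_apply]
    rfl
  conv_lhs => rw [h1]
  rw [mul_apply]
  refine Finset.sum_congr rfl fun l _ => ?_
  rw [mul_diagonal, star_apply, star_trivial]
  ring

theorem unitary_col (M : Matrix V V ℝ) (hM : M.IsHermitian) (l l' : V) :
    ∑ i, (hM.eigenvectorUnitary : Matrix V V ℝ) i l *
      (hM.eigenvectorUnitary : Matrix V V ℝ) i l' = if l = l' then 1 else 0 := by
  have h1 : star (hM.eigenvectorUnitary : Matrix V V ℝ) *
      (hM.eigenvectorUnitary : Matrix V V ℝ) = 1 :=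
    Unitary.coe_star_mul_self hM.eigenvectorUnitary
  have h2 := congrFun (congrFun h1 l) l'
  rw [mul_apply, one_apply] at h2
  rw [← h2]
  refine Finset.sum_congr rfl fun i _ => ?_
  rw [star_apply]
  simp

theorem sum_sq_eigenvalues (M : Matrix V V ℝ) (hM : M.IsHermitian) :
    ∑ l, hM.eigenvalues l ^ 2 = ∑ i, ∑ j, M i j ^ 2 := by
  set U := (hM.eigenvectorUnitary : Matrix V V ℝ) with hU
  set lam := hM.eigenvalues
  have e1 : ∀ i j, M i j ^ 2 = ∑ l, ∑ l', (lam l * lam l') * (U i l * U i l') * (U j l * U j l') := by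
    intro i j
    rw [sq, spectral_apply M hM i j, Finset.sum_mul_sum]
    refine Finset.sum_congr rfl fun l _ => Finset.sum_congr rfl fun l' _ => ?_
    ring
  simp_rw [e1]
  have e2 : ∑ i, ∑ j, ∑ l, ∑ l', (lam l * lam l') * (U i l * U i l') * (U j l * U j l') =
      ∑ l, ∑ l', (lam l * lam l') * (∑ i, U i l * U i l') * (∑ j, U j l * U j l') := by
    calc ∑ i, ∑ j, ∑ l, ∑ l', (lam l * lam l') * (U i l * U i l') * (U j l * U j l')
        = ∑ i, ∑ l, ∑ l', ∑ j, (lam l * lam l') * (U i l * U i l') * (U j l * U j l') := by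
          refine Finset.sum_congr rfl fun i _ => ?_
          rw [Finset.sum_comm]
          refine Finset.sum_congr rfl fun l _ => ?_
          rw [Finset.sum_comm]
      _ = ∑ l, ∑ l', ∑ i, ∑ j, (lam l * lam l') * (U i l * U i l') * (U j l * U j l') := by
          rw [Finset.sum_comm]
          refine Finset.sum_congr rfl fun l _ => ?_
          rw [Finset.sum_comm]
      _ = _ := by
          refine Finset.sum_congr rfl fun l _ => Finset.sum_congr rfl fun l' _ => ?_
          rw [mul_assoc, Finset.sum_mul_sum, Finset.mul_sum]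
          refine Finset.sum_congr rfl fun i _ => ?_
          rw [Finset.mul_sum]
          refine Finset.sum_congr rfl fun j _ => ?_
          ring
  rw [e2]
  refine Finset.sum_congr rfl fun l _ => ?_
  rw [Finset.sum_eq_single l]
  · rw [unitary_col, if_pos rfl]; ring
  · intro l' _ hl'
    rw [unitary_col, if_neg (Ne.symm hl')]; ring
  · intro h; exact absurd (mem_univ _) h

theorem sum_eigenvalues_eq_trace (M : Matrix V V ℝ) (hM : M.IsHermitian) :
    ∑ l, hM.eigenvalues l = ∑ i, M i i := by
  have e1 : ∑ i, M i i = ∑ i, ∑ l, hM.eigenvalues l *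
      ((hM.eigenvectorUnitary : Matrix V V ℝ) i l *
      (hM.eigenvectorUnitary : Matrix V V ℝ) i l) := by
    refine Finset.sum_congr rfl fun i _ => ?_
    rw [spectral_apply M hM i i]
    refine Finset.sum_congr rfl fun l _ => by ring
  rw [e1, Finset.sum_comm]
  refine Finset.sum_congr rfl fun l _ => ?_
  rw [← Finset.mul_sum, unitary_col, if_pos rfl, mul_one]

theorem neg_card_le {A : Matrix V V ℝ} {k : ℕ} (hA : NP A k) (w : V → ℝ)
    (M : Matrix V V ℝ) (hMw : ∀ i j, M i j = w i * A i j * w j) (hM : M.IsHermitian) :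
    (univ.filter fun i => hM.eigenvalues i < 0).card ≤ k := by
  classical
  let S := {i // hM.eigenvalues i < 0}
  let Em : (S → ℝ) →ₗ[ℝ] (V → ℝ) := ext (fun i : S => (i : V))
  have hinjS : Function.Injective (fun i : S => (i : V)) := Subtype.val_injective
  let D : (V → ℝ) →ₗ[ℝ] (V → ℝ) := (diagonal w).mulVecLin
  let W : (V → ℝ) →ₗ[ℝ] (V → ℝ) := (hM.eigenvectorUnitary : Matrix V V ℝ).mulVecLin
  have hstar : ∀ c : S → ℝ, star (hM.eigenvectorUnitary : Matrix V V ℝ) *ᵥ (W (Em c)) = Em c := by
    intro c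
    have h1 : star (hM.eigenvectorUnitary : Matrix V V ℝ) *
        (hM.eigenvectorUnitary : Matrix V V ℝ) = 1 :=
      Unitary.coe_star_mul_self hM.eigenvectorUnitary
    show star (hM.eigenvectorUnitary : Matrix V V ℝ) *ᵥ
      ((hM.eigenvectorUnitary : Matrix V V ℝ) *ᵥ (Em c)) = Em c
    rw [mulVec_mulVec, h1, one_mulVec]
  have hqM : ∀ y : V → ℝ, D y ⬝ᵥ A *ᵥ D y = y ⬝ᵥ M *ᵥ y := by
    intro y
    have hD : ∀ i, D y i = w i * y i := by
      intro i
      show (diagonal w *ᵥ y) i = _
      rw [mulVec_diagonal]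
    simp only [dotProduct, mulVec, hD]
    refine Finset.sum_congr rfl fun i _ => ?_
    rw [Finset.mul_sum, Finset.mul_sum]
    refine Finset.sum_congr rfl fun j _ => ?_
    rw [hMw]; ring
  have hq : ∀ c : S → ℝ, (W (Em c)) ⬝ᵥ M *ᵥ (W (Em c)) = ∑ i : S, hM.eigenvalues i * c i ^ 2 := by
    intro c
    rw [quad_eq_sum M hM, hstar]
    rw [← Finset.sum_subset (Finset.subset_univ (univ.map ⟨fun i : S => (i : V), hinjS⟩))]
    · rw [Finset.sum_map]
      refine Finset.sum_congr rfl fun i _ => ?_
      show hM.eigenvalues i * (ext (fun i : S => (i : V)) c ((fun i : S => (i : V)) i)) ^ 2 = _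
      rw [ext_apply_image hinjS]
    · intro x _ hx
      have : Em c x = 0 := by
        show (∑ y : S, if (y : V) = x then c y else 0) = 0
        refine Finset.sum_eq_zero fun y _ => ?_
        rw [if_neg]
        intro hy
        exact hx (mem_map.2 ⟨y, mem_univ _, hy⟩)
      rw [this]; simp
  have hneg : ∀ c : S → ℝ, ∀ i ∈ (univ : Finset S), hM.eigenvalues i * c i ^ 2 ≤ 0 :=
    fun c i _ => mul_nonpos_of_nonpos_of_nonneg i.2.le (sq_nonneg _)
  have h1 := hA.of_map (D.comp (W.comp Em)) (by
    rw [← LinearMap.ker_eq_bot, LinearMap.ker_eq_bot']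
    intro c hc
    have h2 : D (W (Em c)) = 0 := hc
    have h3 := hqM (W (Em c))
    rw [h2, zero_dotProduct, hq] at h3
    have h4 := (Finset.sum_eq_zero_iff_of_nonpos (hneg c)).1 h3.symm
    funext i
    have h5 := h4 i (mem_univ i)
    rcases mul_eq_zero.1 h5 with h6 | h6
    · exact absurd h6 (ne_of_lt i.2)
    · simpa using h6) (by
    intro c
    show D (W (Em c)) ⬝ᵥ A *ᵥ D (W (Em c)) ≤ 0
    rw [hqM, hq]
    exact Finset.sum_nonpos (hneg c))
  rwa [Module.finrank_fintype_fun_eq_card, Fintype.card_subtype] at h1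

/-- Factorisation of the adjacency matrix on half of a probability measure. -/
theorem factor (G : SimpleGraph V) [DecidableRel G.Adj] {k : ℕ} (hk : 1 ≤ k)
    (hG : NP (G.adjMatrix ℝ) k) (μ : V → ℝ) (hμ : ∀ i, 0 ≤ μ i) (hμ1 : ∑ i, μ i = 1) :
    ∃ (a b : V → V → ℝ) (m : V → ℝ), (∀ i, 0 ≤ m i) ∧ (∀ i, m i ≤ μ i) ∧
      1 / 2 ≤ ∑ i, m i ∧ (∀ i, ∑ l, a i l ^ 2 ≤ 4 * Real.sqrt k) ∧
      (∀ i, ∑ l, b i l ^ 2 ≤ 4 * Real.sqrt k) ∧
      ∀ i j, m i ≠ 0 → m j ≠ 0 → ∑ l, a i l * b j l = if G.Adj i j then 1 else 0 := by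
  classical
  have hkpos : (0 : ℝ) < k := by exact_mod_cast hk
  have hsk : 0 < Real.sqrt k := Real.sqrt_pos.2 hkpos
  let w : V → ℝ := fun i => Real.sqrt (μ i)
  have hw2 : ∀ i, w i ^ 2 = μ i := fun i => Real.sq_sqrt (hμ i)
  let M : Matrix V V ℝ := Matrix.of fun i j => w i * G.adjMatrix ℝ i j * w j
  have hMw : ∀ i j, M i j = w i * G.adjMatrix ℝ i j * w j := fun i j => rfl
  have hM : M.IsHermitian := by
    rw [Matrix.IsHermitian, Matrix.conjTranspose_eq_transpose_of_trivial]
    ext i j
    rw [transpose_apply, hMw, hMw, SimpleGraph.adjMatrix_apply, SimpleGraph.adjMatrix_apply]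
    simp only [G.adj_comm j i]
    ring
  have hneg := neg_card_le hG w M hMw hM
  have htr : ∑ i, hM.eigenvalues i = 0 := by
    rw [sum_eigenvalues_eq_trace]
    refine Finset.sum_eq_zero fun i _ => ?_
    rw [hMw, SimpleGraph.adjMatrix_apply, if_neg (G.irrefl)]
    ring
  have hsq : ∑ i, hM.eigenvalues i ^ 2 ≤ 1 := by
    rw [sum_sq_eigenvalues]
    calc ∑ i, ∑ j, M i j ^ 2 ≤ ∑ i, ∑ j, μ i * μ j := by
          refine Finset.sum_le_sum fun i _ => Finset.sum_le_sum fun j _ => ?_
          rw [hMw, mul_pow, mul_pow, hw2, hw2, SimpleGraph.adjMatrix_apply]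
          have := mul_nonneg (hμ i) (hμ j)
          split_ifs
          · linarith
          · simpa using this
      _ = 1 := by
          rw [← Finset.sum_mul_sum, hμ1, one_mul]
  have habs := sum_abs_le M hM k hneg htr hsq
  set lam := hM.eigenvalues with hlam
  set U := (hM.eigenvectorUnitary : Matrix V V ℝ) with hU
  let α : V → V → ℝ := fun i l => Real.sqrt |lam l| * U i l / w i
  let β : V → V → ℝ := fun i l => (if lam l < 0 then -1 else 1) * α i l
  have hα2 : ∀ i l, α i l ^ 2 = |lam l| * U i l ^ 2 / μ i := by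
    intro i l
    simp only [α]
    rw [div_pow, mul_pow, Real.sq_sqrt (abs_nonneg _), hw2]
  have hβ2 : ∀ i l, β i l ^ 2 = α i l ^ 2 := by
    intro i l
    simp only [β]
    split_ifs <;> ring
  have hαβ : ∀ i j, 0 < μ i → 0 < μ j → ∑ l, α i l * β j l = G.adjMatrix ℝ i j := by
    intro i j hi hj
    have hwi : 0 < w i := Real.sqrt_pos.2 hi
    have hwj : 0 < w j := Real.sqrt_pos.2 hj
    have e1 : ∀ l, α i l * β j l = (lam l * U i l * U j l) / (w i * w j) := by
      intro l
      simp only [α, β]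
      have e2 : Real.sqrt |lam l| * Real.sqrt |lam l| = |lam l| :=
        Real.mul_self_sqrt (abs_nonneg _)
      have e3 : (if lam l < 0 then (-1 : ℝ) else 1) * |lam l| = lam l := by
        split_ifs with h
        · rw [abs_of_neg h]; ring
        · rw [abs_of_nonneg (not_lt.1 h)]; ring
      calc Real.sqrt |lam l| * U i l / w i *
            ((if lam l < 0 then (-1 : ℝ) else 1) * (Real.sqrt |lam l| * U j l / w j))
          = ((if lam l < 0 then (-1 : ℝ) else 1) * (Real.sqrt |lam l| * Real.sqrt |lam l|)) *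
            U i l * U j l / (w i * w j) := by field_simp
        _ = _ := by rw [e2, e3]
    simp_rw [e1]
    rw [← Finset.sum_div, ← spectral_apply M hM i j, hMw]
    field_simp
  let gd : V → Prop := fun i => 0 < μ i ∧ ∑ l, α i l ^ 2 ≤ 4 * Real.sqrt k
  refine ⟨fun i => if gd i then α i else 0, fun i => if gd i then β i else 0,
    fun i => if gd i then μ i else 0, ?_, ?_, ?_, ?_, ?_, ?_⟩
  · intro i
    simp only
    split_ifs
    · exact hμ i
    · exact le_refl _
  · intro i
    simp only
    split_ifs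
    · exact le_refl _
    · exact hμ i
  · -- Markov
    have h1 : ∀ i, (4 * Real.sqrt k) * (μ i - if gd i then μ i else 0) ≤
        ∑ l, |lam l| * U i l ^ 2 := by
      intro i
      have hnn : 0 ≤ ∑ l, |lam l| * U i l ^ 2 :=
        Finset.sum_nonneg fun l _ => mul_nonneg (abs_nonneg _) (sq_nonneg _)
      by_cases hg : gd i
      · rw [if_pos hg]; simpa using hnn
      · rw [if_neg hg, sub_zero]
        rcases (hμ i).lt_or_eq with hi | hi
        · have h2 : 4 * Real.sqrt k < ∑ l, α i l ^ 2 := by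
            by_contra h3
            exact hg ⟨hi, not_lt.1 h3⟩
          have h3 : ∑ l, α i l ^ 2 = (∑ l, |lam l| * U i l ^ 2) / μ i := by
            rw [Finset.sum_div]
            exact Finset.sum_congr rfl fun l _ => hα2 i l
          rw [h3, lt_div_iff₀ hi] at h2
          exact h2.le
        · rw [← hi]; simpa using hnn
    have h2 : (4 * Real.sqrt k) * (1 - ∑ i, if gd i then μ i else 0) ≤ 2 * Real.sqrt k := by
      calc (4 * Real.sqrt k) * (1 - ∑ i, if gd i then μ i else 0)
          = ∑ i, (4 * Real.sqrt k) * (μ i - if gd i then μ i else 0) := by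
            rw [← Finset.mul_sum, Finset.sum_sub_distrib, hμ1]
        _ ≤ ∑ i, ∑ l, |lam l| * U i l ^ 2 := Finset.sum_le_sum fun i _ => h1 i
        _ = ∑ l, |lam l| * ∑ i, U i l * U i l := by
            rw [Finset.sum_comm]
            refine Finset.sum_congr rfl fun l _ => ?_
            rw [Finset.mul_sum]
            exact Finset.sum_congr rfl fun i _ => by ring
        _ = ∑ l, |lam l| := by
            refine Finset.sum_congr rfl fun l _ => ?_
            rw [unitary_col, if_pos rfl, mul_one]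
        _ ≤ 2 * Real.sqrt k := habs
    have h3 : 4 * (1 - ∑ i, if gd i then μ i else 0) ≤ 2 := by
      refine le_of_mul_le_mul_right ?_ hsk
      calc 4 * (1 - ∑ i, if gd i then μ i else 0) * Real.sqrt k
          = (4 * Real.sqrt k) * (1 - ∑ i, if gd i then μ i else 0) := by ring
        _ ≤ 2 * Real.sqrt k := h2
    linarith
  · intro i
    simp only
    split_ifs with hg
    · exact hg.2
    · simp
  · intro i
    simp only
    split_ifs with hg
    · calc ∑ l, β i l ^ 2 = ∑ l, α i l ^ 2 := Finset.sum_congr rfl fun l _ => hβ2 i l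
        _ ≤ _ := hg.2
    · simp
  · intro i j hi hj
    have hgi : gd i := by
      by_contra h
      simp [h] at hi
    have hgj : gd j := by
      by_contra h
      simp [h] at hj
    simp only [hgi, hgj, if_true]
    rw [hαβ i j hgi.1 hgj.1, SimpleGraph.adjMatrix_apply]

end Fact

end Pool.Agent.Helper56.In
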