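import Mathlib

namespace Pool.Agent.Helper56.In

open Finset MeasureTheory ProbabilityTheory

section Gauss

variable {L : Type*} [Fintype L]

/-- standard Gaussian measure on `ℝ^L` -/
noncomputable def gam (L : Type*) [Fintype L] : Measure (L → ℝ) :=
  Measure.pi fun _ => gaussianReal 0 1

instance : IsProbabilityMeasure (gam L) := by unfold gam; infer_instance

/-- `F` is integrable with expectation `e`. -/
def EV (F : (L → ℝ) → ℝ) (e : ℝ) : Prop := Integrable F (gam L) ∧ ∫ g, F g ∂(gam L) = e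

theorem EV.exp (c : L → ℝ) : EV (fun g => Real.exp (∑ l, c l * g l))
    (Real.exp ((∑ l, c l ^ 2) / 2)) := by
  have h1 : (fun g : L → ℝ => Real.exp (∑ l, c l * g l)) =
      fun g => ∏ l, (fun x => Real.exp (c l * x)) (g l) := by
    funext g
    rw [Real.exp_sum]
  rw [h1]
  constructor
  · exact Integrable.fintype_prod (fun l => integrable_exp_mul_gaussianReal (c l))
  · unfold gam
    rw [integral_fintype_prod_eq_prod (fun l x => Real.exp (c l * x))]
    have h2 : ∀ l, ∫ x, Real.exp (c l * x) ∂(gaussianReal 0 1) = Real.exp (c l ^ 2 / 2) := by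
      intro l
      have := congrFun (mgf_fun_id_gaussianReal (μ := 0) (v := 1)) (c l)
      simp only [mgf] at this
      rw [this]
      congr 1
      simp
    simp_rw [h2]
    rw [← Real.exp_sum, Finset.sum_div]

theorem EV.add {F H : (L → ℝ) → ℝ} {e f : ℝ} (hF : EV F e) (hH : EV H f) :
    EV (fun g => F g + H g) (e + f) :=
  ⟨hF.1.add hH.1, by rw [integral_add hF.1 hH.1, hF.2, hH.2]⟩

theorem EV.sub {F H : (L → ℝ) → ℝ} {e f : ℝ} (hF : EV F e) (hH : EV H f) :
    EV (fun g => F g - H g) (e - f) :=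
  ⟨hF.1.sub hH.1, by rw [integral_sub hF.1 hH.1, hF.2, hH.2]⟩

theorem EV.smul {F : (L → ℝ) → ℝ} {e : ℝ} (c : ℝ) (hF : EV F e) :
    EV (fun g => c * F g) (c * e) :=
  ⟨hF.1.const_mul c, by rw [integral_const_mul, hF.2]⟩

theorem EV.sum {ι : Type*} (s : Finset ι) {F : ι → (L → ℝ) → ℝ} {e : ι → ℝ}
    (h : ∀ i ∈ s, EV (F i) (e i)) : EV (fun g => ∑ i ∈ s, F i g) (∑ i ∈ s, e i) := by
  constructor
  · exact integrable_finsetSum s fun i hi => (h i hi).1
  · rw [integral_finsetSum s fun i hi => (h i hi).1]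
    exact Finset.sum_congr rfl fun i hi => (h i hi).2

theorem EV.congr {F H : (L → ℝ) → ℝ} {e f : ℝ} (hF : EV F e) (h1 : ∀ g, H g = F g)
    (h2 : f = e) : EV H f := by
  have : H = F := funext h1
  rw [this, h2]; exact hF

theorem EV.exists_pos {F : (L → ℝ) → ℝ} {e : ℝ} (hF : EV F e) (he : 0 < e) : ∃ g, 0 < F g := by
  by_contra hno
  push Not at hno
  have : ∫ g, F g ∂(gam L) ≤ 0 := integral_nonpos hno
  rw [hF.2] at this
  linarith

end Gauss

section Tilt

variable {L V : Type*} [Fintype L] [Fintype V]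

/-- exponential tilt -/
noncomputable def tl (s : ℝ) (a : L → ℝ) (g : L → ℝ) : ℝ :=
  Real.exp (s * (∑ l, a l * g l) - s ^ 2 * (∑ l, a l ^ 2) / 2)

theorem tl_pos (s : ℝ) (a g : L → ℝ) : 0 < tl s a g := Real.exp_pos _

theorem EV.tl_mul (s : ℝ) (a b : L → ℝ) :
    EV (fun g => tl s a g * tl s b g) (Real.exp (s ^ 2 * ∑ l, a l * b l)) := by
  refine ((EV.exp (fun l => s * (a l + b l))).smul
    (Real.exp (- (s ^ 2 * (∑ l, a l ^ 2) / 2) - s ^ 2 * (∑ l, b l ^ 2) / 2))).congr ?_ ?_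
  · intro g
    unfold tl
    rw [← Real.exp_add, ← Real.exp_add]
    congr 1
    have : ∑ l, s * (a l + b l) * g l = s * (∑ l, a l * g l) + s * (∑ l, b l * g l) := by
      rw [Finset.mul_sum, Finset.mul_sum, ← Finset.sum_add_distrib]
      exact Finset.sum_congr rfl fun l _ => by ring
    rw [this]; ring
  · rw [← Real.exp_add]
    congr 1
    have : ∑ l, (s * (a l + b l)) ^ 2 = s ^ 2 * (∑ l, a l ^ 2) + s ^ 2 * (∑ l, b l ^ 2) +
        2 * (s ^ 2 * ∑ l, a l * b l) := by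
      rw [Finset.mul_sum, Finset.mul_sum, Finset.mul_sum, Finset.mul_sum,
        ← Finset.sum_add_distrib, ← Finset.sum_add_distrib]
      exact Finset.sum_congr rfl fun l _ => by ring
    rw [this]; ring

theorem inner_le (a b : L → ℝ) (γ : ℝ) (ha : ∑ l, a l ^ 2 ≤ γ) (hb : ∑ l, b l ^ 2 ≤ γ) :
    ∑ l, a l * b l ≤ γ := by
  have : ∑ l, a l * b l ≤ (∑ l, a l ^ 2) / 2 + (∑ l, b l ^ 2) / 2 := by
    rw [Finset.sum_div, Finset.sum_div, ← Finset.sum_add_distrib]
    refine Finset.sum_le_sum fun l _ => ?_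
    nlinarith [sq_nonneg (a l - b l)]
  linarith

/-- The tilt lemma. -/
theorem tilt (a b : V → L → ℝ) (γ : ℝ) (ha : ∀ i, ∑ l, a i l ^ 2 ≤ γ)
    (hb : ∀ i, ∑ l, b i l ^ 2 ≤ γ) (m : V → ℝ) (hm : ∀ i, 0 ≤ m i) (hm1 : ∑ i, m i ≤ 1)
    (hm2 : 1 / 2 ≤ ∑ i, m i) (good : V → V → Prop) [∀ i j, Decidable (good i j)]
    (αg : ℝ) (hαg : 0 ≤ αg)
    (hgood : ∀ i j, m i ≠ 0 → m j ≠ 0 → good i j → ∑ l, a i l * b j l = αg)
    (hbad : ∀ i j, m i ≠ 0 → m j ≠ 0 → ¬ good i j → ∑ l, a i l * b j l = αg - 1)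
    (hmass : (∑ i, ∑ j, if good i j then 0 else m i * m j) ≤
      ∑ i, ∑ j, if good i j then m i * m j else 0)
    (ε : ℝ) (hε : 0 < ε) (hε1 : ε ≤ 1) (N N' : ℝ) (hN' : 0 < N')
    (hNN : 4096 * (Real.exp (Real.log (16 / ε) * γ)) ^ 2 * N' ≤ N)
    (hcoll : N * ∑ i, m i ^ 2 ≤ 1) :
    ∃ u v : V → ℝ, (∀ i, 0 ≤ u i) ∧ (∀ i, 0 ≤ v i) ∧ (∀ i, m i = 0 → u i = 0 ∧ v i = 0) ∧
      0 < ∑ i, u i ∧ 0 < ∑ i, v i ∧
      (∑ i, ∑ j, if good i j then 0 else u i * v j) < ε * ((∑ i, u i) * ∑ j, v j) ∧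
      N' * ∑ i, u i ^ 2 < (∑ i, u i) ^ 2 ∧ N' * ∑ i, v i ^ 2 < (∑ i, v i) ^ 2 := by
  set θ : ℝ := Real.log (16 / ε) with hθ
  have h16 : 1 ≤ 16 / ε := by rw [one_le_div hε]; linarith
  have hθ0 : 0 ≤ θ := Real.log_nonneg h16
  set s : ℝ := Real.sqrt θ with hs
  have hs2 : s ^ 2 = θ := Real.sq_sqrt hθ0
  set E : ℝ := Real.exp (θ * γ) with hE
  have hEpos : 0 < E := Real.exp_pos _
  set t : ℝ := 64 * E with ht
  have htpos : 0 < t := by positivity
  let f : V → (L → ℝ) → ℝ := fun i => tl s (a i)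
  let h : V → (L → ℝ) → ℝ := fun j => tl s (b j)
  -- the random variable
  let Y : (L → ℝ) → ℝ := fun g =>
    (∑ i, ∑ j, (m i * m j * (if good i j then 1 else 1 - 1 / ε)) * (f i g * h j g)) -
    ((t * N' / 2) * ∑ i, m i ^ 2 * (f i g * f i g)) -
    ((1 / (2 * t)) * ∑ i, ∑ j, m i * m j * (h i g * h j g)) -
    ((t * N' / 2) * ∑ i, m i ^ 2 * (h i g * h i g)) -
    ((1 / (2 * t)) * ∑ i, ∑ j, m i * m j * (f i g * f j g))
  have hY : EV Y (
    (∑ i, ∑ j, (m i * m j * (if good i j then 1 else 1 - 1 / ε)) *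
      Real.exp (s ^ 2 * ∑ l, a i l * b j l)) -
    ((t * N' / 2) * ∑ i, m i ^ 2 * Real.exp (s ^ 2 * ∑ l, a i l * a i l)) -
    ((1 / (2 * t)) * ∑ i, ∑ j, m i * m j * Real.exp (s ^ 2 * ∑ l, b i l * b j l)) -
    ((t * N' / 2) * ∑ i, m i ^ 2 * Real.exp (s ^ 2 * ∑ l, b i l * b i l)) -
    ((1 / (2 * t)) * ∑ i, ∑ j, m i * m j * Real.exp (s ^ 2 * ∑ l, a i l * a j l))) := by
    refine (((((EV.sum _ fun i _ => EV.sum _ fun j _ => (EV.tl_mul s (a i) (b j)).smul _).sub
      ((EV.sum _ fun i _ => (EV.tl_mul s (a i) (a i)).smul _).smul _)).sub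
      ((EV.sum _ fun i _ => EV.sum _ fun j _ => (EV.tl_mul s (b i) (b j)).smul _).smul _)).sub
      ((EV.sum _ fun i _ => (EV.tl_mul s (b i) (b i)).smul _).smul _)).sub
      ((EV.sum _ fun i _ => EV.sum _ fun j _ => (EV.tl_mul s (a i) (a j)).smul _).smul _))
  -- lower bound for the expectation
  have hexp_le : ∀ x y : L → ℝ, ∑ l, x l ^ 2 ≤ γ → ∑ l, y l ^ 2 ≤ γ →
      Real.exp (s ^ 2 * ∑ l, x l * y l) ≤ E := by
    intro x y hx hy
    rw [hs2, hE]
    exact Real.exp_le_exp.2 (mul_le_mul_of_nonneg_left (inner_le x y γ hx hy) hθ0)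
  have hmm0 : ∀ i j, 0 ≤ m i * m j := fun i j => mul_nonneg (hm i) (hm j)
  have hsumsq : (∑ i, ∑ j, m i * m j) = (∑ i, m i) ^ 2 := by
    rw [sq, Finset.sum_mul_sum]
  have hM0 : 0 ≤ ∑ i, m i := Finset.sum_nonneg fun i _ => hm i
  have hsumsq1 : (∑ i, ∑ j, m i * m j) ≤ 1 := by
    rw [hsumsq]; nlinarith
  have hsumsq2 : 1 / 4 ≤ ∑ i, ∑ j, m i * m j := by
    rw [hsumsq]; nlinarith
  have hcoll0 : 0 ≤ ∑ i, m i ^ 2 := Finset.sum_nonneg fun i _ => sq_nonneg _
  have hNpos : 0 < N := lt_of_lt_of_le (by positivity) hNN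
  have hterm2 : ∀ x : V → L → ℝ, (∀ i, ∑ l, x i l ^ 2 ≤ γ) →
      (t * N' / 2) * ∑ i, m i ^ 2 * Real.exp (s ^ 2 * ∑ l, x i l * x i l) ≤ 1 / 128 := by
    intro x hx
    have h1 : ∑ i, m i ^ 2 * Real.exp (s ^ 2 * ∑ l, x i l * x i l) ≤ E * ∑ i, m i ^ 2 := by
      rw [Finset.mul_sum]
      refine Finset.sum_le_sum fun i _ => ?_
      rw [mul_comm E]
      exact mul_le_mul_of_nonneg_left (hexp_le _ _ (hx i) (hx i)) (sq_nonneg _)
    calc (t * N' / 2) * ∑ i, m i ^ 2 * Real.exp (s ^ 2 * ∑ l, x i l * x i l)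
        ≤ (t * N' / 2) * (E * ∑ i, m i ^ 2) := mul_le_mul_of_nonneg_left h1 (by positivity)
      _ = (4096 * E ^ 2 * N') * (∑ i, m i ^ 2) / 128 := by rw [ht]; ring
      _ ≤ N * (∑ i, m i ^ 2) / 128 := by
          have := mul_le_mul_of_nonneg_right hNN hcoll0
          linarith
      _ ≤ 1 / 128 := by linarith
  have hterm3 : ∀ x : V → L → ℝ, (∀ i, ∑ l, x i l ^ 2 ≤ γ) →
      (1 / (2 * t)) * ∑ i, ∑ j, m i * m j * Real.exp (s ^ 2 * ∑ l, x i l * x j l) ≤ 1 / 128 := by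
    intro x hx
    have h1 : ∑ i, ∑ j, m i * m j * Real.exp (s ^ 2 * ∑ l, x i l * x j l) ≤
        E * ∑ i, ∑ j, m i * m j := by
      rw [Finset.mul_sum]
      refine Finset.sum_le_sum fun i _ => ?_
      rw [Finset.mul_sum]
      refine Finset.sum_le_sum fun j _ => ?_
      rw [mul_comm E]
      exact mul_le_mul_of_nonneg_left (hexp_le _ _ (hx i) (hx j)) (hmm0 i j)
    calc (1 / (2 * t)) * ∑ i, ∑ j, m i * m j * Real.exp (s ^ 2 * ∑ l, x i l * x j l)
        ≤ (1 / (2 * t)) * (E * 1) := by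
          refine mul_le_mul_of_nonneg_left (h1.trans ?_) (by positivity)
          exact mul_le_mul_of_nonneg_left hsumsq1 hEpos.le
      _ = 1 / 128 := by rw [ht]; field_simp; norm_num
  -- main term
  set wg : ℝ := Real.exp (θ * αg) with hwg
  have hwg1 : 1 ≤ wg := Real.one_le_exp (mul_nonneg hθ0 hαg)
  have hwb : Real.exp (θ * (αg - 1)) = wg * (ε / 16) := by
    have e1 : θ * (αg - 1) = θ * αg - θ := by ring
    rw [e1, Real.exp_sub, ← hwg, hθ, Real.exp_log (by positivity)]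
    field_simp
  have hmain : (15 / 128 : ℝ) ≤
      ∑ i, ∑ j, (m i * m j * (if good i j then 1 else 1 - 1 / ε)) *
      Real.exp (s ^ 2 * ∑ l, a i l * b j l) := by
    have h1 : ∀ i j, wg * (if good i j then m i * m j else 0) -
        wg / 16 * (if good i j then 0 else m i * m j) ≤
        (m i * m j * (if good i j then 1 else 1 - 1 / ε)) *
        Real.exp (s ^ 2 * ∑ l, a i l * b j l) := by
      intro i j
      by_cases hi : m i = 0
      · simp [hi]
      by_cases hj : m j = 0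
      · simp [hj]
      by_cases hg : good i j
      · rw [if_pos hg, if_pos hg, if_pos hg, hs2, hgood i j hi hj hg, ← hwg]
        linarith
      · rw [if_neg hg, if_neg hg, if_neg hg, hs2, hbad i j hi hj hg, hwb]
        have e2 : m i * m j * (1 - 1 / ε) * (wg * (ε / 16)) =
            m i * m j * wg * (ε / 16) - wg / 16 * (m i * m j) := by
          field_simp
        rw [e2]
        have : 0 ≤ m i * m j * wg * (ε / 16) := by
          have := hmm0 i j
          positivity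
        linarith
    have h2 : wg * (∑ i, ∑ j, if good i j then m i * m j else 0) -
        wg / 16 * (∑ i, ∑ j, if good i j then 0 else m i * m j) ≤
        ∑ i, ∑ j, (m i * m j * (if good i j then 1 else 1 - 1 / ε)) *
        Real.exp (s ^ 2 * ∑ l, a i l * b j l) := by
      rw [Finset.mul_sum, Finset.mul_sum, ← Finset.sum_sub_distrib]
      refine Finset.sum_le_sum fun i _ => ?_
      rw [Finset.mul_sum, Finset.mul_sum, ← Finset.sum_sub_distrib]
      exact Finset.sum_le_sum fun j _ => h1 i j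
    have h3 : (∑ i, ∑ j, if good i j then m i * m j else 0) +
        (∑ i, ∑ j, if good i j then 0 else m i * m j) = ∑ i, ∑ j, m i * m j := by
      rw [← Finset.sum_add_distrib]
      refine Finset.sum_congr rfl fun i _ => ?_
      rw [← Finset.sum_add_distrib]
      refine Finset.sum_congr rfl fun j _ => ?_
      split_ifs <;> simp
    set Gm := ∑ i, ∑ j, if good i j then m i * m j else 0
    set Bm := ∑ i, ∑ j, if good i j then 0 else m i * m j
    have h4 : 1 / 8 ≤ Gm := by linarith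
    have h5 : 15 / 16 * Gm ≤ wg * Gm - wg / 16 * Bm := by
      have h6 : wg * Gm - wg / 16 * Bm = wg * (Gm - Bm / 16) := by ring
      rw [h6]
      nlinarith
    linarith
  have hpos := hmain
  obtain ⟨g, hg⟩ := hY.exists_pos (by
    have := hterm2 a ha
    have := hterm2 b hb
    have := hterm3 a ha
    have := hterm3 b hb
    linarith)
  -- extract the tilted weights
  refine ⟨fun i => m i * f i g, fun j => m j * h j g,
    fun i => mul_nonneg (hm i) (tl_pos _ _ _).le, fun i => mul_nonneg (hm i) (tl_pos _ _ _).le,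
    fun i hi => by simp [hi], ?_⟩
  set Zu := ∑ i, m i * f i g with hZu
  set Zv := ∑ i, m i * h i g with hZv
  set Cu := ∑ i, (m i * f i g) ^ 2 with hCu
  set Cv := ∑ i, (m i * h i g) ^ 2 with hCv
  set Bd := ∑ i, ∑ j, if good i j then 0 else m i * f i g * (m j * h j g) with hBd
  have hZu0 : 0 ≤ Zu := Finset.sum_nonneg fun i _ => mul_nonneg (hm i) (tl_pos _ _ _).le
  have hZv0 : 0 ≤ Zv := Finset.sum_nonneg fun i _ => mul_nonneg (hm i) (tl_pos _ _ _).le
  have hCu0 : 0 ≤ Cu := Finset.sum_nonneg fun i _ => sq_nonneg _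
  have hCv0 : 0 ≤ Cv := Finset.sum_nonneg fun i _ => sq_nonneg _
  have hBd0 : 0 ≤ Bd := Finset.sum_nonneg fun i _ => Finset.sum_nonneg fun j _ => by
    split_ifs
    · exact le_refl _
    · exact mul_nonneg (mul_nonneg (hm i) (tl_pos _ _ _).le)
        (mul_nonneg (hm j) (tl_pos _ _ _).le)
  have hYg : Y g = (Zu * Zv - 1 / ε * Bd) - (t * N' / 2) * Cu - (1 / (2 * t)) * Zv ^ 2 -
      (t * N' / 2) * Cv - (1 / (2 * t)) * Zu ^ 2 := by
    have e1 : (∑ i, ∑ j, (m i * m j * (if good i j then 1 else 1 - 1 / ε)) * (f i g * h j g)) =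
        Zu * Zv - 1 / ε * Bd := by
      rw [hZu, hZv, hBd, Finset.sum_mul_sum, Finset.mul_sum, ← Finset.sum_sub_distrib]
      refine Finset.sum_congr rfl fun i _ => ?_
      rw [Finset.mul_sum, ← Finset.sum_sub_distrib]
      refine Finset.sum_congr rfl fun j _ => ?_
      split_ifs <;> ring
    have e2 : (∑ i, m i ^ 2 * (f i g * f i g)) = Cu :=
      Finset.sum_congr rfl fun i _ => by ring
    have e3 : (∑ i, m i ^ 2 * (h i g * h i g)) = Cv :=
      Finset.sum_congr rfl fun i _ => by ring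
    have e4 : (∑ i, ∑ j, m i * m j * (h i g * h j g)) = Zv ^ 2 := by
      rw [hZv, sq, Finset.sum_mul_sum]
      refine Finset.sum_congr rfl fun i _ => Finset.sum_congr rfl fun j _ => by ring
    have e5 : (∑ i, ∑ j, m i * m j * (f i g * f j g)) = Zu ^ 2 := by
      rw [hZu, sq, Finset.sum_mul_sum]
      refine Finset.sum_congr rfl fun i _ => Finset.sum_congr rfl fun j _ => by ring
    show (∑ i, ∑ j, (m i * m j * (if good i j then 1 else 1 - 1 / ε)) * (f i g * h j g)) -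
      ((t * N' / 2) * ∑ i, m i ^ 2 * (f i g * f i g)) -
      ((1 / (2 * t)) * ∑ i, ∑ j, m i * m j * (h i g * h j g)) -
      ((t * N' / 2) * ∑ i, m i ^ 2 * (h i g * h i g)) -
      ((1 / (2 * t)) * ∑ i, ∑ j, m i * m j * (f i g * f j g)) = _
    rw [e1, e2, e3, e4, e5]
  rw [hYg] at hg
  have hp1 : 0 ≤ 1 / ε * Bd := by positivity
  have hp2 : 0 ≤ (t * N' / 2) * Cu := by positivity
  have hp3 : 0 ≤ (1 / (2 * t)) * Zv ^ 2 := by positivity
  have hp4 : 0 ≤ (t * N' / 2) * Cv := by positivity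
  have hp5 : 0 ≤ (1 / (2 * t)) * Zu ^ 2 := by positivity
  have hZZ : 0 < Zu * Zv := by linarith
  have hZupos : 0 < Zu := by
    rcases hZu0.lt_or_eq with h1 | h1
    · exact h1
    · rw [← h1] at hZZ; simp at hZZ
  have hZvpos : 0 < Zv := by
    rcases hZv0.lt_or_eq with h1 | h1
    · exact h1
    · rw [← h1] at hZZ; simp at hZZ
  refine ⟨hZupos, hZvpos, ?_, ?_, ?_⟩
  · have h1 : 1 / ε * Bd < Zu * Zv := by linarith
    rw [one_div, inv_mul_lt_iff₀ hε] at h1
    exact h1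
  · by_contra hlt
    rw [not_lt] at hlt
    have h1 : (t / 2) * Zu ^ 2 ≤ (t * N' / 2) * Cu := by
      have := mul_le_mul_of_nonneg_left hlt (by positivity : (0 : ℝ) ≤ t / 2)
      calc (t / 2) * Zu ^ 2 ≤ (t / 2) * (N' * Cu) := this
        _ = (t * N' / 2) * Cu := by ring
    have h2 : Zu * Zv ≤ (t / 2) * Zu ^ 2 + (1 / (2 * t)) * Zv ^ 2 := by
      have h3 : (t / 2) * Zu ^ 2 + (1 / (2 * t)) * Zv ^ 2 - Zu * Zv =
          (t * Zu - Zv) ^ 2 / (2 * t) := by
        field_simp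
        ring
      have h4 : 0 ≤ (t * Zu - Zv) ^ 2 / (2 * t) := by positivity
      linarith
    linarith
  · by_contra hlt
    rw [not_lt] at hlt
    have h1 : (t / 2) * Zv ^ 2 ≤ (t * N' / 2) * Cv := by
      have := mul_le_mul_of_nonneg_left hlt (by positivity : (0 : ℝ) ≤ t / 2)
      calc (t / 2) * Zv ^ 2 ≤ (t / 2) * (N' * Cv) := this
        _ = (t * N' / 2) * Cv := by ring
    have h2 : Zu * Zv ≤ (t / 2) * Zv ^ 2 + (1 / (2 * t)) * Zu ^ 2 := by
      have h3 : (t / 2) * Zv ^ 2 + (1 / (2 * t)) * Zu ^ 2 - Zu * Zv =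
          (t * Zv - Zu) ^ 2 / (2 * t) := by
        field_simp
        ring
      have h4 : 0 ≤ (t * Zv - Zu) ^ 2 / (2 * t) := by positivity
      linarith
    linarith

end Tilt

end Pool.Agent.Helper56.In
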