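import Pool.Agent.Helper56.InFact
import Pool.Agent.Helper56.InTilt

namespace Pool.Agent.Helper56.In

open Matrix Finset Module
open Pool.Agent.Helper16.Inertia

section Ramsey

variable {V : Type*} [Fintype V] [DecidableEq V] {G : SimpleGraph V} [DecidableRel G.Adj]

theorem indep_card_le {k : ℕ} (hG : NP (G.adjMatrix ℝ) k) (I : Finset V)
    (hI : ∀ x ∈ I, ∀ y ∈ I, ¬ G.Adj x y) : I.card ≤ k := by
  have h1 := hG.of_map (ext (fun x : I => (x : V))) (ext_injective Subtype.val_injective) (by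
    intro c
    rw [quad_ext]
    refine le_of_eq ?_
    simp only [dotProduct, mulVec, submatrix_apply, SimpleGraph.adjMatrix_apply]
    refine Finset.sum_eq_zero fun x _ => ?_
    rw [Finset.sum_eq_zero, mul_zero]
    intro y _
    rw [if_neg (hI x x.2 y y.2), zero_mul])
  rwa [Module.finrank_fintype_fun_eq_card, Fintype.card_coe] at h1

theorem clique_card_le {k : ℕ} (hG : NP (G.adjMatrix ℝ) k) (Q : Finset V)
    (hQ : ∀ x ∈ Q, ∀ y ∈ Q, x ≠ y → G.Adj x y) : Q.card ≤ k + 1 := by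
  let S : (Q → ℝ) →ₗ[ℝ] ℝ := ∑ x, LinearMap.proj x
  have hS : ∀ y, S y = ∑ x, y x := by
    intro y
    simp [S]
  have h1 := hG.of_map ((ext (fun x : Q => (x : V))).comp (LinearMap.ker S).subtype)
    ((ext_injective Subtype.val_injective).comp Subtype.val_injective) (by
    rintro ⟨c, hc⟩
    rw [LinearMap.mem_ker, hS] at hc
    show ext (fun x : Q => (x : V)) c ⬝ᵥ (G.adjMatrix ℝ) *ᵥ ext (fun x : Q => (x : V)) c ≤ 0
    rw [quad_ext]
    have e1 : ∀ x : Q, ((G.adjMatrix ℝ).submatrix (fun x : Q => (x : V)) (fun x : Q => (x : V)) *ᵥ c) x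
        = - c x := by
      intro x
      have e2 : ∀ y : Q, (G.adjMatrix ℝ).submatrix (fun x : Q => (x : V)) (fun x : Q => (x : V)) x y
          * c y = c y - (if y = x then c x else 0) := by
        intro y
        rw [submatrix_apply, SimpleGraph.adjMatrix_apply]
        by_cases hxy : y = x
        · subst hxy
          rw [if_neg G.irrefl, if_pos rfl]; ring
        · rw [if_pos (hQ x x.2 y y.2 fun e => hxy (Subtype.ext e.symm)), if_neg hxy]; ring
      simp only [mulVec, dotProduct]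
      simp_rw [e2]
      rw [Finset.sum_sub_distrib, hc, Finset.sum_ite_eq']
      simp
    simp only [dotProduct, e1]
    refine Finset.sum_nonpos fun x _ => ?_
    nlinarith [sq_nonneg (c x)])
  have h2 := LinearMap.finrank_range_add_finrank_ker S
  have h3 : finrank ℝ (LinearMap.range S) ≤ 1 := by
    have := Submodule.finrank_le (LinearMap.range S)
    rwa [Module.finrank_self] at this
  rw [Module.finrank_fintype_fun_eq_card, Fintype.card_coe] at h2
  omega

/-- There are an independent set and a clique in the support of `μ` with product of sizes at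
least `r`. -/
def HasIQ (G : SimpleGraph V) (μ : V → ℝ) (r : ℕ) : Prop :=
  ∃ I Q : Finset V, (∀ i ∈ I, μ i ≠ 0) ∧ (∀ i ∈ Q, μ i ≠ 0) ∧
    (∀ x ∈ I, ∀ y ∈ I, ¬ G.Adj x y) ∧ (∀ x ∈ Q, ∀ y ∈ Q, x ≠ y → G.Adj x y) ∧
    r ≤ I.card * Q.card

omit [DecidableRel G.Adj] in
theorem normalize (w : V → ℝ) (hw : ∀ i, 0 ≤ w i) (hW : 0 < ∑ i, w i) (S : Finset V)
    (hS : (∑ i, w i) / 2 ≤ ∑ i ∈ S, w i) (N N' : ℝ) (hN : 0 ≤ N) (hNN : 4 * N ≤ N')
    (hcoll : N' * ∑ i, w i ^ 2 < (∑ i, w i) ^ 2) (r : ℕ)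
    (IH : ∀ μ : V → ℝ, (∀ i, 0 ≤ μ i) → ∑ i, μ i = 1 → N * ∑ i, μ i ^ 2 ≤ 1 → HasIQ G μ r) :
    ∃ I Q : Finset V, I ⊆ S ∧ Q ⊆ S ∧ (∀ i ∈ I, w i ≠ 0) ∧ (∀ i ∈ Q, w i ≠ 0) ∧
    (∀ x ∈ I, ∀ y ∈ I, ¬ G.Adj x y) ∧ (∀ x ∈ Q, ∀ y ∈ Q, x ≠ y → G.Adj x y) ∧
    r ≤ I.card * Q.card := by
  set Z := ∑ i ∈ S, w i with hZ
  have hZpos : 0 < Z := by linarith
  obtain ⟨I, Q, hI, hQ, hI2, hQ2, hr⟩ := IH (fun i => if i ∈ S then w i / Z else 0)
    (fun i => by
      split_ifs
      · exact div_nonneg (hw i) hZpos.le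
      · exact le_refl _)
    (by
      rw [Finset.sum_ite_mem, Finset.univ_inter, ← Finset.sum_div, ← hZ, div_self hZpos.ne'])
    (by
      have e1 : ∑ i, (if i ∈ S then w i / Z else 0) ^ 2 = (∑ i ∈ S, w i ^ 2) / Z ^ 2 := by
        have : ∀ i, (if i ∈ S then w i / Z else 0) ^ 2 = if i ∈ S then w i ^ 2 / Z ^ 2 else 0 := by
          intro i
          split_ifs
          · rw [div_pow]
          · simp
        simp_rw [this]
        rw [Finset.sum_ite_mem, Finset.univ_inter, Finset.sum_div]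
      rw [e1, ← mul_div_assoc, div_le_one (by positivity)]
      have h1 : ∑ i ∈ S, w i ^ 2 ≤ ∑ i, w i ^ 2 :=
        Finset.sum_le_sum_of_subset_of_nonneg (subset_univ _) fun i _ _ => sq_nonneg _
      have h0 : 0 ≤ ∑ i, w i ^ 2 := Finset.sum_nonneg fun i _ => sq_nonneg _
      have h2 : N * ∑ i ∈ S, w i ^ 2 ≤ N * ∑ i, w i ^ 2 := mul_le_mul_of_nonneg_left h1 hN
      have h3 : 4 * N * ∑ i, w i ^ 2 ≤ N' * ∑ i, w i ^ 2 := mul_le_mul_of_nonneg_right hNN h0
      have h4 : (∑ i, w i) ^ 2 ≤ (2 * Z) ^ 2 := by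
        refine pow_le_pow_left₀ hW.le ?_ 2
        linarith
      nlinarith)
  refine ⟨I, Q, ?_, ?_, ?_, ?_, hI2, hQ2, hr⟩
  · intro i hi
    by_contra h
    exact hI i hi (by simp [h])
  · intro i hi
    by_contra h
    exact hQ i hi (by simp [h])
  · intro i hi h
    exact hI i hi (by simp [h])
  · intro i hi h
    exact hQ i hi (by simp [h])

theorem combine {k : ℕ} (hG : NP (G.adjMatrix ℝ) k)
    (good : V → V → Prop) [∀ i j, Decidable (good i j)]
    (hgood : (∀ i j, good i j ↔ G.Adj i j) ∨ (∀ i j, good i j ↔ ¬ G.Adj i j))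
    (u v : V → ℝ) (hu : ∀ i, 0 ≤ u i) (hv : ∀ i, 0 ≤ v i) (hZu : 0 < ∑ i, u i)
    (hZv : 0 < ∑ i, v i)
    (hbad : (∑ i, ∑ j, if good i j then 0 else u i * v j) <
      (1 / (8 * (2 * (k : ℝ) + 1))) * ((∑ i, u i) * ∑ j, v j))
    (N N' : ℝ) (hN : 0 ≤ N) (hNN : 4 * N ≤ N') (hN' : 16 * (2 * (k : ℝ) + 1) ^ 2 ≤ N')
    (hcu : N' * ∑ i, u i ^ 2 < (∑ i, u i) ^ 2) (hcv : N' * ∑ i, v i ^ 2 < (∑ i, v i) ^ 2)
    (r : ℕ)
    (IH : ∀ μ : V → ℝ, (∀ i, 0 ≤ μ i) → ∑ i, μ i = 1 → N * ∑ i, μ i ^ 2 ≤ 1 → HasIQ G μ r) :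
    ∃ I Q : Finset V, (∀ i ∈ I, u i ≠ 0 ∨ v i ≠ 0) ∧ (∀ i ∈ Q, u i ≠ 0 ∨ v i ≠ 0) ∧
    (∀ x ∈ I, ∀ y ∈ I, ¬ G.Adj x y) ∧ (∀ x ∈ Q, ∀ y ∈ Q, x ≠ y → G.Adj x y) ∧
    2 * r ≤ I.card * Q.card := by
  classical
  set Zu := ∑ i, u i with hZu'
  set Zv := ∑ i, v i with hZv'
  set K : ℝ := 2 * (k : ℝ) + 1 with hK
  have hKpos : 0 < K := by positivity
  let bd : V → ℝ := fun i => ∑ j, if good i j then 0 else v j
  have hbd0 : ∀ i, 0 ≤ bd i := fun i => Finset.sum_nonneg fun j _ => by
    split_ifs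
    · exact le_refl _
    · exact hv j
  let S := univ.filter fun i => bd i ≤ Zv / (4 * K)
  have hS : Zu / 2 ≤ ∑ i ∈ S, u i := by
    have h1 : (∑ i, ∑ j, if good i j then 0 else u i * v j) = ∑ i, u i * bd i := by
      refine Finset.sum_congr rfl fun i _ => ?_
      simp only [bd]
      rw [Finset.mul_sum]
      refine Finset.sum_congr rfl fun j _ => ?_
      split_ifs <;> simp
    have h2 : (Zv / (4 * K)) * ∑ i ∈ univ.filter (fun i => ¬ bd i ≤ Zv / (4 * K)), u i ≤
        ∑ i, u i * bd i := by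
      calc (Zv / (4 * K)) * ∑ i ∈ univ.filter (fun i => ¬ bd i ≤ Zv / (4 * K)), u i
          = ∑ i ∈ univ.filter (fun i => ¬ bd i ≤ Zv / (4 * K)), (Zv / (4 * K)) * u i := by
            rw [Finset.mul_sum]
        _ ≤ ∑ i ∈ univ.filter (fun i => ¬ bd i ≤ Zv / (4 * K)), u i * bd i := by
            refine Finset.sum_le_sum fun i hi => ?_
            rw [mul_comm]
            exact mul_le_mul_of_nonneg_left (not_le.1 (mem_filter.1 hi).2).le (hu i)
        _ ≤ ∑ i, u i * bd i :=
            Finset.sum_le_sum_of_subset_of_nonneg (filter_subset _ _)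
              fun i _ _ => mul_nonneg (hu i) (hbd0 i)
    have h3 : (Zv / (4 * K)) * ∑ i ∈ univ.filter (fun i => ¬ bd i ≤ Zv / (4 * K)), u i <
        (Zv / (4 * K)) * (Zu / 2) := by
      calc _ ≤ ∑ i, u i * bd i := h2
        _ < _ := by rw [← h1]; exact hbad
        _ = (Zv / (4 * K)) * (Zu / 2) := by field_simp; norm_num
    have h4 : ∑ i ∈ univ.filter (fun i => ¬ bd i ≤ Zv / (4 * K)), u i < Zu / 2 :=
      lt_of_mul_lt_mul_left h3 (by positivity)
    have h5 := Finset.sum_filter_add_sum_filter_not univ (fun i => bd i ≤ Zv / (4 * K)) u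
    rw [← hZu'] at h5
    linarith
  obtain ⟨I1, Q1, hI1S, hQ1S, hI1u, hQ1u, hI1, hQ1, hr1⟩ :=
    normalize (G := G) u hu hZu S hS N N' hN hNN hcu r IH
  have hI1c := indep_card_le hG I1 hI1
  have hQ1c := clique_card_le hG Q1 hQ1
  let R := I1 ∪ Q1
  have hRc : (R.card : ℝ) ≤ K := by
    have h1 : R.card ≤ 2 * k + 1 := (card_union_le _ _).trans (by omega)
    have h2 : (R.card : ℝ) ≤ ((2 * k + 1 : ℕ) : ℝ) := by exact_mod_cast h1
    rw [hK]; push_cast at h2; exact h2
  have hRS : ∀ r ∈ R, bd r ≤ Zv / (4 * K) := by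
    intro r hr
    rcases mem_union.1 hr with h | h
    · exact (mem_filter.1 (hI1S h)).2
    · exact (mem_filter.1 (hQ1S h)).2
  have hvmax : ∀ r, v r ≤ Zv / (4 * K) := by
    intro r
    have h1 : v r ^ 2 ≤ ∑ i, v i ^ 2 :=
      Finset.single_le_sum (f := fun i => v i ^ 2) (fun i _ => sq_nonneg _) (mem_univ r)
    have h2 : (4 * K * v r) ^ 2 ≤ Zv ^ 2 := by
      have h0 : 0 ≤ ∑ i, v i ^ 2 := Finset.sum_nonneg fun i _ => sq_nonneg _
      have h3 : 16 * K ^ 2 * ∑ i, v i ^ 2 ≤ N' * ∑ i, v i ^ 2 :=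
        mul_le_mul_of_nonneg_right hN' h0
      have h4 : 16 * K ^ 2 * v r ^ 2 ≤ 16 * K ^ 2 * ∑ i, v i ^ 2 :=
        mul_le_mul_of_nonneg_left h1 (by positivity)
      nlinarith
    have h3 := (pow_le_pow_iff_left₀ (mul_nonneg (by positivity) (hv r)) hZv.le two_ne_zero).1 h2
    rw [le_div_iff₀ (by positivity)]
    linarith
  let T := univ.filter fun t => ∀ r ∈ R, good r t ∧ t ≠ r
  have hT : Zv / 2 ≤ ∑ i ∈ T, v i := by
    have h1 : ∑ t ∈ univ.filter (fun t => ¬ ∀ r ∈ R, good r t ∧ t ≠ r), v t ≤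
        ∑ r ∈ R, (bd r + v r) := by
      calc ∑ t ∈ univ.filter (fun t => ¬ ∀ r ∈ R, good r t ∧ t ≠ r), v t
          ≤ ∑ t ∈ univ.filter (fun t => ¬ ∀ r ∈ R, good r t ∧ t ≠ r),
            ∑ r ∈ R, ((if good r t then 0 else v t) + if t = r then v t else 0) := by
            refine Finset.sum_le_sum fun t ht => ?_
            have ht' := (mem_filter.1 ht).2
            push Not at ht'
            obtain ⟨r, hr, hrt⟩ := ht'
            refine le_trans ?_ (Finset.single_le_sum (f := fun r =>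
              ((if good r t then 0 else v t) + if t = r then v t else 0)) ?_ hr)
            · by_cases hg : good r t
              · simp only [if_pos hg, if_pos (hrt hg), zero_add, le_refl]
              · have : 0 ≤ if t = r then v t else 0 := by
                  split_ifs
                  · exact hv t
                  · exact le_refl _
                simp only [if_neg hg]
                linarith
            · intro r _
              refine add_nonneg ?_ ?_
              · split_ifs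
                · exact le_refl _
                · exact hv t
              · split_ifs
                · exact hv t
                · exact le_refl _
        _ ≤ ∑ t, ∑ r ∈ R, ((if good r t then 0 else v t) + if t = r then v t else 0) := by
            refine Finset.sum_le_sum_of_subset_of_nonneg (filter_subset _ _) fun t _ _ => ?_
            refine Finset.sum_nonneg fun r _ => add_nonneg ?_ ?_
            · split_ifs
              · exact le_refl _
              · exact hv t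
            · split_ifs
              · exact hv t
              · exact le_refl _
        _ = ∑ r ∈ R, (bd r + v r) := by
            rw [Finset.sum_comm]
            refine Finset.sum_congr rfl fun r _ => ?_
            rw [Finset.sum_add_distrib, Finset.sum_ite_eq']
            simp [bd]
    have h2 : ∑ r ∈ R, (bd r + v r) ≤ Zv / 2 := by
      calc ∑ r ∈ R, (bd r + v r) ≤ ∑ r ∈ R, (Zv / (4 * K) + Zv / (4 * K)) :=
            Finset.sum_le_sum fun r hr => add_le_add (hRS r hr) (hvmax r)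
        _ = R.card * (Zv / (2 * K)) := by
            rw [Finset.sum_const, nsmul_eq_mul]; congr 1; field_simp; norm_num
        _ ≤ K * (Zv / (2 * K)) := mul_le_mul_of_nonneg_right hRc (by positivity)
        _ = Zv / 2 := by field_simp
    have h5 := Finset.sum_filter_add_sum_filter_not univ
      (fun t => ∀ r ∈ R, good r t ∧ t ≠ r) v
    rw [← hZv'] at h5
    have h6 : ∑ i ∈ T, v i = ∑ t ∈ univ.filter (fun t => ∀ r ∈ R, good r t ∧ t ≠ r), v t := rfl
    linarith
  obtain ⟨I2, Q2, hI2T, hQ2T, hI2v, hQ2v, hI2, hQ2, hr2⟩ :=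
    normalize (G := G) v hv hZv T hT N N' hN hNN hcv r IH
  have hT' : ∀ t ∈ T, ∀ r ∈ R, good r t ∧ t ≠ r := fun t ht => (mem_filter.1 ht).2
  have hdI : Disjoint I1 I2 := by
    rw [Finset.disjoint_left]
    intro x hx hx2
    exact (hT' x (hI2T hx2) x (mem_union_left _ hx)).2 rfl
  have hdQ : Disjoint Q1 Q2 := by
    rw [Finset.disjoint_left]
    intro x hx hx2
    exact (hT' x (hQ2T hx2) x (mem_union_right _ hx)).2 rfl
  rcases hgood with hadj | hnon
  · -- complete pair: join the cliques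
    obtain ⟨I, hIc1, hIc2, hIsub⟩ : ∃ I : Finset V, I1.card ≤ I.card ∧ I2.card ≤ I.card ∧
        (I = I1 ∨ I = I2) := by
      rcases le_total I1.card I2.card with h | h
      · exact ⟨I2, h, le_refl _, Or.inr rfl⟩
      · exact ⟨I1, le_refl _, h, Or.inl rfl⟩
    refine ⟨I, Q1 ∪ Q2, ?_, ?_, ?_, ?_, ?_⟩
    · intro i hi
      rcases hIsub with h | h
      · rw [h] at hi; exact Or.inl (hI1u i hi)
      · rw [h] at hi; exact Or.inr (hI2v i hi)
    · intro i hi
      rcases mem_union.1 hi with h | h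
      · exact Or.inl (hQ1u i h)
      · exact Or.inr (hQ2v i h)
    · rcases hIsub with h | h
      · rw [h]; exact hI1
      · rw [h]; exact hI2
    · intro x hx y hy hxy
      rcases mem_union.1 hx with hx | hx <;> rcases mem_union.1 hy with hy | hy
      · exact hQ1 x hx y hy hxy
      · exact (hadj x y).1 (hT' y (hQ2T hy) x (mem_union_right _ hx)).1
      · exact ((hadj y x).1 (hT' x (hQ2T hx) y (mem_union_right _ hy)).1).symm
      · exact hQ2 x hx y hy hxy
    · rw [card_union_of_disjoint hdQ]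
      calc 2 * r ≤ I1.card * Q1.card + I2.card * Q2.card := by omega
        _ ≤ I.card * Q1.card + I.card * Q2.card :=
          add_le_add (Nat.mul_le_mul_right _ hIc1) (Nat.mul_le_mul_right _ hIc2)
        _ = I.card * (Q1.card + Q2.card) := by ring
  · -- empty pair: join the independent sets
    obtain ⟨Q, hQc1, hQc2, hQsub⟩ : ∃ Q : Finset V, Q1.card ≤ Q.card ∧ Q2.card ≤ Q.card ∧
        (Q = Q1 ∨ Q = Q2) := by
      rcases le_total Q1.card Q2.card with h | h
      · exact ⟨Q2, h, le_refl _, Or.inr rfl⟩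
      · exact ⟨Q1, le_refl _, h, Or.inl rfl⟩
    refine ⟨I1 ∪ I2, Q, ?_, ?_, ?_, ?_, ?_⟩
    · intro i hi
      rcases mem_union.1 hi with h | h
      · exact Or.inl (hI1u i h)
      · exact Or.inr (hI2v i h)
    · intro i hi
      rcases hQsub with h | h
      · rw [h] at hi; exact Or.inl (hQ1u i hi)
      · rw [h] at hi; exact Or.inr (hQ2v i hi)
    · intro x hx y hy
      rcases mem_union.1 hx with hx | hx <;> rcases mem_union.1 hy with hy | hy
      · exact hI1 x hx y hy
      · exact (hnon x y).1 (hT' y (hI2T hy) x (mem_union_left _ hx)).1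
      · intro h
        exact (hnon y x).1 (hT' x (hI2T hx) y (mem_union_left _ hy)).1 h.symm
      · exact hI2 x hx y hy
    · rcases hQsub with h | h
      · rw [h]; exact hQ1
      · rw [h]; exact hQ2
    · rw [card_union_of_disjoint hdI]
      calc 2 * r ≤ I1.card * Q1.card + I2.card * Q2.card := by omega
        _ ≤ I1.card * Q.card + I2.card * Q.card :=
          add_le_add (Nat.mul_le_mul_left _ hQc1) (Nat.mul_le_mul_left _ hQc2)
        _ = (I1.card + I2.card) * Q.card := by ring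

/-- cost factor -/
noncomputable def EE (k : ℕ) : ℝ :=
  Real.exp (Real.log (16 / (1 / (8 * (2 * (k : ℝ) + 1)))) * (4 * Real.sqrt k))

/-- growth factor -/
noncomputable def BB (k : ℕ) : ℝ := 16384 * EE k ^ 2

theorem one_le_EE (k : ℕ) : 1 ≤ EE k := by
  unfold EE
  refine Real.one_le_exp (mul_nonneg (Real.log_nonneg ?_) (by positivity))
  rw [le_div_iff₀ (by positivity), one_mul, div_le_iff₀ (by positivity)]
  have : (0 : ℝ) ≤ k := Nat.cast_nonneg k
  linarith

theorem one_le_BB (k : ℕ) : 1 ≤ BB k := by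
  unfold BB
  have := one_le_EE k
  nlinarith

theorem recursion {k : ℕ} (hk : 1 ≤ k) (hG : NP (G.adjMatrix ℝ) k) (j : ℕ) :
    ∀ μ : V → ℝ, (∀ i, 0 ≤ μ i) → ∑ i, μ i = 1 →
      (4 * (2 * (k : ℝ) + 1) ^ 2 * BB k ^ j) * ∑ i, μ i ^ 2 ≤ 1 → HasIQ G μ (2 ^ j) := by
  have hB1 := one_le_BB k
  have hk0 : (0 : ℝ) ≤ k := Nat.cast_nonneg k
  induction j with
  | zero =>
    intro μ hμ hμ1 _
    obtain ⟨x, hx⟩ : ∃ x, μ x ≠ 0 := by
      by_contra h
      push Not at h
      rw [Finset.sum_eq_zero fun i _ => h i] at hμ1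
      exact zero_ne_one hμ1
    refine ⟨{x}, {x}, ?_, ?_, ?_, ?_, ?_⟩
    · intro i hi; rw [mem_singleton.1 hi]; exact hx
    · intro i hi; rw [mem_singleton.1 hi]; exact hx
    · intro a ha b hb
      rw [mem_singleton.1 ha, mem_singleton.1 hb]; exact G.irrefl
    · intro a ha b hb hab
      rw [mem_singleton.1 ha, mem_singleton.1 hb] at hab
      exact absurd rfl hab
    · simp
  | succ j IH =>
    intro μ hμ hμ1 hcoll
    obtain ⟨a, b, m, hm0, hmμ, hm2, ha, hb, hab⟩ := factor G hk hG μ hμ hμ1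
    set N : ℝ := 4 * (2 * (k : ℝ) + 1) ^ 2 * BB k ^ j with hN
    have hNpos : 0 < N := by
      have : 0 < BB k ^ j := by positivity
      positivity
    have hm1 : ∑ i, m i ≤ 1 := by
      rw [← hμ1]; exact Finset.sum_le_sum fun i _ => hmμ i
    have hNN : 4096 * (Real.exp (Real.log (16 / (1 / (8 * (2 * (k : ℝ) + 1)))) *
        (4 * Real.sqrt k))) ^ 2 * (4 * N) ≤ 4 * (2 * (k : ℝ) + 1) ^ 2 * BB k ^ (j + 1) := by
      refine le_of_eq ?_
      rw [hN, pow_succ]
      show 4096 * (EE k) ^ 2 * (4 * (4 * (2 * (k : ℝ) + 1) ^ 2 * BB k ^ j)) =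
        4 * (2 * (k : ℝ) + 1) ^ 2 * (BB k ^ j * (16384 * EE k ^ 2))
      ring
    have hcollm : (4 * (2 * (k : ℝ) + 1) ^ 2 * BB k ^ (j + 1)) * ∑ i, m i ^ 2 ≤ 1 := by
      refine le_trans (mul_le_mul_of_nonneg_left ?_ (by positivity)) hcoll
      exact Finset.sum_le_sum fun i _ => pow_le_pow_left₀ (hm0 i) (hmμ i) 2
    have hN' : 16 * (2 * (k : ℝ) + 1) ^ 2 ≤ 4 * N := by
      rw [hN]
      have : 1 ≤ BB k ^ j := one_le_pow₀ hB1
      nlinarith [sq_nonneg (2 * (k : ℝ) + 1)]
    have hε : (0 : ℝ) < 1 / (8 * (2 * (k : ℝ) + 1)) := by positivity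
    have hε1 : 1 / (8 * (2 * (k : ℝ) + 1)) ≤ (1 : ℝ) := by
      rw [div_le_one (by positivity)]; linarith
    have hfin : ∀ (good : V → V → Prop) [∀ i j, Decidable (good i j)],
        ((∀ i j, good i j ↔ G.Adj i j) ∨ (∀ i j, good i j ↔ ¬ G.Adj i j)) →
        ∀ (b' : V → V → ℝ) (αg : ℝ), 0 ≤ αg → (∀ i, ∑ l, b' i l ^ 2 ≤ 4 * Real.sqrt k) →
        (∀ i j, m i ≠ 0 → m j ≠ 0 → good i j → ∑ l, a i l * b' j l = αg) →
        (∀ i j, m i ≠ 0 → m j ≠ 0 → ¬ good i j → ∑ l, a i l * b' j l = αg - 1) →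
        ((∑ i, ∑ j, if good i j then 0 else m i * m j) ≤
          ∑ i, ∑ j, if good i j then m i * m j else 0) → HasIQ G μ (2 ^ (j + 1)) := by
      intro good _ hgd b' αg hαg hb' hg1 hg2 hmass
      obtain ⟨u, v, hu, hv, huv, hZu, hZv, hbad, hcu, hcv⟩ :=
        tilt a b' (4 * Real.sqrt k) ha hb' m hm0 hm1 hm2 good αg hαg hg1 hg2 hmass
          (1 / (8 * (2 * (k : ℝ) + 1))) hε hε1 _ (4 * N) (by positivity) hNN hcollm
      obtain ⟨I, Q, hI, hQ, hI2, hQ2, hr⟩ := combine hG good hgd u v hu hv hZu hZv hbad N (4 * N)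
        hNpos.le (le_refl _) hN' hcu hcv (2 ^ j) IH
      have hsupp : ∀ i, u i ≠ 0 ∨ v i ≠ 0 → μ i ≠ 0 := by
        intro i hi h0
        have : m i = 0 := le_antisymm (h0 ▸ hmμ i) (hm0 i)
        rcases hi with h | h
        · exact h (huv i this).1
        · exact h (huv i this).2
      refine ⟨I, Q, fun i hi => hsupp i (hI i hi), fun i hi => hsupp i (hQ i hi), hI2, hQ2, ?_⟩
      rw [pow_succ]
      omega
    rcases le_total (∑ i, ∑ j, if G.Adj i j then 0 else m i * m j)
      (∑ i, ∑ j, if G.Adj i j then m i * m j else 0) with h | h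
    · refine hfin G.Adj (Or.inl fun i j => Iff.rfl) b 1 zero_le_one hb ?_ ?_ h
      · intro i j hi hj hg
        rw [hab i j hi hj, if_pos hg]
      · intro i j hi hj hg
        rw [hab i j hi hj, if_neg hg]; ring
    · refine hfin (fun i j => ¬ G.Adj i j) (Or.inr fun i j => Iff.rfl) (fun j l => - b j l) 0
        (le_refl _) ?_ ?_ ?_ ?_
      · intro i
        simpa using hb i
      · intro i j hi hj hg
        have : ∑ l, a i l * -b j l = - ∑ l, a i l * b j l := by
          rw [← Finset.sum_neg_distrib]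
          exact Finset.sum_congr rfl fun l _ => by ring
        rw [this, hab i j hi hj, if_neg hg]; simp
      · intro i j hi hj hg
        have : ∑ l, a i l * -b j l = - ∑ l, a i l * b j l := by
          rw [← Finset.sum_neg_distrib]
          exact Finset.sum_congr rfl fun l _ => by ring
        rw [this, hab i j hi hj, if_pos (not_not.1 hg)]; simp
      · have e1 : ∀ i j, (if ¬ G.Adj i j then (0 : ℝ) else m i * m j) =
            if G.Adj i j then m i * m j else 0 := by
          intro i j; split_ifs <;> simp_all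
        have e2 : ∀ i j, (if ¬ G.Adj i j then m i * m j else (0 : ℝ)) =
            if G.Adj i j then 0 else m i * m j := by
          intro i j; split_ifs <;> simp_all
        simp_rw [e1, e2]
        exact h

end Ramsey

end Pool.Agent.Helper56.In
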