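import Pool.Agent.Helper56.InRec

namespace Pool.Agent.Helper56.In

open Matrix Finset Module
open Pool.Agent.Helper16.Inertia

theorem card_lt {V : Type*} [Fintype V] [DecidableEq V] (G : SimpleGraph V)
    [DecidableRel G.Adj] {k : ℕ} (hk : 1 ≤ k) (hG : NP (G.adjMatrix ℝ) k) (j : ℕ)
    (hj : k * (k + 1) < 2 ^ j) :
    (Fintype.card V : ℝ) < 4 * (2 * (k : ℝ) + 1) ^ 2 * BB k ^ j := by
  by_contra hno
  rw [not_lt] at hno
  have hB : 0 < BB k := lt_of_lt_of_le zero_lt_one (one_le_BB k)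
  have hNpos : 0 < 4 * (2 * (k : ℝ) + 1) ^ 2 * BB k ^ j := by positivity
  have hn : (0 : ℝ) < Fintype.card V := lt_of_lt_of_le hNpos hno
  obtain ⟨I, Q, -, -, hI, hQ, hr⟩ := recursion hk hG j (fun _ => 1 / (Fintype.card V : ℝ))
    (fun _ => by positivity)
    (by rw [Finset.sum_const, card_univ, nsmul_eq_mul]; field_simp)
    (by
      rw [Finset.sum_const, card_univ, nsmul_eq_mul]
      have : (Fintype.card V : ℝ) * (1 / (Fintype.card V : ℝ)) ^ 2 = 1 / Fintype.card V := by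
        field_simp
      rw [this, mul_one_div, div_le_one hn]
      exact hno)
  have h1 := indep_card_le hG I hI
  have h2 := clique_card_le hG Q hQ
  have h3 : I.card * Q.card ≤ k * (k + 1) := Nat.mul_le_mul h1 h2
  omega

theorem numeric (k : ℕ) (hk : 1 ≤ k) :
    4 * (2 * (k : ℝ) + 1) ^ 2 * BB k ^ (2 * Nat.clog 2 (k + 1)) ≤
      Real.exp (600 * Real.sqrt k * Real.log ((k : ℝ) + 1) ^ 2) := by
  have hk1 : (1 : ℝ) ≤ k := by exact_mod_cast hk
  set ℓ := Real.log ((k : ℝ) + 1) with hℓ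
  set c := Nat.clog 2 (k + 1) with hc
  have hlog2 : 0.6931471803 < Real.log 2 := Real.log_two_gt_d9
  have hlog2' : Real.log 2 < 0.6931471808 := Real.log_two_lt_d9
  have hℓ2 : Real.log 2 ≤ ℓ := Real.log_le_log (by norm_num) (by linarith)
  have hsk : 1 ≤ Real.sqrt k := Real.one_le_sqrt.2 hk1
  have hK : 0 < 2 * (k : ℝ) + 1 := by positivity
  have hlK : Real.log (2 * (k : ℝ) + 1) ≤ 2 * ℓ := by
    calc Real.log (2 * (k : ℝ) + 1) ≤ Real.log (2 * ((k : ℝ) + 1)) :=
          Real.log_le_log hK (by linarith)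
      _ = Real.log 2 + ℓ := by rw [Real.log_mul (by norm_num) (by positivity)]
      _ ≤ 2 * ℓ := by linarith
  have hEE : Real.log (16 / (1 / (8 * (2 * (k : ℝ) + 1)))) ≤ 9 * ℓ := by
    have e1 : 16 / (1 / (8 * (2 * (k : ℝ) + 1))) = 2 ^ 7 * (2 * (k : ℝ) + 1) := by
      field_simp; norm_num
    rw [e1, Real.log_mul (by norm_num) hK.ne', Real.log_pow]
    push_cast
    linarith
  have hBB : BB k ≤ Real.exp (86 * Real.sqrt k * ℓ) := by
    unfold BB EE
    have e1 : (16384 : ℝ) = Real.exp (14 * Real.log 2) := by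
      rw [← Real.log_rpow (by norm_num), Real.exp_log (by positivity)]
      norm_num
    rw [e1, ← Real.exp_nat_mul, ← Real.exp_add]
    refine Real.exp_le_exp.2 ?_
    push_cast
    have h1 : Real.log (16 / (1 / (8 * (2 * (k : ℝ) + 1)))) * (4 * Real.sqrt k) ≤
        9 * ℓ * (4 * Real.sqrt k) := mul_le_mul_of_nonneg_right hEE (by positivity)
    have h2 : 14 * Real.log 2 ≤ 14 * Real.sqrt k * ℓ := by
      have : Real.log 2 ≤ Real.sqrt k * ℓ := by nlinarith
      linarith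
    linarith
  have hcl : (c : ℝ) ≤ 3 * ℓ := by
    have h1 : 2 ^ (c - 1) < k + 1 := Nat.pow_pred_clog_lt_self (by norm_num) (by omega)
    have h2 : ((2 : ℝ)) ^ (c - 1) ≤ (k : ℝ) + 1 := by exact_mod_cast h1.le
    have h3 : ((c - 1 : ℕ) : ℝ) * Real.log 2 ≤ ℓ := by
      rw [← Real.log_pow, hℓ]
      exact Real.log_le_log (by positivity) h2
    have h4 : (c : ℝ) ≤ ((c - 1 : ℕ) : ℝ) + 1 := by
      have : c ≤ (c - 1) + 1 := by omega
      exact_mod_cast this
    have h5 : (c : ℝ) * Real.log 2 ≤ 2 * ℓ := by nlinarith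
    have h6 : (c : ℝ) * 0.6931471803 ≤ 2 * ℓ := by
      have : (0 : ℝ) ≤ c := Nat.cast_nonneg c
      nlinarith
    linarith
  have hpow : BB k ^ (2 * c) ≤ Real.exp (516 * Real.sqrt k * ℓ ^ 2) := by
    have hB0 : 0 ≤ BB k := le_trans zero_le_one (one_le_BB k)
    calc BB k ^ (2 * c) ≤ (Real.exp (86 * Real.sqrt k * ℓ)) ^ (2 * c) :=
          pow_le_pow_left₀ hB0 hBB _
      _ = Real.exp (((2 * c : ℕ) : ℝ) * (86 * Real.sqrt k * ℓ)) := by rw [Real.exp_nat_mul]
      _ ≤ Real.exp (516 * Real.sqrt k * ℓ ^ 2) := by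
          refine Real.exp_le_exp.2 ?_
          push_cast
          have h0 : 0 ≤ 86 * Real.sqrt k * ℓ := by
            have : 0 ≤ ℓ := by linarith
            positivity
          have h1 := mul_le_mul_of_nonneg_right hcl h0
          nlinarith
  have hfirst : 4 * (2 * (k : ℝ) + 1) ^ 2 ≤ Real.exp (9 * Real.sqrt k * ℓ ^ 2) := by
    rw [← Real.log_le_iff_le_exp (by positivity), Real.log_mul (by norm_num) (by positivity),
      Real.log_pow]
    have e1 : Real.log 4 = 2 * Real.log 2 := by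
      rw [show (4 : ℝ) = 2 ^ 2 by norm_num, Real.log_pow]; norm_num
    rw [e1]
    push_cast
    have h1 : 2 * Real.log 2 + 2 * Real.log (2 * (k : ℝ) + 1) ≤ 6 * ℓ := by linarith
    have h2 : 6 * ℓ ≤ 9 * ℓ ^ 2 := by nlinarith
    have h3 : 9 * ℓ ^ 2 ≤ 9 * Real.sqrt k * ℓ ^ 2 := by nlinarith [sq_nonneg ℓ]
    linarith
  calc 4 * (2 * (k : ℝ) + 1) ^ 2 * BB k ^ (2 * c)
      ≤ Real.exp (9 * Real.sqrt k * ℓ ^ 2) * Real.exp (516 * Real.sqrt k * ℓ ^ 2) := by
        refine mul_le_mul hfirst hpow ?_ (Real.exp_pos _).le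
        have hB0 : 0 ≤ BB k := le_trans zero_le_one (one_le_BB k)
        positivity
    _ = Real.exp (525 * Real.sqrt k * ℓ ^ 2) := by rw [← Real.exp_add]; congr 1; ring
    _ ≤ _ := by
        refine Real.exp_le_exp.2 ?_
        have : 0 ≤ Real.sqrt k * ℓ ^ 2 := by positivity
        nlinarith

/-- Subexponential upper bound for the positive inertia in terms of the negative inertia. -/
theorem nPlus_le_subexp {V : Type*} [Fintype V] (G : SimpleGraph V) :
    (nPlus G : ℝ) ≤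
      Real.exp (600 * Real.sqrt (nMinus G) * Real.log ((nMinus G : ℝ) + 1) ^ 2) := by
  classical
  obtain ⟨κ, hκ, a, ha, hcard, hNP⟩ := exists_core G
  have hadj : (G.adjMatrix ℝ).submatrix a a = (G.comap a).adjMatrix ℝ := by
    ext x y
    simp [SimpleGraph.adjMatrix_apply]
  rw [hadj] at hNP
  have h3 : (nPlus G : ℝ) ≤ Fintype.card κ := by
    rw [hcard]; push_cast
    have : (0 : ℝ) ≤ nMinus G := Nat.cast_nonneg _
    linarith
  refine h3.trans ?_
  rcases Nat.eq_zero_or_pos (nMinus G) with h0 | hpos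
  · rw [h0] at hNP ⊢
    have : Fintype.card κ = 0 := by
      by_contra hne
      obtain ⟨x⟩ := Fintype.card_pos_iff.1 (Nat.pos_of_ne_zero hne)
      have := indep_card_le hNP {x} (by
        intro a ha b hb
        rw [mem_singleton.1 ha, mem_singleton.1 hb]
        exact SimpleGraph.irrefl _)
      simp at this
    rw [this]
    simpa using (Real.exp_pos _).le
  · refine le_trans (card_lt (G.comap a) hpos hNP (2 * Nat.clog 2 (nMinus G + 1)) ?_).le
      (numeric (nMinus G) hpos)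
    have h1 : nMinus G + 1 ≤ 2 ^ Nat.clog 2 (nMinus G + 1) := Nat.le_pow_clog (by norm_num) _
    calc nMinus G * (nMinus G + 1) < (nMinus G + 1) * (nMinus G + 1) := by nlinarith
      _ ≤ 2 ^ Nat.clog 2 (nMinus G + 1) * 2 ^ Nat.clog 2 (nMinus G + 1) := Nat.mul_le_mul h1 h1
      _ = 2 ^ (2 * Nat.clog 2 (nMinus G + 1)) := by rw [← pow_add]; congr 1; ring

end Pool.Agent.Helper56.In
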