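import Pool.Agent.Helper56.InCore
import Pool.Agent.Helper56.InDefs

namespace Pool.Agent.Helper56.In

open Matrix Finset Module
open Pool.Agent.Helper16.Inertia

section Pairs

variable {V : Type*} [Fintype V] [DecidableEq V]

theorem card_pairs_le {A : Matrix V V ℝ} {k : ℕ} (h : NP A k) (hsymm : ∀ x y, A x y = A y x)
    (hdiag : ∀ x, A x x = 0) (hnn : ∀ x y, 0 ≤ A x y)
    {ι : Type*} [Fintype ι] [DecidableEq ι] (a b : ι → V) (ha : Function.Injective a)
    (hab : ∀ p q, b q ≠ a p)
    (hM : ∀ p q, p ≠ q → A (a p) (a q) - A (a p) (b q) - A (b p) (a q) + A (b p) (b q) = 0) :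
    Fintype.card ι ≤ k := by
  have h1 := h.of_map (ext a - ext b) (by
    intro c c' hcc
    funext p
    have h2 := congrFun hcc (a p)
    simp only [LinearMap.sub_apply, Pi.sub_apply, ext_apply_image ha] at h2
    have h3 : ∀ c : ι → ℝ, ext b c (a p) = 0 := by
      intro c
      show (∑ x, if b x = a p then c x else 0) = 0
      refine Finset.sum_eq_zero fun x _ => ?_
      rw [if_neg (hab p x)]
    rw [h3, h3] at h2
    simpa using h2) (by
    intro c
    have key : (ext a - ext b) c ⬝ᵥ A *ᵥ (ext a - ext b) c =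
        ∑ p, ∑ q, c p * c q *
          (A (a p) (a q) - A (a p) (b q) - A (b p) (a q) + A (b p) (b q)) := by
      have e1 : ∀ w : V → ℝ, (ext a - ext b) c ⬝ᵥ w = ∑ p, c p * (w (a p) - w (b p)) := by
        intro w
        rw [LinearMap.sub_apply, sub_dotProduct, dotProduct_comm, dot_ext, dotProduct_comm,
          dot_ext, ← Finset.sum_sub_distrib]
        refine Finset.sum_congr rfl fun p _ => ?_
        ring
      rw [e1]
      refine Finset.sum_congr rfl fun p _ => ?_
      rw [LinearMap.sub_apply, mulVec_sub, Pi.sub_apply, Pi.sub_apply]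
      simp only [mulVec_ext]
      rw [← Finset.sum_sub_distrib, ← Finset.sum_sub_distrib, ← Finset.sum_sub_distrib,
        Finset.mul_sum]
      refine Finset.sum_congr rfl fun q _ => ?_
      ring
    rw [key]
    refine Finset.sum_nonpos fun p _ => ?_
    rw [Finset.sum_eq_single p]
    · rw [hdiag, hdiag, hsymm (b p) (a p)]
      have := hnn (a p) (b p)
      nlinarith [sq_nonneg (c p), mul_nonneg (sq_nonneg (c p)) this]
    · intro q _ hq
      rw [hM p q (Ne.symm hq), mul_zero]
    · intro h; exact absurd (mem_univ _) h)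
  rwa [Module.finrank_fintype_fun_eq_card] at h1

end Pairs

section Graph

variable {V : Type*} [Fintype V] [DecidableEq V] (G : SimpleGraph V) [DecidableRel G.Adj]

/-- vertices distinguishing `x` and `y` -/
def Df (x y : V) : Finset V := univ.filter fun r => ¬ (G.Adj x r ↔ G.Adj y r)

variable {G}

theorem matching_bound {k : ℕ} (h : NP (G.adjMatrix ℝ) k) (t : ℝ) (ht : 0 ≤ t) (N0 : ℝ)
    (hsep : ∀ W : Finset V, (∀ x ∈ W, ∀ y ∈ W, x ≠ y → t < ((Df G x y).card : ℝ)) →
      (W.card : ℝ) ≤ N0) :
    (Fintype.card V : ℝ) ≤ 2 * (k * (1 + t)) + N0 := by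
  classical
  -- a maximal family of disjoint close pairs
  let Good : Finset (V × V) → Prop := fun P =>
    (∀ p ∈ P, p.1 ≠ p.2 ∧ ((Df G p.1 p.2).card : ℝ) ≤ t) ∧
    (∀ p ∈ P, ∀ q ∈ P, p ≠ q → p.1 ≠ q.1 ∧ p.1 ≠ q.2 ∧ p.2 ≠ q.1 ∧ p.2 ≠ q.2)
  obtain ⟨P, hP, hmax⟩ := Finset.exists_max_image (univ.filter fun P => Good P) Finset.card
    ⟨∅, by simp [Good]⟩
  rw [mem_filter] at hP
  obtain ⟨-, hP1, hP2⟩ := hP
  -- the remaining vertices are separated
  let U : Finset V := P.image Prod.fst ∪ P.image Prod.snd
  have hU : U.card ≤ 2 * P.card := by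
    calc U.card ≤ (P.image Prod.fst).card + (P.image Prod.snd).card := card_union_le _ _
      _ ≤ P.card + P.card := add_le_add card_image_le card_image_le
      _ = 2 * P.card := by ring
  have hW : ((Uᶜ).card : ℝ) ≤ N0 := by
    refine hsep _ fun x hx y hy hxy => ?_
    by_contra hlt
    have hgood : Good (insert (x, y) P) := by
      have hx' : ∀ p ∈ P, x ≠ p.1 ∧ x ≠ p.2 := by
        intro p hp
        rw [mem_compl, mem_union, not_or] at hx
        exact ⟨fun e => hx.1 (e ▸ mem_image_of_mem _ hp), fun e => hx.2 (e ▸ mem_image_of_mem _ hp)⟩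
      have hy' : ∀ p ∈ P, y ≠ p.1 ∧ y ≠ p.2 := by
        intro p hp
        rw [mem_compl, mem_union, not_or] at hy
        exact ⟨fun e => hy.1 (e ▸ mem_image_of_mem _ hp), fun e => hy.2 (e ▸ mem_image_of_mem _ hp)⟩
      constructor
      · intro p hp
        rcases mem_insert.1 hp with rfl | hp
        · exact ⟨hxy, not_lt.1 hlt⟩
        · exact hP1 p hp
      · intro p hp q hq hpq
        rcases mem_insert.1 hp with rfl | hp
        · rcases mem_insert.1 hq with rfl | hq
          · exact absurd rfl hpq
          · exact ⟨(hx' q hq).1, (hx' q hq).2, (hy' q hq).1, (hy' q hq).2⟩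
        · rcases mem_insert.1 hq with rfl | hq
          · exact ⟨(hx' p hp).1.symm, (hy' p hp).1.symm, (hx' p hp).2.symm, (hy' p hp).2.symm⟩
          · exact hP2 p hp q hq hpq
    have hnot : (x, y) ∉ P := by
      intro hmem
      rw [mem_compl] at hx
      exact hx (mem_union_left _ (mem_image.2 ⟨(x, y), hmem, rfl⟩))
    have := hmax (insert (x, y) P) (by simp [hgood])
    rw [card_insert_of_notMem hnot] at this
    omega
  -- a maximal conflict-free subfamily
  let A : Matrix V V ℝ := G.adjMatrix ℝ
  let M : V × V → V × V → ℝ := fun p q =>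
    A p.1 q.1 - A p.1 q.2 - A p.2 q.1 + A p.2 q.2
  have hsymm : ∀ x y, A x y = A y x := fun x y => by
    simp only [A, SimpleGraph.adjMatrix_apply, G.adj_comm]
  have hMsymm : ∀ p q, M p q = M q p := by
    intro p q
    simp only [M]
    rw [hsymm p.1 q.1, hsymm p.1 q.2, hsymm p.2 q.1, hsymm p.2 q.2]
    ring
  let Free : Finset (V × V) → Prop := fun Q => Q ⊆ P ∧ ∀ p ∈ Q, ∀ q ∈ Q, p ≠ q → M p q = 0
  obtain ⟨Q, hQ, hQmax⟩ := Finset.exists_max_image (univ.filter fun Q => Free Q) Finset.card
    ⟨∅, by simp [Free]⟩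
  rw [mem_filter] at hQ
  obtain ⟨-, hQP, hQM⟩ := hQ
  have hQk : Q.card ≤ k := by
    have := card_pairs_le h hsymm (fun x => by simp [SimpleGraph.adjMatrix_apply])
      (fun x y => by rw [SimpleGraph.adjMatrix_apply]; split_ifs <;> norm_num)
      (fun p : Q => p.1.1) (fun p : Q => p.1.2)
      (by
        rintro ⟨p, hp⟩ ⟨q, hq⟩ hpq
        by_contra hne
        have hne' : p ≠ q := fun e => hne (Subtype.ext e)
        exact (hP2 p (hQP hp) q (hQP hq) hne').1 hpq)
      (by
        rintro ⟨p, hp⟩ ⟨q, hq⟩ hpq
        by_cases hne : p = q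
        · subst hne
          exact (hP1 p (hQP hp)).1 hpq.symm
        · exact (hP2 p (hQP hp) q (hQP hq) hne).2.1 hpq.symm)
      (by
        rintro ⟨p, hp⟩ ⟨q, hq⟩ hpq
        exact hQM p hp q hq fun e => hpq (Subtype.ext e))
    rwa [Fintype.card_coe] at this
  -- every pair of `P` is in `Q` or in conflict with a member of `Q`
  have hcov : P ⊆ Q ∪ Q.biUnion fun p => P.filter fun q => p ≠ q ∧ M p q ≠ 0 := by
    intro q hq
    by_contra hnot
    rw [mem_union, not_or, mem_biUnion] at hnot
    obtain ⟨hq1, hq2⟩ := hnot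
    push Not at hq2
    have hzero : ∀ p ∈ Q, M p q = 0 := by
      intro p hp
      by_contra hne
      exact hq2 p hp (by
        rw [mem_filter]
        exact ⟨hq, fun e => hq1 (e ▸ hp), hne⟩)
    have hfree : Free (insert q Q) := by
      refine ⟨insert_subset hq hQP, ?_⟩
      intro p hp r hr hpr
      rcases mem_insert.1 hp with hp' | hp'
      · rcases mem_insert.1 hr with hr' | hr'
        · exact absurd (hp'.trans hr'.symm) hpr
        · rw [hp', hMsymm]; exact hzero r hr'
      · rcases mem_insert.1 hr with hr' | hr'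
        · rw [hr']; exact hzero p hp'
        · exact hQM p hp' r hr' hpr
    have := hQmax (insert q Q) (by simp [hfree])
    rw [card_insert_of_notMem hq1] at this
    omega
  have hconf : ∀ p ∈ Q, ((P.filter fun q => p ≠ q ∧ M p q ≠ 0).card : ℝ) ≤ t := by
    intro p hp
    refine le_trans ?_ (hP1 p (hQP hp)).2
    have hmem : ∀ q, M p q ≠ 0 → q.1 ∈ Df G p.1 p.2 ∨ q.2 ∈ Df G p.1 p.2 := by
      intro q hq
      by_contra hno
      rw [not_or] at hno
      apply hq
      have e : ∀ r, r ∉ Df G p.1 p.2 → A p.1 r = A p.2 r := by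
        intro r hr
        simp only [Df, mem_filter, mem_univ, true_and, not_not] at hr
        simp only [A, SimpleGraph.adjMatrix_apply, hr]
      simp only [M]
      rw [e _ hno.1, e _ hno.2]
      ring
    have : (P.filter fun q => p ≠ q ∧ M p q ≠ 0).card ≤ (Df G p.1 p.2).card := by
      refine card_le_card_of_injOn (fun q => if q.1 ∈ Df G p.1 p.2 then q.1 else q.2) ?_ ?_
      · intro q hq
        have hq' := (mem_filter.1 hq).2.2
        simp only
        split_ifs with h1
        · exact h1
        · exact (hmem q hq').resolve_left h1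
      · intro q hq r hr hqr
        have hq' := (mem_filter.1 hq).1
        have hr' := (mem_filter.1 hr).1
        by_contra hne
        obtain ⟨h1, h2, h3, h4⟩ := hP2 q hq' r hr' hne
        simp only at hqr
        split_ifs at hqr
        · exact h1 hqr
        · exact h2 hqr
        · exact h3 hqr
        · exact h4 hqr
    exact_mod_cast this
  have hPcard : (P.card : ℝ) ≤ k * (1 + t) := by
    have h1 : P.card ≤ Q.card + ∑ p ∈ Q, (P.filter fun q => p ≠ q ∧ M p q ≠ 0).card :=
      (card_le_card hcov).trans ((card_union_le _ _).trans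
        (Nat.add_le_add_left card_biUnion_le _))
    have h2 : (P.card : ℝ) ≤ Q.card + ∑ p ∈ Q, ((P.filter fun q => p ≠ q ∧ M p q ≠ 0).card : ℝ) := by
      exact_mod_cast h1
    have h3 : ∑ p ∈ Q, ((P.filter fun q => p ≠ q ∧ M p q ≠ 0).card : ℝ) ≤ Q.card * t := by
      refine (Finset.sum_le_sum hconf).trans ?_
      rw [Finset.sum_const, nsmul_eq_mul]
    have h4 : (Q.card : ℝ) ≤ k := by exact_mod_cast hQk
    nlinarith
  have hV : Fintype.card V = U.card + (Uᶜ).card := (card_add_card_compl U).symm
  have hV' : (Fintype.card V : ℝ) = U.card + (Uᶜ).card := by exact_mod_cast hV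
  have hU' : (U.card : ℝ) ≤ 2 * P.card := by exact_mod_cast hU
  rw [hV']
  linarith

end Graph

section Sampling

variable {V : Type*} [Fintype V] [DecidableEq V] (G : SimpleGraph V) [DecidableRel G.Adj]

/-- ordered pairs of `W` not distinguished by `R` -/
def Und (W R : Finset V) : Finset (V × V) :=
  (W ×ˢ W).filter fun p => p.1 ≠ p.2 ∧ ∀ r ∈ R, r ∉ Df G p.1 p.2

theorem exists_sample [Nonempty V] (W : Finset V) (t : ℝ) (ht : 0 ≤ t) (htV : t ≤ Fintype.card V)
    (hsep : ∀ x ∈ W, ∀ y ∈ W, x ≠ y → t < ((Df G x y).card : ℝ)) (q : ℕ) :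
    ∃ R : Finset V, R.card ≤ q ∧
      ((Und G W R).card : ℝ) ≤ (1 - t / Fintype.card V) ^ q * (W.card : ℝ) ^ 2 := by
  classical
  have hV : (0 : ℝ) < Fintype.card V := by exact_mod_cast Fintype.card_pos
  have h1t : 0 ≤ 1 - t / Fintype.card V := by
    rw [sub_nonneg, div_le_one hV]; exact htV
  induction q with
  | zero =>
    refine ⟨∅, by simp, ?_⟩
    have : (Und G W ∅).card ≤ W.card ^ 2 := by
      refine (card_filter_le _ _).trans ?_
      rw [card_product, sq]
    have h2 : ((Und G W ∅).card : ℝ) ≤ (W.card : ℝ) ^ 2 := by exact_mod_cast this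
    simpa using h2
  | succ q ih =>
    obtain ⟨R, hR, hU⟩ := ih
    -- average over a new vertex
    have hsum : ∑ r : V, ((Und G W (insert r R)).card : ℝ) ≤
        (Fintype.card V - t) * (Und G W R).card := by
      have h1 : ∀ r : V, ((Und G W (insert r R)).card : ℝ) =
          ∑ p ∈ Und G W R, if r ∈ Df G p.1 p.2 then (0 : ℝ) else 1 := by
        intro r
        rw [← Finset.sum_filter_not_add_sum_filter _ (fun p => r ∈ Df G p.1 p.2)]
        have e1 : ∑ x ∈ (Und G W R).filter (fun p => ¬ r ∈ Df G p.1 p.2),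
            (if r ∈ Df G x.1 x.2 then (0 : ℝ) else 1) =
            ((Und G W R).filter (fun p => ¬ r ∈ Df G p.1 p.2)).card := by
          rw [Finset.card_eq_sum_ones, Nat.cast_sum]
          refine Finset.sum_congr rfl fun p hp => ?_
          rw [if_neg (mem_filter.1 hp).2]; simp
        have e2 : ∑ x ∈ (Und G W R).filter (fun p => r ∈ Df G p.1 p.2),
            (if r ∈ Df G x.1 x.2 then (0 : ℝ) else 1) = 0 := by
          refine Finset.sum_eq_zero fun p hp => ?_
          rw [if_pos (mem_filter.1 hp).2]
        rw [e1, e2, add_zero]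
        congr 2
        ext p
        simp only [Und, mem_filter, mem_insert, forall_eq_or_imp]
        tauto
      simp_rw [h1]
      rw [Finset.sum_comm]
      have h2 : ∀ p ∈ Und G W R, ∑ r : V, (if r ∈ Df G p.1 p.2 then (0 : ℝ) else 1) ≤
          Fintype.card V - t := by
        intro p hp
        have hp' := mem_filter.1 hp
        have hlt := hsep p.1 (mem_product.1 hp'.1).1 p.2 (mem_product.1 hp'.1).2 hp'.2.1
        have e3 : ∑ r : V, (if r ∈ Df G p.1 p.2 then (0 : ℝ) else 1) =
            Fintype.card V - (Df G p.1 p.2).card := by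
          have : ∀ r : V, (if r ∈ Df G p.1 p.2 then (0 : ℝ) else 1) =
              1 - if r ∈ Df G p.1 p.2 then (1 : ℝ) else 0 := by
            intro r; split_ifs <;> simp
          simp_rw [this]
          rw [Finset.sum_sub_distrib]
          simp
        rw [e3]
        linarith
      refine (Finset.sum_le_sum h2).trans ?_
      rw [Finset.sum_const, nsmul_eq_mul, mul_comm]
    obtain ⟨r, -, hr⟩ := Finset.exists_le_of_sum_le (s := (univ : Finset V))
      (f := fun r => ((Und G W (insert r R)).card : ℝ))
      (g := fun _ => (1 - t / Fintype.card V) * (Und G W R).card) univ_nonempty (by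
        rw [Finset.sum_const, nsmul_eq_mul, card_univ]
        refine hsum.trans (le_of_eq ?_)
        field_simp)
    refine ⟨insert r R, (card_insert_le _ _).trans (by omega), ?_⟩
    calc ((Und G W (insert r R)).card : ℝ) ≤ (1 - t / Fintype.card V) * (Und G W R).card := hr
      _ ≤ (1 - t / Fintype.card V) * ((1 - t / Fintype.card V) ^ q * (W.card : ℝ) ^ 2) :=
        mul_le_mul_of_nonneg_left hU h1t
      _ = _ := by ring

omit [Fintype V] in
/-- number of subsets of `R` with at most `d` elements -/
theorem card_small_subsets (R : Finset V) (d : ℕ) :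
    (R.powerset.filter fun S => S.card ≤ d).card ≤ (R.card + 1) ^ d := by
  classical
  induction d with
  | zero =>
    have : R.powerset.filter (fun S => S.card ≤ 0) ⊆ {∅} := by
      intro S hS
      rw [mem_filter, Nat.le_zero, card_eq_zero] at hS
      rw [mem_singleton]; exact hS.2
    simpa using card_le_card this
  | succ d ih =>
    have hsub : R.powerset.filter (fun S => S.card ≤ d + 1) ⊆
        (((R.powerset.filter fun S => S.card ≤ d) ×ˢ (insertNone R)).image
          fun p => match p.2 with
            | none => p.1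
            | some r => insert r p.1) := by
      intro S hS
      rw [mem_filter, mem_powerset] at hS
      rw [mem_image]
      by_cases hd : S.card ≤ d
      · exact ⟨(S, none), by simp [hS.1, hd], rfl⟩
      · have hne : S.Nonempty := by
          rw [← card_pos]; omega
        obtain ⟨r, hr⟩ := hne
        refine ⟨(S.erase r, some r), ?_, insert_erase hr⟩
        rw [mem_product, mem_filter, mem_powerset, card_erase_of_mem hr]
        refine ⟨⟨(erase_subset _ _).trans hS.1, by omega⟩, ?_⟩
        simp [hS.1 hr]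
    refine (card_le_card hsub).trans (card_image_le.trans ?_)
    rw [card_product, card_insertNone, pow_succ]
    exact Nat.mul_le_mul_right _ ih

theorem card_le_of_distinguished {d : ℕ} (hG : VCDimLE G d) (W R : Finset V)
    (h : Und G W R = ∅) : W.card ≤ (R.card + 1) ^ d := by
  classical
  let tr : V → Finset V := fun x => R.filter fun r => G.Adj x r
  have hinj : Set.InjOn tr W := by
    intro x hx y hy hxy
    by_contra hne
    have : (x, y) ∈ Und G W R := by
      rw [Und, mem_filter, mem_product]
      refine ⟨⟨hx, hy⟩, hne, fun r hr => ?_⟩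
      simp only [Df, mem_filter, mem_univ, true_and, not_not]
      have h1 : r ∈ tr x ↔ r ∈ tr y := by rw [hxy]
      simpa [tr, hr] using h1
    rw [h] at this
    simp at this
  have h1 : (W.image tr).card = W.card := card_image_of_injOn hinj
  have h2 := Finset.card_le_card_shatterer (W.image tr)
  have h3 : (W.image tr).shatterer ⊆ R.powerset.filter fun S => S.card ≤ d := by
    intro S hS
    rw [mem_shatterer] at hS
    rw [mem_filter, mem_powerset]
    constructor
    · obtain ⟨u, hu, hSu⟩ := hS (Subset.refl S)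
      obtain ⟨x, -, rfl⟩ := mem_image.1 hu
      intro s hs
      have : s ∈ S ∩ tr x := by rw [hSu]; exact hs
      exact (mem_filter.1 (mem_inter.1 this).2).1
    · have hSR : S ⊆ R := by
        obtain ⟨u, hu, hSu⟩ := hS (Subset.refl S)
        obtain ⟨x, -, rfl⟩ := mem_image.1 hu
        intro s hs
        have : s ∈ S ∩ tr x := by rw [hSu]; exact hs
        exact (mem_filter.1 (mem_inter.1 this).2).1
      refine hG S fun T hT => ?_
      obtain ⟨u, hu, hSu⟩ := hS hT
      obtain ⟨x, -, rfl⟩ := mem_image.1 hu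
      refine ⟨x, fun s hs => ?_⟩
      rw [← hSu]
      simp [tr, hs, hSR hs]
  rw [← h1]
  exact h2.trans ((card_le_card h3).trans (card_small_subsets R d))

end Sampling

end Pool.Agent.Helper56.In
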