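import Pool.Agent.Helper56.InVC

namespace Pool.Agent.Helper56.In

open Matrix Finset Module
open Pool.Agent.Helper16.Inertia

theorem num_bound (N : ℝ) (hN : 1 ≤ N) (d : ℕ) (hd : 1 ≤ d) (K : ℝ) (hK : 1 ≤ K)
    (h : N ≤ (16 * K * Real.log N + 2) ^ d) :
    N ≤ ((34 * d * K) * Real.log (34 * d * K)) ^ d := by
  have hd' : (1 : ℝ) ≤ d := by exact_mod_cast hd
  have hdK : 1 ≤ (d : ℝ) * K := by nlinarith
  set X : ℝ := 34 * d * K with hX
  have hX34 : 34 ≤ X := by rw [hX]; nlinarith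
  have hlogX : 1 ≤ Real.log X := by
    rw [Real.le_log_iff_exp_le (by linarith)]
    have := Real.exp_one_lt_d9
    linarith
  have hlogN : 0 ≤ Real.log N := Real.log_nonneg hN
  -- first bound
  set y : ℝ := Real.exp (Real.log N / (2 * d)) with hy
  have hy1 : 1 ≤ y := Real.one_le_exp (by positivity)
  have hyN : y ^ (2 * d) = N := by
    rw [hy, ← Real.exp_nat_mul]
    have : ((2 * d : ℕ) : ℝ) * (Real.log N / (2 * d)) = Real.log N := by
      push_cast; field_simp
    rw [this, Real.exp_log (by linarith)]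
  have hlog_le : Real.log N ≤ 2 * d * y := by
    have h1 : Real.log N / (2 * d) ≤ y := by
      rw [hy]
      have := Real.add_one_le_exp (Real.log N / (2 * d))
      linarith
    rw [div_le_iff₀ (by positivity)] at h1
    linarith
  have hyX : y ≤ X := by
    have h1 : y ^ (2 * d) ≤ (X * y) ^ d := by
      rw [hyN]
      refine h.trans (pow_le_pow_left₀ (by positivity) ?_ d)
      have : 16 * K * Real.log N ≤ 16 * K * (2 * d * y) :=
        mul_le_mul_of_nonneg_left hlog_le (by positivity)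
      have h2 : (2 : ℝ) ≤ 2 * (d * K) * y := by nlinarith
      rw [hX]; nlinarith
    rw [mul_comm 2 d, pow_mul, mul_pow] at h1
    have h2 : (y ^ d) * (y ^ d) ≤ X ^ d * y ^ d := by
      calc (y ^ d) * (y ^ d) = (y ^ d) ^ 2 := by ring
        _ ≤ _ := h1
    have h3 : y ^ d ≤ X ^ d := le_of_mul_le_mul_right h2 (by positivity)
    exact le_of_pow_le_pow_left₀ (by omega) (by linarith) h3
  have hlog2 : Real.log N ≤ 2 * d * Real.log X := by
    rw [← hyN, Real.log_pow]
    push_cast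
    refine mul_le_mul_of_nonneg_left (Real.log_le_log (by linarith) hyX) (by positivity)
  refine h.trans (pow_le_pow_left₀ (by positivity) ?_ d)
  have : 16 * K * Real.log N ≤ 16 * K * (2 * d * Real.log X) :=
    mul_le_mul_of_nonneg_left hlog2 (by positivity)
  have h2 : (2 : ℝ) ≤ 2 * (d * K) * Real.log X := by nlinarith
  rw [hX] at this h2 ⊢; nlinarith

theorem sep_bound {V : Type*} [Fintype V] [DecidableEq V] (G : SimpleGraph V)
    [DecidableRel G.Adj] (d : ℕ) (hd : 1 ≤ d) (hG : VCDimLE G d) (k : ℕ) (W : Finset V)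
    (hsep : ∀ x ∈ W, ∀ y ∈ W, x ≠ y →
      (Fintype.card V : ℝ) / (8 * ((k : ℝ) + 1)) < ((Df G x y).card : ℝ)) :
    (W.card : ℝ) ≤ ((34 * d * ((k : ℝ) + 1)) * Real.log (34 * d * ((k : ℝ) + 1))) ^ d := by
  classical
  have hd' : (1 : ℝ) ≤ d := by exact_mod_cast hd
  have hk0 : (0 : ℝ) ≤ k := Nat.cast_nonneg k
  have hRHS : 0 ≤ ((34 * d * ((k : ℝ) + 1)) * Real.log (34 * d * ((k : ℝ) + 1))) ^ d := by
    refine pow_nonneg (mul_nonneg (by positivity) (Real.log_nonneg ?_)) d
    nlinarith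
  rcases Finset.eq_empty_or_nonempty W with rfl | hne
  · simpa using hRHS
  obtain ⟨w0, hw0⟩ := hne
  have : Nonempty V := ⟨w0⟩
  have hV : (0 : ℝ) < Fintype.card V := by exact_mod_cast Fintype.card_pos
  have hW1 : (1 : ℝ) ≤ W.card := by
    exact_mod_cast Finset.card_pos.2 ⟨w0, hw0⟩
  set δ : ℝ := 1 / (8 * ((k : ℝ) + 1)) with hδ
  have hδ0 : 0 < δ := by positivity
  have hδ1 : δ ≤ 1 := by
    rw [hδ, div_le_one (by positivity)]; linarith
  set L : ℝ := Real.log W.card with hL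
  have hL0 : 0 ≤ L := Real.log_nonneg hW1
  set q : ℕ := ⌊16 * ((k : ℝ) + 1) * L⌋₊ + 1 with hq
  obtain ⟨R, hR, hU⟩ := exists_sample G W ((Fintype.card V : ℝ) / (8 * ((k : ℝ) + 1)))
    (by positivity) (by
      rw [div_le_iff₀ (by positivity)]
      nlinarith) hsep q
  have ht : (Fintype.card V : ℝ) / (8 * ((k : ℝ) + 1)) / Fintype.card V = δ := by
    rw [hδ]; field_simp
  rw [ht] at hU
  have hqL : 2 * L < δ * q := by
    have h1 : 16 * ((k : ℝ) + 1) * L < q := by
      rw [hq]; push_cast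
      exact Nat.lt_floor_add_one _
    have h2 : δ * (16 * ((k : ℝ) + 1) * L) = 2 * L := by rw [hδ]; field_simp; ring
    rw [← h2]
    exact mul_lt_mul_of_pos_left h1 hδ0
  have hempty : Und G W R = ∅ := by
    rw [← card_eq_zero]
    by_contra hne
    have h1 : (1 : ℝ) ≤ ((Und G W R).card : ℝ) := by
      exact_mod_cast Nat.one_le_iff_ne_zero.2 hne
    have h2 : (1 - δ) ^ q ≤ Real.exp (-(δ * q)) := by
      have : 1 - δ ≤ Real.exp (-δ) := by
        have := Real.add_one_le_exp (-δ)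
        linarith
      calc (1 - δ) ^ q ≤ (Real.exp (-δ)) ^ q := pow_le_pow_left₀ (by linarith) this q
        _ = Real.exp (-(δ * q)) := by
          rw [← Real.exp_nat_mul]; congr 1; ring
    have h3 : (W.card : ℝ) ^ 2 = Real.exp (2 * L) := by
      rw [hL, ← Real.log_rpow (by linarith), Real.exp_log (by positivity)]
      norm_cast
    have h4 : (1 - δ) ^ q * (W.card : ℝ) ^ 2 < 1 := by
      rw [h3]
      calc (1 - δ) ^ q * Real.exp (2 * L) ≤ Real.exp (-(δ * q)) * Real.exp (2 * L) :=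
            mul_le_mul_of_nonneg_right h2 (Real.exp_pos _).le
        _ = Real.exp (2 * L - δ * q) := by rw [← Real.exp_add]; congr 1; ring
        _ < 1 := by rw [Real.exp_lt_one_iff]; linarith
    linarith
  have hcard := card_le_of_distinguished G hG W R hempty
  have hcard' : (W.card : ℝ) ≤ ((R.card : ℝ) + 1) ^ d := by exact_mod_cast hcard
  refine num_bound W.card hW1 d hd ((k : ℝ) + 1) (by linarith) (hcard'.trans ?_)
  refine pow_le_pow_left₀ (by positivity) ?_ d
  have h5 : (R.card : ℝ) ≤ q := by exact_mod_cast hR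
  have h6 : (q : ℝ) ≤ 16 * ((k : ℝ) + 1) * L + 1 := by
    rw [hq]; push_cast
    have := Nat.floor_le (a := 16 * ((k : ℝ) + 1) * L) (by positivity)
    linarith
  rw [← hL]
  linarith

theorem np_card_le {V : Type*} [Fintype V] [DecidableEq V] (G : SimpleGraph V)
    [DecidableRel G.Adj] (d : ℕ) (hd : 1 ≤ d) (hG : VCDimLE G d) (k : ℕ)
    (h : NP (G.adjMatrix ℝ) k) :
    (Fintype.card V : ℝ) ≤
      2 * ((34 * d * ((k : ℝ) + 1)) * Real.log (34 * d * ((k : ℝ) + 1))) ^ d := by
  have hd' : (1 : ℝ) ≤ d := by exact_mod_cast hd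
  have hk0 : (0 : ℝ) ≤ k := Nat.cast_nonneg k
  set X : ℝ := 34 * d * ((k : ℝ) + 1) with hX
  have hX34 : 34 * ((k : ℝ) + 1) ≤ X := by rw [hX]; nlinarith
  have hlogX : 1 ≤ Real.log X := by
    rw [Real.le_log_iff_exp_le (by linarith)]
    have := Real.exp_one_lt_d9
    linarith
  have h1 := matching_bound h ((Fintype.card V : ℝ) / (8 * ((k : ℝ) + 1))) (by positivity) _
    (fun W hW => sep_bound G d hd hG k W hW)
  rw [← hX] at h1
  set n : ℝ := (Fintype.card V : ℝ) with hn
  have hn0 : 0 ≤ n := Nat.cast_nonneg _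
  have h2 : (k : ℝ) * (n / (8 * ((k : ℝ) + 1))) ≤ n / 8 := by
    rw [← mul_div_assoc, div_le_div_iff₀ (by positivity) (by norm_num)]
    nlinarith
  have h3 : 34 * ((k : ℝ) + 1) ≤ (X * Real.log X) ^ d := by
    calc 34 * ((k : ℝ) + 1) ≤ X := hX34
      _ ≤ X * Real.log X := by nlinarith
      _ ≤ (X * Real.log X) ^ d := le_self_pow₀ (by nlinarith) (by omega)
  nlinarith

/-- Upper bound for graphs whose neighbourhoods have bounded VC dimension. -/
theorem nPlus_le_of_vc {V : Type*} [Fintype V] (G : SimpleGraph V) (d : ℕ) (hd : 1 ≤ d)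
    (hG : VCDimLE G d) :
    (nPlus G : ℝ) ≤ 2 * ((34 * d * ((nMinus G : ℝ) + 1)) *
      Real.log (34 * d * ((nMinus G : ℝ) + 1))) ^ d := by
  classical
  obtain ⟨κ, hκ, a, ha, hcard, hNP⟩ := exists_core G
  have hadj : (G.adjMatrix ℝ).submatrix a a = (G.comap a).adjMatrix ℝ := by
    ext x y
    simp [SimpleGraph.adjMatrix_apply]
  rw [hadj] at hNP
  have hVC : VCDimLE (G.comap a) d := by
    intro S hS
    have h1 := hG (S.map ⟨a, ha⟩) (by
      intro T hT
      obtain ⟨v, hv⟩ := hS (S.filter fun x => a x ∈ T) (filter_subset _ _)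
      refine ⟨a v, ?_⟩
      intro s hs
      obtain ⟨x, hx, rfl⟩ := mem_map.1 hs
      have := hv x hx
      simpa [hx] using this)
    rwa [card_map] at h1
  have h2 := np_card_le (G.comap a) d hd hVC (nMinus G) hNP
  have h3 : (nPlus G : ℝ) ≤ Fintype.card κ := by
    rw [hcard]; push_cast
    have : (0 : ℝ) ≤ nMinus G := Nat.cast_nonneg _
    linarith
  exact h3.trans h2

theorem exists_poly_of_vc (d : ℕ) : ∃ f : Polynomial ℝ, ∀ (V : Type) [Fintype V]
    (G : SimpleGraph V), VCDimLE G d → (nPlus G : ℝ) ≤ f.eval (nMinus G : ℝ) := by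
  classical
  refine ⟨Polynomial.C 2 * (Polynomial.C (34 * ((d + 1 : ℕ) : ℝ)) *
    (Polynomial.X + Polynomial.C 1)) ^ (2 * (d + 1)), ?_⟩
  intro V _ G hG
  have hG' : VCDimLE G (d + 1) := fun S hS => (hG S hS).trans (by omega)
  refine (nPlus_le_of_vc G (d + 1) (by omega) hG').trans ?_
  simp only [Polynomial.eval_mul, Polynomial.eval_C, Polynomial.eval_pow, Polynomial.eval_add,
    Polynomial.eval_X]
  have hk0 : (0 : ℝ) ≤ nMinus G := Nat.cast_nonneg _
  have hd' : (1 : ℝ) ≤ ((d + 1 : ℕ) : ℝ) := by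
    push_cast
    have : (0 : ℝ) ≤ d := Nat.cast_nonneg d
    linarith
  set X : ℝ := 34 * ((d + 1 : ℕ) : ℝ) * ((nMinus G : ℝ) + 1) with hX
  have hX1 : 1 ≤ X := by rw [hX]; nlinarith
  have hlog : Real.log X ≤ X := (Real.log_le_sub_one_of_pos (by linarith)).trans (by linarith)
  have hlog0 : 0 ≤ Real.log X := Real.log_nonneg hX1
  refine mul_le_mul_of_nonneg_left ?_ (by norm_num)
  rw [pow_mul]
  refine pow_le_pow_left₀ (by positivity) ?_ (d + 1)
  rw [sq]
  exact mul_le_mul_of_nonneg_left hlog (by linarith)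

/-- A graph without a complete bipartite subgraph with parts of size `t` has neighbourhoods
of VC dimension at most `2 t`. -/
theorem vc_of_ktt {V : Type*} [DecidableEq V] (G : SimpleGraph V) (t : ℕ)
    (h : ¬ ∃ A B : Finset V, A.card = t ∧ B.card = t ∧ ∀ a ∈ A, ∀ b ∈ B, G.Adj a b) :
    VCDimLE G (2 * t) := by
  intro S hS
  by_contra hlt
  rw [not_le] at hlt
  obtain ⟨A, hAS, hA⟩ := Finset.exists_subset_card_eq (s := S) (n := t) (by omega)
  obtain ⟨C, hCS, hC⟩ := Finset.exists_subset_card_eq (s := S \ A) (n := t) (by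
    rw [Finset.card_sdiff_of_subset hAS]; omega)
  have hex : ∀ c ∈ C, ∃ v, ∀ s ∈ S, (G.Adj v s ↔ s ∈ insert c A) := by
    intro c hc
    refine hS _ (Finset.insert_subset ?_ hAS)
    exact (Finset.mem_sdiff.1 (hCS hc)).1
  choose! v hv using hex
  refine h ⟨A, C.image v, hA, ?_, ?_⟩
  · rw [Finset.card_image_of_injOn, hC]
    intro c hc c' hc' hcc
    have hcS := (Finset.mem_sdiff.1 (hCS hc))
    have h1 : G.Adj (v c) c := (hv c hc c hcS.1).2 (Finset.mem_insert_self _ _)
    rw [hcc] at h1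
    have h2 := (hv c' hc' c hcS.1).1 h1
    rcases Finset.mem_insert.1 h2 with h3 | h3
    · exact h3
    · exact absurd h3 hcS.2
  · intro a ha b hb
    obtain ⟨c, hc, rfl⟩ := Finset.mem_image.1 hb
    exact ((hv c hc a (hAS ha)).2 (Finset.mem_insert_of_mem ha)).symm

end Pool.Agent.Helper56.In
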