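import Pool.Agent.Helper84.KakIH

/-!
Base case of the sparse-time line counting: exponent `2`.
-/

noncomputable section

open Finset Classical

namespace Pool.Agent.Helper56.KakBase

open Pool.Agent.Helper84.Kak

variable {m : ℕ}

/-- separated pairs of times of a line. -/
def sep (Q : ℕ) (s : ℝ) (A : Finset ℕ) : Finset (ℕ × ℕ) :=
  (A ×ˢ A).filter (fun p => s * Q ≤ |(p.1 : ℝ) - p.2|)

/-- few lines share two cells at separated times. -/
lemma fibre_card (Q : ℕ) (hQ : 0 < Q) {s : ℝ} (hs : 0 < s) (X : Finset (Line m)) (i j : ℕ)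
    (hij : s * Q ≤ |(i : ℝ) - j|) (y y' : Cell m)
    (hinj : Set.InjOn (fun l : Line m => cell l.v) X) (hi : ∀ l ∈ X, cl Q l i = y)
    (hj : ∀ l ∈ X, cl Q l j = y') : (X.card : ℝ) ≤ (2 * (4 / s) + 3) ^ m := by
  refine lines_card X id (by positivity) hinj ?_
  intro l hl l' hl' k
  have hQ' : (0 : ℝ) < Q := by exact_mod_cast hQ
  have e1 : ⌊l.x k + (i : ℝ) / Q * l.v k⌋ = ⌊l'.x k + (i : ℝ) / Q * l'.v k⌋ :=
    congrFun ((hi l hl).trans (hi l' hl').symm) k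
  have e2 : ⌊l.x k + (j : ℝ) / Q * l.v k⌋ = ⌊l'.x k + (j : ℝ) / Q * l'.v k⌋ :=
    congrFun ((hj l hl).trans (hj l' hl').symm) k
  exact scalar_two_pos hs hQ' hij
    ((abs_sub_lt_of_floor_eq e1).trans one_le_two) ((abs_sub_lt_of_floor_eq e2).trans one_le_two)

/-- double counting. -/
lemma double_count (Q : ℕ) (hQ : 0 < Q) {s : ℝ} (hs : 0 < s) (L : Finset (Line m))
    (T : Line m → Finset ℕ) (hT : ∀ l ∈ L, T l ⊆ range Q)
    (hinj : Set.InjOn (fun l : Line m => cell l.v) L) :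
    ∑ l ∈ L, ((sep Q s (T l)).card : ℝ) ≤
      (2 * (4 / s) + 3) ^ m * (∑ i ∈ range Q, ((cellsAt (cl Q) L T i).card : ℝ)) ^ 2 := by
  set P := ((range Q) ×ˢ (range Q)).filter (fun p : ℕ × ℕ => s * Q ≤ |(p.1 : ℝ) - p.2|) with hP
  have h1 : ∀ l ∈ L, ((sep Q s (T l)).card : ℝ) =
      ∑ p ∈ P, if p.1 ∈ T l ∧ p.2 ∈ T l then (1 : ℝ) else 0 := by
    intro l hl
    rw [sum_boole]
    congr 2
    ext p
    simp only [sep, hP, mem_filter, mem_product]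
    constructor
    · rintro ⟨⟨a1, a2⟩, a3⟩
      exact ⟨⟨⟨hT l hl a1, hT l hl a2⟩, a3⟩, a1, a2⟩
    · rintro ⟨⟨_, a3⟩, a1, a2⟩
      exact ⟨⟨a1, a2⟩, a3⟩
  rw [sum_congr rfl h1, sum_comm]
  have h2 : ∀ p ∈ P, ∑ l ∈ L, (if p.1 ∈ T l ∧ p.2 ∈ T l then (1 : ℝ) else 0) ≤
      (2 * (4 / s) + 3) ^ m * (((cellsAt (cl Q) L T p.1).card : ℝ) *
        ((cellsAt (cl Q) L T p.2).card : ℝ)) := by
    intro p hp
    rw [sum_boole]
    set X := L.filter (fun l => p.1 ∈ T l ∧ p.2 ∈ T l) with hX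
    have hcov : X ⊆ ((cellsAt (cl Q) L T p.1) ×ˢ (cellsAt (cl Q) L T p.2)).biUnion
        (fun y => X.filter (fun l => cl Q l p.1 = y.1 ∧ cl Q l p.2 = y.2)) := by
      intro l hl
      have hl' := mem_filter.1 hl
      rw [mem_biUnion]
      refine ⟨(cl Q l p.1, cl Q l p.2), mem_product.2 ⟨?_, ?_⟩, mem_filter.2 ⟨hl, rfl, rfl⟩⟩
      · exact mem_image.2 ⟨l, mem_filter.2 ⟨hl'.1, hl'.2.1⟩, rfl⟩
      · exact mem_image.2 ⟨l, mem_filter.2 ⟨hl'.1, hl'.2.2⟩, rfl⟩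
    have hsep := (mem_filter.1 hp).2
    calc (X.card : ℝ) ≤ ((((cellsAt (cl Q) L T p.1) ×ˢ (cellsAt (cl Q) L T p.2)).biUnion
        (fun y => X.filter (fun l => cl Q l p.1 = y.1 ∧ cl Q l p.2 = y.2))).card : ℝ) := by
          exact_mod_cast card_le_card hcov
      _ ≤ ∑ y ∈ (cellsAt (cl Q) L T p.1) ×ˢ (cellsAt (cl Q) L T p.2),
          ((X.filter (fun l => cl Q l p.1 = y.1 ∧ cl Q l p.2 = y.2)).card : ℝ) := by
          exact_mod_cast card_biUnion_le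
      _ ≤ ∑ y ∈ (cellsAt (cl Q) L T p.1) ×ˢ (cellsAt (cl Q) L T p.2),
          (2 * (4 / s) + 3) ^ m := by
          refine sum_le_sum (fun y _ => ?_)
          refine fibre_card Q hQ hs _ p.1 p.2 hsep y.1 y.2 ?_ ?_ ?_
          · refine hinj.mono ?_
            intro l hl
            exact (mem_filter.1 (mem_filter.1 hl).1).1
          · intro l hl
            exact (mem_filter.1 hl).2.1
          · intro l hl
            exact (mem_filter.1 hl).2.2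
      _ = (2 * (4 / s) + 3) ^ m * (((cellsAt (cl Q) L T p.1).card : ℝ) *
        ((cellsAt (cl Q) L T p.2).card : ℝ)) := by
          rw [sum_const, card_product, nsmul_eq_mul]
          push_cast
          ring
  calc ∑ p ∈ P, ∑ l ∈ L, (if p.1 ∈ T l ∧ p.2 ∈ T l then (1 : ℝ) else 0)
      ≤ ∑ p ∈ P, (2 * (4 / s) + 3) ^ m * (((cellsAt (cl Q) L T p.1).card : ℝ) *
        ((cellsAt (cl Q) L T p.2).card : ℝ)) := sum_le_sum h2
    _ ≤ ∑ p ∈ (range Q) ×ˢ (range Q), (2 * (4 / s) + 3) ^ m *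
        (((cellsAt (cl Q) L T p.1).card : ℝ) * ((cellsAt (cl Q) L T p.2).card : ℝ)) := by
        refine sum_le_sum_of_subset_of_nonneg (filter_subset _ _) (fun p _ _ => ?_)
        positivity
    _ = (2 * (4 / s) + 3) ^ m * (∑ i ∈ range Q, ((cellsAt (cl Q) L T i).card : ℝ)) ^ 2 := by
        rw [← mul_sum, sum_product, sq, sum_mul_sum]

/-- most pairs are separated. -/
lemma sep_card (Q : ℕ) {κ : ℝ} (hκ : 0 < κ) (hQ : 4 ≤ κ * Q) (A : Finset ℕ) (hA : A ⊆ range Q)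
    (hc : κ * Q ≤ (A.card : ℝ)) : (κ * Q) ^ 2 / 2 ≤ ((sep Q (κ / 8) A).card : ℝ) := by
  have h1 : ((sep Q (κ / 8) A).card : ℝ) = ∑ i ∈ A,
      ((A.filter (fun j : ℕ => κ / 8 * Q ≤ |(i : ℝ) - j|)).card : ℝ) := by
    unfold sep
    rw [card_filter, sum_product]
    push_cast
    refine sum_congr rfl (fun i _ => ?_)
    rw [sum_boole]
  have h2 : ∀ i ∈ A, κ * Q / 2 ≤ ((A.filter (fun j : ℕ => κ / 8 * Q ≤ |(i : ℝ) - j|)).card : ℝ) := by
    intro i _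
    have h3 := card_near Q i (r := κ / 8 * Q) (by positivity)
    have h4 : A.card ≤ (A.filter (fun j : ℕ => κ / 8 * Q ≤ |(i : ℝ) - j|)).card +
        ((range Q).filter (fun σ : ℕ => |(σ : ℝ) - i| < κ / 8 * Q)).card := by
      rw [← card_filter_add_card_filter_not (s := A) (fun j : ℕ => κ / 8 * Q ≤ |(i : ℝ) - j|)]
      refine Nat.add_le_add_left (card_le_card ?_) _
      intro j hj
      obtain ⟨h5, h6⟩ := mem_filter.1 hj
      refine mem_filter.2 ⟨hA h5, ?_⟩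
      rw [not_le] at h6
      rwa [abs_sub_comm]
    have h5 : (A.card : ℝ) ≤ ((A.filter (fun j : ℕ => κ / 8 * Q ≤ |(i : ℝ) - j|)).card : ℝ) +
        (((range Q).filter (fun σ : ℕ => |(σ : ℝ) - i| < κ / 8 * Q)).card : ℝ) := by
      exact_mod_cast h4
    linarith
  rw [h1]
  calc (κ * Q) ^ 2 / 2 = (κ * Q) * (κ * Q / 2) := by ring
    _ ≤ (A.card : ℝ) * (κ * Q / 2) := mul_le_mul_of_nonneg_right hc (by linarith)
    _ = ∑ i ∈ A, (κ * Q / 2) := by rw [sum_const, nsmul_eq_mul]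
    _ ≤ _ := sum_le_sum h2

/-- explicit form of the base case. -/
lemma base_explicit (Q : ℕ) {κ : ℝ} (hκ : 0 < κ) (hκ1 : κ ≤ 1) (hQ : 4 ≤ κ * Q)
    (L : Finset (Line m)) (T : Line m → Finset ℕ)
    (hT : ∀ l ∈ L, T l ⊆ range Q ∧ κ * Q ≤ ((T l).card : ℝ))
    (hinj : Set.InjOn (fun l : Line m => cell l.v) L) :
    (L.card : ℝ) ≤ 2 * 67 ^ m * (κ ^ (m + 2))⁻¹ * (avg (cl Q) Q L T) ^ 2 := by
  have hQ0 : 0 < Q := by
    rcases Nat.eq_zero_or_pos Q with h | h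
    · rw [h] at hQ; norm_num at hQ
    · exact h
  have hQr : (0 : ℝ) < Q := by exact_mod_cast hQ0
  have h1 := double_count Q hQ0 (s := κ / 8) (by positivity) L T (fun l hl => (hT l hl).1) hinj
  have h2 : (L.card : ℝ) * ((κ * Q) ^ 2 / 2) ≤ ∑ l ∈ L, ((sep Q (κ / 8) (T l)).card : ℝ) := by
    calc (L.card : ℝ) * ((κ * Q) ^ 2 / 2) = ∑ l ∈ L, ((κ * Q) ^ 2 / 2) := by
          rw [sum_const, nsmul_eq_mul]
      _ ≤ _ := sum_le_sum (fun l hl => sep_card Q hκ hQ (T l) (hT l hl).1 (hT l hl).2)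
  have h3 : (2 * (4 / (κ / 8)) + 3) ^ m ≤ (67 / κ) ^ m := by
    apply pow_le_pow_left₀ (by positivity)
    have : (2 * (4 / (κ / 8)) + 3) = (64 + 3 * κ) / κ := by
      field_simp; ring
    rw [this]
    gcongr
    linarith
  set W := ∑ i ∈ range Q, ((cellsAt (cl Q) L T i).card : ℝ) with hS
  have hS0 : 0 ≤ W := sum_nonneg (fun _ _ => Nat.cast_nonneg _)
  have h4 : (L.card : ℝ) * ((κ * Q) ^ 2 / 2) ≤ (67 / κ) ^ m * W ^ 2 :=
    h2.trans (h1.trans (mul_le_mul_of_nonneg_right h3 (sq_nonneg _)))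
  have h5 : avg (cl Q) Q L T = W / Q := rfl
  rw [h5]
  have h7 : (L.card : ℝ) = (L.card : ℝ) * ((κ * Q) ^ 2 / 2) * (2 / (κ * Q) ^ 2) := by
    field_simp
  rw [h7]
  calc (L.card : ℝ) * ((κ * Q) ^ 2 / 2) * (2 / (κ * Q) ^ 2) ≤
      ((67 / κ) ^ m * W ^ 2) * (2 / (κ * Q) ^ 2) :=
        mul_le_mul_of_nonneg_right h4 (by positivity)
    _ = 2 * 67 ^ m * (κ ^ (m + 2))⁻¹ * (W / Q) ^ 2 := by
        rw [div_pow, div_pow, mul_pow, pow_add]
        field_simp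

/-- The base case: exponent `2`. -/
theorem IH_two (m : ℕ) : IH m 2 := by
  intro ε hε
  set η : ℝ := min (1 / 2) (ε / (2 * (m + 2))) with hη
  have hη0 : 0 < η := lt_min (by norm_num) (by positivity)
  have hη1 : η ≤ 1 / 2 := min_le_left _ _
  have hη2 : η * (m + 2) ≤ ε / 2 := by
    have h1 : η ≤ ε / (2 * (m + 2)) := min_le_right _ _
    calc η * (m + 2) ≤ ε / (2 * (m + 2)) * (m + 2) :=
          mul_le_mul_of_nonneg_right h1 (by positivity)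
      _ = ε / 2 := by field_simp
  have htend := (tendsto_rpow_atTop (show 0 < ε / 2 by positivity)).comp
    (tendsto_natCast_atTop_atTop (R := ℝ))
  obtain ⟨Q1, hQ1⟩ := Filter.eventually_atTop.1 (htend.eventually_ge_atTop (2 * 67 ^ m))
  refine ⟨η, hη0, max Q1 16, ?_⟩
  intro Q hQ L T hT hinj
  have hQ16 : 16 ≤ Q := (le_max_right _ _).trans hQ
  have hQr : (16 : ℝ) ≤ Q := by exact_mod_cast hQ16
  have hQ0 : (0 : ℝ) < Q := by linarith
  have hQ1' : 2 * 67 ^ m ≤ (Q : ℝ) ^ (ε / 2) := hQ1 Q ((le_max_left _ _).trans hQ)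
  set κ : ℝ := (Q : ℝ) ^ (-η) with hκ
  have hκ0 : 0 < κ := Real.rpow_pos_of_pos hQ0 _
  have hκ1 : κ ≤ 1 := Real.rpow_le_one_of_one_le_of_nonpos (by linarith) (by linarith)
  have hκQ : κ * Q = (Q : ℝ) ^ (1 - η) := by
    rw [hκ, show (1 : ℝ) - η = -η + 1 by ring, Real.rpow_add hQ0, Real.rpow_one]
  have h4 : 4 ≤ κ * Q := by
    rw [hκQ]
    calc (4 : ℝ) = (16 : ℝ) ^ (1 / 2 : ℝ) := by
          rw [← Real.sqrt_eq_rpow, show (16 : ℝ) = 4 ^ 2 by norm_num,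
            Real.sqrt_sq (by norm_num)]
      _ ≤ (Q : ℝ) ^ (1 / 2 : ℝ) := Real.rpow_le_rpow (by norm_num) hQr (by norm_num)
      _ ≤ (Q : ℝ) ^ (1 - η) := Real.rpow_le_rpow_of_exponent_le (by linarith) (by linarith)
  have h5 := base_explicit Q hκ0 hκ1 h4 L T
    (fun l hl => ⟨(hT l hl).2.1, by rw [hκQ]; exact (hT l hl).2.2⟩) hinj
  have h6 : (κ ^ (m + 2))⁻¹ ≤ (Q : ℝ) ^ (ε / 2) := by
    have : (κ ^ (m + 2))⁻¹ = (Q : ℝ) ^ (η * (m + 2)) := by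
      rw [hκ, ← Real.rpow_natCast, ← Real.rpow_mul hQ0.le, ← Real.rpow_neg hQ0.le]
      congr 1
      push_cast
      ring
    rw [this]
    exact Real.rpow_le_rpow_of_exponent_le (by linarith) hη2
  have h7 : avg (cl Q) Q L T ^ (2 : ℝ) = avg (cl Q) Q L T ^ 2 := by
    rw [← Real.rpow_natCast]
    norm_num
  rw [h7]
  refine h5.trans (mul_le_mul_of_nonneg_right ?_ (sq_nonneg _))
  calc 2 * 67 ^ m * (κ ^ (m + 2))⁻¹ ≤ (Q : ℝ) ^ (ε / 2) * (Q : ℝ) ^ (ε / 2) :=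
        mul_le_mul hQ1' h6 (by positivity) (by positivity)
    _ = (Q : ℝ) ^ ε := by rw [← Real.rpow_add hQ0]; congr 1; ring

end Pool.Agent.Helper56.KakBase
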