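import Mathlib

set_option autoImplicit false

open scoped ENNReal

namespace Pool.Agent.Helper56.Net

/-- An acyclic multiple-unicast network with `k` source-sink pairs: a finite simple directed graph
without directed cycles, on the vertex set `V`, whose edges (ordered pairs of vertices) all have
capacity one, together with `k` pairs of vertices `(s i, t i)`. -/
structure Network (k : ℕ) where
  /-- The vertices. -/
  V : Type
  [fin : Fintype V]
  [dec : DecidableEq V]
  /-- The directed edges `(u, v)`, from the tail `u` to the head `v`. -/
  edges : Finset (V × V)
  /-- The sources. -/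
  s : Fin k → V
  /-- The sinks. -/
  t : Fin k → V
  /-- There is no directed cycle. -/
  acyclic : ∀ v, ¬ Relation.TransGen (fun a b => (a, b) ∈ edges) v v

namespace Network

variable {k : ℕ}

instance (N : Network k) : Fintype N.V := N.fin
instance (N : Network k) : DecidableEq N.V := N.dec

/-- `M` is a multicut: a set of edges such that, once it is removed, there is no directed path
from `s i` to `t i` for any `i`. -/
def IsMulticut (N : Network k) (M : Finset (N.V × N.V)) : Prop :=
  M ⊆ N.edges ∧
    ∀ i, ¬ Relation.ReflTransGen (fun a b => (a, b) ∈ N.edges ∧ (a, b) ∉ M) (N.s i) (N.t i)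

/-- The minimum size of a multicut, as an extended nonnegative real. -/
noncomputable def minMulticut (N : Network k) : ℝ≥0∞ :=
  ⨅ (M : Finset (N.V × N.V)) (_ : N.IsMulticut M), (M.card : ℝ≥0∞)

/-- A network code for `N` which is a solution. The alphabet is `Fin q` with `q ≥ 2`, the block
length is `b ≥ 1`, and the `i`-th source holds a message `x i` in `Fin (a i) → Fin q`. -/
structure Solution (N : Network k) where
  /-- The size of the alphabet. -/
  q : ℕ
  two_le : 2 ≤ q
  /-- The block length. -/
  b : ℕ
  one_le : 1 ≤ b
  /-- The lengths of the messages. -/
  a : Fin k → ℕ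
  /-- `symb e x` is the block carried by the edge `e` when the messages are `x`. -/
  symb : N.V × N.V → (∀ i, Fin (a i) → Fin q) → (Fin b → Fin q)
  /-- The block carried by an edge is a function of the blocks on the edges entering its tail and
  of the messages held at its tail. -/
  causal : ∀ e ∈ N.edges, ∀ x y, (∀ e' ∈ N.edges, e'.2 = e.1 → symb e' x = symb e' y) →
    (∀ i, N.s i = e.1 → x i = y i) → symb e x = symb e y
  /-- The `i`-th message is a function of the blocks on the edges entering the `i`-th sink. -/
  decodes : ∀ i x y, (∀ e ∈ N.edges, e.2 = N.t i → symb e x = symb e y) → x i = y i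

/-- The rate of a solution, `(a 1 + ... + a k) / b`. -/
noncomputable def Solution.rate {N : Network k} (c : N.Solution) : ℝ≥0∞ :=
  ((∑ i, c.a i : ℕ) : ℝ≥0∞) / (c.b : ℝ≥0∞)

/-- The network coding rate: the supremum of the rates of all solutions. -/
noncomputable def codingRate (N : Network k) : ℝ≥0∞ := ⨆ c : N.Solution, c.rate

end Network

end Pool.Agent.Helper56.Net
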