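import Pool.Agent.Helper56.NetDefs

set_option autoImplicit false

open scoped ENNReal BigOperators

namespace Pool.Agent.Helper56.Net

namespace Network

variable {k : ℕ}

/-- If no source is the sink of its own pair then the minimum multicut is finite. -/
theorem minMulticut_ne_top (N : Network k) (h : ∀ i, N.s i ≠ N.t i) : N.minMulticut ≠ ⊤ := by
  have hM : N.IsMulticut N.edges := by
    refine ⟨Finset.Subset.refl _, fun i hi => ?_⟩
    rcases Relation.ReflTransGen.cases_head hi with h1 | ⟨c, hc, _⟩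
    · exact h i h1
    · exact hc.2 hc.1
  exact ne_top_of_le_ne_top (ENNReal.natCast_ne_top _) (iInf₂_le N.edges hM)

/-- The cut bound. -/
theorem Solution.cut_bound {N : Network k} (c : N.Solution) (I : Finset (Fin k))
    (T : Finset (N.V × N.V)) (hTE : T ⊆ N.edges)
    (hT : ∀ i ∈ I, ∀ j ∈ I,
      ¬ Relation.ReflTransGen (fun a b => (a, b) ∈ N.edges ∧ (a, b) ∉ T) (N.s i) (N.t j)) :
    ∑ i ∈ I, c.a i ≤ c.b * T.card := by
  classical
  have hwf : WellFounded (fun a b => (a, b) ∈ N.edges) := by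
    have : IsTrans N.V (Relation.TransGen (fun a b => (a, b) ∈ N.edges)) := inferInstance
    have hirr : Std.Irrefl (Relation.TransGen (fun a b => (a, b) ∈ N.edges)) := ⟨N.acyclic⟩
    have h := Finite.wellFounded_of_trans_of_irrefl
      (Relation.TransGen (fun a b => (a, b) ∈ N.edges))
    exact Subrelation.wf (fun {a b} hab => Relation.TransGen.single hab) h
  set S : Set N.V := {v | ∃ i ∈ I,
    Relation.ReflTransGen (fun a b => (a, b) ∈ N.edges ∧ (a, b) ∉ T) (N.s i) v} with hS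
  have key : ∀ x y : (∀ i, Fin (c.a i) → Fin c.q), (∀ i, i ∉ I → x i = y i) →
      (∀ e ∈ T, c.symb e x = c.symb e y) →
      ∀ u, ∀ e ∈ N.edges, e.1 = u → e.2 ∉ S → c.symb e x = c.symb e y := by
    intro x y hxy hTxy u
    induction u using hwf.induction with
    | _ u ih =>
      intro e he heu heS
      by_cases heT : e ∈ T
      · exact hTxy e heT
      have htail : e.1 ∉ S := by
        rintro ⟨i, hi, hr⟩
        exact heS ⟨i, hi, hr.tail ⟨he, heT⟩⟩
      apply c.causal e he
      · intro e' he' h2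
        refine ih e'.1 ?_ e' he' rfl ?_
        · have h' : (e'.1, e'.2) ∈ N.edges := he'
          have h3 : e'.2 = u := h2.trans heu
          rwa [h3] at h'
        · rw [h2]; exact htail
      · intro i hi
        apply hxy
        intro hiI
        exact htail ⟨i, hiI, by rw [hi]⟩
  have key2 : ∀ x y : (∀ i, Fin (c.a i) → Fin c.q), (∀ i, i ∉ I → x i = y i) →
      (∀ e ∈ T, c.symb e x = c.symb e y) → x = y := by
    intro x y hxy hTxy
    funext j
    by_cases hj : j ∈ I
    · apply c.decodes j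
      intro e he h2
      refine key x y hxy hTxy e.1 e he rfl ?_
      rw [h2]
      rintro ⟨i, hi, hr⟩
      exact hT i hi j hj hr
    · exact hxy j hj
  -- injection
  have hq : 0 < c.q := by have := c.two_le; omega
  let z : Fin c.q := ⟨0, hq⟩
  let ext : (∀ i : I, Fin (c.a i.1) → Fin c.q) → (∀ i, Fin (c.a i) → Fin c.q) :=
    fun x i => if h : i ∈ I then x ⟨i, h⟩ else fun _ => z
  let F : (∀ i : I, Fin (c.a i.1) → Fin c.q) → (T → (Fin c.b → Fin c.q)) :=
    fun x e => c.symb e.1 (ext x)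
  have hF : Function.Injective F := by
    intro x y hxy
    have h1 : ext x = ext y := by
      apply key2
      · intro i hi
        simp only [ext, dif_neg hi]
      · intro e heT
        exact congrFun hxy ⟨e, heT⟩
    funext i
    have h2 := congrFun h1 i.1
    simpa only [ext, dif_pos i.2] using h2
  have hcard := Fintype.card_le_of_injective F hF
  have h1 : Fintype.card (∀ i : I, Fin (c.a i.1) → Fin c.q) = c.q ^ (∑ i ∈ I, c.a i) := by
    rw [Fintype.card_pi]
    simp only [Fintype.card_fun, Fintype.card_fin]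
    rw [Finset.prod_pow_eq_pow_sum, Finset.sum_coe_sort I c.a]
  have h2 : Fintype.card (T → (Fin c.b → Fin c.q)) = c.q ^ (c.b * T.card) := by
    simp only [Fintype.card_fun, Fintype.card_fin, Fintype.card_coe, pow_mul]
  rw [h1, h2] at hcard
  exact (Nat.pow_le_pow_iff_right (by have := c.two_le; omega)).1 hcard

end Network

/-- A weighted acyclic digraph in which any two vertices are joined by at most one directed path. -/
structure WD where
  V : Type
  [fin : Fintype V]
  [dec : DecidableEq V]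
  arc : V → V → Prop
  rk : V → ℕ
  rk_lt : ∀ u v, arc u v → rk v < rk u
  uni : ∀ x v z, Relation.ReflTransGen arc x v → Relation.ReflTransGen arc v z → x ≠ v →
    ¬ Relation.ReflTransGen (fun a b => arc a b ∧ b ≠ v) x z
  w : V → ℕ
  pos : ∀ v, 0 < w v
  ne : Nonempty V

namespace WD

instance (D : WD) : Fintype D.V := D.fin
instance (D : WD) : DecidableEq D.V := D.dec

def tot (D : WD) : ℕ := ∑ v, D.w v

def Ind (D : WD) (t : ℕ) : Prop := ∀ S : Finset D.V, (∀ u ∈ S, ∀ v ∈ S, ¬ D.arc u v) →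
  t * ∑ v ∈ S, D.w v ≤ 2 * D.tot

lemma tot_pos (D : WD) : 0 < D.tot := by
  obtain ⟨v⟩ := D.ne
  exact Finset.sum_pos (fun v _ => D.pos v) ⟨v, Finset.mem_univ v⟩

def one : WD where
  V := Unit
  arc := fun _ _ => False
  rk := fun _ => 0
  rk_lt := fun _ _ h => h.elim
  uni := fun _ _ _ _ _ h => (h rfl).elim
  w := fun _ => 1
  pos := fun _ => one_pos
  ne := ⟨()⟩

lemma one_ind : one.Ind 2 := by
  intro S _
  have : ∑ v ∈ S, one.w v ≤ one.tot := Finset.sum_le_univ_sum_of_nonneg (fun _ => Nat.zero_le _)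
  omega

lemma rmono {α : Type} {r p : α → α → Prop} {x y : α} (h : Relation.ReflTransGen r x y)
    (hrp : ∀ a b, r a b → p a b) : Relation.ReflTransGen p x y :=
  Relation.ReflTransGen.mono hrp _ _ h

/-- The arcs of the next digraph. -/
def nextArc (D : WD) (m : ℕ) : (Fin m × D.V) ⊕ (Fin m → D.V) → (Fin m × D.V) ⊕ (Fin m → D.V) → Prop
  | Sum.inl p, Sum.inl q => p.1 = q.1 ∧ D.arc p.2 q.2
  | Sum.inr f, Sum.inl q => f q.1 = q.2
  | _, Sum.inr _ => False

lemma reach_inl (D : WD) (m : ℕ) (P : D.V → Prop) (i : Fin m) (u : D.V)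
    (y : (Fin m × D.V) ⊕ (Fin m → D.V))
    (h : Relation.ReflTransGen (fun a b => D.nextArc m a b ∧ (∀ v, b = Sum.inl (i, v) → P v))
      (Sum.inl (i, u)) y) :
    ∃ v, y = Sum.inl (i, v) ∧ Relation.ReflTransGen (fun a b => D.arc a b ∧ P b) u v := by
  induction h with
  | refl => exact ⟨u, rfl, Relation.ReflTransGen.refl⟩
  | @tail b c _ hbc ih =>
    obtain ⟨v, rfl, hv⟩ := ih
    rcases c with ⟨j, c⟩ | f
    · have h12 : i = j ∧ D.arc v c := hbc.1
      obtain ⟨h1, h2⟩ := h12
      subst h1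
      exact ⟨c, rfl, hv.tail ⟨h2, hbc.2 c rfl⟩⟩
    · have : False := hbc.1
      exact this.elim

lemma reach_inr (D : WD) (m : ℕ) (P : D.V → Prop) (f : Fin m → D.V) (i : Fin m) (z : D.V)
    (h : Relation.ReflTransGen (fun a b => D.nextArc m a b ∧ (∀ v, b = Sum.inl (i, v) → P v))
      (Sum.inr f) (Sum.inl (i, z))) :
    P (f i) ∧ Relation.ReflTransGen (fun a b => D.arc a b ∧ P b) (f i) z := by
  rcases Relation.ReflTransGen.cases_head h with h | ⟨c, hc, h⟩
  · cases h
  · rcases c with ⟨j, c⟩ | g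
    · obtain ⟨h1, h2⟩ := hc
      have h1' : f j = c := h1
      subst h1'
      by_cases hij : j = i
      · subst hij
        obtain ⟨v, hv, hr⟩ := D.reach_inl m P j (f j) _ h
        cases hv
        exact ⟨h2 _ rfl, hr⟩
      · exfalso
        have h' : Relation.ReflTransGen (fun a b => D.nextArc m a b ∧
            (∀ v, b = Sum.inl (j, v) → True)) (Sum.inl (j, f j)) (Sum.inl (i, z)) :=
          rmono h (fun a b hab => ⟨hab.1, fun _ _ => trivial⟩)
        obtain ⟨v, hv, _⟩ := D.reach_inl m (fun _ => True) j (f j) _ h'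
        cases hv
        exact hij rfl
    · have : False := hc.1
      exact this.elim

/-- The weights of the next digraph. -/
def nextW (D : WD) (t m : ℕ) : (Fin m × D.V) ⊕ (Fin m → D.V) → ℕ
  | Sum.inl p => (t + 1) * D.tot ^ (m - 1) * D.w p.2
  | Sum.inr f => 2 * m * ∏ i, D.w (f i)

def next (D : WD) (t : ℕ) : WD where
  V := (Fin ((t + 2) ^ 2) × D.V) ⊕ (Fin ((t + 2) ^ 2) → D.V)
  arc := D.nextArc ((t + 2) ^ 2)
  rk := fun x => match x with
    | Sum.inl p => D.rk p.2
    | Sum.inr _ => 1 + ∑ v, D.rk v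
  rk_lt := by
    intro u v h
    rcases u with ⟨i, u⟩ | f <;> rcases v with ⟨j, v⟩ | g
    · exact D.rk_lt _ _ h.2
    · exact h.elim
    · have : D.rk v ≤ ∑ v, D.rk v :=
        Finset.single_le_sum (f := D.rk) (fun _ _ => Nat.zero_le _) (Finset.mem_univ v)
      show D.rk v < 1 + ∑ v, D.rk v
      omega
    · exact h.elim
  uni := by
    intro x v z hxv hvz hne h
    rcases v with ⟨i, v⟩ | g
    · -- v = inl (i, v)
      have hvz' : Relation.ReflTransGen (fun a b => D.nextArc ((t + 2) ^ 2) a b ∧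
            (∀ v, b = Sum.inl (i, v) → True)) (Sum.inl (i, v)) z :=
          rmono hvz (fun a b hab => ⟨hab, fun _ _ => trivial⟩)
      obtain ⟨z, rfl, hz⟩ := D.reach_inl _ (fun _ => True) i v z hvz'
      have h' : Relation.ReflTransGen (fun a b => D.nextArc ((t + 2) ^ 2) a b ∧
            (∀ v', b = Sum.inl (i, v') → v' ≠ v)) x (Sum.inl (i, z)) :=
        rmono h (fun a b hab => ⟨hab.1, fun v' hv' hvv => hab.2 (by rw [hv', hvv])⟩)
      have hz' : Relation.ReflTransGen D.arc v z := rmono hz (fun a b hab => hab.1)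
      rcases x with ⟨j, x⟩ | f
      · have hxv' : Relation.ReflTransGen (fun a b => D.nextArc ((t + 2) ^ 2) a b ∧
            (∀ v, b = Sum.inl (j, v) → True)) (Sum.inl (j, x)) (Sum.inl (i, v)) :=
          rmono hxv (fun a b hab => ⟨hab, fun _ _ => trivial⟩)
        obtain ⟨v', hv', hx⟩ := D.reach_inl _ (fun _ => True) j x _ hxv'
        cases hv'
        obtain ⟨z', hz'', hx'⟩ := D.reach_inl _ (fun v' => v' ≠ v) i x _ h'
        cases hz''
        exact D.uni x v z (rmono hx (fun a b hab => hab.1)) hz' (fun h => hne (by rw [h])) hx'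
      · have hxv' : Relation.ReflTransGen (fun a b => D.nextArc ((t + 2) ^ 2) a b ∧
            (∀ v, b = Sum.inl (i, v) → True)) (Sum.inr f) (Sum.inl (i, v)) :=
          rmono hxv (fun a b hab => ⟨hab, fun _ _ => trivial⟩)
        have h1 := (D.reach_inr _ (fun _ => True) f i v hxv').2
        obtain ⟨h2, h3⟩ := D.reach_inr _ (fun v' => v' ≠ v) f i z h'
        exact D.uni (f i) v z (rmono h1 (fun a b hab => hab.1)) hz' h2 h3
    · rcases Relation.ReflTransGen.cases_tail hxv with h1 | ⟨c, _, hc⟩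
      · exact hne h1.symm
      · rcases c with c | c
        · exact hc.elim
        · exact hc.elim
  w := D.nextW t ((t + 2) ^ 2)
  pos := by
    intro x
    have := D.tot_pos
    rcases x with ⟨i, v⟩ | f
    · have := D.pos v
      show 0 < (t + 1) * D.tot ^ ((t + 2) ^ 2 - 1) * D.w v
      positivity
    · have : 0 < ∏ i, D.w (f i) := Finset.prod_pos (fun i _ => D.pos _)
      show 0 < 2 * (t + 2) ^ 2 * ∏ i, D.w (f i)
      positivity
  ne := by
    obtain ⟨v⟩ := D.ne
    exact ⟨Sum.inr (fun _ => v)⟩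

lemma prod_bound {ι : Type} (s : Finset ι) (a : ι → ℝ) (h0 : ∀ i ∈ s, 0 ≤ a i)
    (h1 : ∀ i ∈ s, a i ≤ 1) : (∏ i ∈ s, (1 - a i)) * (1 + ∑ i ∈ s, a i) ≤ 1 := by
  classical
  induction s using Finset.induction_on with
  | empty => simp
  | insert i s hi ih =>
    rw [Finset.prod_insert hi, Finset.sum_insert hi]
    have hi0 := h0 i (Finset.mem_insert_self i s)
    have hi1 := h1 i (Finset.mem_insert_self i s)
    have ih' := ih (fun j hj => h0 j (Finset.mem_insert_of_mem hj))
      (fun j hj => h1 j (Finset.mem_insert_of_mem hj))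
    have hP0 : 0 ≤ ∏ i ∈ s, (1 - a i) := Finset.prod_nonneg
      (fun j hj => by linarith [h1 j (Finset.mem_insert_of_mem hj)])
    have hP1 : ∏ i ∈ s, (1 - a i) ≤ 1 := Finset.prod_le_one
      (fun j hj => by linarith [h1 j (Finset.mem_insert_of_mem hj)])
      (fun j hj => by linarith [h0 j (Finset.mem_insert_of_mem hj)])
    set P := ∏ i ∈ s, (1 - a i)
    set S := ∑ i ∈ s, a i
    have e : (1 - a i) * P * (1 + (a i + S)) = (1 - a i) * (P * (1 + S)) + a i * (1 - a i) * P := by
      ring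
    rw [e]
    have h2 : (1 - a i) * (P * (1 + S)) ≤ (1 - a i) * 1 :=
      mul_le_mul_of_nonneg_left ih' (by linarith)
    have h3 : a i * (1 - a i) * P ≤ a i * (1 - a i) * 1 :=
      mul_le_mul_of_nonneg_left hP1 (mul_nonneg hi0 (by linarith))
    nlinarith

lemma next_tot (D : WD) (t : ℕ) :
    (D.next t).tot = (t + 2) ^ 2 * (t + 3) * D.tot ^ ((t + 2) ^ 2) := by
  have h1 : (D.next t).tot = ∑ x : Fin ((t + 2) ^ 2) × D.V, (D.next t).w (Sum.inl x) +
      ∑ f : Fin ((t + 2) ^ 2) → D.V, (D.next t).w (Sum.inr f) :=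
    Fintype.sum_sum_type (fun x : (Fin ((t + 2) ^ 2) × D.V) ⊕ (Fin ((t + 2) ^ 2) → D.V) =>
      (D.next t).w x)
  rw [h1]
  have h2 : ∑ x : Fin ((t + 2) ^ 2) × D.V, (D.next t).w (Sum.inl x) =
      (t + 2) ^ 2 * ((t + 1) * D.tot ^ ((t + 2) ^ 2 - 1) * D.tot) := by
    show ∑ x : Fin ((t + 2) ^ 2) × D.V, (t + 1) * D.tot ^ ((t + 2) ^ 2 - 1) * D.w x.2 = _
    rw [Fintype.sum_prod_type]
    simp only [← Finset.mul_sum]
    rw [Finset.sum_const, Finset.card_univ, Fintype.card_fin]
    simp only [tot, smul_eq_mul]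
    ring
  have h3 : ∑ f : Fin ((t + 2) ^ 2) → D.V, (D.next t).w (Sum.inr f) =
      2 * (t + 2) ^ 2 * D.tot ^ ((t + 2) ^ 2) := by
    show ∑ f : Fin ((t + 2) ^ 2) → D.V, 2 * (t + 2) ^ 2 * ∏ i, D.w (f i) = _
    rw [← Finset.mul_sum]
    congr 1
    have h := Finset.prod_univ_sum (fun _ : Fin ((t + 2) ^ 2) => (Finset.univ : Finset D.V))
      (fun _ v => D.w v)
    rw [Fintype.piFinset_univ] at h
    rw [← h]
    simp [tot]
  rw [h2, h3]
  obtain ⟨m, hm⟩ : ∃ m, (t + 2) ^ 2 = m + 1 := ⟨(t + 2) ^ 2 - 1, by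
    have : 0 < (t + 2) ^ 2 := by positivity
    omega⟩
  rw [hm]
  simp only [Nat.add_sub_cancel]
  ring

lemma next_ind_aux (D : WD) (t m : ℕ) (hm : m = (t + 2) ^ 2) (h : D.Ind (t + 2))
    (S : Finset ((Fin m × D.V) ⊕ (Fin m → D.V)))
    (hS : ∀ u ∈ S, ∀ v ∈ S, ¬ D.nextArc m u v) :
    ∑ x ∈ S, D.nextW t m x ≤ 2 * m * D.tot ^ m := by
  classical
  have hwl : ∀ p, D.nextW t m (Sum.inl p) = (t + 1) * D.tot ^ (m - 1) * D.w p.2 :=
    fun _ => rfl
  have hwr : ∀ f, D.nextW t m (Sum.inr f) = 2 * m * ∏ i, D.w (f i) := fun _ => rfl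
  have hmpos : 0 < m := by rw [hm]; positivity
  have hW : 0 < D.tot := D.tot_pos
  let Si : Fin m → Finset D.V := fun i => Finset.univ.filter (fun v => Sum.inl (i, v) ∈ S)
  let A : Fin m → ℕ := fun i => ∑ v ∈ Si i, D.w v
  have hA : ∀ i, (t + 2) * A i ≤ 2 * D.tot := by
    intro i
    apply h
    intro u hu v hv huv
    simp only [Si, Finset.mem_filter, Finset.mem_univ, true_and] at hu hv
    have h12 : D.nextArc m (Sum.inl (i, u)) (Sum.inl (i, v)) := ⟨rfl, huv⟩
    exact hS _ hu _ hv h12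
  have hAc : ∀ i, A i + ∑ v ∈ (Si i)ᶜ, D.w v = D.tot := fun i =>
    Finset.sum_add_sum_compl (Si i) D.w
  -- the sum over `S`
  have hsum : ∑ x ∈ S, D.nextW t m x ≤
      (t + 1) * D.tot ^ (m - 1) * ∑ i, A i + 2 * m * ∏ i, ∑ v ∈ (Si i)ᶜ, D.w v := by
    have e1 : ∑ x ∈ S, D.nextW t m x =
        ∑ x : (Fin m × D.V) ⊕ (Fin m → D.V), if x ∈ S then D.nextW t m x else 0 := by
      rw [← Finset.sum_filter]
      apply Finset.sum_congr _ (fun _ _ => rfl)
      ext x
      simp
    rw [e1, Fintype.sum_sum_type]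
    simp only [hwl, hwr]
    apply Nat.add_le_add
    · rw [Fintype.sum_prod_type, Finset.mul_sum]
      apply Finset.sum_le_sum
      intro i _
      show _ ≤ (t + 1) * D.tot ^ (m - 1) * ∑ v ∈ Si i, D.w v
      rw [Finset.mul_sum]
      simp only [Si]
      rw [Finset.sum_filter]
    · have e2 := Finset.prod_univ_sum (fun i : Fin m => (Si i)ᶜ) (fun _ v => D.w v)
      rw [e2, Finset.mul_sum, ← Finset.sum_filter]
      have hsub : (Finset.univ.filter (fun f : Fin m → D.V => Sum.inr f ∈ S)) ⊆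
          Fintype.piFinset (fun i => (Si i)ᶜ) := by
        intro f hf
        have hf' : Sum.inr f ∈ S := (Finset.mem_filter.1 hf).2
        rw [Fintype.mem_piFinset]
        intro i
        rw [Finset.mem_compl]
        intro hi
        have hi' : Sum.inl (i, f i) ∈ S := (Finset.mem_filter.1 hi).2
        have h12 : D.nextArc m (Sum.inr f) (Sum.inl (i, f i)) := rfl
        exact hS _ hf' _ hi' h12
      exact Finset.sum_le_sum_of_subset_of_nonneg hsub (fun _ _ _ => Nat.zero_le _)
  -- real numbers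
  have hWr : (0 : ℝ) < D.tot := by exact_mod_cast hW
  let a : Fin m → ℝ := fun i => (A i : ℝ) / D.tot
  have ha0 : ∀ i, 0 ≤ a i := fun i => by positivity
  have hAr : ∀ i, ((t : ℝ) + 2) * A i ≤ 2 * D.tot := by
    intro i
    exact_mod_cast hA i
  have hAW : ∀ i, (A i : ℝ) ≤ D.tot := by
    intro i
    have := hAc i
    exact_mod_cast (by omega : A i ≤ D.tot)
  have ha1 : ∀ i, a i ≤ 1 := fun i => by
    rw [div_le_one hWr]; exact hAW i
  have hs : ∑ i, a i ≤ 2 * ((t : ℝ) + 2) := by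
    have : ∀ i, a i ≤ 2 / ((t : ℝ) + 2) := by
      intro i
      rw [div_le_div_iff₀ hWr (by positivity)]
      linarith [hAr i]
    calc ∑ i, a i ≤ ∑ _i : Fin m, 2 / ((t : ℝ) + 2) := Finset.sum_le_sum (fun i _ => this i)
      _ = 2 * ((t : ℝ) + 2) := by
        rw [Finset.sum_const, Finset.card_univ, Fintype.card_fin, nsmul_eq_mul, hm]
        push_cast
        field_simp
  have hs0 : 0 ≤ ∑ i, a i := Finset.sum_nonneg (fun i _ => ha0 i)
  have hP := prod_bound Finset.univ a (fun i _ => ha0 i) (fun i _ => ha1 i)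
  have hP0 : 0 ≤ ∏ i, (1 - a i) := Finset.prod_nonneg (fun i _ => by linarith [ha1 i])
  have hcl : (1 + ∑ i, a i) * ((t + 1) * ∑ i, a i + 2 * m * ∏ i, (1 - a i)) ≤
      (1 + ∑ i, a i) * (2 * m) := by
    have hmr : (m : ℝ) = ((t : ℝ) + 2) ^ 2 := by rw [hm]; push_cast; ring
    set s := ∑ i, a i
    set P := ∏ i, (1 - a i)
    rw [hmr]
    have h1 : ((t : ℝ) + 1) * (1 + s) ≤ 2 * ((t : ℝ) + 2) ^ 2 := by
      have ht : (0 : ℝ) ≤ t := Nat.cast_nonneg t
      nlinarith
    have h2 : s * (((t : ℝ) + 1) * (1 + s)) ≤ s * (2 * ((t : ℝ) + 2) ^ 2) :=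
      mul_le_mul_of_nonneg_left h1 hs0
    have h3 : 2 * ((t : ℝ) + 2) ^ 2 * (P * (1 + s)) ≤ 2 * ((t : ℝ) + 2) ^ 2 * 1 :=
      mul_le_mul_of_nonneg_left hP (by positivity)
    nlinarith
  have hcl2 : (t + 1) * ∑ i, a i + 2 * m * ∏ i, (1 - a i) ≤ 2 * (m : ℝ) :=
    le_of_mul_le_mul_left hcl (by linarith)
  have hfin : (((t + 1) * D.tot ^ (m - 1) * ∑ i, A i + 2 * m * ∏ i, ∑ v ∈ (Si i)ᶜ, D.w v : ℕ) : ℝ)
      ≤ 2 * m * (D.tot : ℝ) ^ m := by
    push_cast
    have e1 : (∑ i, (A i : ℝ)) = D.tot * ∑ i, a i := by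
      rw [Finset.mul_sum]
      apply Finset.sum_congr rfl
      intro i _
      simp only [a]
      field_simp
    have e2 : (∏ i, ∑ v ∈ (Si i)ᶜ, (D.w v : ℝ)) = (D.tot : ℝ) ^ m * ∏ i, (1 - a i) := by
      have : (D.tot : ℝ) ^ m = ∏ _i : Fin m, (D.tot : ℝ) := by simp
      rw [this, ← Finset.prod_mul_distrib]
      apply Finset.prod_congr rfl
      intro i _
      have h1 : (A i : ℝ) + ∑ v ∈ (Si i)ᶜ, (D.w v : ℝ) = D.tot := by exact_mod_cast hAc i
      have h2 : (D.tot : ℝ) * (1 - a i) = D.tot - A i := by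
        have : (D.tot : ℝ) * a i = A i := by
          simp only [a]
          field_simp
        linarith
      rw [h2]
      linarith
    rw [e1, e2]
    have e3 : (D.tot : ℝ) ^ m = (D.tot : ℝ) ^ (m - 1) * D.tot := by
      rw [← pow_succ]
      congr 1
      omega
    calc ((t : ℝ) + 1) * (D.tot : ℝ) ^ (m - 1) * ((D.tot : ℝ) * ∑ i, a i)
          + 2 * m * ((D.tot : ℝ) ^ m * ∏ i, (1 - a i))
        = (D.tot : ℝ) ^ m * ((t + 1) * ∑ i, a i + 2 * m * ∏ i, (1 - a i)) := by
          rw [e3]; ring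
      _ ≤ (D.tot : ℝ) ^ m * (2 * m) := mul_le_mul_of_nonneg_left hcl2 (by positivity)
      _ = 2 * m * (D.tot : ℝ) ^ m := by ring
  have hfin' : (t + 1) * D.tot ^ (m - 1) * ∑ i, A i + 2 * m * ∏ i, ∑ v ∈ (Si i)ᶜ, D.w v
      ≤ 2 * m * D.tot ^ m := by exact_mod_cast hfin
  exact hsum.trans hfin'

lemma next_ind (D : WD) (t : ℕ) (h : D.Ind (t + 2)) : (D.next t).Ind (t + 3) := by
  intro S hS
  rw [next_tot]
  have := D.next_ind_aux t _ rfl h S hS
  calc (t + 3) * ∑ x ∈ S, (D.next t).w x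
      ≤ (t + 3) * (2 * (t + 2) ^ 2 * D.tot ^ ((t + 2) ^ 2)) := Nat.mul_le_mul_left _ this
    _ = 2 * ((t + 2) ^ 2 * (t + 3) * D.tot ^ ((t + 2) ^ 2)) := by ring

lemma exists_ind (t : ℕ) : ∃ D : WD, D.Ind (t + 2) := by
  induction t with
  | zero => exact ⟨one, one_ind⟩
  | succ t ih =>
    obtain ⟨D, hD⟩ := ih
    exact ⟨D.next t, D.next_ind t hD⟩

end WD


namespace WD

/-- There is a directed path with `n` arcs from `x` to `z` inside `Y`. -/
def PathIn (D : WD) (Y : Finset D.V) : ℕ → D.V → D.V → Prop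
  | 0, x, z => x = z ∧ x ∈ Y
  | n + 1, x, z => ∃ y, PathIn D Y n x y ∧ D.arc y z ∧ z ∈ Y

lemma rk_le (D : WD) {x z : D.V} (h : Relation.ReflTransGen D.arc x z) : D.rk z ≤ D.rk x := by
  induction h with
  | refl => exact le_rfl
  | tail _ hbc ih => exact ((D.rk_lt _ _ hbc).le).trans ih

lemma PathIn.reach (D : WD) {Y : Finset D.V} (n : ℕ) (x z : D.V) (h : D.PathIn Y n x z) :
    Relation.ReflTransGen D.arc x z := by
  induction n generalizing z with
  | zero => rw [h.1]
  | succ n ih =>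
    obtain ⟨y, h1, h2, _⟩ := h
    exact (ih y h1).tail h2

open Classical in
/-- The vertices on paths from `x` to `z`. -/
noncomputable def btw (D : WD) (x z : D.V) : Finset D.V :=
  Finset.univ.filter (fun v => Relation.ReflTransGen D.arc x v ∧ Relation.ReflTransGen D.arc v z)

lemma card_btw (D : WD) {Y : Finset D.V} (n : ℕ) (x z : D.V) (h : D.PathIn Y n x z) :
    n + 1 ≤ (D.btw x z).card := by
  classical
  induction n generalizing z with
  | zero =>
    obtain ⟨rfl, _⟩ := h
    have : x ∈ D.btw x x := by simp [btw, Relation.ReflTransGen.refl]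
    have := Finset.card_pos.2 ⟨x, this⟩
    omega
  | succ n ih =>
    obtain ⟨y, h1, h2, _⟩ := h
    have h3 := ih y h1
    have h4 : z ∉ D.btw x y := by
      intro hz
      simp only [btw, Finset.mem_filter, Finset.mem_univ, true_and] at hz
      have := D.rk_le hz.2
      have := D.rk_lt _ _ h2
      omega
    have h5 : insert z (D.btw x y) ⊆ D.btw x z := by
      intro v hv
      rw [Finset.mem_insert] at hv
      simp only [btw, Finset.mem_filter, Finset.mem_univ, true_and] at hv ⊢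
      rcases hv with rfl | hv
      · exact ⟨(PathIn.reach D n x y h1).tail h2, Relation.ReflTransGen.refl⟩
      · exact ⟨hv.1, hv.2.tail h2⟩
    have h6 := Finset.card_le_card h5
    rw [Finset.card_insert_of_notMem h4] at h6
    omega

lemma PathIn.mono (D : WD) {Y Z : Finset D.V} (hYZ : Y ⊆ Z) (n : ℕ) (x z : D.V)
    (h : D.PathIn Y n x z) : D.PathIn Z n x z := by
  induction n generalizing z with
  | zero => exact ⟨h.1, hYZ h.2⟩
  | succ n ih =>
    obtain ⟨y, h1, h2, h3⟩ := h
    exact ⟨y, ih y h1, h2, hYZ h3⟩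

lemma PathIn.mem (D : WD) {Y : Finset D.V} (n : ℕ) (x z : D.V)
    (h : D.PathIn Y n x z) : z ∈ Y := by
  cases n with
  | zero => rw [← h.1]; exact h.2
  | succ n =>
    obtain ⟨y, _, _, h3⟩ := h
    exact h3

/-- A set without long paths is light. -/
lemma weight_le (D : WD) (t : ℕ) (hD : D.Ind t) (n : ℕ) (Y : Finset D.V)
    (hY : ∀ x z, ¬ D.PathIn Y n x z) : t * ∑ v ∈ Y, D.w v ≤ n * (2 * D.tot) := by
  classical
  induction n generalizing Y with
  | zero =>
    have : Y = ∅ := by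
      rw [Finset.eq_empty_iff_forall_notMem]
      intro x hx
      exact hY x x ⟨rfl, hx⟩
    simp [this]
  | succ n ih =>
    let L := Y.filter (fun v => ∀ u ∈ Y, ¬ D.arc v u)
    have hL : t * ∑ v ∈ L, D.w v ≤ 2 * D.tot := by
      apply hD
      intro u hu v hv
      exact (Finset.mem_filter.1 hu).2 v (Finset.mem_filter.1 hv).1
    have hR : t * ∑ v ∈ Y \ L, D.w v ≤ n * (2 * D.tot) := by
      apply ih
      intro x z hxz
      have hz := PathIn.mem D n x z hxz
      rw [Finset.mem_sdiff, Finset.mem_filter] at hz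
      push Not at hz
      obtain ⟨u, huY, hu⟩ := hz.2 hz.1
      exact hY x u ⟨z, PathIn.mono D Finset.sdiff_subset n x z hxz, hu, huY⟩
    have hsplit : ∑ v ∈ Y \ L, D.w v + ∑ v ∈ L, D.w v = ∑ v ∈ Y, D.w v :=
      Finset.sum_sdiff (Finset.filter_subset _ _)
    rw [← hsplit, mul_add]
    calc _ ≤ n * (2 * D.tot) + 2 * D.tot := Nat.add_le_add hR hL
      _ = (n + 1) * (2 * D.tot) := by ring

/-- The copies of the vertices. -/
abbrev Cp (D : WD) : Type := Σ v : D.V, Fin (D.w v)

/-- The vertices of the network. -/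
abbrev NV (D : WD) (k : ℕ) : Type := (Fin k ⊕ Fin k) ⊕ (D.Cp × Bool)

/-- The edges of the network. -/
def adj (D : WD) {k : ℕ} (p : Fin k → D.V × D.V) : D.NV k → D.NV k → Prop
  | Sum.inl (Sum.inl i), Sum.inr (c, false) => c.1 = (p i).1
  | Sum.inr (c, false), Sum.inr (c', true) => c = c'
  | Sum.inr (c, true), Sum.inr (c', false) => D.arc c.1 c'.1
  | Sum.inr (c, true), Sum.inl (Sum.inr i) => c.1 = (p i).2
  | _, _ => False

/-- A rank function which decreases along the edges of the network. -/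
def nrk (D : WD) {k : ℕ} : D.NV k → ℕ
  | Sum.inl (Sum.inl _) => 2 * (∑ v, D.rk v) + 3
  | Sum.inl (Sum.inr _) => 0
  | Sum.inr (c, false) => 2 * D.rk c.1 + 2
  | Sum.inr (c, true) => 2 * D.rk c.1 + 1

lemma nrk_lt (D : WD) {k : ℕ} (p : Fin k → D.V × D.V) (a b : D.NV k) (h : D.adj p a b) :
    D.nrk b < D.nrk a := by
  rcases a with (i | i) | ⟨c, _ | _⟩ <;> rcases b with (j | j) | ⟨d, _ | _⟩ <;>
    simp only [adj] at h <;> simp only [nrk]
  · have : D.rk d.1 ≤ ∑ v, D.rk v :=
      Finset.single_le_sum (f := D.rk) (fun _ _ => Nat.zero_le _) (Finset.mem_univ d.1)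
    omega
  · subst h; omega
  · omega
  · have := D.rk_lt _ _ h
    omega

open Classical in
/-- The network. -/
noncomputable def net (D : WD) {k : ℕ} (p : Fin k → D.V × D.V) : Network k where
  V := D.NV k
  edges := Finset.univ.filter (fun e => D.adj p e.1 e.2)
  s := fun i => Sum.inl (Sum.inl i)
  t := fun i => Sum.inl (Sum.inr i)
  acyclic := by
    intro v hv
    have : ∀ a b, Relation.TransGen (fun a b => (a, b) ∈ Finset.univ.filter
        (fun e : D.NV k × D.NV k => D.adj p e.1 e.2)) a b → D.nrk b < D.nrk a := by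
      intro a b h
      induction h with
      | single h => exact D.nrk_lt p _ _ (Finset.mem_filter.1 h).2
      | tail _ h ih => exact (D.nrk_lt p _ _ (Finset.mem_filter.1 h).2).trans ih
    exact lt_irrefl _ (this v v hv)

lemma mem_edges (D : WD) {k : ℕ} (p : Fin k → D.V × D.V) (a b : D.NV k) :
    (a, b) ∈ (D.net p).edges ↔ D.adj p a b := by
  classical
  constructor
  · intro h
    exact (Finset.mem_filter.1 h).2
  · intro h
    exact Finset.mem_filter.2 ⟨Finset.mem_univ _, h⟩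

/-- The edges of the bundle of `v`. -/
def bundle (D : WD) (k : ℕ) (v : D.V) : Finset (D.NV k × D.NV k) :=
  Finset.univ.image (fun j : Fin (D.w v) => (Sum.inr (⟨v, j⟩, false), Sum.inr (⟨v, j⟩, true)))

lemma card_bundle (D : WD) (k : ℕ) (v : D.V) : (D.bundle k v).card = D.w v := by
  rw [bundle, Finset.card_image_of_injective]
  · simp
  · intro i j hij
    simpa using hij

/-- The bundle of `v` separates. -/
lemma bundle_sep (D : WD) {k : ℕ} (p : Fin k → D.V × D.V) (v : D.V) (i j : Fin k)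
    (hi : Relation.ReflTransGen D.arc (p i).1 v) (hj : Relation.ReflTransGen D.arc v (p j).2) :
    ¬ Relation.ReflTransGen (fun a b => (a, b) ∈ (D.net p).edges ∧ (a, b) ∉ D.bundle k v)
      ((D.net p).s i) ((D.net p).t j) := by
  intro h
  -- the invariant
  let R : D.V → Prop := fun u => (p i).1 ≠ v ∧
    Relation.ReflTransGen (fun a b => D.arc a b ∧ b ≠ v) (p i).1 u
  let G : D.NV k → Prop := fun x => match x with
    | Sum.inl (Sum.inl i') => i' = i
    | Sum.inl (Sum.inr j') => R (p j').2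
    | Sum.inr (c, false) => c.1 ≠ v → R c.1
    | Sum.inr (c, true) => R c.1
  have hG : ∀ a b, G a → D.adj p a b → (a, b) ∉ D.bundle k v → G b := by
    intro a b ha hab hb
    rcases a with (a | a) | ⟨c, _ | _⟩ <;> rcases b with (b | b) | ⟨d, _ | _⟩ <;>
      simp only [adj] at hab <;> simp only [G] at ha ⊢
    · intro hd
      subst ha
      rw [hab]
      exact ⟨fun h => hd (by rw [hab, h]), Relation.ReflTransGen.refl⟩
    · subst hab
      apply ha
      intro hc
      apply hb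
      obtain ⟨c1, c2⟩ := c
      simp only at hc
      subst hc
      exact Finset.mem_image.2 ⟨c2, Finset.mem_univ _, rfl⟩
    · rw [← hab]
      exact ha
    · intro hd
      exact ⟨ha.1, ha.2.tail ⟨hab, hd⟩⟩
  have key : ∀ x : D.NV k, Relation.ReflTransGen
      (fun a b => (a, b) ∈ (D.net p).edges ∧ (a, b) ∉ D.bundle k v)
      ((D.net p).s i) x → G x := by
    intro x hx
    induction hx with
    | refl => exact rfl
    | tail _ hbc ih => exact hG _ _ ih ((D.mem_edges p _ _).1 hbc.1) hbc.2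
  have hfin : R (p j).2 := key _ h
  exact D.uni _ _ _ hi hj hfin.1 hfin.2

/-- The rate bound. -/
lemma rate_bound (D : WD) {k : ℕ} (p : Fin k → D.V × D.V) (n : ℕ)
    (hp : ∀ i, n ≤ (D.btw (p i).1 (p i).2).card) (c : (D.net p).Solution) :
    n * ∑ i, c.a i ≤ c.b * D.tot := by
  classical
  let I : D.V → Finset (Fin k) := fun v => Finset.univ.filter (fun i => v ∈ D.btw (p i).1 (p i).2)
  have h1 : ∀ v, ∑ i ∈ I v, c.a i ≤ c.b * D.w v := by
    intro v
    rw [← D.card_bundle k v]
    apply c.cut_bound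
    · intro e he
      obtain ⟨j, _, rfl⟩ := Finset.mem_image.1 he
      exact (D.mem_edges p _ _).2 rfl
    intro i hi j hj
    simp only [I, btw, Finset.mem_filter, Finset.mem_univ, true_and] at hi hj
    exact D.bundle_sep p v i j hi.1 hj.2
  calc n * ∑ i, c.a i = ∑ i, n * c.a i := Finset.mul_sum _ _ _
    _ ≤ ∑ i, (D.btw (p i).1 (p i).2).card * c.a i :=
        Finset.sum_le_sum (fun i _ => Nat.mul_le_mul_right _ (hp i))
    _ = ∑ i, ∑ v, if v ∈ D.btw (p i).1 (p i).2 then c.a i else 0 := by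
        apply Finset.sum_congr rfl
        intro i _
        rw [← Finset.sum_filter, Finset.sum_const, Finset.filter_mem_eq_inter, Finset.univ_inter]
        rfl
    _ = ∑ v, ∑ i, if v ∈ D.btw (p i).1 (p i).2 then c.a i else 0 := Finset.sum_comm
    _ = ∑ v, ∑ i ∈ I v, c.a i := by
        apply Finset.sum_congr rfl
        intro v _
        rw [← Finset.sum_filter]
    _ ≤ ∑ v, c.b * D.w v := Finset.sum_le_sum (fun v _ => h1 v)
    _ = c.b * D.tot := by rw [← Finset.mul_sum]; rfl

/-- The copy of a vertex of `D` charged by an edge of the network. -/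
def chg (D : WD) {k : ℕ} : D.NV k × D.NV k → Option D.Cp
  | (Sum.inl (Sum.inl _), Sum.inr (c, false)) => some c
  | (Sum.inr (c, _), _) => some c
  | _ => none

/-- The multicut bound. -/
lemma multicut_bound (D : WD) {k : ℕ} (p : Fin k → D.V × D.V) (t n : ℕ) (hD : D.Ind t)
    (hp : ∀ x z, D.PathIn Finset.univ n x z → ∃ i, p i = (x, z))
    (M : Finset (D.NV k × D.NV k)) (hM : (D.net p).IsMulticut M) :
    t * D.tot ≤ t * M.card + n * (2 * D.tot) := by
  classical
  let B : Finset (Option D.Cp) := M.image D.chg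
  let X : Finset D.V := Finset.univ.filter (fun v => ∀ j : Fin (D.w v), some ⟨v, j⟩ ∈ B)
  have hX : ∑ v ∈ X, D.w v ≤ M.card := by
    calc ∑ v ∈ X, D.w v = (X.sigma (fun v => (Finset.univ : Finset (Fin (D.w v))))).card := by
          rw [Finset.card_sigma]; simp
      _ = ((X.sigma (fun v => (Finset.univ : Finset (Fin (D.w v))))).image
            (some : D.Cp → Option D.Cp)).card := by
          rw [Finset.card_image_of_injective _ (Option.some_injective _)]
      _ ≤ B.card := by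
          apply Finset.card_le_card
          intro o ho
          obtain ⟨c, hc, rfl⟩ := Finset.mem_image.1 ho
          have := (Finset.mem_sigma.1 hc).1
          exact (Finset.mem_filter.1 this).2 c.2
      _ ≤ M.card := Finset.card_image_le
  have hY : ∀ x z, ¬ D.PathIn Xᶜ n x z := by
    intro x z hxz
    obtain ⟨i, hi⟩ := hp x z (PathIn.mono D (Finset.subset_univ _) n x z hxz)
    -- choose an unblocked copy of each vertex outside of `X`
    have hch : ∀ v, v ∈ Xᶜ → ∃ j : Fin (D.w v), some (⟨v, j⟩ : D.Cp) ∉ B := by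
      intro v hv
      rw [Finset.mem_compl, Finset.mem_filter] at hv
      push Not at hv
      exact hv (Finset.mem_univ _)
    have hB : ∀ e : D.NV k × D.NV k, ∀ c, D.chg e = some c → some c ∉ B → e ∉ M := by
      intro e c hec hc heM
      exact hc (hec ▸ Finset.mem_image_of_mem _ heM)
    have hchain : ∀ m y, D.PathIn Xᶜ m x y → ∃ j : Fin (D.w y), some (⟨y, j⟩ : D.Cp) ∉ B ∧
        Relation.ReflTransGen (fun a b => (a, b) ∈ (D.net p).edges ∧ (a, b) ∉ M)
          ((D.net p).s i) (Sum.inr (⟨y, j⟩, true) : D.NV k) := by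
      intro m
      induction m with
      | zero =>
        intro y hy
        obtain ⟨rfl, hx⟩ := hy
        obtain ⟨j, hj⟩ := hch x hx
        refine ⟨j, hj, ?_⟩
        have s1 : Relation.ReflTransGen (fun a b => (a, b) ∈ (D.net p).edges ∧ (a, b) ∉ M)
          ((D.net p).s i) (Sum.inr (⟨x, j⟩, false) : D.NV k) := by
          apply Relation.ReflTransGen.single
          refine ⟨(D.mem_edges p _ _).2 ?_, hB _ ⟨x, j⟩ rfl hj⟩
          show x = (p i).1
          rw [hi]
        refine s1.tail ⟨(D.mem_edges p _ _).2 ?_, hB _ ⟨x, j⟩ rfl hj⟩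
        show (⟨x, j⟩ : D.Cp) = ⟨x, j⟩
        rfl
      | succ m ih =>
        intro y hy
        obtain ⟨u, hu, huy, hyX⟩ := hy
        obtain ⟨j, hj, hr⟩ := ih u hu
        obtain ⟨l, hl⟩ := hch y hyX
        refine ⟨l, hl, ?_⟩
        have s1 : Relation.ReflTransGen (fun a b => (a, b) ∈ (D.net p).edges ∧ (a, b) ∉ M)
          ((D.net p).s i) (Sum.inr (⟨y, l⟩, false) : D.NV k) := by
          refine hr.tail ⟨(D.mem_edges p _ _).2 ?_, hB _ ⟨u, j⟩ rfl hj⟩
          exact huy
        refine s1.tail ⟨(D.mem_edges p _ _).2 ?_, hB _ ⟨y, l⟩ rfl hl⟩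
        show (⟨y, l⟩ : D.Cp) = ⟨y, l⟩
        rfl
    obtain ⟨j, hj, hr⟩ := hchain n z hxz
    apply hM.2 i
    refine hr.tail ⟨(D.mem_edges p _ _).2 ?_, hB _ ⟨z, j⟩ rfl hj⟩
    show z = (p i).2
    rw [hi]
  have h1 := D.weight_le t hD n Xᶜ hY
  have h2 : ∑ v ∈ X, D.w v + ∑ v ∈ Xᶜ, D.w v = D.tot := Finset.sum_add_sum_compl X D.w
  calc t * D.tot = t * ∑ v ∈ X, D.w v + t * ∑ v ∈ Xᶜ, D.w v := by rw [← h2, mul_add]
    _ ≤ t * M.card + n * (2 * D.tot) := Nat.add_le_add (Nat.mul_le_mul_left _ hX) h1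

end WD

lemma div_le_div_aux (a b W q : ℕ) (h : q * a ≤ b * W) (hb : 1 ≤ b) (hq : 1 ≤ q) :
    (a : ℝ≥0∞) / b ≤ (W : ℝ≥0∞) / q := by
  rw [ENNReal.div_le_iff (by exact_mod_cast (by omega : b ≠ 0)) (ENNReal.natCast_ne_top _)]
  rw [mul_comm, ← mul_div_assoc, ENNReal.le_div_iff_mul_le
    (Or.inl (by exact_mod_cast (by omega : q ≠ 0))) (Or.inl (ENNReal.natCast_ne_top _))]
  rw [mul_comm]
  exact_mod_cast h

lemma mul_div_lt_aux (C W : ℕ) (hW : 0 < W) :
    (C : ℝ≥0∞) * ((W : ℝ≥0∞) / ((2 * C + 1 : ℕ) : ℝ≥0∞)) < (W : ℝ≥0∞) / 2 := by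
  rw [← mul_div_assoc]
  rw [ENNReal.div_lt_iff (Or.inl (by exact_mod_cast (by omega : 2 * C + 1 ≠ 0)))
    (Or.inl (ENNReal.natCast_ne_top _))]
  rw [mul_comm ((W : ℝ≥0∞) / 2), ← mul_div_assoc]
  rw [ENNReal.lt_div_iff_mul_lt (Or.inl (by norm_num)) (Or.inl (by norm_num))]
  have : C * W * 2 < (2 * C + 1) * W := by nlinarith
  exact_mod_cast this

/-- For every constant `C` there is an acyclic multiple-unicast network, with pairwise distinct
sources and sinks, whose minimum multicut is larger than `C` times its network coding rate. -/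
theorem exists_network (C : ℕ) : ∃ (k : ℕ) (N : Network k),
    Function.Injective N.s ∧ Function.Injective N.t ∧ (∀ i j, N.s i ≠ N.t j) ∧
    N.minMulticut ≠ ⊤ ∧ (C : ℝ≥0∞) * N.codingRate < N.minMulticut := by
  classical
  obtain ⟨D, hD⟩ := WD.exists_ind (8 * C + 2)
  let P : Type := {q : D.V × D.V // D.PathIn Finset.univ (2 * C) q.1 q.2}
  let e := Fintype.equivFin P
  let p : Fin (Fintype.card P) → D.V × D.V := fun i => (e.symm i).1
  have hW := D.tot_pos
  refine ⟨Fintype.card P, D.net p, ?_, ?_, ?_, ?_, ?_⟩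
  · intro i j h
    exact Sum.inl_injective (Sum.inl_injective h)
  · intro i j h
    exact Sum.inr_injective (Sum.inl_injective h)
  · intro i j h
    exact Sum.inl_ne_inr (Sum.inl_injective h)
  · apply Network.minMulticut_ne_top
    intro i h
    exact Sum.inl_ne_inr (Sum.inl_injective h)
  · have h1 : (D.net p).codingRate ≤ (D.tot : ℝ≥0∞) / ((2 * C + 1 : ℕ) : ℝ≥0∞) := by
      apply iSup_le
      intro c
      have hb := D.rate_bound p (2 * C + 1) (fun i => D.card_btw (2 * C) _ _ (e.symm i).2) c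
      exact div_le_div_aux _ _ _ _ hb c.one_le (by omega)
    have h2 : (D.tot : ℝ≥0∞) / 2 ≤ (D.net p).minMulticut := by
      apply le_iInf
      intro M
      apply le_iInf
      intro hM
      have hb : (8 * C + 2 + 2) * D.tot ≤ (8 * C + 2 + 2) * M.card + 2 * C * (2 * D.tot) :=
        D.multicut_bound p (8 * C + 2 + 2) (2 * C) hD (fun x z hxz => by
        refine ⟨e ⟨(x, z), hxz⟩, ?_⟩
        simp [p]) M hM
      rw [ENNReal.div_le_iff (by norm_num) (by norm_num)]
      have : D.tot ≤ M.card * 2 := by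
        by_contra hlt
        push Not at hlt
        have : (4 * C + 2) * (M.card * 2) < (4 * C + 2) * D.tot :=
          Nat.mul_lt_mul_of_pos_left hlt (by omega)
        nlinarith
      exact_mod_cast this
    calc (C : ℝ≥0∞) * (D.net p).codingRate
        ≤ (C : ℝ≥0∞) * ((D.tot : ℝ≥0∞) / ((2 * C + 1 : ℕ) : ℝ≥0∞)) := by gcongr
      _ < (D.tot : ℝ≥0∞) / 2 := mul_div_lt_aux C D.tot hW
      _ ≤ (D.net p).minMulticut := h2

end Pool.Agent.Helper56.Net
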