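import Pool.Agent.Helper56.NetGap

set_option autoImplicit false

open scoped ENNReal BigOperators

namespace Pool.Agent.Helper56.Net

/-! ### random tuples -/

open Classical in
/-- the functions that avoid `S` on `A` are few -/
lemma avoid_card {V : Type} [Fintype V] [DecidableEq V] [Nonempty V] (n q s : ℕ) (hn : 0 < n)
    (S : Finset (Fin q × V)) (A : Finset (Fin s)) (hS : n ^ 2 * Fintype.card V ≤ S.card)
    (hA : s ≤ n * A.card) :
    ((Finset.univ.filter (fun F : Fin s → Fin q → V =>
      ∀ a ∈ A, ∀ i, (i, F a i) ∉ S)).card : ℝ) ≤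
      ((Fintype.card V : ℝ) ^ q) ^ s * Real.exp (-((n : ℝ) * s)) := by
  have hv : (0 : ℝ) < Fintype.card V := by exact_mod_cast Fintype.card_pos
  set v : ℝ := (Fintype.card V : ℝ) with hvdef
  let Si : Fin q → Finset V := fun i => Finset.univ.filter (fun x => (i, x) ∈ S)
  let G : Fin s → Finset (Fin q → V) := fun a =>
    if a ∈ A then Fintype.piFinset (fun i => (Si i)ᶜ) else Finset.univ
  have e1 : Finset.univ.filter (fun F : Fin s → Fin q → V => ∀ a ∈ A, ∀ i, (i, F a i) ∉ S) =
      Fintype.piFinset G := by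
    ext F
    simp only [Finset.mem_filter, Finset.mem_univ, true_and, Fintype.mem_piFinset, G]
    constructor
    · intro h a
      by_cases ha : a ∈ A
      · simp only [ha, if_true, Fintype.mem_piFinset, Finset.mem_compl, Si, Finset.mem_filter,
          Finset.mem_univ, true_and]
        exact h a ha
      · simp [ha]
    · intro h a ha i
      have := h a
      simp only [ha, if_true, Fintype.mem_piFinset, Finset.mem_compl, Si, Finset.mem_filter,
        Finset.mem_univ, true_and] at this
      exact this i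
  rw [e1, Fintype.card_piFinset]
  push_cast
  have hcS : (S.card : ℝ) = ∑ i, ((Si i).card : ℝ) := by
    have : S.card = ∑ i, (Si i).card := by
      have h := Finset.card_eq_sum_card_fiberwise (f := Prod.fst) (s := S)
        (t := (Finset.univ : Finset (Fin q))) (fun _ _ => Finset.mem_coe.2 (Finset.mem_univ _))
      rw [h]
      apply Finset.sum_congr rfl
      intro i _
      apply Finset.card_bij (fun x _ => x.2)
      · intro x hx
        obtain ⟨h1, h2⟩ := Finset.mem_filter.1 hx
        simp only [Si, Finset.mem_filter, Finset.mem_univ, true_and]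
        rw [← h2]
        exact h1
      · intro x hx y hy hxy
        exact Prod.ext ((Finset.mem_filter.1 hx).2.trans (Finset.mem_filter.1 hy).2.symm) hxy
      · intro x hx
        simp only [Si, Finset.mem_filter, Finset.mem_univ, true_and] at hx
        exact ⟨(i, x), Finset.mem_filter.2 ⟨hx, rfl⟩, rfl⟩
    exact_mod_cast this
  have hG1 : ∀ a ∈ A, ((G a).card : ℝ) ≤ v ^ q * Real.exp (-((S.card : ℝ) / v)) := by
    intro a ha
    have : G a = Fintype.piFinset (fun i => (Si i)ᶜ) := by simp [G, ha]
    rw [this, Fintype.card_piFinset]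
    push_cast
    have h2 : ∀ i, (((Si i)ᶜ).card : ℝ) ≤ v * Real.exp (-(((Si i).card : ℝ) / v)) := by
      intro i
      have h3 : (((Si i)ᶜ).card : ℝ) = v - (Si i).card := by
        rw [Finset.card_compl, Nat.cast_sub (Finset.card_le_univ _)]
      rw [h3]
      have h4 := Real.add_one_le_exp (-(((Si i).card : ℝ) / v))
      calc v - ((Si i).card : ℝ) = v * (-(((Si i).card : ℝ) / v) + 1) := by field_simp; ring
        _ ≤ v * Real.exp (-(((Si i).card : ℝ) / v)) := mul_le_mul_of_nonneg_left h4 hv.le
    calc ∏ i, (((Si i)ᶜ).card : ℝ) ≤ ∏ i, v * Real.exp (-(((Si i).card : ℝ) / v)) :=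
          Finset.prod_le_prod (fun _ _ => Nat.cast_nonneg _) (fun i _ => h2 i)
      _ = v ^ q * Real.exp (-((S.card : ℝ) / v)) := by
          rw [Finset.prod_mul_distrib, Finset.prod_const, Finset.card_univ, Fintype.card_fin,
            ← Real.exp_sum, Finset.sum_neg_distrib, ← Finset.sum_div, ← hcS]
  have hG2 : ∀ a, ((G a).card : ℝ) ≤ v ^ q * (if a ∈ A then Real.exp (-((S.card : ℝ) / v))
      else 1) := by
    intro a
    by_cases ha : a ∈ A
    · simp only [ha, if_true]
      exact hG1 a ha
    · have : G a = Finset.univ := by simp [G, ha]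
      rw [this]
      simp only [ha, if_false, mul_one]
      rw [Finset.card_univ, Fintype.card_fun, Fintype.card_fin]
      push_cast
      exact le_rfl
  calc ∏ a, ((G a).card : ℝ) ≤ ∏ a, (v ^ q * (if a ∈ A then Real.exp (-((S.card : ℝ) / v))
        else 1)) := Finset.prod_le_prod (fun _ _ => Nat.cast_nonneg _) (fun a _ => hG2 a)
    _ = (v ^ q) ^ s * Real.exp (-((S.card : ℝ) / v)) ^ A.card := by
        rw [Finset.prod_mul_distrib, Finset.prod_const, Finset.card_univ, Fintype.card_fin]
        congr 1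
        rw [Finset.prod_ite]
        simp
    _ ≤ (v ^ q) ^ s * Real.exp (-((n : ℝ) * s)) := by
        apply mul_le_mul_of_nonneg_left _ (by positivity)
        rw [← Real.exp_nat_mul]
        apply Real.exp_le_exp.2
        have h5 : (n : ℝ) ^ 2 ≤ (S.card : ℝ) / v := by
          rw [le_div_iff₀ hv]
          have h8 : ((n ^ 2 * Fintype.card V : ℕ) : ℝ) ≤ (S.card : ℝ) := Nat.cast_le.2 hS
          push_cast at h8
          exact h8
        have h6 : (s : ℝ) ≤ n * A.card := by exact_mod_cast hA
        have hn' : (0 : ℝ) < n := by exact_mod_cast hn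
        have h7 : (n : ℝ) * s ≤ A.card * ((S.card : ℝ) / v) := by
          calc (n : ℝ) * s ≤ n * (n * A.card) := mul_le_mul_of_nonneg_left h6 hn'.le
            _ = A.card * (n : ℝ) ^ 2 := by ring
            _ ≤ A.card * ((S.card : ℝ) / v) := mul_le_mul_of_nonneg_left h5 (Nat.cast_nonneg _)
        linarith

/-- tuples that hit all dense sets -/
lemma sampler {V : Type} [Fintype V] [DecidableEq V] [Nonempty V] (n q s : ℕ) (hn : 0 < n)
    (hs : 0 < s) (h : q * Fintype.card V + s ≤ n * s) :
    ∃ F : Fin s → Fin q → V, ∀ (S : Finset (Fin q × V)) (A : Finset (Fin s)),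
      n ^ 2 * Fintype.card V ≤ S.card → s ≤ n * A.card → ∃ a ∈ A, ∃ i, (i, F a i) ∈ S := by
  classical
  by_contra hcon
  push Not at hcon
  let good : Finset (Finset (Fin q × V) × Finset (Fin s)) := Finset.univ.filter
    (fun p => n ^ 2 * Fintype.card V ≤ p.1.card ∧ s ≤ n * p.2.card)
  let bad : Finset (Fin q × V) × Finset (Fin s) → Finset (Fin s → Fin q → V) := fun p =>
    Finset.univ.filter (fun F => ∀ a ∈ p.2, ∀ i, (i, F a i) ∉ p.1)
  have hcov : (Finset.univ : Finset (Fin s → Fin q → V)) ⊆ good.biUnion bad := by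
    intro F _
    obtain ⟨S, A, h1, h2, h3⟩ := hcon F
    exact Finset.mem_biUnion.2 ⟨(S, A), Finset.mem_filter.2 ⟨Finset.mem_univ _, h1, h2⟩,
      Finset.mem_filter.2 ⟨Finset.mem_univ _, h3⟩⟩
  have h1 : (((Finset.univ : Finset (Fin s → Fin q → V)).card : ℕ) : ℝ) ≤
      ∑ p ∈ good, ((bad p).card : ℝ) := by
    exact_mod_cast (Finset.card_le_card hcov).trans Finset.card_biUnion_le
  have hv : (0 : ℝ) < Fintype.card V := by exact_mod_cast Fintype.card_pos
  have h2 : ∑ p ∈ good, ((bad p).card : ℝ) ≤
      ∑ _p ∈ good, ((Fintype.card V : ℝ) ^ q) ^ s * Real.exp (-((n : ℝ) * s)) := by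
    apply Finset.sum_le_sum
    intro p hp
    obtain ⟨-, g1, g2⟩ := Finset.mem_filter.1 hp
    have := avoid_card n q s hn p.1 p.2 g1 g2
    convert this
  have h3 : (good.card : ℝ) ≤ 2 ^ (q * Fintype.card V + s) := by
    have : good.card ≤ 2 ^ (q * Fintype.card V + s) := by
      calc good.card ≤ Fintype.card (Finset (Fin q × V) × Finset (Fin s)) :=
            Finset.card_le_univ _
        _ = 2 ^ (q * Fintype.card V + s) := by
            rw [Fintype.card_prod, Fintype.card_finset, Fintype.card_finset, Fintype.card_prod,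
              Fintype.card_fin, Fintype.card_fin, pow_add]
    exact_mod_cast this
  rw [Finset.card_univ, Fintype.card_fun, Fintype.card_fun, Fintype.card_fin,
    Fintype.card_fin] at h1
  push_cast at h1
  rw [Finset.sum_const, nsmul_eq_mul] at h2
  set W : ℝ := ((Fintype.card V : ℝ) ^ q) ^ s with hW
  have hWpos : 0 < W := by positivity
  have h4 : W ≤ 2 ^ (n * s) * (W * Real.exp (-((n : ℝ) * s))) := by
    calc W ≤ (good.card : ℝ) * (W * Real.exp (-((n : ℝ) * s))) := h1.trans h2
      _ ≤ 2 ^ (q * Fintype.card V + s) * (W * Real.exp (-((n : ℝ) * s))) :=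
          mul_le_mul_of_nonneg_right h3 (by positivity)
      _ ≤ 2 ^ (n * s) * (W * Real.exp (-((n : ℝ) * s))) := by
          apply mul_le_mul_of_nonneg_right _ (by positivity)
          exact pow_le_pow_right₀ (by norm_num) h
  have h5 : (2 : ℝ) ^ (n * s) < Real.exp ((n : ℝ) * s) := by
    have e : Real.exp ((n : ℝ) * s) = Real.exp 1 ^ (n * s) := by
      rw [← Real.exp_nat_mul]
      push_cast
      rw [mul_one]
    rw [e]
    apply pow_lt_pow_left₀ _ (by norm_num) (Nat.mul_ne_zero hn.ne' hs.ne')
    have := Real.exp_one_gt_d9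
    linarith
  have h6 : Real.exp ((n : ℝ) * s) * Real.exp (-((n : ℝ) * s)) = 1 := by
    rw [← Real.exp_add]; simp
  have h7 : 2 ^ (n * s) * (W * Real.exp (-((n : ℝ) * s))) < W := by
    calc 2 ^ (n * s) * (W * Real.exp (-((n : ℝ) * s)))
        < Real.exp ((n : ℝ) * s) * (W * Real.exp (-((n : ℝ) * s))) :=
          mul_lt_mul_of_pos_right h5 (by positivity)
      _ = W * (Real.exp ((n : ℝ) * s) * Real.exp (-((n : ℝ) * s))) := by ring
      _ = W := by rw [h6, mul_one]
  exact absurd h4 (not_le.2 h7)

namespace WD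

/-- The arcs of the next digraph. -/
def stepArc (D : WD) {q s : ℕ} (F : Fin s → Fin q → D.V) :
    (Fin q × D.V) ⊕ Fin s → (Fin q × D.V) ⊕ Fin s → Prop
  | Sum.inl p, Sum.inl r => p.1 = r.1 ∧ D.arc p.2 r.2
  | Sum.inr f, Sum.inl r => F f r.1 = r.2
  | _, Sum.inr _ => False

lemma step_inl (D : WD) {q s : ℕ} (F : Fin s → Fin q → D.V) (P : D.V → Prop) (i : Fin q)
    (u : D.V) (y : (Fin q × D.V) ⊕ Fin s)
    (h : Relation.ReflTransGen (fun a b => D.stepArc F a b ∧ (∀ v, b = Sum.inl (i, v) → P v))
      (Sum.inl (i, u)) y) :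
    ∃ v, y = Sum.inl (i, v) ∧ Relation.ReflTransGen (fun a b => D.arc a b ∧ P b) u v := by
  induction h with
  | refl => exact ⟨u, rfl, Relation.ReflTransGen.refl⟩
  | @tail b c _ hbc ih =>
    obtain ⟨v, rfl, hv⟩ := ih
    rcases c with ⟨j, c⟩ | f
    · have h12 : i = j ∧ D.arc v c := hbc.1
      obtain ⟨h1, h2⟩ := h12
      subst h1
      exact ⟨c, rfl, hv.tail ⟨h2, hbc.2 c rfl⟩⟩
    · have : False := hbc.1
      exact this.elim

lemma step_inr (D : WD) {q s : ℕ} (F : Fin s → Fin q → D.V) (P : D.V → Prop) (f : Fin s)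
    (i : Fin q) (z : D.V)
    (h : Relation.ReflTransGen (fun a b => D.stepArc F a b ∧ (∀ v, b = Sum.inl (i, v) → P v))
      (Sum.inr f) (Sum.inl (i, z))) :
    P (F f i) ∧ Relation.ReflTransGen (fun a b => D.arc a b ∧ P b) (F f i) z := by
  rcases Relation.ReflTransGen.cases_head h with h | ⟨c, hc, h⟩
  · cases h
  · rcases c with ⟨j, c⟩ | g
    · obtain ⟨h1, h2⟩ := hc
      have h1' : F f j = c := h1
      subst h1'
      by_cases hij : j = i
      · subst hij
        obtain ⟨v, hv, hr⟩ := D.step_inl F P j (F f j) _ h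
        cases hv
        exact ⟨h2 _ rfl, hr⟩
      · exfalso
        have h' : Relation.ReflTransGen (fun a b => D.stepArc F a b ∧
            (∀ v, b = Sum.inl (j, v) → True)) (Sum.inl (j, F f j)) (Sum.inl (i, z)) :=
          rmono h (fun a b hab => ⟨hab.1, fun _ _ => trivial⟩)
        obtain ⟨v, hv, _⟩ := D.step_inl F (fun _ => True) j (F f j) _ h'
        cases hv
        exact hij rfl
    · have : False := hc.1
      exact this.elim

/-- The next digraph: `q` copies of `D` and new vertices `f`, joined to `F f i` in copy `i`. -/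
def step (D : WD) {q s : ℕ} (hs : 0 < s) (F : Fin s → Fin q → D.V) : WD where
  V := (Fin q × D.V) ⊕ Fin s
  arc := D.stepArc F
  rk := fun x => match x with
    | Sum.inl p => D.rk p.2
    | Sum.inr _ => 1 + ∑ v, D.rk v
  rk_lt := by
    intro u v h
    rcases u with ⟨i, u⟩ | f <;> rcases v with ⟨j, v⟩ | g
    · exact D.rk_lt _ _ h.2
    · exact h.elim
    · have : D.rk v ≤ ∑ v, D.rk v :=
        Finset.single_le_sum (f := D.rk) (fun _ _ => Nat.zero_le _) (Finset.mem_univ v)
      show D.rk v < 1 + ∑ v, D.rk v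
      omega
    · exact h.elim
  uni := by
    intro x v z hxv hvz hne h
    rcases v with ⟨i, v⟩ | g
    · have hvz' : Relation.ReflTransGen (fun a b => D.stepArc F a b ∧
            (∀ v, b = Sum.inl (i, v) → True)) (Sum.inl (i, v)) z :=
          rmono hvz (fun a b hab => ⟨hab, fun _ _ => trivial⟩)
      obtain ⟨z, rfl, hz⟩ := D.step_inl F (fun _ => True) i v z hvz'
      have h' : Relation.ReflTransGen (fun a b => D.stepArc F a b ∧
            (∀ v', b = Sum.inl (i, v') → v' ≠ v)) x (Sum.inl (i, z)) :=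
        rmono h (fun a b hab => ⟨hab.1, fun v' hv' hvv => hab.2 (by rw [hv', hvv])⟩)
      have hz' : Relation.ReflTransGen D.arc v z := rmono hz (fun a b hab => hab.1)
      rcases x with ⟨j, x⟩ | f
      · have hxv' : Relation.ReflTransGen (fun a b => D.stepArc F a b ∧
            (∀ v, b = Sum.inl (j, v) → True)) (Sum.inl (j, x)) (Sum.inl (i, v)) :=
          rmono hxv (fun a b hab => ⟨hab, fun _ _ => trivial⟩)
        obtain ⟨v', hv', hx⟩ := D.step_inl F (fun _ => True) j x _ hxv'
        cases hv'
        obtain ⟨z', hz'', hx'⟩ := D.step_inl F (fun v' => v' ≠ v) i x _ h'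
        cases hz''
        exact D.uni x v z (rmono hx (fun a b hab => hab.1)) hz' (fun h => hne (by rw [h])) hx'
      · have hxv' : Relation.ReflTransGen (fun a b => D.stepArc F a b ∧
            (∀ v, b = Sum.inl (i, v) → True)) (Sum.inr f) (Sum.inl (i, v)) :=
          rmono hxv (fun a b hab => ⟨hab, fun _ _ => trivial⟩)
        have h1 := (D.step_inr F (fun _ => True) f i v hxv').2
        obtain ⟨h2, h3⟩ := D.step_inr F (fun v' => v' ≠ v) f i z h'
        exact D.uni (F f i) v z (rmono h1 (fun a b hab => hab.1)) hz' h2 h3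
    · rcases Relation.ReflTransGen.cases_tail hxv with h1 | ⟨c, _, hc⟩
      · exact hne h1.symm
      · rcases c with c | c
        · exact hc.elim
        · exact hc.elim
  w := fun _ => 1
  pos := fun _ => one_pos
  ne := ⟨Sum.inr ⟨0, hs⟩⟩

/-- Independent sets are small. -/
def IJ (D : WD) (n j : ℕ) : Prop := ∀ S : Finset D.V, (∀ u ∈ S, ∀ v ∈ S, ¬ D.arc u v) →
  n * j * S.card ≤ (n + j) * Fintype.card D.V

lemma step_exists (D : WD) (n j : ℕ) (hj : 1 ≤ j) (hjn : j + 1 ≤ n) (hD : D.IJ n j) :
    ∃ D' : WD, (∀ v, D'.w v = 1) ∧ D'.IJ n (j + 1) ∧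
      Fintype.card D'.V = n ^ 3 * (j + 1) * Fintype.card D.V := by
  classical
  have hn : 0 < n := by omega
  have : Nonempty D.V := D.ne
  have hv : 0 < Fintype.card D.V := Fintype.card_pos
  set v := Fintype.card D.V with hvdef
  have hs : 0 < n ^ 3 * v := by positivity
  have hcond : (j * n ^ 3) * v + n ^ 3 * v ≤ n * (n ^ 3 * v) := by
    calc (j * n ^ 3) * v + n ^ 3 * v = (j + 1) * (n ^ 3 * v) := by ring
      _ ≤ n * (n ^ 3 * v) := Nat.mul_le_mul_right _ hjn
  obtain ⟨F, hF⟩ := sampler (V := D.V) n (j * n ^ 3) (n ^ 3 * v) hn hs hcond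
  refine ⟨D.step hs F, fun _ => rfl, ?_, ?_⟩
  · intro S' hS'
    have hcard : Fintype.card (D.step hs F).V = n ^ 3 * (j + 1) * v := by
      show Fintype.card ((Fin (j * n ^ 3) × D.V) ⊕ Fin (n ^ 3 * v)) = _
      rw [Fintype.card_sum, Fintype.card_prod, Fintype.card_fin, Fintype.card_fin]
      ring
    rw [hcard]
    let S : Finset (Fin (j * n ^ 3) × D.V) := Finset.univ.filter (fun p =>
      (Sum.inl p : (Fin (j * n ^ 3) × D.V) ⊕ Fin (n ^ 3 * v)) ∈ S')
    let A : Finset (Fin (n ^ 3 * v)) := Finset.univ.filter (fun a =>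
      (Sum.inr a : (Fin (j * n ^ 3) × D.V) ⊕ Fin (n ^ 3 * v)) ∈ S')
    have hSA : S'.card ≤ S.card + A.card := by
      have hsub : S' ⊆ (S.image (Sum.inl : _ → (Fin (j * n ^ 3) × D.V) ⊕ Fin (n ^ 3 * v))) ∪
          (A.image (Sum.inr : _ → (Fin (j * n ^ 3) × D.V) ⊕ Fin (n ^ 3 * v))) := by
        intro x hx
        rcases x with p | a
        · exact Finset.mem_union_left _ (Finset.mem_image.2
            ⟨p, Finset.mem_filter.2 ⟨Finset.mem_univ _, hx⟩, rfl⟩)
        · exact Finset.mem_union_right _ (Finset.mem_image.2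
            ⟨a, Finset.mem_filter.2 ⟨Finset.mem_univ _, hx⟩, rfl⟩)
      exact (Finset.card_le_card hsub).trans ((Finset.card_union_le _ _).trans
        (Nat.add_le_add Finset.card_image_le Finset.card_image_le))
    have hA : A.card ≤ n ^ 3 * v := by
      have := Finset.card_le_univ A
      rwa [Fintype.card_fin] at this
    have hmiss : ∀ a ∈ A, ∀ i, (i, F a i) ∉ S := by
      intro a ha i hi
      have h1 : (Sum.inr a : (Fin (j * n ^ 3) × D.V) ⊕ Fin (n ^ 3 * v)) ∈ S' :=
        (Finset.mem_filter.1 ha).2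
      have h2 : (Sum.inl (i, F a i) : (Fin (j * n ^ 3) × D.V) ⊕ Fin (n ^ 3 * v)) ∈ S' :=
        (Finset.mem_filter.1 hi).2
      have h3 : D.stepArc F (Sum.inr a) (Sum.inl (i, F a i)) := rfl
      exact hS' _ h1 _ h2 h3
    have hkey : n * (S.card + A.card) ≤ (n + j + 1) * (n ^ 3 * v) := by
      by_cases h1 : n ^ 3 * v ≤ n * A.card
      · -- `S` is small
        have h2 : S.card < n ^ 2 * v := by
          by_contra hcon
          push Not at hcon
          obtain ⟨a, ha, i, hi⟩ := hF S A hcon h1
          exact hmiss a ha i hi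
        have h3 : n * S.card ≤ n * (n ^ 2 * v) := Nat.mul_le_mul_left _ h2.le
        have h4 : n * A.card ≤ n * (n ^ 3 * v) := Nat.mul_le_mul_left _ hA
        calc n * (S.card + A.card) = n * S.card + n * A.card := by ring
          _ ≤ n * (n ^ 2 * v) + n * (n ^ 3 * v) := Nat.add_le_add h3 h4
          _ = (n + 1) * (n ^ 3 * v) := by ring
          _ ≤ (n + j + 1) * (n ^ 3 * v) := Nat.mul_le_mul_right _ (by omega)
      · push Not at h1
        have h2 : n * j * S.card ≤ (j * n ^ 3) * ((n + j) * v) := by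
          have e : S.card = ∑ i : Fin (j * n ^ 3),
              (Finset.univ.filter (fun x : D.V => (i, x) ∈ S)).card := by
            have h := Finset.card_eq_sum_card_fiberwise (f := Prod.fst) (s := S)
              (t := (Finset.univ : Finset (Fin (j * n ^ 3))))
              (fun _ _ => Finset.mem_coe.2 (Finset.mem_univ _))
            rw [h]
            apply Finset.sum_congr rfl
            intro i _
            apply Finset.card_bij (fun x _ => x.2)
            · intro x hx
              obtain ⟨g1, g2⟩ := Finset.mem_filter.1 hx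
              refine Finset.mem_filter.2 ⟨Finset.mem_univ _, ?_⟩
              rw [← g2]
              exact g1
            · intro x hx y hy hxy
              exact Prod.ext ((Finset.mem_filter.1 hx).2.trans
                (Finset.mem_filter.1 hy).2.symm) hxy
            · intro x hx
              exact ⟨(i, x), Finset.mem_filter.2 ⟨(Finset.mem_filter.1 hx).2, rfl⟩, rfl⟩
          rw [e, Finset.mul_sum]
          calc ∑ i : Fin (j * n ^ 3), n * j *
                (Finset.univ.filter (fun x : D.V => (i, x) ∈ S)).card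
              ≤ ∑ _i : Fin (j * n ^ 3), (n + j) * v := by
                apply Finset.sum_le_sum
                intro i _
                apply hD
                intro x hx y hy hxy
                have g1 : (i, x) ∈ S := (Finset.mem_filter.1 hx).2
                have g2 : (i, y) ∈ S := (Finset.mem_filter.1 hy).2
                have g3 : D.stepArc F (Sum.inl (i, x)) (Sum.inl (i, y)) := ⟨rfl, hxy⟩
                exact hS' _ (Finset.mem_filter.1 g1).2 _ (Finset.mem_filter.1 g2).2 g3
            _ = (j * n ^ 3) * ((n + j) * v) := by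
                rw [Finset.sum_const, Finset.card_univ, Fintype.card_fin, smul_eq_mul]
        have h3 : n * S.card ≤ n ^ 3 * ((n + j) * v) := by
          have : j * (n * S.card) ≤ j * (n ^ 3 * ((n + j) * v)) := by
            calc j * (n * S.card) = n * j * S.card := by ring
              _ ≤ (j * n ^ 3) * ((n + j) * v) := h2
              _ = j * (n ^ 3 * ((n + j) * v)) := by ring
          exact Nat.le_of_mul_le_mul_left this (by omega)
        calc n * (S.card + A.card) = n * S.card + n * A.card := by ring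
          _ ≤ n ^ 3 * ((n + j) * v) + n ^ 3 * v := Nat.add_le_add h3 h1.le
          _ = (n + j + 1) * (n ^ 3 * v) := by ring
    calc n * (j + 1) * S'.card ≤ n * (j + 1) * (S.card + A.card) := Nat.mul_le_mul_left _ hSA
      _ = (j + 1) * (n * (S.card + A.card)) := by ring
      _ ≤ (j + 1) * ((n + j + 1) * (n ^ 3 * v)) := Nat.mul_le_mul_left _ hkey
      _ = (n + (j + 1)) * (n ^ 3 * (j + 1) * v) := by ring
  · show Fintype.card ((Fin (j * n ^ 3) × D.V) ⊕ Fin (n ^ 3 * v)) = _
    rw [Fintype.card_sum, Fintype.card_prod, Fintype.card_fin, Fintype.card_fin]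
    ring

lemma exists_IJ (n : ℕ) (j : ℕ) (hj : 1 ≤ j) (hjn : j ≤ n) :
    ∃ D : WD, (∀ v, D.w v = 1) ∧ D.IJ n j ∧ Fintype.card D.V ≤ n ^ (4 * j) := by
  induction j with
  | zero => omega
  | succ j ih =>
    have hn : 0 < n := by omega
    rcases Nat.eq_zero_or_pos j with h0 | h0
    · subst h0
      refine ⟨one, fun _ => rfl, ?_, ?_⟩
      · intro S _
        have h1 : S.card ≤ Fintype.card one.V := Finset.card_le_univ S
        have h2 : Fintype.card one.V = 1 := rfl
        rw [h2] at h1 ⊢
        nlinarith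
      · have h2 : Fintype.card one.V = 1 := rfl
        rw [h2]
        exact Nat.one_le_pow _ _ hn
    · obtain ⟨D, _, hD, hc⟩ := ih h0 (by omega)
      obtain ⟨D', hw', hD', hc'⟩ := D.step_exists n j h0 hjn hD
      refine ⟨D', hw', hD', ?_⟩
      rw [hc']
      calc n ^ 3 * (j + 1) * Fintype.card D.V ≤ n ^ 3 * n * n ^ (4 * j) :=
            Nat.mul_le_mul (Nat.mul_le_mul_left _ hjn) hc
        _ = n ^ (4 * (j + 1)) := by ring

/-- A digraph with few vertices and small independent sets. -/
lemma exists_small (n : ℕ) (hn : 1 ≤ n) :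
    ∃ D : WD, D.Ind n ∧ Fintype.card D.V ≤ n ^ (4 * n) := by
  obtain ⟨D, hw, hD, hc⟩ := exists_IJ n n hn le_rfl
  refine ⟨D, ?_, hc⟩
  intro S hS
  have h1 := hD S hS
  have h2 : ∑ v ∈ S, D.w v = S.card := by
    rw [Finset.sum_congr rfl (fun v _ => hw v)]
    simp
  have h3 : D.tot = Fintype.card D.V := by
    unfold tot
    rw [Finset.sum_congr rfl (fun v _ => hw v)]
    simp
  rw [h2, h3]
  have h4 : n * (n * S.card) ≤ n * (2 * Fintype.card D.V) := by
    calc n * (n * S.card) = n * n * S.card := by ring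
      _ ≤ (n + n) * Fintype.card D.V := h1
      _ = n * (2 * Fintype.card D.V) := by ring
  exact Nat.le_of_mul_le_mul_left h4 (by omega)

end WD

/-- For every `C` and every `k ≥ (8C+4)^(64C+32)` there is an acyclic multiple-unicast network
with `k` pairs whose minimum multicut is larger than `C` times its network coding rate. -/
theorem exists_network_log (C k : ℕ) (hk : (8 * C + 4) ^ (64 * C + 32) ≤ k) :
    ∃ N : Network k, Function.Injective N.s ∧ Function.Injective N.t ∧
      (∀ i j, N.s i ≠ N.t j) ∧ N.minMulticut ≠ ⊤ ∧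
      (C : ℝ≥0∞) * N.codingRate < N.minMulticut := by
  classical
  obtain ⟨D, hD, hcard⟩ := WD.exists_small (8 * C + 4) (by omega)
  let P : Type := {q : D.V × D.V // D.PathIn Finset.univ (2 * C) q.1 q.2}
  have hW := D.tot_pos
  have hPc : Fintype.card P ≤ k := by
    calc Fintype.card P ≤ Fintype.card (D.V × D.V) := Fintype.card_subtype_le _
      _ = Fintype.card D.V * Fintype.card D.V := Fintype.card_prod _ _
      _ ≤ (8 * C + 4) ^ (4 * (8 * C + 4)) * (8 * C + 4) ^ (4 * (8 * C + 4)) :=
          Nat.mul_le_mul hcard hcard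
      _ = (8 * C + 4) ^ (64 * C + 32) := by rw [← pow_add]; congr 1; ring
      _ ≤ k := hk
  have hPne : Nonempty P := by
    by_contra hcon
    have h1 : ∀ x z, ¬ D.PathIn Finset.univ (2 * C) x z := fun x z h => hcon ⟨⟨(x, z), h⟩⟩
    have h2 := D.weight_le (8 * C + 4) hD (2 * C) Finset.univ h1
    have h3 : (8 * C + 4) * D.tot ≤ 2 * C * (2 * D.tot) := h2
    have h4 : 0 < D.tot := hW
    nlinarith
  let e := Fintype.equivFin P
  let g : Fin k → P := fun i => if h : i.1 < Fintype.card P then e.symm ⟨i.1, h⟩ else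
    Classical.choice hPne
  have hg : Function.Surjective g := by
    intro x
    refine ⟨⟨(e x).1, lt_of_lt_of_le (e x).2 hPc⟩, ?_⟩
    simp [g]
  let p : Fin k → D.V × D.V := fun i => (g i).1
  refine ⟨D.net p, ?_, ?_, ?_, ?_, ?_⟩
  · intro i j h
    exact Sum.inl_injective (Sum.inl_injective h)
  · intro i j h
    exact Sum.inr_injective (Sum.inl_injective h)
  · intro i j h
    exact Sum.inl_ne_inr (Sum.inl_injective h)
  · apply Network.minMulticut_ne_top
    intro i h
    exact Sum.inl_ne_inr (Sum.inl_injective h)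
  · have h1 : (D.net p).codingRate ≤ (D.tot : ℝ≥0∞) / ((2 * C + 1 : ℕ) : ℝ≥0∞) := by
      apply iSup_le
      intro c
      have hb := D.rate_bound p (2 * C + 1) (fun i => D.card_btw (2 * C) _ _ (g i).2) c
      exact div_le_div_aux _ _ _ _ hb c.one_le (by omega)
    have h2 : (D.tot : ℝ≥0∞) / 2 ≤ (D.net p).minMulticut := by
      apply le_iInf
      intro M
      apply le_iInf
      intro hM
      have hb : (8 * C + 4) * D.tot ≤ (8 * C + 4) * M.card + 2 * C * (2 * D.tot) :=
        D.multicut_bound p (8 * C + 4) (2 * C) hD (fun x z hxz => by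
        obtain ⟨i, hi⟩ := hg ⟨(x, z), hxz⟩
        exact ⟨i, by show (g i).1 = (x, z); rw [hi]⟩) M hM
      rw [ENNReal.div_le_iff (by norm_num) (by norm_num)]
      have : D.tot ≤ M.card * 2 := by
        by_contra hlt
        push Not at hlt
        have : (4 * C + 2) * (M.card * 2) < (4 * C + 2) * D.tot :=
          Nat.mul_lt_mul_of_pos_left hlt (by omega)
        nlinarith
      exact_mod_cast this
    calc (C : ℝ≥0∞) * (D.net p).codingRate
        ≤ (C : ℝ≥0∞) * ((D.tot : ℝ≥0∞) / ((2 * C + 1 : ℕ) : ℝ≥0∞)) := by gcongr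
      _ < (D.tot : ℝ≥0∞) / 2 := mul_div_lt_aux C D.tot hW
      _ ≤ (D.net p).minMulticut := h2

end Pool.Agent.Helper56.Net
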