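import Pool.Agent.Helper56.Rot
import Pool.Agent.Helper56.FullTSI
import Pool.Agent.Helper92.MeasureIso

set_option autoImplicit false

open MeasureTheory Set Filter Topology
open scoped ENNReal symmDiff

namespace Pool.Agent.Helper56.NoBorel

open AutGroup Cat Cat.PS Torus Rot

variable {X : Type*} [MeasurableSpace X] [StandardBorelSpace X] {μ : Measure X}
  [IsProbabilityMeasure μ]

/-- The identification of the two descriptions of the full group. -/
def toFG {T₀ : Aut μ} (S : fullGroup T₀) : FG T₀ := ⟨S.1, S.2⟩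

lemma continuous_toFG (T₀ : Aut μ) :
    @Continuous _ _ (uniformTopology T₀) _ (toFG (T₀ := T₀)) := by
  let := uniformTopology T₀
  rw [continuous_def]
  intro U hU
  rw [isOpen_iff_forall_mem_open]
  intro S hS
  obtain ⟨ε, hε, hb⟩ := Metric.isOpen_iff.1 hU (toFG S) hS
  refine ⟨{T | du S.1 T.1 < ENNReal.ofReal ε}, ?_, ?_, ?_⟩
  · intro T hT
    apply hb
    show dist (toFG T) (toFG S) < ε
    rw [dist_comm, dist_FG]
    have h1 : du S.1 T.1 < ENNReal.ofReal ε := hT
    exact (ENNReal.lt_ofReal_iff_toReal_lt (du_ne_top _ _)).1 h1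
  · exact TopologicalSpace.isOpen_generateFrom_of_mem
      ⟨S, ENNReal.ofReal ε, ENNReal.ofReal_pos.2 hε, rfl⟩
  · show du S.1 S.1 < ENNReal.ofReal ε
    rw [du_self]
    exact ENNReal.ofReal_pos.2 hε

theorem main (μ : Measure X) [IsProbabilityMeasure μ] (hμ : ∀ x, μ {x} = 0) (T₀ : Aut μ) :
    ¬ ∃ f : {S : Aut μ // Ergodic (rep S) μ} → fullGroup T₀,
      @Measurable _ _ ((@borel _ (weakTopology μ)).comap Subtype.val)
        (@borel _ (uniformTopology T₀)) f ∧
      ∀ S S', AutConj S.1 S'.1 ↔ FullConj T₀ (f S) (f S') := by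
  rintro ⟨f, hf, hred⟩
  obtain ⟨e, he⟩ := Pool.Agent.Helper92.MeasureIso.exists_measurePreserving_equiv μ hμ lam
    lam_singleton
  let : MeasurableSpace (FG T₀) := borel _
  have : BorelSpace (FG T₀) := ⟨rfl⟩
  classical
  let r : D → {S : Aut μ // Ergodic (rep S) μ} := fun z => ⟨R he z.1, R_ergodic he z.2⟩
  let F : K → FG T₀ := fun z => if h : z ∈ D then toFG (f (r ⟨z, h⟩)) else 1
  have hF : Measurable F := by
    apply Measurable.dite (f := fun z : D => toFG (f (r z))) (g := fun _ => (1 : FG T₀)) _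
      measurable_const measurableSet_D
    have h1 : @Measurable _ _ (@borel _ (uniformTopology T₀)) _ (toFG (T₀ := T₀)) := by
      let := uniformTopology T₀
      exact Continuous.borel_measurable (continuous_toFG T₀)
    have h2 : @Measurable _ _ _ ((@borel _ (weakTopology μ)).comap Subtype.val) r := by
      rw [measurable_comap_iff]
      let := weakTopology μ
      let : MeasurableSpace (Aut μ) := borel _
      have : BorelSpace (Aut μ) := ⟨rfl⟩
      exact (continuous_R he).measurable.comp measurable_subtype_coe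
    exact h1.comp (hf.comp h2)
  have hFz : ∀ {z : K} (h : z ∈ D), F z = toFG (f (r ⟨z, h⟩)) := fun h => dif_pos h
  have hDF : ∀ y ∈ D, ∀ g g' : PS, ∃ h, h * F (act y g) = F (act y g') * h := by
    intro y hy g g'
    have h1 : AutConj (r ⟨act y g, D_act hy g⟩).1 (r ⟨act y g', D_act hy g'⟩).1 := by
      have : act y g' = act (act y g) (g⁻¹ * g') := by
        rw [← act_mul, mul_inv_cancel_left]
      show AutConj (R he (act y g)) (R he (act y g'))
      rw [this]
      exact R_conj he _ _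
    obtain ⟨U, hU, hUe⟩ := (hred _ _).1 h1
    refine ⟨⟨U, hU⟩, ?_⟩
    rw [hFz (D_act hy g), hFz (D_act hy g')]
    apply Subtype.ext
    show U * (f (r ⟨act y g, D_act hy g⟩)).1 = (f (r ⟨act y g', D_act hy g'⟩)).1 * U
    rw [hUe]
    group
  have hmain := Cat.main (tsi_FG T₀) hF D_residual hDF io_residual
  have hne : (D ∩ {z : K | ∃ h, h * F z = F (dbl z) * h}).Nonempty := by
    obtain ⟨z, hz⟩ := (dense_of_mem_residual (inter_mem D_residual hmain)).nonempty
    exact ⟨z, hz⟩
  obtain ⟨z, hzD, h, hh⟩ := hne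
  apply not_conj he hzD
  rw [hFz hzD, hFz (D_dbl hzD)] at hh
  have h1 : FullConj T₀ (f (r ⟨z, hzD⟩)) (f (r ⟨dbl z, D_dbl hzD⟩)) := by
    refine ⟨h.1, h.2, ?_⟩
    have h2 : h.1 * (f (r ⟨z, hzD⟩)).1 = (f (r ⟨dbl z, D_dbl hzD⟩)).1 * h.1 :=
      congrArg Subtype.val hh
    rw [h2]
    group
  exact (hred _ _).2 h1

end Pool.Agent.Helper56.NoBorel
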