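import Pool.Agent.Helper56.Torus
import Pool.Agent.Helper56.AutBasic

set_option autoImplicit false

open MeasureTheory Set Filter Topology
open scoped ENNReal symmDiff

namespace Pool.Agent.Helper56.Rot

open AutGroup Cat Cat.PS Torus

variable {X : Type*} [MeasurableSpace X] {μ : Measure X}

/-- Transport of a measure preserving bijection of the torus. -/
noncomputable def tr {e : X ≃ᵐ K} (he : MeasurePreserving e μ lam) (φ : K ≃ᵐ K)
    (hφ : MeasurePreserving φ lam lam) : mpGroup μ :=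
  ⟨((e.trans φ).trans e.symm).toEquiv,
    (MeasurePreserving.symm e he).comp (hφ.comp he), ((e.trans φ).trans e.symm).symm.measurable⟩

lemma tr_apply {e : X ≃ᵐ K} (he : MeasurePreserving e μ lam) (φ : K ≃ᵐ K)
    (hφ : MeasurePreserving φ lam lam) (x : X) : (tr he φ hφ).1 x = e.symm (φ (e x)) := rfl

/-- The rotation by `z`. -/
noncomputable def rot {e : X ≃ᵐ K} (he : MeasurePreserving e μ lam) (z : K) : mpGroup μ :=
  tr he (MeasurableEquiv.mulLeft z) (mp_mul z)

lemma rot_apply {e : X ≃ᵐ K} (he : MeasurePreserving e μ lam) (z : K) (x : X) :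
    (rot he z).1 x = e.symm (z * e x) := rfl

lemma rot_mul {e : X ≃ᵐ K} (he : MeasurePreserving e μ lam) (z w : K) :
    rot he (z * w) = rot he z * rot he w := by
  apply Subtype.ext
  apply Equiv.ext
  intro x
  show (rot he (z * w)).1 x = (rot he z).1 ((rot he w).1 x)
  rw [rot_apply, rot_apply, rot_apply, MeasurableEquiv.apply_symm_apply, mul_assoc]

lemma rot_one {e : X ≃ᵐ K} (he : MeasurePreserving e μ lam) : rot he 1 = 1 := by
  apply Subtype.ext
  apply Equiv.ext
  intro x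
  show (rot he 1).1 x = x
  rw [rot_apply, one_mul, MeasurableEquiv.symm_apply_apply]

/-- The rotation in `Aut(X, μ)` as a group homomorphism. -/
noncomputable def R {e : X ≃ᵐ K} (he : MeasurePreserving e μ lam) : K →* Aut μ where
  toFun := fun z => QuotientGroup.mk (rot he z)
  map_one' := by rw [rot_one]; rfl
  map_mul' := fun z w => by rw [rot_mul]; rfl

lemma rep_R {e : X ≃ᵐ K} (he : MeasurePreserving e μ lam) (z : K) :
    ∀ᵐ x ∂μ, rep (R he z) x = e.symm (z * e x) := rep_mk (rot he z)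

lemma R_conj {e : X ≃ᵐ K} (he : MeasurePreserving e μ lam) (z : K) (g : PS) :
    AutConj (R he z) (R he (act z g)) := by
  let P : mpGroup μ := tr he (actH g).toMeasurableEquiv (mp_act g)
  have hP : ∀ x, P.1 x = e.symm (act (e x) g) := fun x => rfl
  refine ⟨QuotientGroup.mk P, ?_⟩
  have h : rot he (act z g) * P = P * rot he z := by
    apply Subtype.ext
    apply Equiv.ext
    intro x
    show (rot he (act z g)).1 (P.1 x) = P.1 ((rot he z).1 x)
    rw [rot_apply, rot_apply, hP, hP, MeasurableEquiv.apply_symm_apply,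
      MeasurableEquiv.apply_symm_apply]
    rfl
  rw [eq_mul_inv_iff_mul_eq]
  show (QuotientGroup.mk (rot he (act z g)) * QuotientGroup.mk P : Aut μ) =
    QuotientGroup.mk P * QuotientGroup.mk (rot he z)
  rw [← QuotientGroup.mk_mul, h, QuotientGroup.mk_mul]

lemma ergodic_congr {f g : X → X} (hf : Ergodic f μ) (hg : Measurable g) (h : f =ᵐ[μ] g) :
    Ergodic g μ := by
  refine ⟨⟨hg, ?_⟩, ⟨?_⟩⟩
  · have h1 : Measure.map g μ = Measure.map f μ := (Measure.map_congr h).symm
    rw [h1, hf.map_eq]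
  · intro s hs hgs
    apply hf.quasiErgodic.aeconst_set₀ hs.nullMeasurableSet
    have : f ⁻¹' s =ᵐ[μ] g ⁻¹' s := by
      filter_upwards [h] with x hx
      show s (f x) = s (g x)
      rw [hx]
    rw [hgs] at this
    exact this

lemma R_ergodic {e : X ≃ᵐ K} (he : MeasurePreserving e μ lam) {z : K} (hz : z ∈ D) :
    Ergodic (rep (R he z)) μ := by
  have h1 : Ergodic (e.symm ∘ (fun u => z * u) ∘ e.symm.symm) μ :=
    (MeasurePreserving.ergodic_conjugate_iff (MeasurePreserving.symm e he)).2 (ergodic_mul hz)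
  apply ergodic_congr h1 (rep_meas _)
  filter_upwards [rep_R he z] with x hx
  rw [hx]
  rfl

/-- Preimages under rotations. -/
lemma rep_R_preimage {e : X ≃ᵐ K} (he : MeasurePreserving e μ lam) (z : K) (A : Set X) :
    (rep (R he z)) ⁻¹' A =ᵐ[μ] e ⁻¹' ((fun u => z * u) ⁻¹' (e.symm ⁻¹' A)) := by
  filter_upwards [rep_R he z] with x hx
  show A (rep (R he z) x) = A (e.symm (z * e x))
  rw [hx]

lemma rep_R_symm_preimage {e : X ≃ᵐ K} (he : MeasurePreserving e μ lam) (z : K) (A : Set X) :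
    (rep (R he z)) '' A =ᵐ[μ] e ⁻¹' ((fun u => z⁻¹ * u) ⁻¹' (e.symm ⁻¹' A)) := by
  have h1 : (rep (R he z)) '' A = (rep (R he z)).symm ⁻¹' A :=
    Equiv.image_eq_preimage_symm _ _
  rw [h1]
  have h2 : R he z⁻¹ = (R he z)⁻¹ := map_inv _ _
  filter_upwards [rep_R he z⁻¹, rep_inv (R he z)] with x hx hx'
  show A ((rep (R he z)).symm x) = A (e.symm (z⁻¹ * e x))
  rw [← hx, h2, hx']

lemma measurableSet_symm {e : X ≃ᵐ K} {A : Set X} (hA : MeasurableSet A) :
    MeasurableSet (e.symm ⁻¹' A) := e.symm.measurable hA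

lemma preimage_symm_preimage (e : X ≃ᵐ K) (A : Set X) : e ⁻¹' (e.symm ⁻¹' A) = A := by
  ext x; simp

lemma mu_eq {e : X ≃ᵐ K} (he : MeasurePreserving e μ lam) {A : Set K} (hA : MeasurableSet A) :
    μ (e ⁻¹' A) = lam A := he.measure_preimage hA.nullMeasurableSet

lemma measure_image_symmDiff {e : X ≃ᵐ K} (he : MeasurePreserving e μ lam) (z : K) {A B : Set X}
    (hA : MeasurableSet A) (hB : MeasurableSet B) :
    μ ((rep (R he z) '' A) ∆ B) =
      lam (((fun u => z⁻¹ * u) ⁻¹' (e.symm ⁻¹' A)) ∆ (e.symm ⁻¹' B)) := by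
  rw [measure_congr ((rep_R_symm_preimage he z A).symmDiff (ae_eq_refl B))]
  have hm : MeasurableSet (((fun u => z⁻¹ * u) ⁻¹' (e.symm ⁻¹' A)) ∆ (e.symm ⁻¹' B)) :=
    ((measurable_const_mul z⁻¹) (measurableSet_symm hA)).symmDiff (measurableSet_symm hB)
  rw [← mu_eq he hm, preimage_symmDiff, preimage_symm_preimage]

lemma tendsto_symmDiff {α : Type*} {l : Filter α} {P : α → Set K} {Q B : Set K}
    (h : Tendsto (fun a => lam (P a ∆ Q)) l (𝓝 0)) :
    Tendsto (fun a => lam (P a ∆ B)) l (𝓝 (lam (Q ∆ B))) := by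
  rw [ENNReal.tendsto_nhds (measure_ne_top _ _)]
  intro ε hε
  filter_upwards [(ENNReal.tendsto_nhds_zero.1 h) ε hε] with a ha
  constructor
  · rw [tsub_le_iff_right]
    calc lam (Q ∆ B) ≤ lam (Q ∆ P a) + lam (P a ∆ B) := measure_symmDiff_le _ _ _
      _ ≤ ε + lam (P a ∆ B) := by
        rw [symmDiff_comm]
        gcongr
      _ = _ := add_comm _ _
  · calc lam (P a ∆ B) ≤ lam (P a ∆ Q) + lam (Q ∆ B) := measure_symmDiff_le _ _ _
      _ ≤ ε + lam (Q ∆ B) := by gcongr
      _ = _ := add_comm _ _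

/-- The rotation map is continuous for the weak topology. -/
lemma continuous_R {e : X ≃ᵐ K} (he : MeasurePreserving e μ lam) :
    @Continuous _ _ _ (weakTopology μ) (fun z => R he z) := by
  rw [weakTopology, continuous_iInf_rng]
  intro A
  rw [continuous_iInf_rng]
  intro hA
  rw [continuous_iInf_rng]
  intro B
  rw [continuous_iInf_rng]
  intro hB
  rw [continuous_induced_rng]
  have : ((fun S : Aut μ => μ ((rep S '' A) ∆ B)) ∘ fun z => R he z) =
      fun z => lam (((fun u => z⁻¹ * u) ⁻¹' (e.symm ⁻¹' A)) ∆ (e.symm ⁻¹' B)) := by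
    funext z
    exact measure_image_symmDiff he z hA hB
  rw [this, continuous_iff_continuousAt]
  intro w
  apply tendsto_symmDiff
  exact tendsto_mul (continuous_inv.tendsto w) (measurableSet_symm hA)

/-- A rotation which is not trivial. -/
noncomputable def w₀ : K := fun i => if i = 1 then -1 else 1

lemma dbl_w₀ : dbl w₀ = 1 := by
  funext n
  show (if 2 * n = 1 then (-1 : Circle) else 1) = 1
  rw [if_neg (by omega)]

/-- A half of the torus. -/
def A₀ : Set K := {u | 0 < ((u 1 : Circle) : ℂ).re}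

lemma isOpen_A₀ : IsOpen A₀ := by
  apply isOpen_lt continuous_const
  exact Complex.continuous_re.comp (continuous_subtype_val.comp (continuous_apply 1))

lemma w₀_ne : lam (((fun u => w₀ * u) ⁻¹' A₀) ∆ A₀) ≠ 0 := by
  intro h
  have h1 : A₀ ⊆ ((fun u => w₀ * u) ⁻¹' A₀) ∆ A₀ := by
    intro u hu
    right
    refine ⟨hu, ?_⟩
    intro hu'
    have h1 : 0 < (((w₀ * u) 1 : Circle) : ℂ).re := hu'
    have h2 : (w₀ * u) 1 = - u 1 := by
      show (if (1 : ℕ) = 1 then (-1 : Circle) else 1) * u 1 = - u 1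
      rw [if_pos rfl, neg_one_mul]
    have h3 : 0 < ((u 1 : Circle) : ℂ).re := hu
    rw [h2, Circle.coe_neg, Complex.neg_re] at h1
    linarith
  have h2 : lam A₀ = 0 := measure_mono_null h1 h
  have h3 : A₀.Nonempty := ⟨1, by
    show 0 < (((1 : K) 1 : Circle) : ℂ).re
    simp⟩
  exact (isOpen_A₀.measure_pos lam h3).ne' h2

/-- A generic rotation is not conjugate to its double. -/
theorem not_conj {e : X ≃ᵐ K} (he : MeasurePreserving e μ lam) {z : K} (hz : z ∈ D) :
    ¬ AutConj (R he z) (R he (dbl z)) := by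
  rintro ⟨U, hU⟩
  obtain ⟨x, hx, hxw⟩ := mem_closure_iff_seq_limit.1 (hz w₀)
  choose n hn using hx
  have hx' : x = fun k => z ^ n k := funext (fun k => (hn k).symm)
  -- the two limits
  have hlim1 : Tendsto (fun k => z ^ n k) atTop (𝓝 w₀) := by
    rw [← hx']; exact hxw
  have hlim2 : Tendsto (fun k => (dbl z) ^ n k) atTop (𝓝 (1 : K)) := by
    rw [← dbl_w₀]
    exact (continuous_dbl.tendsto w₀).comp hlim1
  have hpow : ∀ k, R he ((dbl z) ^ n k) = U * R he (z ^ n k) * U⁻¹ := by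
    intro k
    rw [map_pow, map_pow, hU, conj_pow]
  -- the set `B` is the image of `C` under `U`
  let C : Set X := e ⁻¹' A₀
  have hC : MeasurableSet C := e.measurable isOpen_A₀.measurableSet
  let B : Set X := (rep U).symm ⁻¹' C
  have hB : MeasurableSet B := rep_symm_meas U hC
  have hUB : rep U ⁻¹' B = C := by
    ext x
    show (rep U).symm (rep U x) ∈ C ↔ x ∈ C
    rw [Equiv.symm_apply_apply]
  have key : ∀ k, μ ((rep (R he ((dbl z) ^ n k)) ⁻¹' B) ∆ B) =
      μ ((rep (R he (z ^ n k)) ⁻¹' C) ∆ C) := by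
    intro k
    have hm : MeasurableSet ((rep (R he ((dbl z) ^ n k)) ⁻¹' B) ∆ B) :=
      ((rep_meas _) hB).symmDiff hB
    rw [← (rep_mp U).measure_preimage hm.nullMeasurableSet, preimage_symmDiff, hUB]
    apply measure_congr
    apply EventuallyEq.symmDiff _ (ae_eq_refl _)
    have h1 : R he ((dbl z) ^ n k) * U = U * R he (z ^ n k) := by
      rw [hpow k]; group
    have h2 := rep_mul (R he ((dbl z) ^ n k)) U
    have h3 := rep_mul U (R he (z ^ n k))
    rw [h1] at h2
    filter_upwards [h2, h3] with y hy hy'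
    show (rep (R he ((dbl z) ^ n k)) (rep U y) ∈ B) = (rep (R he (z ^ n k)) y ∈ C)
    rw [← hy, hy', ← hUB]
    rfl
  have e1 : ∀ k, μ ((rep (R he (z ^ n k)) ⁻¹' C) ∆ C) =
      lam (((fun u => z ^ n k * u) ⁻¹' A₀) ∆ A₀) := by
    intro k
    have h1 : e.symm ⁻¹' C = A₀ := by
      ext u
      show e (e.symm u) ∈ A₀ ↔ u ∈ A₀
      rw [MeasurableEquiv.apply_symm_apply]
    rw [measure_congr ((rep_R_preimage he (z ^ n k) C).symmDiff (ae_eq_refl C)), h1]
    have hm : MeasurableSet (((fun u => z ^ n k * u) ⁻¹' A₀) ∆ A₀) :=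
      ((measurable_const_mul (z ^ n k)) isOpen_A₀.measurableSet).symmDiff isOpen_A₀.measurableSet
    rw [← mu_eq he hm, preimage_symmDiff]
  have e2 : ∀ k, μ ((rep (R he ((dbl z) ^ n k)) ⁻¹' B) ∆ B) =
      lam (((fun u => (dbl z) ^ n k * u) ⁻¹' (e.symm ⁻¹' B)) ∆ (e.symm ⁻¹' B)) := by
    intro k
    rw [measure_congr ((rep_R_preimage he ((dbl z) ^ n k) B).symmDiff (ae_eq_refl B))]
    have hm : MeasurableSet (((fun u => (dbl z) ^ n k * u) ⁻¹' (e.symm ⁻¹' B)) ∆
        (e.symm ⁻¹' B)) :=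
      ((measurable_const_mul ((dbl z) ^ n k)) (measurableSet_symm hB)).symmDiff
        (measurableSet_symm hB)
    rw [← mu_eq he hm, preimage_symmDiff, preimage_symm_preimage]
  have l1 : Tendsto (fun k => lam (((fun u => z ^ n k * u) ⁻¹' A₀) ∆ A₀)) atTop
      (𝓝 (lam (((fun u => w₀ * u) ⁻¹' A₀) ∆ A₀))) :=
    tendsto_symmDiff (tendsto_mul hlim1 isOpen_A₀.measurableSet)
  have l2 : Tendsto (fun k => lam (((fun u => (dbl z) ^ n k * u) ⁻¹' (e.symm ⁻¹' B)) ∆
      (e.symm ⁻¹' B))) atTop (𝓝 0) := by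
    have := tendsto_mul hlim2 (measurableSet_symm (e := e) hB)
    have h1 : (fun u : K => 1 * u) = id := by funext u; exact one_mul u
    rw [h1, preimage_id] at this
    exact this
  have hfun : (fun k => lam (((fun u => z ^ n k * u) ⁻¹' A₀) ∆ A₀)) =
      fun k => lam (((fun u => (dbl z) ^ n k * u) ⁻¹' (e.symm ⁻¹' B)) ∆ (e.symm ⁻¹' B)) := by
    funext k
    rw [← e1, ← e2, key]
  rw [hfun] at l1
  exact w₀_ne (tendsto_nhds_unique l1 l2)

end Pool.Agent.Helper56.Rot
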