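import Mathlib

namespace Pool.Agent.Helper56.Starter

open Finset Equiv

variable (p : ℕ) [Fact p.Prime]

/-- The half system `{1, ..., (p-1)/2}` of residues. -/
def K : Finset (ZMod p) := univ.filter (fun k => 0 < k.val ∧ 2 * k.val < p)

variable {p}

theorem mem_K {k : ZMod p} : k ∈ K p ↔ 0 < k.val ∧ 2 * k.val < p := by
  simp [K]

theorem K_ne {k : ZMod p} (hk : k ∈ K p) : k ≠ 0 := by
  rintro rfl
  have := (mem_K.mp hk).1
  simp at this

theorem K_neg {k : ZMod p} (hk : k ∈ K p) : -k ∉ K p := by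
  intro h
  have h0 := K_ne hk
  rw [mem_K] at h hk
  rw [ZMod.neg_val, if_neg h0] at h
  omega

theorem K_or (hp : p ≠ 2) {j : ZMod p} (h0 : j ≠ 0) (hj : j ∉ K p) : -j ∈ K p := by
  have hodd := (Fact.out : p.Prime).eq_two_or_odd'
  have hodd := hodd.resolve_left hp
  obtain ⟨m, hm⟩ := hodd
  have h1 : 0 < j.val := Nat.pos_of_ne_zero (by rwa [Ne, ZMod.val_eq_zero])
  rw [mem_K, not_and] at hj
  have h2 := hj h1
  have h3 := ZMod.val_lt j
  rw [mem_K, ZMod.neg_val, if_neg h0]
  omega

theorem ne_neg_of_K {k : ZMod p} (hk : k ∈ K p) : k ≠ -k := by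
  intro h
  exact K_neg hk (h ▸ hk)

theorem prod_split (hp : p ≠ 2) {M : Type*} [CommMonoid M] (g : ZMod p → M) :
    ∏ j, g j = g 0 * ∏ k ∈ K p, (g k * g (-k)) := by
  have hu : (univ : Finset (ZMod p)) = insert 0 (K p ∪ (K p).image (fun k => -k)) := by
    ext j
    simp only [mem_univ, mem_insert, mem_union, mem_image, true_iff]
    by_cases h0 : j = 0
    · exact Or.inl h0
    · by_cases hj : j ∈ K p
      · exact Or.inr (Or.inl hj)
      · exact Or.inr (Or.inr ⟨-j, K_or hp h0 hj, neg_neg j⟩)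
  have h0 : (0 : ZMod p) ∉ K p ∪ (K p).image (fun k => -k) := by
    simp only [mem_union, mem_image, not_or, not_exists, not_and]
    refine ⟨fun h => K_ne h rfl, fun k hk h => K_ne hk (neg_eq_zero.mp h)⟩
  have hd : Disjoint (K p) ((K p).image (fun k => -k)) := by
    rw [Finset.disjoint_left]
    intro k hk hk2
    obtain ⟨l, hl, rfl⟩ := mem_image.mp hk2
    exact K_neg hl hk
  rw [hu, prod_insert h0, prod_union hd, prod_image (fun a _ b _ h => neg_injective h),
    ← prod_mul_distrib]

theorem sum_split (hp : p ≠ 2) {M : Type*} [AddCommMonoid M] (g : ZMod p → M) :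
    ∑ j, g j = g 0 + ∑ k ∈ K p, (g k + g (-k)) := by
  have hu : (univ : Finset (ZMod p)) = insert 0 (K p ∪ (K p).image (fun k => -k)) := by
    ext j
    simp only [mem_univ, mem_insert, mem_union, mem_image, true_iff]
    by_cases h0 : j = 0
    · exact Or.inl h0
    · by_cases hj : j ∈ K p
      · exact Or.inr (Or.inl hj)
      · exact Or.inr (Or.inr ⟨-j, K_or hp h0 hj, neg_neg j⟩)
  have h0 : (0 : ZMod p) ∉ K p ∪ (K p).image (fun k => -k) := by
    simp only [mem_union, mem_image, not_or, not_exists, not_and]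
    refine ⟨fun h => K_ne h rfl, fun k hk h => K_ne hk (neg_eq_zero.mp h)⟩
  have hd : Disjoint (K p) ((K p).image (fun k => -k)) := by
    rw [Finset.disjoint_left]
    intro k hk hk2
    obtain ⟨l, hl, rfl⟩ := mem_image.mp hk2
    exact K_neg hl hk
  rw [hu, sum_insert h0, sum_union hd, sum_image (fun a _ b _ h => neg_injective h),
    ← sum_add_distrib]

/-- The power sums of `ZMod p` in the range needed. -/
theorem power_sum (m : ℕ) (h1 : 1 ≤ m) (h2 : m ≤ 2 * p - 3) :
    ∑ x : ZMod p, x ^ m = if m = p - 1 then -1 else 0 := by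
  have hpp : p.Prime := Fact.out
  have h2p := hpp.two_le
  have hc : Fintype.card (ZMod p) = p := ZMod.card p
  split_ifs with h
  · subst h
    have h3 : ∀ x : ZMod p, x ^ (p - 1) = if x = 0 then 0 else 1 := by
      intro x
      split_ifs with hx
      · rw [hx, zero_pow (by omega)]
      · exact ZMod.pow_card_sub_one_eq_one hx
    rw [Finset.sum_congr rfl (fun x _ => h3 x)]
    rw [Finset.sum_ite]
    simp only [sum_const_zero, zero_add, sum_const, nsmul_eq_mul, mul_one]
    have h4 : (univ.filter (fun x : ZMod p => ¬ x = 0)) = univ.erase 0 := by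
      ext x; simp
    rw [h4, card_erase_of_mem (mem_univ _), card_univ, hc, Nat.cast_sub (by omega)]
    simp
  · by_cases hlt : m < p - 1
    · exact FiniteField.sum_pow_lt_card_sub_one (K := ZMod p) m (by rw [hc]; exact hlt)
    · have h3 : ∀ x : ZMod p, x ^ m = x ^ (m - (p - 1)) := by
        intro x
        by_cases hx : x = 0
        · rw [hx, zero_pow (by omega), zero_pow (by omega)]
        · conv_lhs => rw [show m = (p - 1) + (m - (p - 1)) by omega]
          rw [pow_add, ZMod.pow_card_sub_one_eq_one hx, one_mul]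
      rw [Finset.sum_congr rfl (fun x _ => h3 x)]
      exact FiniteField.sum_pow_lt_card_sub_one (K := ZMod p) _ (by rw [hc]; omega)

/-- The elementary sums. -/
noncomputable def B (a b : ℕ) (k : ZMod p) : ZMod p := ∑ y : ZMod p, y ^ a * (y + k) ^ b

theorem B_eq (a b : ℕ) (k : ZMod p) (ha : 1 ≤ a) (ha' : a ≤ p - 1) (hb : 1 ≤ b)
    (hb' : b ≤ p - 1) (hab : a ≠ b) :
    B a b k = if p - 1 ≤ a + b then
      -((b.choose (p - 1 - a) : ZMod p) * k ^ (a + b - (p - 1))) else 0 := by
  have h1 : B a b k = ∑ m ∈ range (b + 1),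
      (b.choose m : ZMod p) * k ^ (b - m) * ∑ y : ZMod p, y ^ (a + m) := by
    unfold B
    simp only [add_pow, mul_sum]
    rw [sum_comm]
    refine sum_congr rfl (fun m _ => sum_congr rfl (fun y _ => ?_))
    rw [pow_add]
    ring
  rw [h1]
  have h2 : ∀ m ∈ range (b + 1), (b.choose m : ZMod p) * k ^ (b - m) *
      ∑ y : ZMod p, y ^ (a + m) = if m = p - 1 - a then
        -((b.choose (p - 1 - a) : ZMod p) * k ^ (a + b - (p - 1))) else 0 := by
    intro m hm
    rw [mem_range] at hm
    rw [power_sum (a + m) (by omega) (by omega)]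
    by_cases h : m = p - 1 - a
    · rw [if_pos (by omega), if_pos h, ← h, show a + b - (p - 1) = b - m by omega]
      ring
    · rw [if_neg (by omega), if_neg h, mul_zero]
  rw [sum_congr rfl h2, sum_ite_eq' (range (b + 1)) (p - 1 - a)]
  by_cases h : p - 1 ≤ a + b
  · rw [if_pos h, if_pos (by rw [mem_range]; omega)]
  · rw [if_neg h, if_neg (by rw [mem_range]; omega)]

theorem A_zero (a b : ℕ) (k : ZMod p) (ha : 1 ≤ a) (ha' : a ≤ p - 1) (hb : 1 ≤ b)
    (hb' : b ≤ p - 1) (hab : a ≠ b) (h : a + b < p) : B a b k - B b a k = 0 := by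
  rw [B_eq a b k ha ha' hb hb' hab, B_eq b a k hb hb' ha ha' hab.symm]
  by_cases h1 : p - 1 ≤ a + b
  · have h2 : a + b = p - 1 := by omega
    rw [if_pos h1, if_pos (by omega), show p - 1 - a = b by omega, show p - 1 - b = a by omega,
      show a + b - (p - 1) = 0 by omega, show b + a - (p - 1) = 0 by omega]
    simp
  · rw [if_neg h1, if_neg (by omega), sub_zero]

theorem A_eq (a b : ℕ) (k : ZMod p) (ha : 1 ≤ a) (ha' : a ≤ p - 1) (hb : 1 ≤ b)
    (hb' : b ≤ p - 1) (hab : a ≠ b) (h : a + b = p) :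
    B a b k - B b a k = -(((b : ZMod p) - (a : ZMod p)) * k) := by
  rw [B_eq a b k ha ha' hb hb' hab, B_eq b a k hb hb' ha ha' hab.symm,
    if_pos (by omega), if_pos (by omega), show p - 1 - a = b - 1 by omega,
    show p - 1 - b = a - 1 by omega, show a + b - (p - 1) = 1 by omega,
    show b + a - (p - 1) = 1 by omega]
  have h1 : b.choose (b - 1) = b := by
    rw [Nat.choose_symm (by omega : 1 ≤ b)]
    exact Nat.choose_one_right b
  have h2 : a.choose (a - 1) = a := by
    rw [Nat.choose_symm (by omega : 1 ≤ a)]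
    exact Nat.choose_one_right a
  rw [h1, h2]
  ring

/-- Antisymmetrisation. -/
theorem antisym (g : ZMod p → ZMod p → ZMod p → ZMod p) (c : ZMod p → ZMod p)
    (T : Finset (ZMod p)) (hT : T ⊆ K p) :
    (2 : ZMod p) ^ T.card * ∑ σ : Perm (ZMod p), ((Perm.sign σ : ℤˣ) : ZMod p) *
        (c (σ 0) * ∏ k ∈ K p, g k (σ (-k)) (σ k)) =
      ∑ σ : Perm (ZMod p), ((Perm.sign σ : ℤˣ) : ZMod p) *
        (c (σ 0) * ((∏ k ∈ T, (g k (σ (-k)) (σ k) - g k (σ k) (σ (-k)))) *
          ∏ k ∈ K p \ T, g k (σ (-k)) (σ k))) := by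
  induction T using Finset.induction_on with
  | empty => simp
  | insert k0 T hk0 ih =>
    have hk0K : k0 ∈ K p := hT (mem_insert_self k0 T)
    have ih := ih (fun x hx => hT (mem_insert_of_mem hx))
    rw [card_insert_of_notMem hk0, pow_succ, mul_assoc, mul_comm (2 : ZMod p), ← mul_assoc, ih]
    have hdis : ∀ k ∈ K p, k ≠ k0 → k ≠ -k0 ∧ -k ≠ k0 ∧ -k ≠ -k0 := by
      intro k hk hne
      refine ⟨?_, ?_, ?_⟩
      · rintro rfl
        exact K_neg hk0K hk
      · intro h
        exact K_neg hk (h ▸ hk0K)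
      · intro h
        exact hne (neg_injective h)
    have hsplit : K p \ T = insert k0 (K p \ insert k0 T) := by
      ext k
      simp only [mem_sdiff, mem_insert, not_or]
      constructor
      · rintro ⟨h1, h2⟩
        by_cases h : k = k0
        · exact Or.inl h
        · exact Or.inr ⟨h1, h, h2⟩
      · rintro (rfl | ⟨h1, h2, h3⟩)
        · exact ⟨hk0K, hk0⟩
        · exact ⟨h1, h3⟩
    have hnot : k0 ∉ K p \ insert k0 T := by simp
    have hL : ∀ σ : Perm (ZMod p), (∏ k ∈ K p \ T, g k (σ (-k)) (σ k)) =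
        g k0 (σ (-k0)) (σ k0) * ∏ k ∈ K p \ insert k0 T, g k (σ (-k)) (σ k) := by
      intro σ
      rw [hsplit, prod_insert hnot]
    have hR : ∀ σ : Perm (ZMod p),
        (∏ k ∈ insert k0 T, (g k (σ (-k)) (σ k) - g k (σ k) (σ (-k)))) =
        (g k0 (σ (-k0)) (σ k0) - g k0 (σ k0) (σ (-k0))) *
          ∏ k ∈ T, (g k (σ (-k)) (σ k) - g k (σ k) (σ (-k))) := by
      intro σ
      rw [prod_insert hk0]
    -- the rest function
    set R : Perm (ZMod p) → ZMod p := fun σ => c (σ 0) *
      ((∏ k ∈ T, (g k (σ (-k)) (σ k) - g k (σ k) (σ (-k)))) *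
        ∏ k ∈ K p \ insert k0 T, g k (σ (-k)) (σ k)) with hRdef
    have e1 : ∀ σ : Perm (ZMod p), ((Perm.sign σ : ℤˣ) : ZMod p) *
        (c (σ 0) * ((∏ k ∈ T, (g k (σ (-k)) (σ k) - g k (σ k) (σ (-k)))) *
          ∏ k ∈ K p \ T, g k (σ (-k)) (σ k))) =
        ((Perm.sign σ : ℤˣ) : ZMod p) * (R σ * g k0 (σ (-k0)) (σ k0)) := by
      intro σ
      rw [hL σ, hRdef]
      ring
    have e2 : ∀ σ : Perm (ZMod p), ((Perm.sign σ : ℤˣ) : ZMod p) *
        (c (σ 0) * ((∏ k ∈ insert k0 T, (g k (σ (-k)) (σ k) - g k (σ k) (σ (-k)))) *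
          ∏ k ∈ K p \ insert k0 T, g k (σ (-k)) (σ k))) =
        ((Perm.sign σ : ℤˣ) : ZMod p) * (R σ * g k0 (σ (-k0)) (σ k0)) -
        ((Perm.sign σ : ℤˣ) : ZMod p) * (R σ * g k0 (σ k0) (σ (-k0))) := by
      intro σ
      rw [hR σ, hRdef]
      ring
    rw [sum_congr rfl (fun σ _ => e1 σ), sum_congr rfl (fun σ _ => e2 σ), sum_sub_distrib]
    have h0k0 : (0 : ZMod p) ≠ k0 := fun h => K_ne hk0K h.symm
    have h0k0' : (0 : ZMod p) ≠ -k0 := fun h => K_ne hk0K (neg_eq_zero.mp h.symm)
    have e3 : ∑ σ : Perm (ZMod p), ((Perm.sign σ : ℤˣ) : ZMod p) *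
        (R σ * g k0 (σ k0) (σ (-k0))) =
        - ∑ σ : Perm (ZMod p), ((Perm.sign σ : ℤˣ) : ZMod p) *
        (R σ * g k0 (σ (-k0)) (σ k0)) := by
      rw [← Equiv.sum_comp (Equiv.mulRight (Equiv.swap k0 (-k0))), ← sum_neg_distrib]
      refine sum_congr rfl (fun σ _ => ?_)
      have hR2 : R (σ * Equiv.swap k0 (-k0)) = R σ := by
        simp only [hRdef]
        have q0 : (σ * Equiv.swap k0 (-k0)) 0 = σ 0 := by
          rw [Perm.mul_apply, Equiv.swap_apply_of_ne_of_ne h0k0 h0k0']
        have q1 : ∀ k ∈ K p, k ≠ k0 → (σ * Equiv.swap k0 (-k0)) k = σ k ∧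
            (σ * Equiv.swap k0 (-k0)) (-k) = σ (-k) := by
          intro k hk hne
          obtain ⟨a1, a2, a3⟩ := hdis k hk hne
          rw [Perm.mul_apply, Perm.mul_apply, Equiv.swap_apply_of_ne_of_ne hne a1,
            Equiv.swap_apply_of_ne_of_ne a2 a3]
          exact ⟨rfl, rfl⟩
        rw [q0]
        congr 2
        · refine prod_congr rfl (fun k hk => ?_)
          have hk1 : k ∈ K p := hT (mem_insert_of_mem hk)
          have hk2 : k ≠ k0 := by rintro rfl; exact hk0 hk
          rw [(q1 k hk1 hk2).1, (q1 k hk1 hk2).2]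
        · refine prod_congr rfl (fun k hk => ?_)
          rw [mem_sdiff, mem_insert, not_or] at hk
          rw [(q1 k hk.1 hk.2.1).1, (q1 k hk.1 hk.2.1).2]
      have hs : ((Perm.sign (σ * Equiv.swap k0 (-k0)) : ℤˣ) : ZMod p) =
          - ((Perm.sign σ : ℤˣ) : ZMod p) := by
        rw [Perm.sign_mul, Perm.sign_swap (ne_neg_of_K hk0K)]
        simp
      rw [Equiv.coe_mulRight, hR2, hs, Perm.mul_apply, Perm.mul_apply, Equiv.swap_apply_left,
        Equiv.swap_apply_right]
      ring
    rw [e3]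
    ring

/-- The odd permutations: those commuting with negation. -/
def O (p : ℕ) [Fact p.Prime] : Finset (Perm (ZMod p)) := univ.filter (fun σ => ∀ k, σ (-k) = -σ k)

theorem mem_O {σ : Perm (ZMod p)} : σ ∈ O p ↔ ∀ k, σ (-k) = -σ k := by
  simp [O]

theorem two_ne (hp : p ≠ 2) : (2 : ZMod p) ≠ 0 := by
  intro h
  have h2 : ((2 : ℕ) : ZMod p) = 0 := by exact_mod_cast h
  rw [ZMod.natCast_eq_zero_iff] at h2
  exact hp ((Nat.prime_dvd_prime_iff_eq Fact.out Nat.prime_two).mp h2)

theorem O_zero (hp : p ≠ 2) {σ : Perm (ZMod p)} (hσ : σ ∈ O p) : σ 0 = 0 := by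
  have h := mem_O.mp hσ 0
  rw [neg_zero] at h
  have h2 : (2 : ZMod p) * σ 0 = 0 := by linear_combination h
  exact (mul_eq_zero.mp h2).resolve_left (two_ne hp)

/-- For odd permutations `sign σ * ∏ σ k = ∏ k` over the half system. -/
theorem sign_prod (hp : p ≠ 2) (n : ℕ) : ∀ σ ∈ O p, ((K p).filter (fun k => σ k ∉ K p)).card = n →
    ((Perm.sign σ : ℤˣ) : ZMod p) * ∏ k ∈ K p, σ k = ∏ k ∈ K p, k := by
  induction n with
  | zero =>
    intro σ hσ hc
    have hK : ∀ k ∈ K p, σ k ∈ K p := by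
      intro k hk
      by_contra h
      have : k ∈ (K p).filter (fun k => σ k ∉ K p) := mem_filter.mpr ⟨hk, h⟩
      rw [card_eq_zero] at hc
      rw [hc] at this
      exact absurd this (notMem_empty k)
    have hodd := mem_O.mp hσ
    have h0 := O_zero hp hσ
    have hK2 : ∀ k, k ∉ K p → σ k ∉ K p := by
      intro k hk h
      by_cases hk0 : k = 0
      · rw [hk0, h0] at h
        exact K_ne h rfl
      · have h1 := hK _ (K_or hp hk0 hk)
        rw [hodd] at h1
        exact K_neg h h1
    have hprod : ∏ k ∈ K p, σ k = ∏ k ∈ K p, k := by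
      refine prod_bij (fun k _ => σ k) hK (fun a _ b _ h => σ.injective h) ?_ (fun _ _ => rfl)
      intro b hb
      refine ⟨σ.symm b, ?_, by simp⟩
      by_contra h
      exact hK2 _ h (by simpa using hb)
    have hsign : Perm.sign σ = 1 := by
      have hiff : ∀ x, x ∈ K p ↔ σ x ∈ K p := fun x =>
        ⟨hK x, fun h => by by_contra h2; exact hK2 x h2 h⟩
      let a : Perm (ZMod p) := Perm.ofSubtype (σ.subtypePerm (p := fun x => x ∈ K p)
        (fun x => (hiff x).symm))
      have ha1 : ∀ j, j ∈ K p → a j = σ j := by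
        intro j hj
        simp only [a]
        rw [Perm.ofSubtype_apply_of_mem _ hj]
        rfl
      have ha2 : ∀ j, j ∉ K p → a j = j := by
        intro j hj
        simp only [a]
        exact Perm.ofSubtype_apply_of_not_mem _ hj
      let ng : Perm (ZMod p) := Equiv.neg (ZMod p)
      have hmul : σ = a * (ng * a * ng) := by
        ext1 j
        simp only [Perm.mul_apply, ng, Equiv.neg_apply]
        by_cases hj : -j ∈ K p
        · rw [ha1 _ hj, hodd, neg_neg, ha2 _ (by
            have := hK _ hj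
            rw [hodd] at this
            intro h
            exact K_neg h this)]
        · rw [ha2 _ hj, neg_neg]
          by_cases hj2 : j ∈ K p
          · rw [ha1 _ hj2]
          · have hj0 : j = 0 := by
              by_contra h
              exact hj (K_or hp h hj2)
            rw [ha2 _ hj2, hj0, h0]
      rw [hmul]
      simp only [Perm.sign_mul]
      rcases Int.units_eq_one_or (Perm.sign a) with h | h <;>
        rcases Int.units_eq_one_or (Perm.sign ng) with h' | h' <;> simp [h, h']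
    rw [hprod, hsign]
    simp
  | succ n ih =>
    intro σ hσ hc
    have hne : ((K p).filter (fun k => σ k ∉ K p)).Nonempty := by
      rw [← card_pos]; omega
    obtain ⟨k0, hk0⟩ := hne
    obtain ⟨hk0K, hk0n⟩ := mem_filter.mp hk0
    have hodd := mem_O.mp hσ
    have h0 := O_zero hp hσ
    have h0k0 : (0 : ZMod p) ≠ k0 := fun h => K_ne hk0K h.symm
    have hdis : ∀ k ∈ K p, k ≠ k0 → k ≠ -k0 ∧ -k ≠ k0 ∧ -k ≠ -k0 := by
      intro k hk hne
      refine ⟨?_, ?_, ?_⟩
      · rintro rfl
        exact K_neg hk0K hk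
      · intro h
        exact K_neg hk (h ▸ hk0K)
      · intro h
        exact hne (neg_injective h)
    let τ : Perm (ZMod p) := σ * Equiv.swap k0 (-k0)
    have ht1 : τ k0 = -σ k0 := by
      simp only [τ, Perm.mul_apply, Equiv.swap_apply_left]
      exact hodd k0
    have ht2 : τ (-k0) = σ k0 := by
      simp only [τ, Perm.mul_apply, Equiv.swap_apply_right]
    have ht3 : ∀ k, k ≠ k0 → k ≠ -k0 → τ k = σ k := by
      intro k h1 h2
      simp only [τ, Perm.mul_apply]
      rw [Equiv.swap_apply_of_ne_of_ne h1 h2]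
    have hτO : τ ∈ O p := by
      rw [mem_O]
      intro k
      by_cases h1 : k = k0
      · rw [h1, ht2, ht1, neg_neg]
      · by_cases h2 : k = -k0
        · rw [h2, neg_neg, ht1, ht2]
        · rw [ht3 k h1 h2, ht3 (-k) (fun h => h2 (by rw [← h, neg_neg]))
            (fun h => h1 (neg_injective h)), hodd]
    have hτK : τ k0 ∈ K p := by
      rw [ht1]
      refine K_or hp ?_ hk0n
      intro h
      rw [← h0] at h
      exact h0k0 (σ.injective h).symm
    have hfil : (K p).filter (fun k => τ k ∉ K p) = ((K p).filter (fun k => σ k ∉ K p)).erase k0 := by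
      ext k
      simp only [mem_filter, mem_erase]
      constructor
      · rintro ⟨h1, h2⟩
        have h3 : k ≠ k0 := by rintro rfl; exact h2 hτK
        refine ⟨h3, h1, ?_⟩
        rwa [ht3 k h3 (hdis k h1 h3).1] at h2
      · rintro ⟨h3, h1, h2⟩
        refine ⟨h1, ?_⟩
        rwa [ht3 k h3 (hdis k h1 h3).1]
    have hcard : ((K p).filter (fun k => τ k ∉ K p)).card = n := by
      rw [hfil, card_erase_of_mem hk0, hc]
      omega
    have key := ih τ hτO hcard
    have hs : ((Perm.sign τ : ℤˣ) : ZMod p) = - ((Perm.sign σ : ℤˣ) : ZMod p) := by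
      simp only [τ]
      rw [Perm.sign_mul, Perm.sign_swap (ne_neg_of_K hk0K)]
      simp
    have hp2 : ∏ k ∈ K p, τ k = - ∏ k ∈ K p, σ k := by
      rw [← mul_prod_erase _ _ hk0K, ← mul_prod_erase (K p) (fun k => σ k) hk0K, ht1]
      have : ∏ x ∈ (K p).erase k0, τ x = ∏ x ∈ (K p).erase k0, σ x := by
        refine prod_congr rfl (fun k hk => ?_)
        rw [mem_erase] at hk
        exact ht3 k hk.1 (hdis k hk.2 hk.1).1
      rw [this]
      ring
    rw [← key, hs, hp2]
    ring

/-- The number of odd permutations is prime to `p`. -/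
theorem card_O (hp : p ≠ 2) : ((O p).card : ZMod p) ≠ 0 := by
  intro h
  rw [ZMod.natCast_eq_zero_iff] at h
  let G : Subgroup (Perm (ZMod p)) := Subgroup.centralizer {Equiv.neg (ZMod p)}
  have hG : ∀ σ : Perm (ZMod p), σ ∈ G ↔ σ ∈ O p := by
    intro σ
    rw [mem_O]
    simp only [G, Subgroup.mem_centralizer_iff, Set.mem_singleton_iff, forall_eq]
    constructor
    · intro h k
      have := congrArg (fun f : Perm (ZMod p) => f k) h
      simpa [Perm.mul_apply] using this.symm
    · intro h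
      ext1 k
      simp only [Perm.mul_apply, Equiv.neg_apply]
      exact (h k).symm
  have hcard : Nat.card G = (O p).card := by
    rw [← Nat.card_eq_finsetCard]
    exact Nat.card_congr (Equiv.subtypeEquivRight hG)
  rw [← hcard] at h
  obtain ⟨g, hg⟩ := exists_prime_orderOf_dvd_card' (G := G) p h
  have hgO : (g : Perm (ZMod p)) ∈ O p := (hG _).mp g.2
  have h0 := O_zero hp hgO
  have hgp : (g : Perm (ZMod p)) ^ p ^ 1 = 1 := by
    rw [pow_one]
    have h3 : g ^ p = 1 := orderOf_dvd_iff_pow_eq_one.mp (by rw [hg])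
    have h4 := congrArg (Subtype.val) h3
    simpa using h4
  have hfix : ∀ k : ZMod p, (g : Perm (ZMod p)) k = k := by
    by_contra hcon
    push Not at hcon
    obtain ⟨k, hk⟩ := hcon
    have hsup := Equiv.Perm.card_compl_support_modEq (p := p) (n := 1) (σ := (g : Perm (ZMod p))) hgp
    rw [ZMod.card] at hsup
    have h1 : p ∣ ((g : Perm (ZMod p)).supportᶜ).card := by
      have := (Nat.modEq_zero_iff_dvd (n := p) (a := ((g : Perm (ZMod p)).supportᶜ).card)).mp
        (hsup.trans (by simp [Nat.ModEq]))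
      exact this
    have h2 : 0 < ((g : Perm (ZMod p)).supportᶜ).card := by
      refine card_pos.mpr ⟨0, ?_⟩
      rw [mem_compl, Perm.mem_support, not_not]
      exact h0
    have h3 : p ≤ ((g : Perm (ZMod p)).supportᶜ).card := Nat.le_of_dvd h2 h1
    have h4 : ((g : Perm (ZMod p)).supportᶜ).card < p := by
      have : ((g : Perm (ZMod p)).supportᶜ).card < (univ : Finset (ZMod p)).card := by
        refine card_lt_card ?_
        rw [ssubset_univ_iff]
        intro hu
        have : k ∈ ((g : Perm (ZMod p)).supportᶜ) := by rw [hu]; exact mem_univ k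
        rw [mem_compl, Perm.mem_support, not_not] at this
        exact hk this
      rwa [card_univ, ZMod.card] at this
    omega
  have hg1 : g = 1 := by
    apply Subtype.ext
    ext1 k
    simpa using hfix k
  rw [hg1, orderOf_one] at hg
  exact (Fact.out : p.Prime).one_lt.ne hg

/-- The starter-like functions attached to `y`. -/
def fy (y : {k // k ∈ K p} → ZMod p) (j : ZMod p) : ZMod p :=
  if h : j ∈ K p then y ⟨j, h⟩ + j else if h : -j ∈ K p then y ⟨-j, h⟩ else 0

theorem fy_zero (y : {k // k ∈ K p} → ZMod p) : fy y 0 = 0 := by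
  unfold fy
  rw [dif_neg (fun h => K_ne h rfl), dif_neg (fun h => K_ne h neg_zero)]

theorem fy_pos (y : {k // k ∈ K p} → ZMod p) {k : ZMod p} (hk : k ∈ K p) :
    fy y k = y ⟨k, hk⟩ + k := by
  unfold fy
  rw [dif_pos hk]

theorem fy_neg (y : {k // k ∈ K p} → ZMod p) {k : ZMod p} (hk : k ∈ K p) :
    fy y (-k) = y ⟨k, hk⟩ := by
  unfold fy
  rw [dif_neg (K_neg hk), dif_pos (by rwa [neg_neg])]
  congr 1
  apply Subtype.ext
  exact neg_neg k

theorem fy_rel (hp : p ≠ 2) (y : {k // k ∈ K p} → ZMod p) (k : ZMod p) :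
    fy y k = k + fy y (-k) := by
  by_cases h0 : k = 0
  · rw [h0, neg_zero, zero_add]
  · by_cases hk : k ∈ K p
    · rw [fy_pos y hk, fy_neg y hk, add_comm]
    · have hk' := K_or hp h0 hk
      have h1 := fy_pos y hk'
      have h2 := fy_neg y hk'
      rw [neg_neg] at h2
      rw [h1, h2]
      ring

/-- The power matrix. -/
def M (f : ZMod p → ZMod p) : Matrix (ZMod p) (ZMod p) (ZMod p) := fun j i => f j ^ i.val

theorem det_M (f : ZMod p → ZMod p) :
    (M f).det = ∑ σ : Perm (ZMod p), ((Perm.sign σ : ℤˣ) : ZMod p) * ∏ j, f j ^ (σ j).val := by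
  rw [← Matrix.det_transpose, Matrix.det_apply']
  rfl

theorem sum_det (hp : p ≠ 2) :
    (∑ φ ∈ univ.filter (fun φ : Perm (ZMod p) => φ 0 = 0 ∧ ∀ k, φ k = k + φ (-k)),
      ((Perm.sign φ : ℤˣ) : ZMod p)) * (M (p := p) id).det =
    ∑ y : {k // k ∈ K p} → ZMod p, (M (fy y)).det := by
  rw [sum_mul]
  refine sum_of_injOn (fun φ k => φ (-k.1)) ?_ (fun _ _ => by simp) ?_ ?_
  · intro φ hφ ψ hψ h
    simp only [coe_filter, mem_univ, true_and, Set.mem_ofPred_eq] at hφ hψ
    have h1 : ∀ k ∈ K p, φ (-k) = ψ (-k) := fun k hk => congrFun h ⟨k, hk⟩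
    ext1 j
    by_cases h0 : j = 0
    · rw [h0, hφ.1, hψ.1]
    · by_cases hj : j ∈ K p
      · rw [hφ.2, hψ.2, h1 j hj]
      · have := h1 _ (K_or hp h0 hj)
        rwa [neg_neg] at this
  · intro y _ hy
    by_contra hdet
    apply hy
    have hinj : Function.Injective (fy y) := by
      intro a b hab
      by_contra hne
      exact hdet (Matrix.det_zero_of_row_eq hne (by
        funext i
        simp only [M]
        rw [hab]))
    have hbij : Function.Bijective (fy y) := Finite.injective_iff_bijective.mp hinj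
    refine ⟨Equiv.ofBijective (fy y) hbij, ?_, ?_⟩
    · simp only [coe_filter, mem_univ, true_and, Set.mem_ofPred_eq, Equiv.ofBijective_apply]
      exact ⟨fy_zero y, fy_rel hp y⟩
    · funext k
      simp only [Equiv.ofBijective_apply]
      exact fy_neg y k.2
  · intro φ hφ
    simp only [mem_filter, mem_univ, true_and] at hφ
    have hf : fy (fun k : {k // k ∈ K p} => φ (-k.1)) = φ := by
      funext j
      by_cases h0 : j = 0
      · rw [h0, fy_zero, hφ.1]
      · by_cases hj : j ∈ K p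
        · rw [fy_pos _ hj, hφ.2 j, add_comm]
        · have := fy_neg (fun k : {k // k ∈ K p} => φ (-k.1)) (K_or hp h0 hj)
          rw [neg_neg] at this
          rw [this]
    rw [hf]
    have : M (p := p) (φ : ZMod p → ZMod p) = (M (p := p) id).submatrix φ id := by
      funext j i
      simp [M]
    rw [this, Matrix.det_permute]

theorem sum_y (hp : p ≠ 2) (σ : Perm (ZMod p)) :
    ∑ y : {k // k ∈ K p} → ZMod p, ∏ j, fy y j ^ (σ j).val =
      0 ^ (σ 0).val * ∏ k ∈ K p, B (σ (-k)).val (σ k).val k := by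
  have h1 : ∀ y : {k // k ∈ K p} → ZMod p, ∏ j, fy y j ^ (σ j).val =
      0 ^ (σ 0).val * ∏ k : {k // k ∈ K p}, (y k ^ (σ (-k.1)).val * (y k + k.1) ^ (σ k.1).val) := by
    intro y
    rw [prod_split hp, fy_zero, ← prod_coe_sort]
    congr 1
    refine prod_congr rfl (fun k _ => ?_)
    rw [fy_pos y k.2, fy_neg y k.2, mul_comm]
  rw [sum_congr rfl (fun y _ => h1 y), ← mul_sum, ← prod_coe_sort]
  congr 1
  unfold B
  rw [prod_univ_sum, Fintype.piFinset_univ]

/-- Evaluation of the antisymmetrised sum. -/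
theorem main_identity (hp : p ≠ 2) :
    (2 : ZMod p) ^ (K p).card *
      ((∑ φ ∈ univ.filter (fun φ : Perm (ZMod p) => φ 0 = 0 ∧ ∀ k, φ k = k + φ (-k)),
      ((Perm.sign φ : ℤˣ) : ZMod p)) * (M (p := p) id).det) =
    ((O p).card : ZMod p) * ∏ k ∈ K p, (-(2 * (k * k))) := by
  rw [sum_det hp, sum_congr rfl (fun y _ => det_M (fy y)), sum_comm]
  have h1 : ∀ σ : Perm (ZMod p), ∑ y : {k // k ∈ K p} → ZMod p,
      ((Perm.sign σ : ℤˣ) : ZMod p) * ∏ j, fy y j ^ (σ j).val =
      ((Perm.sign σ : ℤˣ) : ZMod p) *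
        ((fun u : ZMod p => (0 : ZMod p) ^ u.val) (σ 0) *
          ∏ k ∈ K p, (fun k u v : ZMod p => B u.val v.val k) k (σ (-k)) (σ k)) := by
    intro σ
    rw [← mul_sum, sum_y hp]
  rw [sum_congr rfl (fun σ _ => h1 σ), antisym (fun k u v : ZMod p => B u.val v.val k)
    (fun u : ZMod p => (0 : ZMod p) ^ u.val) (K p) subset_rfl]
  simp only [sdiff_self, bot_eq_empty, prod_empty, mul_one]
  have hpp : p.Prime := Fact.out
  have h2 : ∀ σ : Perm (ZMod p), ((Perm.sign σ : ℤˣ) : ZMod p) * (0 ^ (σ 0).val *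
      ∏ k ∈ K p, (B (σ (-k)).val (σ k).val k - B (σ k).val (σ (-k)).val k)) =
      if σ ∈ O p then ∏ k ∈ K p, (-(2 * (k * k))) else 0 := by
    intro σ
    by_cases h0 : σ 0 = 0
    swap
    · rw [zero_pow (by rwa [Ne, ZMod.val_eq_zero]), zero_mul, mul_zero, if_neg]
      intro h
      exact h0 (O_zero hp h)
    rw [h0, ZMod.val_zero, pow_zero, one_mul]
    have hval : ∀ k : ZMod p, k ≠ 0 → 1 ≤ (σ k).val ∧ (σ k).val ≤ p - 1 := by
      intro k hk
      have h3 : σ k ≠ 0 := by
        intro h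
        rw [← h0] at h
        exact hk (σ.injective h)
      have h4 := ZMod.val_lt (σ k)
      have h5 : (σ k).val ≠ 0 := by rwa [Ne, ZMod.val_eq_zero]
      omega
    have hne : ∀ k ∈ K p, (σ (-k)).val ≠ (σ k).val := by
      intro k hk h
      have h3 := ZMod.val_injective p h
      exact ne_neg_of_K hk (σ.injective h3).symm
    by_cases hO : σ ∈ O p
    · rw [if_pos hO]
      have hodd := mem_O.mp hO
      have h3 : ∀ k ∈ K p, (B (σ (-k)).val (σ k).val k - B (σ k).val (σ (-k)).val k) =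
          (-(2 * k)) * σ k := by
        intro k hk
        have hk0 := K_ne hk
        obtain ⟨b1, b2⟩ := hval k hk0
        obtain ⟨a1, a2⟩ := hval (-k) (neg_ne_zero.mpr hk0)
        have hs : (σ (-k)).val + (σ k).val = p := by
          have h4 : σ k ≠ 0 := by
            intro h
            rw [h, ZMod.val_zero] at b1
            omega
          rw [hodd, ZMod.neg_val, if_neg h4]
          have := ZMod.val_lt (σ k)
          omega
        rw [A_eq _ _ k a1 a2 b1 b2 (hne k hk) hs, ZMod.natCast_zmod_val, ZMod.natCast_zmod_val,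
          hodd]
        ring
      rw [prod_congr rfl h3, prod_mul_distrib, mul_left_comm, sign_prod hp _ σ hO rfl,
        ← prod_mul_distrib]
      refine prod_congr rfl (fun k _ => ?_)
      ring
    · rw [if_neg hO]
      have hex : ∃ k ∈ K p, (σ (-k)).val + (σ k).val < p := by
        by_contra hcon
        push Not at hcon
        have e1 : ∑ j : ZMod p, (σ j).val = ∑ j : ZMod p, j.val :=
          Equiv.sum_comp σ (fun j => j.val)
        rw [sum_split hp, sum_split hp, h0, ZMod.val_zero, zero_add, zero_add] at e1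
        have e2 : ∑ k ∈ K p, (k.val + (-k).val) = ∑ k ∈ K p, p := by
          refine sum_congr rfl (fun k hk => ?_)
          rw [ZMod.neg_val, if_neg (K_ne hk)]
          have := ZMod.val_lt k
          omega
        have e3 : ∀ k ∈ K p, p ≤ (σ k).val + (σ (-k)).val := by
          intro k hk
          have := hcon k hk
          omega
        have e4 := (sum_eq_sum_iff_of_le e3).mp (by rw [e1, e2])
        apply hO
        rw [mem_O]
        have e5 : ∀ k ∈ K p, σ (-k) = - σ k := by
          intro k hk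
          have h5 := e4 k hk
          have h6 : (((σ k).val + (σ (-k)).val : ℕ) : ZMod p) = ((p : ℕ) : ZMod p) := by
            rw [← h5]
          rw [Nat.cast_add, ZMod.natCast_zmod_val, ZMod.natCast_zmod_val, ZMod.natCast_self] at h6
          linear_combination h6
        intro k
        by_cases hk0 : k = 0
        · rw [hk0, neg_zero, h0, neg_zero]
        · by_cases hk : k ∈ K p
          · exact e5 k hk
          · have h7 := e5 _ (K_or hp hk0 hk)
            rw [neg_neg] at h7
            rw [h7, neg_neg]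
      obtain ⟨k, hk, hlt⟩ := hex
      rw [prod_eq_zero hk, mul_zero]
      obtain ⟨b1, b2⟩ := hval k (K_ne hk)
      obtain ⟨a1, a2⟩ := hval (-k) (neg_ne_zero.mpr (K_ne hk))
      exact A_zero _ _ k a1 a2 b1 b2 (hne k hk) hlt
  rw [sum_congr rfl (fun σ _ => h2 σ), sum_ite_mem, univ_inter, sum_const, nsmul_eq_mul]

theorem starter_ne_zero (p : ℕ) [Fact p.Prime] (hp : p ≠ 2) :
    ¬ ((p : ℤ) ∣ ∑ φ ∈ Finset.univ.filter
      (fun φ : Equiv.Perm (ZMod p) => φ 0 = 0 ∧ ∀ k, φ k = k + φ (-k)),
      ((Equiv.Perm.sign φ : ℤˣ) : ℤ)) := by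
  intro h
  rw [← ZMod.intCast_zmod_eq_zero_iff_dvd] at h
  have h2 : (∑ φ ∈ univ.filter (fun φ : Perm (ZMod p) => φ 0 = 0 ∧ ∀ k, φ k = k + φ (-k)),
      ((Perm.sign φ : ℤˣ) : ZMod p)) = 0 := by
    rw [Int.cast_sum] at h
    exact h
  have h3 := main_identity hp
  rw [h2, zero_mul, mul_zero] at h3
  have h4 : ∏ k ∈ K p, (-(2 * (k * k))) ≠ 0 := by
    rw [prod_ne_zero_iff]
    intro k hk
    exact neg_ne_zero.mpr (mul_ne_zero (two_ne hp) (mul_ne_zero (K_ne hk) (K_ne hk)))
  exact mul_ne_zero (card_O hp) h4 h3.symm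

end Pool.Agent.Helper56.Starter
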