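import Pool.Agent.Helper56.TSI

set_option autoImplicit false

open MeasureTheory Set Filter Topology
open scoped ENNReal symmDiff

namespace Pool.Agent.Helper56.Torus

open Cat Cat.PS

/-- The infinite dimensional torus. -/
abbrev K : Type := ℕ → Circle

noncomputable instance : MeasurableSpace Circle := borel _
instance : BorelSpace Circle := ⟨rfl⟩

/-- The Haar probability measure. -/
noncomputable def lam : Measure K := Measure.haarMeasure ⊤

instance : lam.IsHaarMeasure := inferInstanceAs (Measure.haarMeasure ⊤).IsHaarMeasure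

instance : IsProbabilityMeasure lam := ⟨by
  have := Measure.haarMeasure_self (K₀ := (⊤ : TopologicalSpace.PositiveCompacts K))
  exact this⟩

instance : StandardBorelSpace K := inferInstance

instance : Nontrivial Circle := ⟨1, -1, by
  intro h
  have := congrArg (fun z : Circle => (z : ℂ)) h
  simp at this
  have h2 := congrArg Complex.re this
  norm_num at h2⟩

lemma lam_singleton (y : K) : lam {y} = 0 := by
  have : NullSingletonClass lam := inferInstance
  exact measure_singleton y

/-- All high powers of a small arc cover the circle. -/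
lemma eventually_pow (z : Circle) {U : Set Circle} (hU : U ∈ 𝓝 z) :
    ∀ᶠ n : ℕ in atTop, ∀ v : Circle, ∃ w ∈ U, w ^ n = v := by
  have h1 : Tendsto (fun t : ℝ => z * Circle.exp t) (𝓝 0) (𝓝 z) := by
    have : Continuous (fun t : ℝ => z * Circle.exp t) := by fun_prop
    simpa using this.tendsto 0
  have h2 := h1 hU
  rw [Filter.mem_map, Metric.mem_nhds_iff] at h2
  obtain ⟨ε, hε, hb⟩ := h2
  obtain ⟨N, hN⟩ := exists_nat_gt (Real.pi / ε)
  filter_upwards [eventually_ge_atTop (N + 1)] with n hn v
  have hn0 : (0 : ℝ) < n := by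
    have : (0 : ℕ) < n := by omega
    exact_mod_cast this
  set s : ℝ := Complex.arg ((v * (z ^ n)⁻¹ : Circle) : ℂ) with hs
  have hexp : Circle.exp s = v * (z ^ n)⁻¹ := Circle.exp_arg _
  have hsπ : |s| ≤ Real.pi := Complex.abs_arg_le_pi _
  refine ⟨z * Circle.exp (s / n), hb ?_, ?_⟩
  · rw [Metric.mem_ball, dist_zero_right, Real.norm_eq_abs, abs_div, abs_of_pos hn0]
    rw [div_lt_iff₀ hn0]
    have h3 : (N : ℝ) < n := by exact_mod_cast (by omega : N < n)
    have h4 : Real.pi / ε < n := hN.trans h3
    rw [div_lt_iff₀ hε] at h4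
    linarith
  · have h5 : Circle.exp (s / n) ^ n = Circle.exp s := by
      rw [← Circle.exp_nsmul]
      congr 1
      rw [nsmul_eq_mul]
      field_simp
    rw [mul_pow, h5, hexp, mul_comm v, mul_inv_cancel_left]

lemma eventually_pow_K (z : K) {U : Set K} (hU : U ∈ 𝓝 z) :
    ∀ᶠ n : ℕ in atTop, ∀ v : K, ∃ w ∈ U, w ^ n = v := by
  classical
  rw [nhds_pi, Filter.mem_pi] at hU
  obtain ⟨I, hI, s, hs, hsU⟩ := hU
  have h1 : ∀ i ∈ I, ∀ᶠ n : ℕ in atTop, ∀ v : Circle, ∃ w ∈ s i, w ^ n = v :=
    fun i _ => eventually_pow (z i) (hs i)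
  have h2 := (eventually_all_finite hI).2 h1
  have h3 : ∀ᶠ n : ℕ in atTop, ∀ v : Circle, ∃ w ∈ (univ : Set Circle), w ^ n = v :=
    eventually_pow 1 univ_mem
  filter_upwards [h2, h3] with n h2 h3 v
  have h4 : ∀ i, ∃ w : Circle, (i ∈ I → w ∈ s i) ∧ w ^ n = v i := by
    intro i
    by_cases hi : i ∈ I
    · obtain ⟨w, hw, hw'⟩ := h2 i hi (v i)
      exact ⟨w, fun _ => hw, hw'⟩
    · obtain ⟨w, hw, hw'⟩ := h3 (v i)
      exact ⟨w, fun h => absurd h hi, hw'⟩
  choose w hw hw' using h4
  exact ⟨w, hsU (fun i hi => hw i hi), funext hw'⟩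

/-- The generators of the torus. -/
def D : Set K := {z | DenseRange (fun n : ℕ => z ^ n)}

lemma D_eq : D = ⋂ V ∈ {V ∈ TopologicalSpace.countableBasis K | V.Nonempty},
    {z : K | ∃ n : ℕ, z ^ n ∈ V} := by
  ext z
  simp only [mem_iInter]
  constructor
  · intro hz V hV
    obtain ⟨n, hn⟩ := DenseRange.exists_mem_open hz
      (TopologicalSpace.isOpen_of_mem_countableBasis hV.1) hV.2
    exact ⟨n, hn⟩
  · intro h
    show Dense (range _)
    rw [(TopologicalSpace.isBasis_countableBasis K).dense_iff]
    intro V hV hne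
    obtain ⟨n, hn⟩ := h V ⟨hV, hne⟩
    exact ⟨z ^ n, hn, ⟨n, rfl⟩⟩

lemma isOpen_pow_mem {V : Set K} (hV : IsOpen V) : IsOpen {z : K | ∃ n : ℕ, z ^ n ∈ V} := by
  have : {z : K | ∃ n : ℕ, z ^ n ∈ V} = ⋃ n : ℕ, {z : K | z ^ n ∈ V} := by
    ext z; simp
  rw [this]
  exact isOpen_iUnion (fun n => hV.preimage (continuous_pow n))

lemma countable_basis_ne :
    {V ∈ TopologicalSpace.countableBasis K | V.Nonempty}.Countable :=
  (TopologicalSpace.countable_countableBasis K).mono (fun _ h => h.1)

lemma measurableSet_D : MeasurableSet D := by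
  rw [D_eq]
  apply MeasurableSet.biInter countable_basis_ne
  intro V hV
  exact (isOpen_pow_mem (TopologicalSpace.isOpen_of_mem_countableBasis hV.1)).measurableSet

lemma D_residual : D ∈ residual K := by
  rw [D_eq, countable_bInter_mem countable_basis_ne]
  intro V hV
  have hVo := TopologicalSpace.isOpen_of_mem_countableBasis hV.1
  apply residual_of_dense_open (isOpen_pow_mem hVo)
  rw [dense_iff_inter_open]
  intro U hU hUne
  obtain ⟨z, hz⟩ := hUne
  obtain ⟨v, hv⟩ := hV.2
  obtain ⟨n, hn⟩ := (eventually_pow_K z (hU.mem_nhds hz)).exists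
  obtain ⟨w, hw, hwv⟩ := hn v
  exact ⟨w, hw, n, by rw [hwv]; exact hv⟩

/-- Reindexing along an injection. -/
lemma D_comp {z : K} (hz : z ∈ D) {u : ℕ → ℕ} (hu : Function.Injective u) :
    (fun n => z (u n)) ∈ D := by
  have h1 : Continuous (fun z : K => (fun n => z (u n) : K)) :=
    continuous_pi (fun n => continuous_apply _)
  have h2 : Function.Surjective (fun z : K => (fun n => z (u n) : K)) := by
    intro y
    classical
    refine ⟨fun m => if h : ∃ n, u n = m then y h.choose else 1, ?_⟩
    funext n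
    have h : ∃ n', u n' = u n := ⟨n, rfl⟩
    simp only [h, dif_pos]
    congr 1
    exact hu h.choose_spec
  exact h2.denseRange.comp hz h1

lemma D_act {z : K} (hz : z ∈ D) (g : PS) : act z g ∈ D := D_comp hz g.ev_inj

lemma D_dbl {z : K} (hz : z ∈ D) : dbl z ∈ D :=
  D_comp hz (u := fun n => 2 * n) (fun a b h => by simpa using h)

/-- Generically every open set is visited infinitely often. -/
lemma io_residual {Z : Type*} [TopologicalSpace Z] [SecondCountableTopology Z] [Nonempty Z] :
    {z : ℕ → Z | ∀ V : Set Z, IsOpen V → V.Nonempty → ∀ k, ∃ j ≥ k, z j ∈ V} ∈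
      residual (ℕ → Z) := by
  classical
  have hc : {V ∈ TopologicalSpace.countableBasis Z | V.Nonempty}.Countable :=
    (TopologicalSpace.countable_countableBasis Z).mono (fun _ h => h.1)
  have key : (⋂ V ∈ {V ∈ TopologicalSpace.countableBasis Z | V.Nonempty}, ⋂ k : ℕ,
      {z : ℕ → Z | ∃ j ≥ k, z j ∈ V}) ∈ residual (ℕ → Z) := by
    rw [countable_bInter_mem hc]
    intro V hV
    rw [countable_iInter_mem]
    intro k
    have hVo := TopologicalSpace.isOpen_of_mem_countableBasis hV.1
    apply residual_of_dense_open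
    · have : {z : ℕ → Z | ∃ j ≥ k, z j ∈ V} = ⋃ j : ℕ, ⋃ _ : j ≥ k, {z : ℕ → Z | z j ∈ V} := by
        ext z; simp
      rw [this]
      exact isOpen_iUnion (fun j => isOpen_iUnion (fun _ => hVo.preimage (continuous_apply j)))
    · rw [dense_iff_inter_open]
      intro U hU hUne
      obtain ⟨z, hz⟩ := hUne
      obtain ⟨v, hv⟩ := hV.2
      have h1 := hU.mem_nhds hz
      rw [nhds_pi, Filter.mem_pi] at h1
      obtain ⟨I, hI, s, hs, hsU⟩ := h1
      obtain ⟨b, hb⟩ := hI.bddAbove
      refine ⟨Function.update z (k + b + 1) v, hsU ?_, k + b + 1, by omega, by simpa using hv⟩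
      intro i hi
      have : i ≠ k + b + 1 := by
        have := hb hi
        omega
      rw [Function.update_of_ne this]
      exact mem_of_mem_nhds (hs i)
  filter_upwards [key] with z hz V hV hVne k
  simp only [mem_iInter] at hz
  obtain ⟨v, hv⟩ := hVne
  obtain ⟨W, hW, hvW, hWV⟩ :=
    (TopologicalSpace.isBasis_countableBasis Z).exists_subset_of_mem_open hv hV
  obtain ⟨j, hj, hjW⟩ := hz W ⟨hW, ⟨v, hvW⟩⟩ k
  exact ⟨j, hj, hWV hjW⟩

/-- Multiplication by `z` preserves the measure. -/
lemma mp_mul (z : K) : MeasurePreserving (fun u => z * u) lam lam :=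
  measurePreserving_mul_left lam z

lemma continuous_mulMap {G : Type*} [Group G] [TopologicalSpace G] [IsTopologicalGroup G] :
    Continuous (fun z : G => (⟨fun u => z * u, continuous_const_mul z⟩ : C(G, G))) := by
  apply ContinuousMap.continuous_of_continuous_uncurry
  exact continuous_mul

/-- Continuity of translates, in a general group. -/
lemma tendsto_mul_aux {G α : Type*} [Group G] [TopologicalSpace G] [IsTopologicalGroup G]
    [MeasurableSpace G] [BorelSpace G] [MeasurableMul G] {μ : Measure G} [IsFiniteMeasure μ]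
    [μ.InnerRegularCompactLTTop] [μ.IsMulLeftInvariant] {l : Filter α} {z : α → G} {w : G}
    (hz : Tendsto z l (𝓝 w)) {A : Set G} (hA : MeasurableSet A) :
    Tendsto (fun k => μ (((fun u => z k * u) ⁻¹' A) ∆ ((fun u => w * u) ⁻¹' A))) l (𝓝 0) := by
  have h1 := (continuous_mulMap.tendsto w).comp hz
  have h2 : ∀ z : G, MeasurePreserving (fun u => z * u) μ μ :=
    fun z => measurePreserving_mul_left μ z
  have h3 := tendsto_measure_symmDiff_preimage_nhds_zero (μ := μ) (ν := μ) (s := A) h1
    (Eventually.of_forall (fun k => h2 (z k)))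
    (h2 w) hA.nullMeasurableSet (measure_ne_top _ _)
  exact h3

/-- Continuity of translates. -/
lemma tendsto_mul {α : Type*} {l : Filter α} {z : α → K} {w : K} (hz : Tendsto z l (𝓝 w))
    {A : Set K} (hA : MeasurableSet A) :
    Tendsto (fun k => lam (((fun u => z k * u) ⁻¹' A) ∆ ((fun u => w * u) ⁻¹' A))) l (𝓝 0) :=
  tendsto_mul_aux hz hA

lemma ergodic_mul {z : K} (hz : z ∈ D) : Ergodic (fun u => z * u) lam :=
  ergodic_mul_left_of_denseRange_pow hz lam

/-- The coordinate permutation as a homomorphism. -/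
def actHom (g : PS) : K →* K where
  toFun := fun u => act u g
  map_one' := rfl
  map_mul' := fun _ _ => rfl

lemma mp_act (g : PS) : MeasurePreserving (fun u : K => act u g) lam lam := by
  have h1 : Continuous (actHom g) := (actH (Z := Circle) g).continuous
  have h2 : Function.Surjective (actHom g) := (actH (Z := Circle) g).surjective
  exact MonoidHom.measurePreserving h1 h2 rfl

end Pool.Agent.Helper56.Torus
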